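import Pool.Agent.Lib.MP_df705a_gt.Coll.Defs

/-!
# The parametrizations given by a trivialization
-/

open scoped Manifold ContDiff Topology
open Set Bundle Module Filter MeasureTheory

noncomputable section

namespace Pool.Agent.Lib.MP_df705a_gt.Coll

open Pool.Agent.Lib.MP_df705a_gt.Twist Pool.Agent.Lib.MP_df705a_gt.Perm
open Pool.Agent.Lib.MP_df705a_gt.Circ (Horizontal Submersion cf Para HorConf)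
open Pool.Agent.Lib.MP_df705a_gt.Fib (RiemSub Biconformal)

variable {E₁ : Type*} [NormedAddCommGroup E₁] [NormedSpace ℝ E₁] [FiniteDimensional ℝ E₁]
  {B : Type*} [TopologicalSpace B] [ChartedSpace E₁ B] [IsManifold 𝓘(ℝ, E₁) ∞ B]
  {E₂ : Type*} [NormedAddCommGroup E₂] [NormedSpace ℝ E₂] [FiniteDimensional ℝ E₂]
  {F : Type*} [TopologicalSpace F] [ChartedSpace E₂ F] [IsManifold 𝓘(ℝ, E₂) ∞ F]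
  {E : Type*} [NormedAddCommGroup E] [NormedSpace ℝ E] [FiniteDimensional ℝ E]
  {M : Type*} [TopologicalSpace M] [ChartedSpace E M] [IsManifold 𝓘(ℝ, E) ∞ M]

namespace PsiAux

omit [FiniteDimensional ℝ E₁] in
theorem symm_bij (z : B) {a : E₁} (ha : a ∈ (extChartAt 𝓘(ℝ, E₁) z).target) :
    Function.Bijective (mfderiv 𝓘(ℝ, E₁) 𝓘(ℝ, E₁) (extChartAt 𝓘(ℝ, E₁) z).symm a) := by
  have h1 := isInvertible_mfderivWithin_extChartAt_symm (I := 𝓘(ℝ, E₁)) (x := z) ha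
  rw [ModelWithCorners.range_eq_univ, mfderivWithin_univ] at h1
  exact h1.bijective

/-- the product of the inverse charts -/
def cc (E₁ E₂ : Type*) [NormedAddCommGroup E₁] [NormedSpace ℝ E₁] [NormedAddCommGroup E₂]
    [NormedSpace ℝ E₂] {B : Type*} [TopologicalSpace B] [ChartedSpace E₁ B] {F : Type*}
    [TopologicalSpace F] [ChartedSpace E₂ F] (x : B) (y : F) (q : E₁ × E₂) : B × F :=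
  ((extChartAt 𝓘(ℝ, E₁) x).symm q.1, (extChartAt 𝓘(ℝ, E₂) y).symm q.2)

/-- the good points -/
def Good (x : B) (y : F) (U : Set B) (q : E₁ × E₂) : Prop :=
  q.1 ∈ (extChartAt 𝓘(ℝ, E₁) x).target ∧ (extChartAt 𝓘(ℝ, E₁) x).symm q.1 ∈ U ∧
    q.2 ∈ (extChartAt 𝓘(ℝ, E₂) y).target

omit [FiniteDimensional ℝ E₁] [FiniteDimensional ℝ E₂] [IsManifold 𝓘(ℝ, E₁) ∞ B]
  [IsManifold 𝓘(ℝ, E₂) ∞ F] in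
theorem good_ev (x : B) (y : F) {U : Set B} (hU : IsOpen U) (hx : x ∈ U) :
    ∀ᶠ q in 𝓝 ((extChartAt 𝓘(ℝ, E₁) x x, extChartAt 𝓘(ℝ, E₂) y y) : E₁ × E₂),
      Good x y U q := by
  have h1 : ∀ᶠ a in 𝓝 (extChartAt 𝓘(ℝ, E₁) x x), a ∈ (extChartAt 𝓘(ℝ, E₁) x).target ∧
      (extChartAt 𝓘(ℝ, E₁) x).symm a ∈ U := by
    have h2 : ∀ᶠ a in 𝓝 (extChartAt 𝓘(ℝ, E₁) x x), a ∈ (extChartAt 𝓘(ℝ, E₁) x).target :=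
      (isOpen_extChartAt_target (I := 𝓘(ℝ, E₁)) x).mem_nhds (mem_extChartAt_target x)
    have h3 : ContinuousAt (extChartAt 𝓘(ℝ, E₁) x).symm (extChartAt 𝓘(ℝ, E₁) x x) :=
      continuousAt_extChartAt_symm x
    have h4 : U ∈ 𝓝 ((extChartAt 𝓘(ℝ, E₁) x).symm (extChartAt 𝓘(ℝ, E₁) x x)) := by
      rw [extChartAt_to_inv]
      exact hU.mem_nhds hx
    exact h2.and (h3.eventually h4)
  have h5 : ∀ᶠ b in 𝓝 (extChartAt 𝓘(ℝ, E₂) y y), b ∈ (extChartAt 𝓘(ℝ, E₂) y).target :=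
    (isOpen_extChartAt_target (I := 𝓘(ℝ, E₂)) y).mem_nhds (mem_extChartAt_target y)
  have h6 := h1.prod_nhds h5
  filter_upwards [h6] with q hq
  exact ⟨hq.1.1, hq.1.2, hq.2⟩

omit [FiniteDimensional ℝ E₁] [FiniteDimensional ℝ E₂] in
theorem symm_smooth (x : B) {a : E₁} (ha : a ∈ (extChartAt 𝓘(ℝ, E₁) x).target) :
    ContMDiffAt 𝓘(ℝ, E₁) 𝓘(ℝ, E₁) ∞ (extChartAt 𝓘(ℝ, E₁) x).symm a :=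
  (contMDiffOn_extChartAt_symm x).contMDiffAt ((isOpen_extChartAt_target x).mem_nhds ha)

omit [FiniteDimensional ℝ E₁] [FiniteDimensional ℝ E₂] in
theorem cc_smooth {x : B} {y : F} {U : Set B} {q : E₁ × E₂} (hq : Good x y U q) :
    ContMDiffAt 𝓘(ℝ, E₁ × E₂) (𝓘(ℝ, E₁).prod 𝓘(ℝ, E₂)) ∞ (cc E₁ E₂ x y) q := by
  have h1 : ContMDiffAt 𝓘(ℝ, E₁ × E₂) 𝓘(ℝ, E₁) ∞
      (fun q : E₁ × E₂ => (extChartAt 𝓘(ℝ, E₁) x).symm q.1) q :=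
    ContMDiffAt.comp q (g := (extChartAt 𝓘(ℝ, E₁) x).symm) (f := Prod.fst)
      (symm_smooth x hq.1) (contDiff_fst.contMDiff q)
  have h2 : ContMDiffAt 𝓘(ℝ, E₁ × E₂) 𝓘(ℝ, E₂) ∞
      (fun q : E₁ × E₂ => (extChartAt 𝓘(ℝ, E₂) y).symm q.2) q :=
    ContMDiffAt.comp q (g := (extChartAt 𝓘(ℝ, E₂) y).symm) (f := Prod.snd)
      (symm_smooth y hq.2.2) (contDiff_snd.contMDiff q)
  exact h1.prodMk h2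

omit [FiniteDimensional ℝ E₁] [FiniteDimensional ℝ E₂] in
theorem cc_deriv {x : B} {y : F} {U : Set B} {q : E₁ × E₂} (hq : Good x y U q)
    (v : E₁ × E₂) :
    (mfderiv 𝓘(ℝ, E₁ × E₂) (𝓘(ℝ, E₁).prod 𝓘(ℝ, E₂)) (cc E₁ E₂ x y) q : E₁ × E₂ →L[ℝ] E₁ × E₂) v =
      ((mfderiv 𝓘(ℝ, E₁) 𝓘(ℝ, E₁) (extChartAt 𝓘(ℝ, E₁) x).symm q.1 : E₁ →L[ℝ] E₁) v.1,
        (mfderiv 𝓘(ℝ, E₂) 𝓘(ℝ, E₂) (extChartAt 𝓘(ℝ, E₂) y).symm q.2 : E₂ →L[ℝ] E₂) v.2) := by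
  have h1 : HasMFDerivAt 𝓘(ℝ, E₁) 𝓘(ℝ, E₁) (extChartAt 𝓘(ℝ, E₁) x).symm q.1
      (mfderiv 𝓘(ℝ, E₁) 𝓘(ℝ, E₁) (extChartAt 𝓘(ℝ, E₁) x).symm q.1) :=
    ((symm_smooth x hq.1).mdifferentiableAt (by simp)).hasMFDerivAt
  have h2 : HasMFDerivAt 𝓘(ℝ, E₂) 𝓘(ℝ, E₂) (extChartAt 𝓘(ℝ, E₂) y).symm q.2
      (mfderiv 𝓘(ℝ, E₂) 𝓘(ℝ, E₂) (extChartAt 𝓘(ℝ, E₂) y).symm q.2) :=
    ((symm_smooth y hq.2.2).mdifferentiableAt (by simp)).hasMFDerivAt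
  have h3 : HasMFDerivAt 𝓘(ℝ, E₁ × E₂) 𝓘(ℝ, E₁) (Prod.fst : E₁ × E₂ → E₁) q
      (ContinuousLinearMap.fst ℝ E₁ E₂) := (hasFDerivAt_fst (p := q)).hasMFDerivAt
  have h4 : HasMFDerivAt 𝓘(ℝ, E₁ × E₂) 𝓘(ℝ, E₂) (Prod.snd : E₁ × E₂ → E₂) q
      (ContinuousLinearMap.snd ℝ E₁ E₂) := (hasFDerivAt_snd (p := q)).hasMFDerivAt
  have h5 := (h1.comp q h3).prodMk (h2.comp q h4)
  have h6 := h5.mfderiv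
  have h7 := congrArg (fun L : E₁ × E₂ →L[ℝ] E₁ × E₂ => L v) h6
  exact h7

theorem phi_smooth {pr : M → B} {U : Set B} {Φ : B × F → M} (hΦ : Triv E E₁ E₂ pr U Φ) {x' : B}
    (hx : x' ∈ U) (y' : F) :
    ContMDiffAt (𝓘(ℝ, E₁).prod 𝓘(ℝ, E₂)) 𝓘(ℝ, E) ∞ Φ (x', y') :=
  hΦ.smooth.contMDiffAt ((hΦ.isOpen.prod isOpen_univ).mem_nhds ⟨hx, mem_univ _⟩)

theorem psi_deriv {pr : M → B} {U : Set B} {Φ : B × F → M} (hΦ : Triv E E₁ E₂ pr U Φ) {x : B}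
    {y : F} {q : E₁ × E₂} (hq : Good x y U q) (v : E₁ × E₂) :
    (mfderiv 𝓘(ℝ, E₁ × E₂) 𝓘(ℝ, E) (psi E₁ E₂ Φ x y) q : E₁ × E₂ →L[ℝ] E) v =
      (mfderiv (𝓘(ℝ, E₁).prod 𝓘(ℝ, E₂)) 𝓘(ℝ, E) Φ (cc E₁ E₂ x y q) : E₁ × E₂ →L[ℝ] E)
        ((mfderiv 𝓘(ℝ, E₁) 𝓘(ℝ, E₁) (extChartAt 𝓘(ℝ, E₁) x).symm q.1 : E₁ →L[ℝ] E₁) v.1,
        (mfderiv 𝓘(ℝ, E₂) 𝓘(ℝ, E₂) (extChartAt 𝓘(ℝ, E₂) y).symm q.2 : E₂ →L[ℝ] E₂) v.2) := by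
  have h1 : MDifferentiableAt (𝓘(ℝ, E₁).prod 𝓘(ℝ, E₂)) 𝓘(ℝ, E) Φ (cc E₁ E₂ x y q) :=
    (phi_smooth hΦ hq.2.1 _).mdifferentiableAt (by simp)
  have h2 : MDifferentiableAt 𝓘(ℝ, E₁ × E₂) (𝓘(ℝ, E₁).prod 𝓘(ℝ, E₂)) (cc E₁ E₂ x y) q :=
    (cc_smooth hq).mdifferentiableAt (by simp)
  have h3 : mfderiv 𝓘(ℝ, E₁ × E₂) 𝓘(ℝ, E) (Φ ∘ cc E₁ E₂ x y) q =
      (mfderiv (𝓘(ℝ, E₁).prod 𝓘(ℝ, E₂)) 𝓘(ℝ, E) Φ (cc E₁ E₂ x y q)).comp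
        (mfderiv 𝓘(ℝ, E₁ × E₂) (𝓘(ℝ, E₁).prod 𝓘(ℝ, E₂)) (cc E₁ E₂ x y) q) := mfderiv_comp q h1 h2
  have h4 := congrArg (fun L : E₁ × E₂ →L[ℝ] E => L v) h3
  have h5 := cc_deriv hq v
  have h6 : (mfderiv 𝓘(ℝ, E₁ × E₂) 𝓘(ℝ, E) (psi E₁ E₂ Φ x y) q : E₁ × E₂ →L[ℝ] E) v =
      (mfderiv (𝓘(ℝ, E₁).prod 𝓘(ℝ, E₂)) 𝓘(ℝ, E) Φ (cc E₁ E₂ x y q) : E₁ × E₂ →L[ℝ] E)
        ((mfderiv 𝓘(ℝ, E₁ × E₂) (𝓘(ℝ, E₁).prod 𝓘(ℝ, E₂)) (cc E₁ E₂ x y) q :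
          E₁ × E₂ →L[ℝ] E₁ × E₂) v) := h4
  rw [h5] at h6
  exact h6

theorem psi_para {pr : M → B} {U : Set B} {Φ : B × F → M} (hΦ : Triv E E₁ E₂ pr U Φ) {x : B}
    {y : F} {q : E₁ × E₂} (hq : Good x y U q) : Para E (psi E₁ E₂ Φ x y) q := by
  refine ⟨?_, ?_⟩
  · exact ContMDiffAt.comp q (g := Φ) (f := cc E₁ E₂ x y) (phi_smooth hΦ hq.2.1 _) (cc_smooth hq)
  · have hA := symm_bij x hq.1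
    have hB := symm_bij y hq.2.2
    have hC := hΦ.bij _ hq.2.1 ((extChartAt 𝓘(ℝ, E₂) y).symm q.2)
    have hprod : Function.Bijective (fun v : E₁ × E₂ =>
        (((mfderiv 𝓘(ℝ, E₁) 𝓘(ℝ, E₁) (extChartAt 𝓘(ℝ, E₁) x).symm q.1 : E₁ →L[ℝ] E₁) v.1,
        (mfderiv 𝓘(ℝ, E₂) 𝓘(ℝ, E₂) (extChartAt 𝓘(ℝ, E₂) y).symm q.2 : E₂ →L[ℝ] E₂) v.2) :
          E₁ × E₂)) := Function.Bijective.prodMap hA hB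
    have h1 := Function.Bijective.comp hC hprod
    have e : (fun v : E₁ × E₂ =>
        (mfderiv 𝓘(ℝ, E₁ × E₂) 𝓘(ℝ, E) (psi E₁ E₂ Φ x y) q : E₁ × E₂ →L[ℝ] E) v) =
        fun v => (mfderiv (𝓘(ℝ, E₁).prod 𝓘(ℝ, E₂)) 𝓘(ℝ, E) Φ (cc E₁ E₂ x y q) :
          E₁ × E₂ →L[ℝ] E)
        ((mfderiv 𝓘(ℝ, E₁) 𝓘(ℝ, E₁) (extChartAt 𝓘(ℝ, E₁) x).symm q.1 : E₁ →L[ℝ] E₁) v.1,
        (mfderiv 𝓘(ℝ, E₂) 𝓘(ℝ, E₂) (extChartAt 𝓘(ℝ, E₂) y).symm q.2 : E₂ →L[ℝ] E₂) v.2) := by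
      funext v
      exact psi_deriv hΦ hq v
    have h2 : Function.Bijective (fun v : E₁ × E₂ =>
        (mfderiv 𝓘(ℝ, E₁ × E₂) 𝓘(ℝ, E) (psi E₁ E₂ Φ x y) q : E₁ × E₂ →L[ℝ] E) v) := by
      rw [e]
      exact h1
    exact h2

end PsiAux

theorem ac_psi {pr : M → B} {U : Set B} {Φ : B × F → M} (hΦ : Triv E E₁ E₂ pr U Φ) {x : B}
    (hx : x ∈ U) (y : F) : Fib.AC E pr (psi E₁ E₂ Φ x y) (pt E₁ E₂ x y x y) x := by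
  have hg := PsiAux.good_ev (E₁ := E₁) (E₂ := E₂) x y hΦ.isOpen hx
  refine ⟨?_, ?_, ?_⟩
  · filter_upwards [hg] with q hq
    exact PsiAux.psi_para hΦ hq
  · filter_upwards [hg] with q hq
    have h1 : pr (psi E₁ E₂ Φ x y q) = (extChartAt 𝓘(ℝ, E₁) x).symm q.1 :=
      hΦ.proj _ hq.2.1 _
    rw [h1]
    exact (extChartAt 𝓘(ℝ, E₁) x).map_target hq.1
  · filter_upwards [hg] with q hq
    have h1 : pr (psi E₁ E₂ Φ x y q) = (extChartAt 𝓘(ℝ, E₁) x).symm q.1 :=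
      hΦ.proj _ hq.2.1 _
    rw [h1]
    exact (extChartAt 𝓘(ℝ, E₁) x).right_inv hq.1

theorem fm_psi {pr : M → B} {U : Set B} {Φ : B × F → M} (hΦ : Triv E E₁ E₂ pr U Φ) {x : B}
    (hx : x ∈ U) {g : Met E M} {h : Met E₂ F} (hh : IsFib g Φ x h) (y : F) :
    ∀ᶠ z in 𝓝 (extChartAt 𝓘(ℝ, E₂) y y),
      Fib.fm g (psi E₁ E₂ Φ x y) (extChartAt 𝓘(ℝ, E₁) x x, z) = coeff h y z := by
  have hy : ∀ᶠ b in 𝓝 (extChartAt 𝓘(ℝ, E₂) y y), b ∈ (extChartAt 𝓘(ℝ, E₂) y).target :=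
    (isOpen_extChartAt_target (I := 𝓘(ℝ, E₂)) y).mem_nhds (mem_extChartAt_target y)
  filter_upwards [hy] with z hz
  have hxx : (extChartAt 𝓘(ℝ, E₁) x).symm (extChartAt 𝓘(ℝ, E₁) x x) = x :=
    extChartAt_to_inv (I := 𝓘(ℝ, E₁)) x
  have hq : PsiAux.Good x y U ((extChartAt 𝓘(ℝ, E₁) x x, z) : E₁ × E₂) :=
    ⟨mem_extChartAt_target x, by rw [hxx]; exact hx, hz⟩
  have hcc : PsiAux.cc E₁ E₂ x y (extChartAt 𝓘(ℝ, E₁) x x, z) =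
      (x, (extChartAt 𝓘(ℝ, E₂) y).symm z) := by
    unfold PsiAux.cc
    rw [hxx]
  -- the derivative in the direction of the fibre
  have hfib : ∀ w : E₂, (mfderiv 𝓘(ℝ, E₁ × E₂) 𝓘(ℝ, E) (psi E₁ E₂ Φ x y)
        (extChartAt 𝓘(ℝ, E₁) x x, z) : E₁ × E₂ →L[ℝ] E) (0, w) =
      (mfderiv 𝓘(ℝ, E₂) 𝓘(ℝ, E) (fun y => Φ (x, y)) ((extChartAt 𝓘(ℝ, E₂) y).symm z) :
        E₂ →L[ℝ] E)
        ((mfderiv 𝓘(ℝ, E₂) 𝓘(ℝ, E₂) (extChartAt 𝓘(ℝ, E₂) y).symm z : E₂ →L[ℝ] E₂) w) := by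
    intro w
    have h1 := PsiAux.psi_deriv hΦ hq ((0, w) : E₁ × E₂)
    rw [hcc] at h1
    rw [h1]
    set y' := (extChartAt 𝓘(ℝ, E₂) y).symm z with hy'
    have h2 : MDifferentiableAt (𝓘(ℝ, E₁).prod 𝓘(ℝ, E₂)) 𝓘(ℝ, E) Φ (x, y') :=
      (PsiAux.phi_smooth hΦ hx y').mdifferentiableAt (by simp)
    have h3 : HasMFDerivAt 𝓘(ℝ, E₂) (𝓘(ℝ, E₁).prod 𝓘(ℝ, E₂)) (fun y : F => (x, y)) y'
        ((0 : E₂ →L[ℝ] E₁).prod (ContinuousLinearMap.id ℝ E₂)) :=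
      (hasMFDerivAt_const (I := 𝓘(ℝ, E₂)) (I' := 𝓘(ℝ, E₁)) x y').prodMk (hasMFDerivAt_id y')
    have h4 := (h2.hasMFDerivAt.comp y' h3).mfderiv
    have h5 := congrArg (fun L : E₂ →L[ℝ] E =>
      L ((mfderiv 𝓘(ℝ, E₂) 𝓘(ℝ, E₂) (extChartAt 𝓘(ℝ, E₂) y).symm z : E₂ →L[ℝ] E₂) w)) h4
    have h6 : (mfderiv 𝓘(ℝ, E₁) 𝓘(ℝ, E₁) (extChartAt 𝓘(ℝ, E₁) x).symm
        (extChartAt 𝓘(ℝ, E₁) x x) : E₁ →L[ℝ] E₁) 0 = 0 := map_zero _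
    show (mfderiv (𝓘(ℝ, E₁).prod 𝓘(ℝ, E₂)) 𝓘(ℝ, E) Φ (x, y') : E₁ × E₂ →L[ℝ] E)
      ((mfderiv 𝓘(ℝ, E₁) 𝓘(ℝ, E₁) (extChartAt 𝓘(ℝ, E₁) x).symm
        (extChartAt 𝓘(ℝ, E₁) x x) : E₁ →L[ℝ] E₁) 0, _) = _
    rw [h6]
    exact h5.symm
  ext i j
  have e1 := hfib (finBasis ℝ E₂ i)
  have e2 := hfib (finBasis ℝ E₂ j)
  have hp : psi E₁ E₂ Φ x y (extChartAt 𝓘(ℝ, E₁) x x, z) =
      Φ (x, (extChartAt 𝓘(ℝ, E₂) y).symm z) := congrArg Φ hcc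
  have e3 : ∀ p p' : M, p = p' → ∀ v v' w w' : E, v = v' → w = w' →
      (g.inner p : E →L[ℝ] E →L[ℝ] ℝ) v w = (g.inner p' : E →L[ℝ] E →L[ℝ] ℝ) v' w' := by
    rintro _ _ rfl _ _ _ _ rfl rfl
    rfl
  have e4 := e3 _ _ hp _ _ _ _ e1 e2
  have e5 := hh ((extChartAt 𝓘(ℝ, E₂) y).symm z)
    (mfderiv 𝓘(ℝ, E₂) 𝓘(ℝ, E₂) (extChartAt 𝓘(ℝ, E₂) y).symm z (finBasis ℝ E₂ i))
    (mfderiv 𝓘(ℝ, E₂) 𝓘(ℝ, E₂) (extChartAt 𝓘(ℝ, E₂) y).symm z (finBasis ℝ E₂ j))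
  exact e4.trans e5.symm

end Pool.Agent.Lib.MP_df705a_gt.Coll
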