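import Pool.Agent.Lib.MP_df705a_gt.Coll.IR
import Pool.Agent.Lib.MP_df705a_gt.Coll.X.Psi

/-!
# The fibre integral does not depend on the trivialization
-/

open scoped Manifold ContDiff Topology
open Set Bundle Module Filter MeasureTheory

noncomputable section

namespace Pool.Agent.Lib.MP_df705a_gt.Coll

open Pool.Agent.Lib.MP_df705a_gt.Twist Pool.Agent.Lib.MP_df705a_gt.Perm
open Pool.Agent.Lib.MP_df705a_gt.Circ (Horizontal Submersion cf Para HorConf)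
open Pool.Agent.Lib.MP_df705a_gt.Fib (RiemSub Biconformal)

section aux

variable {E₁ : Type*} [NormedAddCommGroup E₁] [NormedSpace ℝ E₁] [FiniteDimensional ℝ E₁]
  {B : Type*} [TopologicalSpace B] [ChartedSpace E₁ B] [IsManifold 𝓘(ℝ, E₁) ∞ B]
  {E₂ : Type*} [NormedAddCommGroup E₂] [NormedSpace ℝ E₂] [FiniteDimensional ℝ E₂]
  {F : Type*} [TopologicalSpace F] [ChartedSpace E₂ F] [IsManifold 𝓘(ℝ, E₂) ∞ F]
  {E : Type*} [NormedAddCommGroup E] [NormedSpace ℝ E] [FiniteDimensional ℝ E]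
  {M : Type*} [TopologicalSpace M] [ChartedSpace E M] [IsManifold 𝓘(ℝ, E) ∞ M]

namespace FibIsoAux

omit [FiniteDimensional ℝ E₁] [FiniteDimensional ℝ E₂] [FiniteDimensional ℝ E]
  [IsManifold 𝓘(ℝ, E₁) ∞ B] [IsManifold 𝓘(ℝ, E₂) ∞ F] [IsManifold 𝓘(ℝ, E) ∞ M] in
/-- the restriction of `Φ` to a fibre is differentiable -/
theorem mdiff_fib {pr : M → B} {U : Set B} {Φ : B × F → M} (hΦ : Triv E E₁ E₂ pr U Φ)
    {b : B} (hb : b ∈ U) (z : F) :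
    MDifferentiableAt 𝓘(ℝ, E₂) 𝓘(ℝ, E) (fun z => Φ (b, z)) z := by
  have h1 : ContMDiffAt (𝓘(ℝ, E₁).prod 𝓘(ℝ, E₂)) 𝓘(ℝ, E) ∞ Φ (b, z) :=
    hΦ.smooth.contMDiffAt ((hΦ.isOpen.prod isOpen_univ).mem_nhds ⟨hb, mem_univ z⟩)
  have h2 : ContMDiffAt 𝓘(ℝ, E₂) (𝓘(ℝ, E₁).prod 𝓘(ℝ, E₂)) ∞ (fun z : F => (b, z)) z :=
    contMDiffAt_const.prodMk contMDiffAt_id
  exact (ContMDiffAt.comp z h1 h2).mdifferentiableAt (by simp)


/-- Every parametrization of a fibre comes from a parametrization of the model fibre. -/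
theorem fib_param {pr : M → B} {U : Set B} {Φ : B × F → M} (hΦ : Triv E E₁ E₂ pr U Φ)
    {b : B} (hb : b ∈ U) {g : Met E M} {h : Met E₂ F} (hh : IsFib g Φ b h) {σ : E₂ → M} {y : E₂}
    (hσ : ContMDiffAt 𝓘(ℝ, E₂) 𝓘(ℝ, E) ∞ σ y)
    (hinj : Function.Injective (mfderiv 𝓘(ℝ, E₂) 𝓘(ℝ, E) σ y))
    (hfib : ∀ᶠ y' in 𝓝 y, pr (σ y') = b) :
    ∃ τ : E₂ → F, Para E₂ τ y ∧ (σ =ᶠ[𝓝 y] fun y' => Φ (b, τ y')) ∧
      cf g σ =ᶠ[𝓝 y] cf h τ := by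
  have hpr : pr (σ y) = b := hfib.self_of_nhds
  obtain ⟨y₀, hy₀⟩ := hΦ.surj (σ y) (by rw [hpr]; exact hb)
  rw [hpr] at hy₀
  have hac := ac_psi hΦ hb y₀
  generalize hψ : psi E₁ E₂ Φ b y₀ = ψ at hac
  generalize hq₀ : pt E₁ E₂ b y₀ b y₀ = q₀ at hac
  have hpara : Para E ψ q₀ := hac.para.self_of_nhds
  have hψa : ∀ q, ψ q = Φ ((extChartAt 𝓘(ℝ, E₁) b).symm q.1, (extChartAt 𝓘(ℝ, E₂) y₀).symm q.2) := by
    intro q
    rw [← hψ]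
    rfl
  have hq1 : q₀.1 = extChartAt 𝓘(ℝ, E₁) b b := by rw [← hq₀]; rfl
  have hq2 : q₀.2 = extChartAt 𝓘(ℝ, E₂) y₀ y₀ := by rw [← hq₀]; rfl
  have hψq : ψ q₀ = σ y := by
    rw [hψa, hq1, hq2, extChartAt_to_inv, extChartAt_to_inv, hy₀]
  have P := Circ.I2.pullAt g hpara
  have hnear := Circ.I2.near hpara
  generalize hT : Circ.I2.tau E ψ q₀ = T at P
  have hTa : ∀ q, T q = extChartAt 𝓘(ℝ, E) (ψ q₀) (ψ q) := by
    intro q
    rw [← hT]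
    rfl
  let L : (E₁ × E₂) ≃L[ℝ] E := ContinuousLinearEquiv.ofBijective (fderiv ℝ T q₀)
    (LinearMap.ker_eq_bot.2 P.bij.1) (LinearMap.range_eq_top.2 P.bij.2)
  have hL : (L : (E₁ × E₂) →L[ℝ] E) = fderiv ℝ T q₀ := by
    ext v <;> rfl
  have hTd : HasFDerivAt T (L : (E₁ × E₂) →L[ℝ] E) q₀ := by
    rw [hL]
    exact (P.smooth.differentiableAt (by simp)).hasFDerivAt
  have hS : ContDiffAt ℝ ∞ (P.smooth.localInverse hTd (by simp)) (T q₀) :=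
    P.smooth.to_localInverse hTd (by simp)
  have hS0 : P.smooth.localInverse hTd (by simp) (T q₀) = q₀ :=
    P.smooth.localInverse_apply_image hTd (by simp)
  have hSr : ∀ᶠ z in 𝓝 (T q₀), T (P.smooth.localInverse hTd (by simp) z) = z :=
    (P.smooth.hasStrictFDerivAt' hTd (by simp)).eventually_right_inverse
  generalize P.smooth.localInverse hTd (by simp) = S at hS hS0 hSr
  -- the map `ρ`
  have hext : ContMDiffAt 𝓘(ℝ, E) 𝓘(ℝ, E) ∞ (extChartAt 𝓘(ℝ, E) (ψ q₀)) (σ y) := by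
    have key : ∀ p : M, ψ q₀ = p →
        ContMDiffAt 𝓘(ℝ, E) 𝓘(ℝ, E) ∞ (extChartAt 𝓘(ℝ, E) (ψ q₀)) p := by
      rintro _ rfl
      exact contMDiffAt_extChartAt
    exact key _ hψq
  have hc : ContDiffAt ℝ ∞ (fun y' => extChartAt 𝓘(ℝ, E) (ψ q₀) (σ y')) y :=
    (ContMDiffAt.comp y hext hσ).contDiffAt
  have hc0 : extChartAt 𝓘(ℝ, E) (ψ q₀) (σ y) = T q₀ := by rw [hTa, hψq]
  have hρ : ContDiffAt ℝ ∞ (fun y' => S (extChartAt 𝓘(ℝ, E) (ψ q₀) (σ y'))) y := by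
    have h1 : ContDiffAt ℝ ∞ S (extChartAt 𝓘(ℝ, E) (ψ q₀) (σ y)) := by rw [hc0]; exact hS
    exact h1.comp y hc
  have hρ0 : S (extChartAt 𝓘(ℝ, E) (ψ q₀) (σ y)) = q₀ := by rw [hc0, hS0]
  generalize hρd : (fun y' => S (extChartAt 𝓘(ℝ, E) (ψ q₀) (σ y'))) = ρ at hρ
  have hρa : ∀ y', ρ y' = S (extChartAt 𝓘(ℝ, E) (ψ q₀) (σ y')) := fun y' => by rw [← hρd]
  have hρq : ρ y = q₀ := by rw [hρa, hρ0]
  have hρt : Tendsto ρ (𝓝 y) (𝓝 q₀) := by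
    have := hρ.continuousAt.tendsto
    rwa [hρq] at this
  have hct : Tendsto (fun y' => extChartAt 𝓘(ℝ, E) (ψ q₀) (σ y')) (𝓝 y) (𝓝 (T q₀)) := by
    have := hc.continuousAt.tendsto
    rwa [hc0] at this
  have hsrc : ∀ᶠ y' in 𝓝 y, σ y' ∈ (extChartAt 𝓘(ℝ, E) (ψ q₀)).source := by
    have h1 : (extChartAt 𝓘(ℝ, E) (ψ q₀)).source ∈ 𝓝 (σ y) := by
      rw [← hψq]
      exact extChartAt_source_mem_nhds (I := 𝓘(ℝ, E)) (ψ q₀)
    exact hσ.continuousAt.eventually h1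
  have hσψ : ∀ᶠ y' in 𝓝 y, ψ (ρ y') = σ y' := by
    filter_upwards [hsrc, hct.eventually hSr, hρt.eventually hnear] with y' h1 h2 h3
    refine (extChartAt 𝓘(ℝ, E) (ψ q₀)).injOn h3 h1 ?_
    rw [← hTa, hρa]
    exact h2
  have hσΦ : σ =ᶠ[𝓝 y] fun y' => Φ (b, (extChartAt 𝓘(ℝ, E₂) y₀).symm (ρ y').2) := by
    filter_upwards [hσψ, hfib, hρt.eventually hac.fst] with y' h1 h2 h3
    rw [h1, h2] at h3
    rw [← h1, hψa, ← h3, extChartAt_to_inv]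
  -- the map `τ`
  have hτ : ContMDiffAt 𝓘(ℝ, E₂) 𝓘(ℝ, E₂) ∞ (fun y' => (extChartAt 𝓘(ℝ, E₂) y₀).symm (ρ y').2) y := by
    have h1 : ContMDiffAt 𝓘(ℝ, E₂) 𝓘(ℝ, E₂) ∞ (extChartAt 𝓘(ℝ, E₂) y₀).symm (ρ y).2 := by
      rw [hρq, hq2]
      exact (contMDiffOn_extChartAt_symm y₀).contMDiffAt (extChartAt_target_mem_nhds y₀)
    have h2 : ContMDiffAt 𝓘(ℝ, E₂) 𝓘(ℝ, E₂) ∞ (fun y' => (ρ y').2) y :=
      (contDiffAt_snd.comp y hρ).contMDiffAt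
    exact ContMDiffAt.comp y h1 h2
  generalize hτd : (fun y' => (extChartAt 𝓘(ℝ, E₂) y₀).symm (ρ y').2) = τ at hτ
  have hστ : σ =ᶠ[𝓝 y] fun y' => Φ (b, τ y') := by
    rw [← hτd]
    exact hσΦ
  have hτev : ∀ᶠ y' in 𝓝 y, MDifferentiableAt 𝓘(ℝ, E₂) 𝓘(ℝ, E₂) τ y' := by
    have h1 : ContMDiffAt 𝓘(ℝ, E₂) 𝓘(ℝ, E₂) 1 τ y := hτ.of_le (by simp)
    filter_upwards [(contMDiffAt_iff_contMDiffAt_nhds (by simp)).1 h1] with y' h2
    exact h2.mdifferentiableAt (by simp)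
  have hd : ∀ᶠ y' in 𝓝 y, ∀ v : E₂, (mfderiv 𝓘(ℝ, E₂) 𝓘(ℝ, E) σ y' : E₂ →L[ℝ] E) v =
      (mfderiv 𝓘(ℝ, E₂) 𝓘(ℝ, E) (fun z => Φ (b, z)) (τ y') : E₂ →L[ℝ] E)
        ((mfderiv 𝓘(ℝ, E₂) 𝓘(ℝ, E₂) τ y' : E₂ →L[ℝ] E₂) v) := by
    filter_upwards [hτev, hστ.eventually_nhds] with y' h1 h2 v
    have h3 : σ =ᶠ[𝓝 y'] (fun z => Φ (b, z)) ∘ τ := h2
    have h4 := mfderiv_comp (I := 𝓘(ℝ, E₂)) (I' := 𝓘(ℝ, E₂)) (I'' := 𝓘(ℝ, E)) y'
      (mdiff_fib hΦ hb (τ y')) h1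
    rw [h3.mfderiv_eq, h4]
    rfl
  refine ⟨τ, ⟨hτ, ?_⟩, hστ, ?_⟩
  · have key : ∀ (D : E₂ →L[ℝ] E) (G : E₂ →L[ℝ] E) (T : E₂ →L[ℝ] E₂), (∀ v, D v = G (T v)) →
        Function.Injective D → Function.Bijective T := by
      intro D G T h1 h2
      have hi : Function.Injective T := fun v w hvw => h2 (by rw [h1, h1, hvw])
      exact ⟨hi, (LinearMap.injective_iff_surjective (f := (T : E₂ →ₗ[ℝ] E₂))).1 hi⟩
    exact key _ _ _ hd.self_of_nhds hinj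
  · filter_upwards [hd, hστ] with y' h1 h2
    funext i j
    have e3 : ∀ p : M, p = Φ (b, τ y') → ∀ v' w' v w : E, v' = v → w' = w →
        g.inner p v' w' = g.inner (Φ (b, τ y')) v w := by
      rintro _ rfl _ _ _ _ rfl rfl
      rfl
    exact (e3 _ h2 _ _ _ _ (h1 _) (h1 _)).trans (hh (τ y') _ _).symm


/-- The change of the trivialization. -/
theorem exists_chg {pr : M → B} {g : Met E M} {U U' : Set B} {Φ Φ' : B × F → M}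
    (hΦ : Triv E E₁ E₂ pr U Φ) (hΦ' : Triv E E₁ E₂ pr U' Φ') {x : B} (hx : x ∈ U)
    (hx' : x ∈ U') {h h' : Met E₂ F} (hh : IsFib g Φ x h) (hh' : IsFib g Φ' x h') {T : F → F}
    (hT : ∀ y, Φ (x, T y) = Φ' (x, y)) (z : F) {q : E₂}
    (hq : q ∈ (extChartAt 𝓘(ℝ, E₂) z).target) :
    Para E₂ (fun q => T ((extChartAt 𝓘(ℝ, E₂) z).symm q)) q ∧
      cf h (fun q => T ((extChartAt 𝓘(ℝ, E₂) z).symm q)) q = coeff h' z q := by
  have hsm : ContMDiffAt 𝓘(ℝ, E₂) 𝓘(ℝ, E₂) ∞ (extChartAt 𝓘(ℝ, E₂) z).symm q :=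
    (contMDiffOn_extChartAt_symm z).contMDiffAt ((isOpen_extChartAt_target z).mem_nhds hq)
  have hbij : Function.Bijective
      (mfderiv 𝓘(ℝ, E₂) 𝓘(ℝ, E₂) (extChartAt 𝓘(ℝ, E₂) z).symm q) := by
    have h1 := isInvertible_mfderivWithin_extChartAt_symm (I := 𝓘(ℝ, E₂)) (x := z) hq
    rw [ModelWithCorners.range_eq_univ, mfderivWithin_univ] at h1
    exact h1.bijective
  have hfs : ContMDiffAt 𝓘(ℝ, E₂) 𝓘(ℝ, E) ∞ (fun y : F => Φ' (x, y))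
      ((extChartAt 𝓘(ℝ, E₂) z).symm q) := by
    have h1 : ContMDiffAt (𝓘(ℝ, E₁).prod 𝓘(ℝ, E₂)) 𝓘(ℝ, E) ∞ Φ'
        (x, (extChartAt 𝓘(ℝ, E₂) z).symm q) :=
      hΦ'.smooth.contMDiffAt ((hΦ'.isOpen.prod isOpen_univ).mem_nhds ⟨hx', mem_univ _⟩)
    have h2 : ContMDiffAt 𝓘(ℝ, E₂) (𝓘(ℝ, E₁).prod 𝓘(ℝ, E₂)) ∞ (fun y : F => (x, y))
        ((extChartAt 𝓘(ℝ, E₂) z).symm q) :=
      contMDiffAt_const.prodMk contMDiffAt_id
    exact ContMDiffAt.comp _ h1 h2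
  have hσ : ContMDiffAt 𝓘(ℝ, E₂) 𝓘(ℝ, E) ∞
      (fun q => Φ' (x, (extChartAt 𝓘(ℝ, E₂) z).symm q)) q :=
    ContMDiffAt.comp q (g := fun y : F => Φ' (x, y)) (f := (extChartAt 𝓘(ℝ, E₂) z).symm)
      hfs hsm
  have hd : ∀ v : E₂, (mfderiv 𝓘(ℝ, E₂) 𝓘(ℝ, E)
      (fun q => Φ' (x, (extChartAt 𝓘(ℝ, E₂) z).symm q)) q : E₂ →L[ℝ] E) v =
      (mfderiv 𝓘(ℝ, E₂) 𝓘(ℝ, E) (fun y => Φ' (x, y)) ((extChartAt 𝓘(ℝ, E₂) z).symm q) :
        E₂ →L[ℝ] E)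
        ((mfderiv 𝓘(ℝ, E₂) 𝓘(ℝ, E₂) (extChartAt 𝓘(ℝ, E₂) z).symm q : E₂ →L[ℝ] E₂) v) := by
    intro v
    have h4 := mfderiv_comp (I := 𝓘(ℝ, E₂)) (I' := 𝓘(ℝ, E₂)) (I'' := 𝓘(ℝ, E)) q
      (hfs.mdifferentiableAt (by simp)) (hsm.mdifferentiableAt (by simp))
    have h5 := congrArg (fun L : E₂ →L[ℝ] E => L v) h4
    exact h5
  have hcf : cf g (fun q => Φ' (x, (extChartAt 𝓘(ℝ, E₂) z).symm q)) q = coeff h' z q := by
    funext i j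
    have h1 := hh' ((extChartAt 𝓘(ℝ, E₂) z).symm q)
      ((mfderiv 𝓘(ℝ, E₂) 𝓘(ℝ, E₂) (extChartAt 𝓘(ℝ, E₂) z).symm q : E₂ →L[ℝ] E₂)
        (finBasis ℝ E₂ i))
      ((mfderiv 𝓘(ℝ, E₂) 𝓘(ℝ, E₂) (extChartAt 𝓘(ℝ, E₂) z).symm q : E₂ →L[ℝ] E₂)
        (finBasis ℝ E₂ j))
    refine Eq.trans ?_ h1.symm
    have e3 : ∀ v' w' v w : E, v' = v → w' = w →
        g.inner (Φ' (x, (extChartAt 𝓘(ℝ, E₂) z).symm q)) v' w' =
          g.inner (Φ' (x, (extChartAt 𝓘(ℝ, E₂) z).symm q)) v w := by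
      rintro _ _ _ _ rfl rfl
      rfl
    exact e3 _ _ _ _ (hd _) (hd _)
  have hinj : Function.Injective (mfderiv 𝓘(ℝ, E₂) 𝓘(ℝ, E)
      (fun q => Φ' (x, (extChartAt 𝓘(ℝ, E₂) z).symm q)) q) := by
    have h1 : Function.Injective (fun v : E₂ => (mfderiv 𝓘(ℝ, E₂) 𝓘(ℝ, E)
        (fun y => Φ' (x, y)) ((extChartAt 𝓘(ℝ, E₂) z).symm q) : E₂ →L[ℝ] E) v) := by
      generalize (extChartAt 𝓘(ℝ, E₂) z).symm q = y'
      have k1 : ContMDiffAt (𝓘(ℝ, E₁).prod 𝓘(ℝ, E₂)) 𝓘(ℝ, E) ∞ Φ' (x, y') :=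
        hΦ'.smooth.contMDiffAt ((hΦ'.isOpen.prod isOpen_univ).mem_nhds ⟨hx', mem_univ _⟩)
      have k2 : MDifferentiableAt (𝓘(ℝ, E₁).prod 𝓘(ℝ, E₂)) 𝓘(ℝ, E) Φ' (x, y') :=
        k1.mdifferentiableAt (by simp)
      have k3 : HasMFDerivAt 𝓘(ℝ, E₂) (𝓘(ℝ, E₁).prod 𝓘(ℝ, E₂)) (fun y : F => (x, y)) y'
          ((0 : E₂ →L[ℝ] E₁).prod (ContinuousLinearMap.id ℝ E₂)) :=
        (hasMFDerivAt_const (I := 𝓘(ℝ, E₂)) (I' := 𝓘(ℝ, E₁)) x y').prodMk (hasMFDerivAt_id y')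
      have k4 := (k2.hasMFDerivAt.comp y' k3).mfderiv
      have k5 : ∀ v : E₂, (mfderiv 𝓘(ℝ, E₂) 𝓘(ℝ, E) (fun y => Φ' (x, y)) y' : E₂ →L[ℝ] E) v =
          (mfderiv (𝓘(ℝ, E₁).prod 𝓘(ℝ, E₂)) 𝓘(ℝ, E) Φ' (x, y') : E₁ × E₂ →L[ℝ] E) (0, v) :=
        fun v => congrArg (fun L : E₂ →L[ℝ] E => L v) k4
      intro v w hvw
      have k6 : (mfderiv (𝓘(ℝ, E₁).prod 𝓘(ℝ, E₂)) 𝓘(ℝ, E) Φ' (x, y') : E₁ × E₂ →L[ℝ] E)
          (0, v) = (mfderiv (𝓘(ℝ, E₁).prod 𝓘(ℝ, E₂)) 𝓘(ℝ, E) Φ' (x, y') : E₁ × E₂ →L[ℝ] E)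
          (0, w) := by
        rw [← k5, ← k5]
        exact hvw
      have k7 := (hΦ'.bij x hx' y').1 k6
      exact congrArg (fun p : E₁ × E₂ => p.2) k7
    have h2 : Function.Injective (fun v : E₂ => (mfderiv 𝓘(ℝ, E₂) 𝓘(ℝ, E)
      (fun q => Φ' (x, (extChartAt 𝓘(ℝ, E₂) z).symm q)) q : E₂ →L[ℝ] E) v) := by
      have h3 : (fun v : E₂ => (mfderiv 𝓘(ℝ, E₂) 𝓘(ℝ, E)
          (fun q => Φ' (x, (extChartAt 𝓘(ℝ, E₂) z).symm q)) q : E₂ →L[ℝ] E) v) =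
          (fun v : E₂ => (mfderiv 𝓘(ℝ, E₂) 𝓘(ℝ, E)
        (fun y => Φ' (x, y)) ((extChartAt 𝓘(ℝ, E₂) z).symm q) : E₂ →L[ℝ] E) v) ∘
          (fun v : E₂ => (mfderiv 𝓘(ℝ, E₂) 𝓘(ℝ, E₂) (extChartAt 𝓘(ℝ, E₂) z).symm q :
            E₂ →L[ℝ] E₂) v) := by
        funext v
        exact hd v
      rw [h3]
      exact h1.comp hbij.1
    exact h2
  obtain ⟨τ, hτ1, hτ2, hτ3⟩ := fib_param hΦ hx hh hσ hinj
    (Eventually.of_forall fun q => hΦ'.proj x hx' _)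
  have heq : (fun q => T ((extChartAt 𝓘(ℝ, E₂) z).symm q)) =ᶠ[𝓝 q] τ := by
    filter_upwards [hτ2] with q' hq'
    apply hΦ.inj x hx
    rw [hT]
    exact hq'
  have hmf : (mfderiv 𝓘(ℝ, E₂) 𝓘(ℝ, E₂) (fun q => T ((extChartAt 𝓘(ℝ, E₂) z).symm q)) q :
      E₂ →L[ℝ] E₂) = (mfderiv 𝓘(ℝ, E₂) 𝓘(ℝ, E₂) τ q : E₂ →L[ℝ] E₂) := heq.mfderiv_eq
  refine ⟨⟨hτ1.smooth.congr_of_eventuallyEq heq, ?_⟩, ?_⟩
  · have k1 : Function.Bijective
        (fun v : E₂ => (mfderiv 𝓘(ℝ, E₂) 𝓘(ℝ, E₂) τ q : E₂ →L[ℝ] E₂) v) := hτ1.bij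
    rw [← hmf] at k1
    exact k1
  · rw [← hcf, hτ3.self_of_nhds]
    funext i j
    have e3 : ∀ p p' : F, p = p' → ∀ v v' w w' : E₂, v = v' → w = w' →
        (h.inner p : E₂ →L[ℝ] E₂ →L[ℝ] ℝ) v w = (h.inner p' : E₂ →L[ℝ] E₂ →L[ℝ] ℝ) v' w' := by
      rintro _ _ rfl _ _ _ _ rfl rfl
      rfl
    exact e3 _ _ heq.self_of_nhds _ _ _ _
      (congrArg (fun L : E₂ →L[ℝ] E₂ => L (finBasis ℝ E₂ i)) hmf)
      (congrArg (fun L : E₂ →L[ℝ] E₂ => L (finBasis ℝ E₂ j)) hmf)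

end FibIsoAux

end aux

section main

variable {E₁ : Type*} [NormedAddCommGroup E₁] [NormedSpace ℝ E₁] [FiniteDimensional ℝ E₁]
  {B : Type*} [TopologicalSpace B] [ChartedSpace E₁ B] [IsManifold 𝓘(ℝ, E₁) ∞ B]
  {E₂ : Type*} [NormedAddCommGroup E₂] [NormedSpace ℝ E₂] [FiniteDimensional ℝ E₂]
  {F : Type*} [TopologicalSpace F] [ChartedSpace E₂ F] [IsManifold 𝓘(ℝ, E₂) ∞ F]
  {E : Type*} [NormedAddCommGroup E] [NormedSpace ℝ E] [FiniteDimensional ℝ E]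
  {M : Type*} [TopologicalSpace M] [ChartedSpace E M] [IsManifold 𝓘(ℝ, E) ∞ M]
  [MeasurableSpace E₁] [BorelSpace E₁] [MeasurableSpace E₂] [BorelSpace E₂]
  [MeasurableSpace E] [BorelSpace E] [MeasurableSpace B] [BorelSpace B]
  [MeasurableSpace F] [BorelSpace F] [MeasurableSpace M] [BorelSpace M]
  [CompactSpace M] [T2Space M] [CompactSpace B] [T2Space B] [CompactSpace F] [T2Space F]

theorem int_fib_eq {pr : M → B} {g : Met E M} {U U' : Set B} {Φ Φ' : B × F → M}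
    (hΦ : Triv E E₁ E₂ pr U Φ) (hΦ' : Triv E E₁ E₂ pr U' Φ') {x : B} (hx : x ∈ U)
    (hx' : x ∈ U') {h h' : Met E₂ F} (hh : IsFib g Φ x h) (hh' : IsFib g Φ' x h')
    {ν ν' : Measure F} (hν : IsRVol h ν) (hν' : IsRVol h' ν') {K : M → ℝ}
    (hK : Continuous K) : ∫ y, K (Φ (x, y)) ∂ν = ∫ y, K (Φ' (x, y)) ∂ν' := by
  classical
  -- the change of the trivialization
  have hTex : ∀ y : F, ∃ y₁ : F, Φ (x, y₁) = Φ' (x, y) := by
    intro y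
    have h1 : pr (Φ' (x, y)) = x := hΦ'.proj x hx' y
    obtain ⟨y₁, h2⟩ := hΦ.surj (Φ' (x, y)) (by rw [h1]; exact hx)
    rw [h1] at h2
    exact ⟨y₁, h2⟩
  choose T hT using hTex
  have hTinj : Function.Injective T := by
    intro y y' hy
    apply hΦ'.inj x hx'
    rw [← hT, ← hT, hy]
  have hTsurj : Function.Surjective T := by
    intro y
    have h1 : pr (Φ (x, y)) = x := hΦ.proj x hx y
    obtain ⟨y₁, h2⟩ := hΦ'.surj (Φ (x, y)) (by rw [h1]; exact hx')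
    rw [h1] at h2
    refine ⟨y₁, ?_⟩
    apply hΦ.inj x hx
    rw [hT, h2]
  have hpara := fun z {q} hq => FibIsoAux.exists_chg hΦ hΦ' hx hx' hh hh' hT z (q := q) hq
  have hTcont : Continuous T := by
    rw [continuous_iff_continuousAt]
    intro y
    have h1 := (hpara y (mem_extChartAt_target y)).1.smooth.continuousAt
    have h2 : ContinuousAt (extChartAt 𝓘(ℝ, E₂) y) y := continuousAt_extChartAt y
    have h3 := ContinuousAt.comp (f := extChartAt 𝓘(ℝ, E₂) y)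
      (g := fun q => T ((extChartAt 𝓘(ℝ, E₂) y).symm q)) h1 h2
    refine h3.congr ?_
    filter_upwards [extChartAt_source_mem_nhds (I := 𝓘(ℝ, E₂)) y] with y' hy'
    simp only [Function.comp]
    rw [(extChartAt 𝓘(ℝ, E₂) y).left_inv hy']
  let e : F ≃ₜ F := (Continuous.homeoOfEquivCompactToT2
    (f := Equiv.ofBijective T ⟨hTinj, hTsurj⟩) hTcont)
  have heT : ∀ y, e y = T y := fun y => rfl
  have hesymm : ∀ y, T (e.symm y) = y := fun y => e.apply_symm_apply y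
  have hsymmT : ∀ y, e.symm (T y) = y := fun y => e.symm_apply_apply y
  -- the function
  have hfc : Continuous (fun y : F => K (Φ (x, y))) := by
    have h1 : Continuous (fun y : F => Φ (x, y)) := by
      rw [continuous_iff_continuousAt]
      intro y
      exact (FibIsoAux.mdiff_fib hΦ hx y).continuousAt
    exact hK.comp h1
  have hKT : ∀ y, K (Φ' (x, y)) = K (Φ (x, T y)) := fun y => by rw [hT]
  -- the partition of unity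
  obtain ⟨t, ht⟩ := CompactSpace.elim_nhds_subcover
    (fun z : F => (extChartAt 𝓘(ℝ, E₂) z).source)
    (fun z => extChartAt_source_mem_nhds (I := 𝓘(ℝ, E₂)) z)
  obtain ⟨ρ, hρ1, hρ2, hρ3, hρ4⟩ := exists_continuous_sum_one_of_isOpen_isCompact
    (s := fun i : Fin t.card => (extChartAt 𝓘(ℝ, E₂) (t.equivFin.symm i : F)).source)
    (fun i => isOpen_extChartAt_source _) (isCompact_univ (X := F)) (by
      intro y _
      have h1 : y ∈ (⊤ : Set F) := trivial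
      rw [← ht, mem_iUnion₂] at h1
      obtain ⟨z, hz, hy⟩ := h1
      rw [mem_iUnion]
      refine ⟨t.equivFin ⟨z, hz⟩, ?_⟩
      simpa using hy)
  have hsum : ∀ y, ∑ i, ρ i y = 1 := by
    intro y
    have h1 := hρ2 (mem_univ y)
    simpa using h1
  have hfin := hν.fin
  have hfin' := hν'.fin
  have hint : ∀ f : F → ℝ, Continuous f → Integrable f ν := fun f hf =>
    hf.integrable_of_hasCompactSupport (HasCompactSupport.of_compactSpace f)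
  have hint' : ∀ f : F → ℝ, Continuous f → Integrable f ν' := fun f hf =>
    hf.integrable_of_hasCompactSupport (HasCompactSupport.of_compactSpace f)
  have key : ∀ i, ∫ y, ρ i (e.symm y) * K (Φ (x, y)) ∂ν =
      ∫ y, ρ i y * K (Φ (x, T y)) ∂ν' := by
    intro i
    obtain ⟨z, hz⟩ : ∃ z : F, z = (t.equivFin.symm i : F) := ⟨_, rfl⟩
    have hρz : tsupport (ρ i) ⊆ (extChartAt 𝓘(ℝ, E₂) z).source := by
      rw [hz]
      exact hρ1 i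
    have hsupp1 : tsupport (fun y => ρ i y * K (Φ (x, T y))) ⊆
        (extChartAt 𝓘(ℝ, E₂) z).source :=
      (tsupport_mul_subset_left (f := fun y => ρ i y)).trans hρz
    have h1 := hν'.chart z (fun y => ρ i y * K (Φ (x, T y)))
      ((ρ i).continuous.mul (hfc.comp hTcont)) hsupp1
    have hsupp2 : tsupport (fun y => ρ i (e.symm y) * K (Φ (x, y))) ⊆
        (fun q => T ((extChartAt 𝓘(ℝ, E₂) z).symm q)) '' (extChartAt 𝓘(ℝ, E₂) z).target := by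
      refine (tsupport_mul_subset_left (f := fun y => ρ i (e.symm y))).trans ?_
      intro y hy
      have h2 : e.symm y ∈ tsupport (ρ i) := by
        have h3 : tsupport (fun y => ρ i (e.symm y)) ⊆ e.symm ⁻¹' tsupport (ρ i) :=
          closure_minimal (fun y hy => subset_tsupport _ hy)
            ((isClosed_tsupport _).preimage e.symm.continuous)
        exact h3 hy
      have h4 := hρz h2
      refine ⟨extChartAt 𝓘(ℝ, E₂) z (e.symm y), (extChartAt 𝓘(ℝ, E₂) z).map_source h4, ?_⟩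
      simp only
      rw [(extChartAt 𝓘(ℝ, E₂) z).left_inv h4]
      exact hesymm y
    have h5 := hν.para (isOpen_extChartAt_target z) (fun q hq => (hpara z hq).1)
      (fun q hq q' hq' hqq => (extChartAt 𝓘(ℝ, E₂) z).symm.injOn hq hq' (hTinj hqq))
      (f := fun y => ρ i (e.symm y) * K (Φ (x, y)))
      (((ρ i).continuous.comp e.symm.continuous).mul hfc) hsupp2
    rw [h5, h1]
    refine setIntegral_congr_fun (isOpen_extChartAt_target z).measurableSet ?_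
    intro q hq
    simp only
    rw [(hpara z hq).2, hsymmT]
  calc ∫ y, K (Φ (x, y)) ∂ν = ∫ y, ∑ i, ρ i (e.symm y) * K (Φ (x, y)) ∂ν := by
        congr 1
        funext y
        rw [← Finset.sum_mul, hsum, one_mul]
    _ = ∑ i, ∫ y, ρ i (e.symm y) * K (Φ (x, y)) ∂ν :=
        integral_finsetSum _ (fun i _ => hint _
          (((ρ i).continuous.comp e.symm.continuous).mul hfc))
    _ = ∑ i, ∫ y, ρ i y * K (Φ (x, T y)) ∂ν' := Finset.sum_congr rfl fun i _ => key i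
    _ = ∫ y, ∑ i, ρ i y * K (Φ (x, T y)) ∂ν' :=
        (integral_finsetSum _ (fun i _ => hint' _
          ((ρ i).continuous.mul (hfc.comp hTcont)))).symm
    _ = ∫ y, K (Φ' (x, y)) ∂ν' := by
        congr 1
        funext y
        rw [← Finset.sum_mul, hsum, one_mul, hKT]

end main

end Pool.Agent.Lib.MP_df705a_gt.Coll
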