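import Pool.Agent.Lib.MP_df705a_gt.Coll.X.FubLoc
import Pool.Agent.Lib.MP_df705a_gt.Coll.X.FibIso

/-!
# Integration over the fibres
-/

open scoped Manifold ContDiff Topology
open Set Bundle Module Filter MeasureTheory

noncomputable section

namespace Pool.Agent.Lib.MP_df705a_gt.Coll

open Pool.Agent.Lib.MP_df705a_gt.Twist Pool.Agent.Lib.MP_df705a_gt.Perm
open Pool.Agent.Lib.MP_df705a_gt.Circ (Horizontal Submersion cf Para HorConf)
open Pool.Agent.Lib.MP_df705a_gt.Fib (RiemSub Biconformal)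

variable {E₁ : Type*} [NormedAddCommGroup E₁] [NormedSpace ℝ E₁] [FiniteDimensional ℝ E₁]
  {B : Type*} [TopologicalSpace B] [ChartedSpace E₁ B] [IsManifold 𝓘(ℝ, E₁) ∞ B]
  {E₂ : Type*} [NormedAddCommGroup E₂] [NormedSpace ℝ E₂] [FiniteDimensional ℝ E₂]
  {F : Type*} [TopologicalSpace F] [ChartedSpace E₂ F] [IsManifold 𝓘(ℝ, E₂) ∞ F]
  {E : Type*} [NormedAddCommGroup E] [NormedSpace ℝ E] [FiniteDimensional ℝ E]
  {M : Type*} [TopologicalSpace M] [ChartedSpace E M] [IsManifold 𝓘(ℝ, E) ∞ M]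

namespace FibIntAux

/-- A parametrization maps neighbourhoods to neighbourhoods. -/
theorem image_nhds {E' : Type*} [NormedAddCommGroup E'] [NormedSpace ℝ E']
    [FiniteDimensional ℝ E'] (g : Met E M) {σ : E' → M} {q : E'} (hσ : Para E σ q) {S : Set E'}
    (hS : S ∈ 𝓝 q) : σ '' S ∈ 𝓝 (σ q) := by
  have P := Circ.I2.pullAt g hσ
  have hne : (∞ : WithTop ℕ∞) ≠ 0 := by simp
  have h1 := P.smooth.hasStrictFDerivAt hne
  have h2 : map (Circ.I2.tau E σ q) (𝓝 q) = 𝓝 (Circ.I2.tau E σ q q) :=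
    h1.map_nhds_eq_of_surj (LinearMap.range_eq_top.2 P.bij.2)
  have h3 : S ∩ {x | σ x ∈ (extChartAt 𝓘(ℝ, E) (σ q)).source} ∈ 𝓝 q :=
    inter_mem hS (Circ.I2.near hσ)
  have h4 : Circ.I2.tau E σ q '' (S ∩ {x | σ x ∈ (extChartAt 𝓘(ℝ, E) (σ q)).source}) ∈
      𝓝 (extChartAt 𝓘(ℝ, E) (σ q) (σ q)) := by
    have := image_mem_map (m := Circ.I2.tau E σ q) h3
    rwa [h2] at this
  have h5 := (continuousAt_extChartAt (I := 𝓘(ℝ, E)) (σ q)).preimage_mem_nhds h4
  filter_upwards [h5, extChartAt_source_mem_nhds (I := 𝓘(ℝ, E)) (σ q)] with p hp hp'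
  obtain ⟨x, ⟨hx1, hx2⟩, hx3⟩ := hp
  refine ⟨x, hx1, ?_⟩
  exact (extChartAt 𝓘(ℝ, E) (σ q)).injOn hx2 hp' hx3

/-- The images of products of charts are neighbourhoods. -/
theorem image_triv (g : Met E M) {pr : M → B} {U : Set B} {Φ : B × F → M}
    (hΦ : Triv E E₁ E₂ pr U Φ) {x : B} (hx : x ∈ U) (y : F) :
    Φ '' ((U ∩ (extChartAt 𝓘(ℝ, E₁) x).source) ×ˢ (extChartAt 𝓘(ℝ, E₂) y).source) ∈
      𝓝 (Φ (x, y)) := by
  have h1 := (ac_psi hΦ hx y).para.self_of_nhds
  have h2 : psi E₁ E₂ Φ x y (pt E₁ E₂ x y x y) = Φ (x, y) := by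
    unfold psi pt
    simp only [extChartAt_to_inv]
  have hS1 : (extChartAt 𝓘(ℝ, E₁) x).target ∩ (extChartAt 𝓘(ℝ, E₁) x).symm ⁻¹' U ∈
      𝓝 (extChartAt 𝓘(ℝ, E₁) x x) := by
    refine inter_mem (extChartAt_target_mem_nhds x) ?_
    refine (continuousAt_extChartAt_symm (I := 𝓘(ℝ, E₁)) x).preimage_mem_nhds ?_
    rw [extChartAt_to_inv]
    exact hΦ.isOpen.mem_nhds hx
  have hS : ((extChartAt 𝓘(ℝ, E₁) x).target ∩ (extChartAt 𝓘(ℝ, E₁) x).symm ⁻¹' U) ×ˢ
      (extChartAt 𝓘(ℝ, E₂) y).target ∈ 𝓝 (pt E₁ E₂ x y x y) := by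
    exact prod_mem_nhds hS1 (extChartAt_target_mem_nhds y)
  have h3 := image_nhds g h1 hS
  rw [h2] at h3
  refine mem_of_superset h3 ?_
  rintro _ ⟨q, ⟨⟨hq1, hq2⟩, hq3⟩, rfl⟩
  exact ⟨((extChartAt 𝓘(ℝ, E₁) x).symm q.1, (extChartAt 𝓘(ℝ, E₂) y).symm q.2),
    ⟨⟨hq2, (extChartAt 𝓘(ℝ, E₁) x).map_target hq1⟩, (extChartAt 𝓘(ℝ, E₂) y).map_target hq3⟩, rfl⟩

/-- Continuous functions are integrable. -/
theorem integ {X : Type*} [TopologicalSpace X] [CompactSpace X] [T2Space X] [MeasurableSpace X]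
    [BorelSpace X] {μ : Measure X} [IsFiniteMeasure μ] {f : X → ℝ} (hf : Continuous f) :
    Integrable f μ :=
  hf.integrable_of_hasCompactSupport (HasCompactSupport.of_compactSpace f)

/-- Continuity along the fibres. -/
theorem cont_fib {pr : M → B} {U : Set B} {Φ : B × F → M} (hΦ : Triv E E₁ E₂ pr U Φ) {x : B}
    (hx : x ∈ U) {K : M → ℝ} (hK : Continuous K) : Continuous fun y => K (Φ (x, y)) := by
  have h1 : ContinuousOn Φ (U ×ˢ univ) := hΦ.smooth.continuousOn
  have h2 : Continuous fun y : F => Φ (x, y) := by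
    rw [← continuousOn_univ]
    exact h1.comp (by fun_prop) fun y _ => ⟨hx, mem_univ y⟩
  exact hK.comp h2

end FibIntAux

/-- Integration over the fibres. -/
theorem exists_fibInt [MeasurableSpace E₁] [BorelSpace E₁] [MeasurableSpace E₂] [BorelSpace E₂]
    [MeasurableSpace E] [BorelSpace E] [MeasurableSpace B] [BorelSpace B]
    [MeasurableSpace F] [BorelSpace F] [MeasurableSpace M] [BorelSpace M]
    [CompactSpace M] [T2Space M] [CompactSpace B] [T2Space B] [CompactSpace F] [T2Space F]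
    (hd : finrank ℝ E = finrank ℝ E₁ + finrank ℝ E₂)
    {pr : M → B} (hpr : IsFibreBundle E E₁ E₂ F pr) {g : Met E M} {gB : Met E₁ B}
    (hv : HorVol E₂ g gB pr) {μM : Measure M} {μB : Measure B} (hM : IsRVol g μM)
    (hB : IsRVol gB μB) : ∃ I : (M → ℝ) → B → ℝ, FibInt E₁ E₂ F g pr μM μB I := by
  classical
  obtain ⟨hsub, hloc⟩ := hpr
  have hprc : Continuous pr := hsub.1.continuous
  choose U Φ hU hΦ using hloc
  obtain ⟨h₀⟩ := nonempty_met E₂ F
  obtain ⟨ν₀, hν₀⟩ := exists_rvol h₀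
  haveI := hν₀.fin
  haveI := hM.fin
  haveI := hB.fin
  have hfib : ∀ x x' : B, ∃ h : Met E₂ F, x' ∈ U x → IsFib g (Φ x) x' h := by
    intro x x'
    by_cases hx' : x' ∈ U x
    · obtain ⟨h, hh⟩ := exists_isFib (hΦ x) g hx'
      exact ⟨h, fun _ => hh⟩
    · exact ⟨h₀, fun h => absurd h hx'⟩
  choose h hh using hfib
  have hex : ∀ x x' : B, ∃ ν : Measure F, IsRVol (h x x') ν := fun x x' => exists_rvol _
  choose ν hν using hex
  obtain ⟨I, hI⟩ : ∃ I : (M → ℝ) → B → ℝ, ∀ K x, I K x = ∫ y, K (Φ x (x, y)) ∂(ν x x) :=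
    ⟨_, fun _ _ => rfl⟩
  have key : ∀ x₀ x : B, x ∈ U x₀ → ∀ K : M → ℝ, Continuous K →
      I K x = ∫ y, K (Φ x₀ (x, y)) ∂(ν x₀ x) := by
    intro x₀ x hx K hK
    rw [hI]
    exact int_fib_eq (hΦ x) (hΦ x₀) (hU x) hx (hh x x (hU x)) (hh x₀ x hx) (hν x x) (hν x₀ x) hK
  have hsm : ∀ K : M → ℝ, Sm E K → Sm E₁ (I K) := by
    intro K hK x₀
    obtain ⟨D, hD1, hD2, hD3⟩ := fib_dens (g := g) (hΦ x₀) h₀
    have hG : ContMDiffOn (𝓘(ℝ, E₁).prod 𝓘(ℝ, E₂)) 𝓘(ℝ, ℝ) ∞
        (fun p => K (Φ x₀ p) * D p) (U x₀ ×ˢ univ) :=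
      (ContMDiff.comp_contMDiffOn hK (hΦ x₀).smooth).mul hD1
    have h1 := contMDiffOn_integral (hΦ x₀).isOpen hG ν₀
    have h2 : ∀ x ∈ U x₀, I K x = ∫ y, K (Φ x₀ (x, y)) * D (x, y) ∂ν₀ := by
      intro x hx
      rw [key x₀ x hx K hK.continuous,
        IsRVol.dens hν₀ (hν x₀ x) (FibIntAux.cont_fib (hΦ x₀) hx hK.continuous)]
      refine integral_congr_ae (Eventually.of_forall fun y => ?_)
      simp only
      rw [hD3 x hx (h x₀ x) (hh x₀ x hx) y]
    exact (h1.congr h2).contMDiffAt ((hΦ x₀).isOpen.mem_nhds (hU x₀))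
  refine ⟨I, hsm, ?_, ?_⟩
  · -- the theorem of Fubini
    intro χ K hχ hK
    have hp : ∀ p : M, ∃ y : F, Φ (pr p) (pr p, y) = p := fun p => (hΦ (pr p)).surj p (hU _)
    choose Y hY using hp
    obtain ⟨O, hO⟩ : ∃ O : M → Set M, ∀ p, O p = Φ (pr p) ''
        ((U (pr p) ∩ (extChartAt 𝓘(ℝ, E₁) (pr p)).source) ×ˢ
          (extChartAt 𝓘(ℝ, E₂) (Y p)).source) := ⟨_, fun _ => rfl⟩
    have hOn : ∀ p, O p ∈ 𝓝 p := by
      intro p
      rw [hO]
      have := FibIntAux.image_triv g (hΦ (pr p)) (hU (pr p)) (Y p)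
      rwa [hY] at this
    obtain ⟨t, ht⟩ := isCompact_univ.elim_nhds_subcover (fun p => interior (O p))
      (fun p _ => interior_mem_nhds.2 (hOn p))
    obtain ⟨ρ, hρ⟩ := SmoothPartitionOfUnity.exists_isSubordinate (ι := t) 𝓘(ℝ, E)
      (s := (univ : Set M)) isClosed_univ (fun i => interior (O i)) (fun i => isOpen_interior)
      (by
        intro p hp
        obtain ⟨i, hi, hpi⟩ := mem_iUnion₂.1 (ht.2 hp)
        exact mem_iUnion.2 ⟨⟨i, hi⟩, hpi⟩)
    have hρ1 : ∀ p : M, ∑ i : t, ρ i p = 1 := by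
      intro p
      rw [← finsum_eq_sum_of_fintype]
      exact ρ.sum_eq_one (mem_univ p)
    have hρs : ∀ i : t, tsupport (ρ i) ⊆ O i := fun i => (hρ i).trans interior_subset
    obtain ⟨L, hL⟩ : ∃ L : t → M → ℝ, ∀ i p, L i p = ρ i p * K p := ⟨_, fun _ _ => rfl⟩
    have hLsm : ∀ i, Sm E (L i) := by
      intro i
      have : L i = fun p => ρ i p * K p := funext fun p => hL i p
      rw [this]
      exact (ρ i).contMDiff.mul hK
    have hLts : ∀ i, tsupport (L i) ⊆ O i := by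
      intro i
      have : L i = fun p => ρ i p * K p := funext fun p => hL i p
      rw [this]
      exact (tsupport_mul_subset_left (f := fun p => ρ i p) (g := K)).trans (hρs i)
    have hLK : ∀ p, K p = ∑ i : t, L i p := by
      intro p
      simp only [hL]
      rw [← Finset.sum_mul, hρ1, one_mul]
    have hmain : ∀ i : t, ∫ p, χ (pr p) * L i p ∂μM = ∫ x, χ x * I (L i) x ∂μB := by
      intro i
      have hc : Continuous fun p => χ (pr p) * L i p := (hχ.comp hprc).mul (hLsm i).continuous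
      have hs : tsupport (fun p => χ (pr p) * L i p) ⊆ Φ (pr i) ''
          ((U (pr i) ∩ (extChartAt 𝓘(ℝ, E₁) (pr i)).source) ×ˢ
            (extChartAt 𝓘(ℝ, E₂) (Y i)).source) := by
        rw [← hO]
        exact (tsupport_mul_subset_right (f := fun p => χ (pr p)) (g := L i)).trans (hLts i)
      rw [fub_loc hd hsub hv hM hB (hΦ (pr i)) (hU (pr i)) (y₀ := Y i) (h := h (pr i))
        (fun x hx => hh (pr i) x hx) (ν := ν (pr i)) (fun x _ => hν (pr i) x) hc hs]
      refine integral_congr_ae (Eventually.of_forall fun x => ?_)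
      simp only
      by_cases hx : x ∈ U (pr i)
      · rw [indicator_of_mem hx, key (pr i) x hx (L i) (hLsm i).continuous,
          ← integral_const_mul]
        refine integral_congr_ae (Eventually.of_forall fun y => ?_)
        simp only
        rw [(hΦ (pr i)).proj x hx y]
      · rw [indicator_of_notMem hx, hI]
        have hz : ∀ y, L i (Φ x (x, y)) = 0 := by
          intro y
          by_contra hne
          have h1 : Φ x (x, y) ∈ O i := hLts i (subset_tsupport _ hne)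
          rw [hO] at h1
          obtain ⟨⟨x', y'⟩, ⟨⟨hx', -⟩, -⟩, he⟩ := h1
          have h2 := (hΦ (pr i)).proj x' hx' y'
          rw [he, (hΦ x).proj x (hU x) y] at h2
          exact hx (h2 ▸ hx')
        simp only [hz, integral_zero, mul_zero]
    calc ∫ p, χ (pr p) * K p ∂μM = ∫ p, ∑ i : t, χ (pr p) * L i p ∂μM := by
          refine integral_congr_ae (Eventually.of_forall fun p => ?_)
          simp only
          rw [hLK p, Finset.mul_sum]
      _ = ∑ i : t, ∫ p, χ (pr p) * L i p ∂μM :=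
          integral_finset_sum _ fun i _ =>
            FibIntAux.integ ((hχ.comp hprc).mul (hLsm i).continuous)
      _ = ∑ i : t, ∫ x, χ x * I (L i) x ∂μB := Finset.sum_congr rfl fun i _ => hmain i
      _ = ∫ x, ∑ i : t, χ x * I (L i) x ∂μB :=
          (integral_finset_sum _ fun i _ =>
            FibIntAux.integ (hχ.mul (hsm (L i) (hLsm i)).continuous)).symm
      _ = ∫ x, χ x * I K x ∂μB := by
          refine integral_congr_ae (Eventually.of_forall fun x => ?_)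
          simp only
          rw [← Finset.mul_sum]
          congr 1
          haveI := (hν x x).fin
          simp only [hI]
          rw [← integral_finset_sum _ fun i _ =>
            FibIntAux.integ (FibIntAux.cont_fib (hΦ x) (hU x) (hLsm i).continuous)]
          refine integral_congr_ae (Eventually.of_forall fun y => ?_)
          simp only
          rw [hLK]
  · -- the formula for every trivialization
    intro V Ψ hΨ x hx h' ν' hh' hν' K hK
    rw [hI]
    exact int_fib_eq (hΦ x) hΨ (hU x) hx (hh x x (hU x)) hh' (hν x x) hν' hK.continuous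

end Pool.Agent.Lib.MP_df705a_gt.Coll
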