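import Pool.Agent.Lib.MP_df705a_gt.Coll.Defs

/-!
# Riemannian submersions preserve the horizontal volume
-/

open scoped Manifold ContDiff Topology
open Set Bundle Module Filter MeasureTheory

noncomputable section

namespace Pool.Agent.Lib.MP_df705a_gt.Coll

open Pool.Agent.Lib.MP_df705a_gt.Twist Pool.Agent.Lib.MP_df705a_gt.Perm
open Pool.Agent.Lib.MP_df705a_gt.Circ (Horizontal Submersion cf Para HorConf)
open Pool.Agent.Lib.MP_df705a_gt.Fib (RiemSub Biconformal)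

variable {E₁ : Type*} [NormedAddCommGroup E₁] [NormedSpace ℝ E₁] [FiniteDimensional ℝ E₁]
  {B : Type*} [TopologicalSpace B] [ChartedSpace E₁ B] [IsManifold 𝓘(ℝ, E₁) ∞ B]
  {E₂ : Type*} [NormedAddCommGroup E₂] [NormedSpace ℝ E₂] [FiniteDimensional ℝ E₂]
  {F : Type*} [TopologicalSpace F] [ChartedSpace E₂ F] [IsManifold 𝓘(ℝ, E₂) ∞ F]
  {E : Type*} [NormedAddCommGroup E] [NormedSpace ℝ E] [FiniteDimensional ℝ E]
  {M : Type*} [TopologicalSpace M] [ChartedSpace E M] [IsManifold 𝓘(ℝ, E) ∞ M]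

namespace HorVolAux

theorem pull (g₀ : Met E M) (gB : Met E₁ B) {pr : M → B} (hpr : RiemSub g₀ gB pr)
    {σ : E₁ × E₂ → M} {y : E₁ × E₂} {z : B} (hA : Fib.AC E pr σ y z) :
    ∀ u v : E₁, Fib.gσ g₀ σ y (u, Fib.gam g₀ σ y u) (v, Fib.gam g₀ σ y v) =
      mform 𝓘(ℝ, E₁) gB z y.1 u v := by
  have hP := hA.para.self_of_nhds
  have hsrc := hA.src
  have hfst := hA.fst
  have hy1 : y.1 ∈ (extChartAt 𝓘(ℝ, E₁) z).target := by
    rw [← hfst.self_of_nhds]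
    exact (extChartAt 𝓘(ℝ, E₁) z).map_source hsrc.self_of_nhds
  -- the projection in the parametrization
  have hpσ : (pr ∘ σ) =ᶠ[𝓝 y] (extChartAt 𝓘(ℝ, E₁) z).symm ∘ Prod.fst := by
    filter_upwards [hsrc, hfst] with y' h1 h2
    simp only [Function.comp_apply]
    rw [← h2, (extChartAt 𝓘(ℝ, E₁) z).left_inv h1]
  have hpy : pr (σ y) = (extChartAt 𝓘(ℝ, E₁) z).symm y.1 := hpσ.self_of_nhds
  have hσd : MDifferentiableAt 𝓘(ℝ, E₁ × E₂) 𝓘(ℝ, E) σ y :=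
    hP.smooth.mdifferentiableAt (by simp)
  have hprd : MDifferentiableAt 𝓘(ℝ, E) 𝓘(ℝ, E₁) pr (σ y) :=
    (hpr.1.1 (σ y)).mdifferentiableAt (by simp)
  have hfd : MDifferentiableAt 𝓘(ℝ, E₁ × E₂) 𝓘(ℝ, E₁) (Prod.fst : E₁ × E₂ → E₁) y :=
    (differentiableAt_fst (𝕜 := ℝ)).mdifferentiableAt
  have hsd := symm_mdiff 𝓘(ℝ, E₁) z hy1
  have hfm : mfderiv 𝓘(ℝ, E₁ × E₂) 𝓘(ℝ, E₁) (Prod.fst : E₁ × E₂ → E₁) y =
      ContinuousLinearMap.fst ℝ E₁ E₂ := by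
    rw [mfderiv_eq_fderiv]
    exact fderiv_fst
  have hD : ∀ w : E₁ × E₂, mfderiv 𝓘(ℝ, E) 𝓘(ℝ, E₁) pr (σ y)
      (mfderiv 𝓘(ℝ, E₁ × E₂) 𝓘(ℝ, E) σ y w) =
      mfderiv 𝓘(ℝ, E₁) 𝓘(ℝ, E₁) (extChartAt 𝓘(ℝ, E₁) z).symm y.1 w.1 := by
    intro w
    have h1 := mfderiv_comp (I := 𝓘(ℝ, E₁ × E₂)) (I' := 𝓘(ℝ, E)) (I'' := 𝓘(ℝ, E₁)) y hprd hσd
    have h2 := mfderiv_comp (I := 𝓘(ℝ, E₁ × E₂)) (I' := 𝓘(ℝ, E₁)) (I'' := 𝓘(ℝ, E₁)) y hsd hfd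
    have h3 : mfderiv 𝓘(ℝ, E₁ × E₂) 𝓘(ℝ, E₁) (pr ∘ σ) y =
        mfderiv 𝓘(ℝ, E₁ × E₂) 𝓘(ℝ, E₁) ((extChartAt 𝓘(ℝ, E₁) z).symm ∘ Prod.fst) y :=
      hpσ.mfderiv_eq
    have h4 : mfderiv 𝓘(ℝ, E₁ × E₂) 𝓘(ℝ, E₁) (pr ∘ σ) y w =
        mfderiv 𝓘(ℝ, E₁ × E₂) 𝓘(ℝ, E₁) ((extChartAt 𝓘(ℝ, E₁) z).symm ∘ Prod.fst) y w := by
      exact DFunLike.congr_fun (show (mfderiv 𝓘(ℝ, E₁ × E₂) 𝓘(ℝ, E₁) (pr ∘ σ) y :
        (E₁ × E₂) →L[ℝ] E₁) = mfderiv 𝓘(ℝ, E₁ × E₂) 𝓘(ℝ, E₁)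
          ((extChartAt 𝓘(ℝ, E₁) z).symm ∘ Prod.fst) y from h3) w
    rw [h1, h2, hfm] at h4
    exact h4
  have hinj := symm_injective 𝓘(ℝ, E₁) z hy1
  -- the form `g₀` in the parametrization
  set S := Fib.gσ g₀ σ y with hS
  have hsymm : ∀ v w, S v w = S w v := fun v w => g₀.symm _ _ _
  have hSpos : ∀ v, v ≠ 0 → 0 < S v v := by
    intro v hv
    rw [hS, Fib.gσ_apply]
    apply g₀.pos
    intro h0
    exact hv (hP.bij.1 (h0.trans (map_zero (mfderiv 𝓘(ℝ, E₁ × E₂) 𝓘(ℝ, E) σ y)).symm))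
  have hfm' : ∀ i j, Fib.fm g₀ σ y i j = S (0, finBasis ℝ E₂ i) (0, finBasis ℝ E₂ j) :=
    fun i j => rfl
  have hdet : IsUnit (Fib.fm g₀ σ y).det := by
    rw [← Matrix.isUnit_iff_isUnit_det, ← Matrix.mulVec_injective_iff_isUnit]
    intro a b hab
    rw [← sub_eq_zero]
    set c := a - b with hc
    have h1 : (Fib.fm g₀ σ y).mulVec c = 0 := by
      rw [hc, Matrix.mulVec_sub, hab, sub_self]
    set w : E₂ := ∑ i, c i • finBasis ℝ E₂ i with hw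
    have h2 : S (0, w) (0, w) = 0 := by
      rw [← Fib.G3.mB_snd S w w]
      unfold Sub.mB
      have h3 : ∀ i, (finBasis ℝ E₂).repr w i = c i := by
        intro i
        rw [hw, Basis.repr_sum_self]
      have h4 : ∀ i, ∑ j, S (0, finBasis ℝ E₂ i) (0, finBasis ℝ E₂ j) *
          ((finBasis ℝ E₂).repr w i * (finBasis ℝ E₂).repr w j) =
          c i * (Fib.fm g₀ σ y).mulVec c i := by
        intro i
        rw [Matrix.mulVec, dotProduct, Finset.mul_sum]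
        refine Finset.sum_congr rfl fun j _ => ?_
        rw [h3, h3, hfm']
        ring
      rw [Finset.sum_congr rfl fun i _ => h4 i, h1]
      simp
    have h5 : ((0 : E₁), w) = 0 := by
      by_contra h
      exact (hSpos _ h).ne' h2
    have h6 : w = 0 := congrArg Prod.snd h5
    funext i
    have h7 : (finBasis ℝ E₂).repr w i = c i := by
      rw [hw, Basis.repr_sum_self]
    rw [← h7, h6]
    simp
  have hΓ : ∀ u, Fib.gam g₀ σ y u = ∑ i, (∑ j, -(Fib.fm g₀ σ y)⁻¹ i j * S (0, finBasis ℝ E₂ j) (u, 0)) •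
      finBasis ℝ E₂ i := by
    intro u
    unfold Fib.gam
    rw [sum_apply]
    refine Finset.sum_congr rfl fun i _ => ?_
    rw [ContinuousLinearMap.smulRight_apply, sum_apply]
    congr 1
  have horth : ∀ (u : E₁) (w : E₂), S (u, Fib.gam g₀ σ y u) (0, w) = 0 := fun u w =>
    Fib.G3.orth S hsymm (Fib.fm g₀ σ y) hfm' hdet u _ (hΓ u) w
  -- horizontal and vertical vectors
  have hhor : ∀ u : E₁, Horizontal (E₁ := E₁) g₀ pr (σ y)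
      (mfderiv 𝓘(ℝ, E₁ × E₂) 𝓘(ℝ, E) σ y (u, Fib.gam g₀ σ y u)) := by
    intro u w hw
    obtain ⟨w', rfl⟩ : ∃ w' : E₁ × E₂, mfderiv 𝓘(ℝ, E₁ × E₂) 𝓘(ℝ, E) σ y w' = w := hP.bij.2 w
    rw [hD w'] at hw
    have h1 : w'.1 = 0 := hinj (hw.trans
      (map_zero (mfderiv 𝓘(ℝ, E₁) 𝓘(ℝ, E₁) (extChartAt 𝓘(ℝ, E₁) z).symm y.1)).symm)
    have h2 : w' = (0, w'.2) := Prod.ext h1 rfl
    change S (u, Fib.gam g₀ σ y u) w' = 0
    rw [h2]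
    exact horth u _
  have hpull : ∀ u v : E₁, S (u, Fib.gam g₀ σ y u) (v, Fib.gam g₀ σ y v) =
      mform 𝓘(ℝ, E₁) gB z y.1 u v := by
    intro u v
    have h1 := hpr.2 (σ y) _ _ (hhor u) (hhor v)
    rw [hD, hD] at h1
    rw [hS, Fib.gσ_apply, ← h1, mform_apply, hpy]
  exact hpull

end HorVolAux

theorem RiemSub.horVol (hd : finrank ℝ E = finrank ℝ E₁ + finrank ℝ E₂) {g : Met E M}
    {gB : Met E₁ B} {pr : M → B} (hg : RiemSub g gB pr) : HorVol E₂ g gB pr := by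
  intro σ q z hA
  have main : ∀ (g₀ : Met E M) (hpr : RiemSub g₀ gB pr), ∀ u v : E₁,
      Fib.gσ g₀ σ q (u, Fib.gam g₀ σ q u) (v, Fib.gam g₀ σ q v) = mform 𝓘(ℝ, E₁) gB z q.1 u v :=
    fun g₀ hpr => HorVolAux.pull g₀ gB hpr hA
  congr 1
  ext i j
  exact main g hg (finBasis ℝ E₁ i) (finBasis ℝ E₁ j)


end Pool.Agent.Lib.MP_df705a_gt.Coll
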