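import Pool.Agent.Lib.MP_df705a_gt.Coll.Defs

/-!
# Normal functions
-/

open scoped Manifold ContDiff Topology
open Set Bundle Module Filter MeasureTheory

noncomputable section

namespace Pool.Agent.Lib.MP_df705a_gt.Coll

open Pool.Agent.Lib.MP_df705a_gt.Twist Pool.Agent.Lib.MP_df705a_gt.Perm
open Pool.Agent.Lib.MP_df705a_gt.Circ (Horizontal Submersion cf Para HorConf)
open Pool.Agent.Lib.MP_df705a_gt.Fib (RiemSub Biconformal)

namespace NormalFunAux

open scoped Matrix MatrixOrder Matrix.Norms.L2Operator in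
/-- A positive definite matrix is a sum of squares of covectors. -/
theorem exists_factor {n : ℕ} {A : Matrix (Fin n) (Fin n) ℝ} (hA : A.PosDef) :
    ∃ S : Fin n → Fin n → ℝ, ∀ a b, ∑ i, S i a * S i b = A a b := by
  obtain ⟨S, hS⟩ := CStarAlgebra.nonneg_iff_eq_star_mul_self.1 hA.posSemidef.nonneg
  refine ⟨S, fun a b => ?_⟩
  rw [hS, Matrix.mul_apply]
  rfl

/-- The contraction with an orthonormal family of covectors. -/
theorem contr {n : ℕ} {G A S : Fin n → Fin n → ℝ} (hS : ∀ a b, ∑ i, S i a * S i b = A a b)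
    (hGA : ∀ a b, ∑ k, G a k * A k b = if a = b then 1 else 0) (X : Fin n → Fin n → ℝ) :
    ∑ i, ∑ c, ∑ d, G c d * ((∑ b, X c b * S i b) * S i d) = ∑ c, X c c := by
  have h1 : ∀ i c, ∑ d, G c d * ((∑ b, X c b * S i b) * S i d) =
      ∑ b, X c b * ∑ d, G c d * (S i d * S i b) := by
    intro i c
    have h2 : ∀ d, G c d * ((∑ b, X c b * S i b) * S i d) =
        ∑ b, X c b * (G c d * (S i d * S i b)) := by
      intro d
      rw [Finset.sum_mul, Finset.mul_sum]
      refine Finset.sum_congr rfl fun b _ => ?_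
      ring
    simp only [h2]
    rw [Finset.sum_comm]
    refine Finset.sum_congr rfl fun b _ => ?_
    rw [Finset.mul_sum]
  simp only [h1]
  rw [Finset.sum_comm]
  refine Finset.sum_congr rfl fun c _ => ?_
  rw [Finset.sum_comm]
  have h3 : ∀ b, ∑ i, X c b * ∑ d, G c d * (S i d * S i b) = X c b * if c = b then 1 else 0 := by
    intro b
    rw [← Finset.mul_sum, Finset.sum_comm, ← hGA c b]
    congr 1
    refine Finset.sum_congr rfl fun d _ => ?_
    rw [← Finset.mul_sum, hS]
  simp only [h3, mul_ite, mul_one, mul_zero, Finset.sum_ite_eq, Finset.mem_univ, if_true]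

/-- The squares of the components with respect to an orthonormal family. -/
theorem sq_sum {n : ℕ} {G A S : Fin n → Fin n → ℝ} (hS : ∀ a b, ∑ i, S i a * S i b = A a b)
    (hG : ∀ a b, G a b = G b a)
    (hGA : ∀ a b, ∑ k, G a k * A k b = if a = b then 1 else 0) (w : Fin n → ℝ) :
    ∑ i, (∑ a, ∑ b, G a b * (w a * S i b)) ^ 2 = ∑ a, ∑ b, G a b * (w a * w b) := by
  have h1 := contr hS hGA (fun c b => ∑ a, w c * (G a b * w a))
  have h2 : ∀ i, (∑ a, ∑ b, G a b * (w a * S i b)) ^ 2 =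
      ∑ c, ∑ d, G c d * ((∑ b, (∑ a, w c * (G a b * w a)) * S i b) * S i d) := by
    intro i
    rw [sq]
    have h3 : ∀ c, ∑ b, (∑ a, w c * (G a b * w a)) * S i b =
        w c * ∑ a, ∑ b, G a b * (w a * S i b) := by
      intro c
      rw [Finset.mul_sum]
      simp only [Finset.sum_mul, Finset.mul_sum]
      rw [Finset.sum_comm]
      refine Finset.sum_congr rfl fun a _ => Finset.sum_congr rfl fun b _ => ?_
      ring
    simp only [h3]
    rw [Finset.sum_mul]
    refine Finset.sum_congr rfl fun c _ => ?_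
    rw [Finset.sum_mul]
    refine Finset.sum_congr rfl fun d _ => ?_
    ring
  simp only [h2]
  rw [h1]
  refine Finset.sum_congr rfl fun c _ => Finset.sum_congr rfl fun a _ => ?_
  rw [hG a c]
  ring

/-- The contracted Christoffel symbols. -/
theorem trace_id {n : ℕ} {G : Fin n → Fin n → ℝ} (hG : ∀ a b, G a b = G b a)
    {D : Fin n → Fin n → Fin n → ℝ} (hD : ∀ c a b, D c a b = D c b a) (b : Fin n) :
    ∑ c, ∑ p, G p c * ((D b c p + D c b p - D p b c) / 2) +
      ∑ i, ∑ j, G i j * ((D i j b + D j i b - D b i j) / 2) = ∑ c, ∑ q, G q c * D c b q := by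
  set T1 := ∑ c, ∑ q, G q c * D c b q with hT1
  set T2 := ∑ c, ∑ q, G q c * D b c q with hT2
  have e1 : ∑ c, ∑ p, G p c * D p b c = T1 := by
    rw [Finset.sum_comm, hT1]
    refine Finset.sum_congr rfl fun c _ => Finset.sum_congr rfl fun p _ => ?_
    rw [hG]
  have e2 : ∑ i, ∑ j, G i j * D i j b = T1 := by
    rw [hT1]
    refine Finset.sum_congr rfl fun c _ => Finset.sum_congr rfl fun p _ => ?_
    rw [hG, hD]
  have e3 : ∑ i, ∑ j, G i j * D j i b = T1 := by
    rw [← e2, Finset.sum_comm]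
    refine Finset.sum_congr rfl fun c _ => Finset.sum_congr rfl fun p _ => ?_
    rw [hG]
  have e4 : ∑ i, ∑ j, G i j * D b i j = T2 := by
    rw [hT2]
    refine Finset.sum_congr rfl fun c _ => Finset.sum_congr rfl fun p _ => ?_
    rw [hG]
  have f1 : ∑ c, ∑ p, G p c * ((D b c p + D c b p - D p b c) / 2) = (T2 + T1 - T1) / 2 := by
    have f3 : (T2 + T1 - T1) / 2 = (∑ c, ∑ q, G q c * D b c q + ∑ c, ∑ q, G q c * D c b q -
      ∑ c, ∑ p, G p c * D p b c) / 2 := by rw [e1]
    rw [f3, ← Finset.sum_add_distrib, ← Finset.sum_sub_distrib, Finset.sum_div]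
    refine Finset.sum_congr rfl fun c _ => ?_
    rw [← Finset.sum_add_distrib, ← Finset.sum_sub_distrib, Finset.sum_div]
    refine Finset.sum_congr rfl fun p _ => ?_
    ring
  have f2 : ∑ i, ∑ j, G i j * ((D i j b + D j i b - D b i j) / 2) = (T1 + T1 - T2) / 2 := by
    have f3 : (T1 + T1 - T2) / 2 = (∑ i, ∑ j, G i j * D i j b + ∑ i, ∑ j, G i j * D j i b -
      ∑ i, ∑ j, G i j * D b i j) / 2 := by rw [e2, e3, e4]
    rw [f3, ← Finset.sum_add_distrib, ← Finset.sum_sub_distrib, Finset.sum_div]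
    refine Finset.sum_congr rfl fun c _ => ?_
    rw [← Finset.sum_add_distrib, ← Finset.sum_sub_distrib, Finset.sum_div]
    refine Finset.sum_congr rfl fun p _ => ?_
    ring
  rw [f1, f2]
  ring

theorem rearr {n : ℕ} (G dG : Fin n → Fin n → ℝ) (w H S : Fin n → ℝ)
    (K : Fin n → Fin n → ℝ) :
    ∑ a, ∑ b, (G a b * (w a * (∑ p, ∑ q, G p q * K b p * S q) + S b * H a) +
      (w a * S b) * dG a b) =
    ∑ b, (∑ a, dG a b * w a + ∑ a, G a b * H a +
      ∑ a, ∑ b', ∑ p, G a b' * w a * (G p b * K b' p)) * S b := by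
  have h1 : ∀ a b, G a b * (w a * (∑ p, ∑ q, G p q * K b p * S q) + S b * H a) +
      (w a * S b) * dG a b = (dG a b * w a) * S b + (G a b * H a) * S b +
        ∑ q, (∑ p, G a b * w a * (G p q * K b p)) * S q := by
    intro a b
    have h2 : ∑ q, (∑ p, G a b * w a * (G p q * K b p)) * S q =
        G a b * w a * ∑ p, ∑ q, G p q * K b p * S q := by
      rw [Finset.mul_sum]
      simp only [Finset.sum_mul, Finset.mul_sum]
      rw [Finset.sum_comm]
      refine Finset.sum_congr rfl fun p _ => Finset.sum_congr rfl fun q _ => ?_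
      ring
    rw [h2]
    ring
  simp only [h1, Finset.sum_add_distrib, add_mul, Finset.sum_mul]
  refine congrArg₂ _ (congrArg₂ _ (Finset.sum_comm) (Finset.sum_comm)) ?_
  have h3 : ∀ a, ∑ b, ∑ q, ∑ p, G a b * w a * (G p q * K b p) * S q =
      ∑ q, ∑ b, ∑ p, G a b * w a * (G p q * K b p) * S q := fun a => Finset.sum_comm
  simp only [h3]
  rw [Finset.sum_comm]

/-- The trace identity. -/
theorem trace_main {n : ℕ} {G : Fin n → Fin n → ℝ} (hG : ∀ a b, G a b = G b a)
    {D : Fin n → Fin n → Fin n → ℝ} (hD : ∀ c a b, D c a b = D c b a)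
    (w : Fin n → ℝ) (H : Fin n → Fin n → ℝ) :
    ∑ c, (∑ a, (-∑ k, ∑ l, G a k * G l c * D c k l) * w a + ∑ a, G a c * H c a +
      ∑ a, ∑ b', ∑ p, G a b' * w a * (G p c * ((D b' c p + D c b' p - D p b' c) / 2))) =
    ∑ i, ∑ j, G i j * (H i j - ∑ p, ∑ q, G p q * ((D i j p + D j i p - D p i j) / 2) * w q) := by
  have e1 : ∑ c, ∑ a, (-∑ k, ∑ l, G a k * G l c * D c k l) * w a =
      ∑ a, ∑ b, w a * G a b * (-∑ c, ∑ q, G q c * D c b q) := by
    rw [Finset.sum_comm]
    refine Finset.sum_congr rfl fun a _ => ?_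
    have h1 : ∀ c, (-∑ k, ∑ l, G a k * G l c * D c k l) * w a =
        ∑ b, w a * G a b * (-∑ q, G q c * D c b q) := by
      intro c
      rw [neg_mul, Finset.sum_mul, ← Finset.sum_neg_distrib]
      refine Finset.sum_congr rfl fun k _ => ?_
      rw [Finset.sum_mul, mul_neg, Finset.mul_sum]
      congr 1
      refine Finset.sum_congr rfl fun l _ => ?_
      ring
    simp only [h1]
    rw [Finset.sum_comm]
    refine Finset.sum_congr rfl fun b _ => ?_
    rw [← Finset.mul_sum, ← Finset.sum_neg_distrib]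
  have e2 : ∑ c, ∑ a, ∑ b', ∑ p, G a b' * w a *
      (G p c * ((D b' c p + D c b' p - D p b' c) / 2)) =
      ∑ a, ∑ b, w a * G a b * ∑ c, ∑ p, G p c * ((D b c p + D c b p - D p b c) / 2) := by
    rw [Finset.sum_comm]
    refine Finset.sum_congr rfl fun a _ => ?_
    rw [Finset.sum_comm]
    refine Finset.sum_congr rfl fun b _ => ?_
    rw [Finset.mul_sum]
    refine Finset.sum_congr rfl fun c _ => ?_
    rw [Finset.mul_sum]
    refine Finset.sum_congr rfl fun p _ => ?_
    ring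
  have e3 : ∑ i, ∑ j, G i j * (H i j - ∑ p, ∑ q, G p q *
      ((D i j p + D j i p - D p i j) / 2) * w q) = ∑ i, ∑ j, G i j * H i j -
      ∑ a, ∑ b, w a * G a b * ∑ i, ∑ j, G i j * ((D i j b + D j i b - D b i j) / 2) := by
    simp only [mul_sub, Finset.sum_sub_distrib]
    congr 1
    have h1 : ∀ i j, G i j * ∑ p, ∑ q, G p q * ((D i j p + D j i p - D p i j) / 2) * w q =
        ∑ a, ∑ b, w a * G a b * (G i j * ((D i j b + D j i b - D b i j) / 2)) := by
      intro i j
      rw [Finset.sum_comm, Finset.mul_sum]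
      refine Finset.sum_congr rfl fun a _ => ?_
      rw [Finset.mul_sum]
      refine Finset.sum_congr rfl fun b _ => ?_
      rw [hG a b]
      ring
    simp only [h1, Finset.mul_sum]
    have h2 : ∀ i, ∑ j, ∑ a, ∑ b, w a * G a b * (G i j * ((D i j b + D j i b - D b i j) / 2)) =
        ∑ a, ∑ b, ∑ j, w a * G a b * (G i j * ((D i j b + D j i b - D b i j) / 2)) := by
      intro i
      rw [Finset.sum_comm]
      refine Finset.sum_congr rfl fun a _ => ?_
      rw [Finset.sum_comm]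
    simp only [h2]
    rw [Finset.sum_comm]
    refine Finset.sum_congr rfl fun a _ => ?_
    rw [Finset.sum_comm]
  have e4 : ∑ c, ∑ a, G a c * H c a = ∑ i, ∑ j, G i j * H i j := by
    refine Finset.sum_congr rfl fun c _ => Finset.sum_congr rfl fun a _ => ?_
    rw [hG]
  simp only [Finset.sum_add_distrib]
  rw [e1, e2, e3, e4]
  have e5 : ∀ a b, w a * G a b * (-∑ c, ∑ q, G q c * D c b q) = -(w a * G a b *
      ∑ c, ∑ p, G p c * ((D b c p + D c b p - D p b c) / 2)) - w a * G a b *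
      ∑ i, ∑ j, G i j * ((D i j b + D j i b - D b i j) / 2) := by
    intro a b
    rw [← trace_id hG hD b]
    ring
  simp only [e5, Finset.sum_sub_distrib, Finset.sum_neg_distrib]
  ring

section analytic

variable {E : Type*} [NormedAddCommGroup E] [NormedSpace ℝ E] [FiniteDimensional ℝ E]

/-- The `k`-th coordinate. -/
def xi (k : Fin (finrank ℝ E)) : E →L[ℝ] ℝ :=
  LinearMap.toContinuousLinearMap ((finBasis ℝ E).coord k)

theorem xi_basis (k l : Fin (finrank ℝ E)) : xi k (finBasis ℝ E l) = if k = l then 1 else 0 := by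
  have h1 : xi k (finBasis ℝ E l) = (finBasis ℝ E).repr (finBasis ℝ E l) k := rfl
  rw [h1, Basis.repr_self, Finsupp.single_apply]
  simp only [eq_comm]

/-- A quadratic polynomial. -/
def loc (S : Fin (finrank ℝ E) → ℝ) (C : Fin (finrank ℝ E) → Fin (finrank ℝ E) → ℝ)
    (x0 y : E) : ℝ :=
  ∑ k, S k * xi k (y - x0) + (1 / 2) * ∑ k, ∑ l, C k l * (xi k (y - x0) * xi l (y - x0))

theorem xi_hasFDerivAt (x0 : E) (k : Fin (finrank ℝ E)) (y : E) :
    HasFDerivAt (fun y => xi k (y - x0)) (xi k) y := by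
  have h1 : (fun y => xi k (y - x0)) = fun y => xi k y - xi k x0 := by
    funext y
    rw [map_sub]
  rw [h1]
  exact (xi k).hasFDerivAt.sub_const _

theorem xi_contDiff (x0 : E) (k : Fin (finrank ℝ E)) :
    ContDiff ℝ ∞ (fun y => xi k (y - x0)) :=
  (xi k).contDiff.comp (contDiff_id.sub contDiff_const)

variable (S : Fin (finrank ℝ E) → ℝ) (C : Fin (finrank ℝ E) → Fin (finrank ℝ E) → ℝ) (x0 : E)

theorem loc_contDiff : ContDiff ℝ ∞ (loc S C x0) := by
  refine ContDiff.add (ContDiff.sum fun k _ => contDiff_const.mul (xi_contDiff x0 k))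
    (contDiff_const.mul (ContDiff.sum fun k _ => ContDiff.sum fun l _ =>
      contDiff_const.mul ((xi_contDiff x0 k).mul (xi_contDiff x0 l))))

theorem pd_loc (hC : ∀ k l, C k l = C l k) (a : Fin (finrank ℝ E)) :
    Curv.pd a (loc S C x0) = fun y => S a + ∑ l, C a l * xi l (y - x0) := by
  funext y
  have h1 : HasFDerivAt (loc S C x0) (∑ k, S k • xi k + (1 / 2 : ℝ) • ∑ k, ∑ l, C k l •
      (xi k (y - x0) • xi l + xi l (y - x0) • xi k)) y := by
    refine HasFDerivAt.add (HasFDerivAt.fun_sum fun k _ => ?_) (HasFDerivAt.const_mul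
      (HasFDerivAt.fun_sum fun k _ => HasFDerivAt.fun_sum fun l _ => ?_) _)
    · exact (xi_hasFDerivAt x0 k y).const_mul _
    · exact ((xi_hasFDerivAt x0 k y).mul (xi_hasFDerivAt x0 l y)).const_mul _
  unfold Curv.pd
  rw [h1.fderiv]
  simp only [_root_.add_apply, _root_.sum_apply, _root_.smul_apply, smul_eq_mul, xi_basis]
  have h2 : ∑ k, S k * (if k = a then (1 : ℝ) else 0) = S a := by simp
  have h3 : ∑ k, ∑ l, C k l * (xi k (y - x0) * (if l = a then (1 : ℝ) else 0) +
      xi l (y - x0) * (if k = a then (1 : ℝ) else 0)) = 2 * ∑ l, C a l * xi l (y - x0) := by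
    simp only [mul_add, Finset.sum_add_distrib, mul_ite, mul_one, mul_zero]
    have h4 : ∑ k, ∑ l, (if l = a then C k l * xi k (y - x0) else 0) =
        ∑ l, C a l * xi l (y - x0) := by
      refine Finset.sum_congr rfl fun k _ => ?_
      rw [Finset.sum_ite_eq' Finset.univ a, if_pos (Finset.mem_univ a), hC]
    have h5 : ∑ k, ∑ l, (if k = a then C k l * xi l (y - x0) else 0) =
        ∑ l, C a l * xi l (y - x0) := by
      rw [Finset.sum_comm]
      refine Finset.sum_congr rfl fun l _ => ?_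
      rw [Finset.sum_ite_eq' Finset.univ a, if_pos (Finset.mem_univ a)]
    rw [h4, h5]
    ring
  rw [h2, h3]
  ring

theorem pd_pd_loc (hC : ∀ k l, C k l = C l k) (c a : Fin (finrank ℝ E)) (y : E) :
    Curv.pd c (Curv.pd a (loc S C x0)) y = C a c := by
  rw [pd_loc S C x0 hC]
  have h1 : HasFDerivAt (fun y => S a + ∑ l, C a l * xi l (y - x0)) (∑ l, C a l • xi l) y := by
    refine HasFDerivAt.const_add _ (HasFDerivAt.fun_sum fun l _ => ?_)
    exact (xi_hasFDerivAt x0 l y).const_mul _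
  unfold Curv.pd
  rw [h1.fderiv]
  simp only [_root_.sum_apply, _root_.smul_apply, smul_eq_mul, xi_basis]
  simp

theorem pd_loc_self (hC : ∀ k l, C k l = C l k) (a : Fin (finrank ℝ E)) :
    Curv.pd a (loc S C x0) x0 = S a := by
  rw [pd_loc S C x0 hC]
  simp

/-- The derivative of the scalar product with a function whose jet is known. -/
theorem pd_gradC {h : Curv.Coeff E} {x : E} (hh : ∀ i j, ContDiffAt ℝ ∞ (fun y => h y i j) x)
    (hdet : (h x).det ≠ 0) {W F : E → ℝ} (hW : ContDiffAt ℝ ∞ W x) (hF : ContDiffAt ℝ ∞ F x)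
    (c : Fin (finrank ℝ E)) :
    Curv.pd c (gradC h W F) x = ∑ a, ∑ b, ((h x)⁻¹ a b *
      (Curv.pd a W x * Curv.pd c (Curv.pd b F) x + Curv.pd b F x * Curv.pd c (Curv.pd a W) x) +
      (Curv.pd a W x * Curv.pd b F x) *
        (-∑ k, ∑ l, (h x)⁻¹ a k * (h x)⁻¹ l b * Curv.pd c (fun y => h y k l) x)) := by
  have hI : ∀ i j, DifferentiableAt ℝ (fun y => (h y)⁻¹ i j) x := fun i j =>
    (contDiffAt_inv hh hdet i j).differentiableAt (by simp)
  have hW1 : ∀ a, DifferentiableAt ℝ (Curv.pd a W) x := fun a =>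
    (g3_pd_smooth hW a).differentiableAt (by simp)
  have hF1 : ∀ a, DifferentiableAt ℝ (Curv.pd a F) x := fun a =>
    (g3_pd_smooth hF a).differentiableAt (by simp)
  have h1 : HasFDerivAt (gradC h W F) (∑ a, ∑ b, ((h x)⁻¹ a b •
      (Curv.pd a W x • fderiv ℝ (Curv.pd b F) x + Curv.pd b F x • fderiv ℝ (Curv.pd a W) x) +
      (Curv.pd a W x * Curv.pd b F x) • fderiv ℝ (fun y => (h y)⁻¹ a b) x)) x := by
    refine HasFDerivAt.fun_sum fun a _ => HasFDerivAt.fun_sum fun b _ => ?_
    exact (hI a b).hasFDerivAt.mul ((hW1 a).hasFDerivAt.mul (hF1 b).hasFDerivAt)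
  have h2 : ∀ a b, fderiv ℝ (fun y => (h y)⁻¹ a b) x (finBasis ℝ E c) =
      -∑ k, ∑ l, (h x)⁻¹ a k * (h x)⁻¹ l b * Curv.pd c (fun y => h y k l) x := fun a b =>
    fderiv_inv (fun i j => (hh i j).of_le (by simp)) hdet a b (finBasis ℝ E c)
  unfold Curv.pd
  rw [h1.fderiv]
  simp only [_root_.add_apply, _root_.sum_apply, _root_.smul_apply, smul_eq_mul, h2]
  rfl

end analytic

end NormalFunAux

open NormalFunAux

variable {E : Type*} [NormedAddCommGroup E] [NormedSpace ℝ E] [FiniteDimensional ℝ E]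
  {M : Type*} [TopologicalSpace M] [ChartedSpace E M] [IsManifold 𝓘(ℝ, E) ∞ M]

/-- Functions which are normal coordinates at `x`. -/
theorem exists_normal [T2Space M] (g : Met E M) (x : M) :
    ∃ f : Fin (finrank ℝ E) → M → ℝ, NormalAt g x f := by
  set x0 := extChartAt 𝓘(ℝ, E) x x with hx0
  have ht : x0 ∈ (extChartAt 𝓘(ℝ, E) x).target := mem_extChartAt_target x
  set h := coeff g x with hh0
  have hpos : (h x0).PosDef := chartMetric_posDef 𝓘(ℝ, E) (finBasis ℝ E) g x ht
  have hsm : ∀ i j, ContDiffAt ℝ ∞ (fun y => h y i j) x0 := fun i j => g3_coeff_smooth g x ht i j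
  have hdet : (h x0).det ≠ 0 := g3_coeff_det g x ht
  have hsymm : ∀ y a b, h y a b = h y b a := fun y a b =>
    chartMetric_symm 𝓘(ℝ, E) (finBasis ℝ E) g x y a b
  obtain ⟨S, hS⟩ := exists_factor hpos
  set G : Fin (finrank ℝ E) → Fin (finrank ℝ E) → ℝ := fun a b => (h x0)⁻¹ a b with hG0
  have hG : ∀ a b, G a b = G b a := by
    intro a b
    have h1 := hpos.isHermitian.inv.apply b a
    simpa using h1
  have hGA : ∀ a b, ∑ k, G a k * h x0 k b = if a = b then 1 else 0 := by
    intro a b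
    have h1 : ∑ k, G a k * h x0 k b = ((h x0)⁻¹ * h x0) a b := by
      rw [Matrix.mul_apply]
    rw [h1, Matrix.nonsing_inv_mul _ hdet.isUnit, Matrix.one_apply]
  set D : Fin (finrank ℝ E) → Fin (finrank ℝ E) → Fin (finrank ℝ E) → ℝ := fun c a b =>
    Curv.pd c (fun y => h y a b) x0 with hD0
  have hD : ∀ c a b, D c a b = D c b a := by
    intro c a b
    have h1 : (fun y => h y a b) = fun y => h y b a := funext fun y => hsymm y a b
    simp only [hD0]
    rw [h1]
  have hK : ∀ i j k, Curv.christoffel h i j k x0 = (D i j k + D j i k - D k i j) / 2 :=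
    fun i j k => rfl
  set C : Fin (finrank ℝ E) → Fin (finrank ℝ E) → Fin (finrank ℝ E) → ℝ := fun i b c =>
    ∑ p, ∑ q, G p q * ((D b c p + D c b p - D p b c) / 2) * S i q with hC0
  have hC : ∀ i k l, C i k l = C i l k := by
    intro i k l
    simp only [hC0]
    refine Finset.sum_congr rfl fun p _ => Finset.sum_congr rfl fun q _ => ?_
    rw [hD p k l]
    ring
  obtain ⟨b⟩ : Nonempty (SmoothBumpFunction 𝓘(ℝ, E) x) := inferInstance
  let F : Fin (finrank ℝ E) → E → ℝ := fun i => loc (S i) (C i) x0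
  have hFs : ∀ i, ContDiff ℝ ∞ (F i) := fun i => loc_contDiff _ _ _
  let f : Fin (finrank ℝ E) → M → ℝ := fun i y => b y • F i (extChartAt 𝓘(ℝ, E) x y)
  have hf : ∀ i, Sm E (f i) := by
    intro i
    refine b.contMDiff_smul (g := fun y => F i (extChartAt 𝓘(ℝ, E) x y)) ?_
    have h1 : ContMDiffOn 𝓘(ℝ, E) 𝓘(ℝ, E) ∞ (extChartAt 𝓘(ℝ, E) x) (chartAt E x).source :=
      contMDiffOn_extChartAt
    exact (hFs i).contMDiff.comp_contMDiffOn h1
  have hfF : ∀ i, rd E x (f i) =ᶠ[𝓝 x0] F i := by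
    intro i
    have h1 : ∀ᶠ y in 𝓝 x0, b ((extChartAt 𝓘(ℝ, E) x).symm y) = 1 := by
      have h2 : Tendsto (extChartAt 𝓘(ℝ, E) x).symm (𝓝 x0) (𝓝 x) := by
        have h3 := continuousAt_extChartAt_symm (I := 𝓘(ℝ, E)) x
        have h4 : (extChartAt 𝓘(ℝ, E) x).symm (extChartAt 𝓘(ℝ, E) x x) = x :=
          extChartAt_to_inv (I := 𝓘(ℝ, E)) x
        have h5 := h3.tendsto
        rw [h4] at h5
        exact h5
      exact h2.eventually b.eventuallyEq_one
    filter_upwards [h1, (isOpen_extChartAt_target x).mem_nhds ht] with y hy hy2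
    simp only [rd, f]
    rw [hy, (extChartAt 𝓘(ℝ, E) x).right_inv hy2, one_smul]
  have hpd : ∀ i a, Curv.pd a (F i) x0 = S i a := fun i a => pd_loc_self _ _ _ (hC i) a
  have hpd2 : ∀ i c a, Curv.pd c (Curv.pd a (F i)) x0 = C i a c := fun i c a =>
    pd_pd_loc _ _ _ (hC i) c a x0
  refine ⟨f, hf, ?_, ?_, ?_⟩
  · intro i
    show lapC h (rd E x (f i)) x0 = 0
    rw [g3_lapC_congr (hfF i)]
    unfold lapC Curv.covHess
    refine Finset.sum_eq_zero fun a _ => Finset.sum_eq_zero fun c _ => ?_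
    simp only [hpd, hpd2, hK]
    have h1 : C i c a - ∑ p, ∑ q, (h x0)⁻¹ p q * ((D a c p + D c a p - D p a c) / 2) * S i q =
        0 := by
      rw [hC i c a]
      exact sub_self _
    rw [h1, mul_zero]
  · intro W hW
    have h1 : ∀ i, gradC h W (rd E x (f i)) x0 =
        ∑ a, ∑ b, G a b * (Curv.pd a W x0 * S i b) := by
      intro i
      rw [g3_gradC_congr (EventuallyEq.refl _ W) (hfF i)]
      unfold gradC
      simp only [hpd]
      rfl
    exact (Finset.sum_congr rfl fun i _ => congrArg (fun t => t ^ 2) (h1 i)).trans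
      (sq_sum hS hG hGA fun a => Curv.pd a W x0)
  · intro W hW
    have h1 : ∀ i, gradC h (gradC h W (rd E x (f i))) (rd E x (f i)) x0 =
        ∑ c, ∑ d, G c d * ((∑ b, (∑ a, (-∑ k, ∑ l, G a k * G l b * D c k l) * Curv.pd a W x0 +
          ∑ a, G a b * Curv.pd c (Curv.pd a W) x0 +
          ∑ a, ∑ b', ∑ p, G a b' * Curv.pd a W x0 *
            (G p b * ((D b' c p + D c b' p - D p b' c) / 2))) * S i b) * S i d) := by
      intro i
      have h2 : gradC h W (rd E x (f i)) =ᶠ[𝓝 x0] gradC h W (F i) := by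
        filter_upwards [(hfF i).eventuallyEq_nhds] with y hy
        exact g3_gradC_congr (EventuallyEq.refl _ W) hy
      rw [g3_gradC_congr h2 (hfF i)]
      have h3 : gradC h (gradC h W (F i)) (F i) x0 = ∑ c, ∑ d, G c d *
          (Curv.pd c (gradC h W (F i)) x0 * Curv.pd d (F i) x0) := rfl
      rw [h3]
      refine Finset.sum_congr rfl fun c _ => Finset.sum_congr rfl fun d _ => ?_
      rw [pd_gradC hsm hdet hW (hFs i).contDiffAt c, hpd i d]
      congr 2
      simp only [hpd, hpd2]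
      exact rearr G (fun a b => -∑ k, ∑ l, G a k * G l b * D c k l) (fun a => Curv.pd a W x0)
        (fun a => Curv.pd c (Curv.pd a W) x0) (S i)
        (fun b p => (D b c p + D c b p - D p b c) / 2)
    refine (Finset.sum_congr rfl fun i _ => h1 i).trans ?_
    rw [contr hS hGA (fun c b => ∑ a, (-∑ k, ∑ l, G a k * G l b * D c k l) * Curv.pd a W x0 +
          ∑ a, G a b * Curv.pd c (Curv.pd a W) x0 +
          ∑ a, ∑ b', ∑ p, G a b' * Curv.pd a W x0 *
            (G p b * ((D b' c p + D c b' p - D p b' c) / 2)))]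
    exact trace_main hG hD (fun a => Curv.pd a W x0) (fun c a => Curv.pd c (Curv.pd a W) x0)

theorem NormalAt.grd_sq {g : Met E M} {x : M} {f : Fin (finrank ℝ E) → M → ℝ}
    (hf : NormalAt g x f) {V : M → ℝ} (hV : Sm E V) :
    ∑ i, Grd g V (f i) x ^ 2 = Grd g V V x :=
  hf.sq (rd E x V) (g3_rd_smooth hV x (mem_extChartAt_target x))

theorem NormalAt.grd_grd {g : Met E M} {x : M} {f : Fin (finrank ℝ E) → M → ℝ}
    (hf : NormalAt g x f) {V : M → ℝ} (hV : Sm E V) :
    ∑ i, Grd g (Grd g V (f i)) (f i) x = Lap g V x := by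
  rw [Lap, ← hf.trc (rd E x V) (g3_rd_smooth hV x (mem_extChartAt_target x))]
  refine Finset.sum_congr rfl fun i _ => ?_
  have h1 : rd E x (Grd g V (f i)) =ᶠ[𝓝 (extChartAt 𝓘(ℝ, E) x x)]
      gradC (coeff g x) (rd E x V) (rd E x (f i)) := by
    filter_upwards [(isOpen_extChartAt_target x).mem_nhds (mem_extChartAt_target x)] with y hy
    exact (grd_chart g hV (hf.sm i) x hy).symm
  rw [Grd, g3_gradC_congr h1 (EventuallyEq.refl _ _)]

end Pool.Agent.Lib.MP_df705a_gt.Coll
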