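import Pool.Agent.Lib.MP_df705a_gt.Coll.Defs
import Pool.Agent.Lib.MP_df705a_gt.Fib.MinOf
import Pool.Agent.Lib.MP_df705a_gt.Mg.G013

/-!
# The mean curvature of the fibres
-/

open scoped Manifold ContDiff Topology
open Set Bundle Module Filter MeasureTheory

noncomputable section

namespace Pool.Agent.Lib.MP_df705a_gt.Coll

open Pool.Agent.Lib.MP_df705a_gt.Twist Pool.Agent.Lib.MP_df705a_gt.Perm
open Pool.Agent.Lib.MP_df705a_gt.Circ (Horizontal Submersion cf Para HorConf)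
open Pool.Agent.Lib.MP_df705a_gt.Fib (RiemSub Biconformal)

variable {E₁ : Type*} [NormedAddCommGroup E₁] [NormedSpace ℝ E₁] [FiniteDimensional ℝ E₁]
  {B : Type*} [TopologicalSpace B] [ChartedSpace E₁ B] [IsManifold 𝓘(ℝ, E₁) ∞ B]
  {E₂ : Type*} [NormedAddCommGroup E₂] [NormedSpace ℝ E₂] [FiniteDimensional ℝ E₂]
  {F : Type*} [TopologicalSpace F] [ChartedSpace E₂ F] [IsManifold 𝓘(ℝ, E₂) ∞ F]
  {E : Type*} [NormedAddCommGroup E] [NormedSpace ℝ E] [FiniteDimensional ℝ E]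
  {M : Type*} [TopologicalSpace M] [ChartedSpace E M] [IsManifold 𝓘(ℝ, E) ∞ M]

open Pool.Agent.Lib.MP_df705a_gt.Sub (mB connMetric expn lift Dat)
open Pool.Agent.Lib.MP_df705a_gt.Fib (conn₀ NF AC fm gam)


/-- The function `NN` is the rate of change of the volume of the fibres. -/
theorem NN_eq {pr : M → B} {g : Met E M} {gB : Met E₁ B} (hpr : RiemSub g gB pr)
    {σ : E₁ × E₂ → M} {q : E₁ × E₂} {z : B} (hA : AC E pr σ q z) {f : B → ℝ} (hf : Sm E₁ f) :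
    (fun p => NN g gB pr f (σ p)) =ᶠ[𝓝 q] fun p => expn (fm g σ) (gam g σ) p
      (gradM (finBasis ℝ E₁) (coeff gB z p.1) (fderiv ℝ (rd E₁ z f) p.1)) := by
  have hcf := Fib.cf_eq_conn g g gB hpr (Fib.G7.bi_self (E₁ := E₁) g pr) hA
  have htar : ∀ᶠ y in 𝓝 q, y.1 ∈ (extChartAt 𝓘(ℝ, E₁) z).target := by
    filter_upwards [hA.src, hA.fst] with y h1 h2
    rw [← h2]
    exact (extChartAt 𝓘(ℝ, E₁) z).map_source h1
  have hsymm : ∀ᶠ y in 𝓝 q, (extChartAt 𝓘(ℝ, E₁) z).symm y.1 = pr (σ y) := by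
    filter_upwards [hA.src, hA.fst] with y h1 h2
    rw [← h2]
    exact (extChartAt 𝓘(ℝ, E₁) z).left_inv h1
  have hbase : ∀ u : B → ℝ, (fun y : E₁ × E₂ => rd E₁ z u y.1) =ᶠ[𝓝 q]
      (fun p => u (pr p)) ∘ σ := by
    intro u
    filter_upwards [hsymm] with y hy
    unfold rd
    rw [hy]
    rfl
  filter_upwards [hcf.eventually_nhds, (hbase f).eventually_nhds, hA.para, Fib.G7.AC_near hA,
    htar, hsymm] with y h1 h2 h3 h4 h5 h6
  have hlap : lapC (conn₀ (coeff gB z) (fm g σ) (gam g σ)) (fun p => rd E₁ z f p.1) y =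
      Lap g (fun p => f (pr p)) (σ y) := by
    rw [← Circ.lap_cf g h3 (Circ.sm_comp_pr hpr.1.1 hf), g3_lapC_congr h2]
    exact Circ.lapC_congr_metric (h1.mono fun _ h => h.symm)
  have hα : Sm E (fun _ : M => (0 : ℝ)) := contMDiff_const
  have hD := Fib.Dat_of_AC g gB h4 hα hα
  have e1 := Fib.lap_conn hD (F := rd E₁ z f) (g3_rd_smooth hf z h5)
  have e2 := lap_chart gB hf z h5
  rw [h6] at e2
  rw [hlap, e2] at e1
  unfold NN
  rw [e1]
  ring

theorem sm_NN {pr : M → B} (hpr : ContMDiff 𝓘(ℝ, E) 𝓘(ℝ, E₁) ∞ pr) (g : Met E M)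
    (gB : Met E₁ B) {f : B → ℝ} (hf : Sm E₁ f) : Sm E (NN g gB pr f) := by
  have h1 : Sm E (Lap g (fun p => f (pr p))) := Circ.sm_lap g (Circ.sm_comp_pr hpr hf)
  have h2 : Sm E (fun p => Lap gB f (pr p)) := Circ.sm_comp_pr hpr (Circ.sm_lap gB hf)
  exact ContMDiff.sub h1 h2

end Pool.Agent.Lib.MP_df705a_gt.Coll
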