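import Pool.Agent.Lib.MP_df705a_gt.Coll.X.OneillNF
import Pool.Agent.Lib.MP_df705a_gt.Coll.X.NN
import Pool.Agent.Lib.MP_df705a_gt.Coll.X.Psi

/-!
# The formula of O'Neill
-/

open scoped Manifold ContDiff Topology
open Set Bundle Module Filter MeasureTheory

noncomputable section

set_option maxSynthPendingDepth 3
set_option linter.unusedSectionVars false

namespace Pool.Agent.Lib.MP_df705a_gt.Coll

open Pool.Agent.Lib.MP_df705a_gt.Twist Pool.Agent.Lib.MP_df705a_gt.Perm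
open Pool.Agent.Lib.MP_df705a_gt.Circ (Horizontal Submersion cf Para HorConf)
open Pool.Agent.Lib.MP_df705a_gt.Fib (RiemSub Biconformal)

variable {E₁ : Type*} [NormedAddCommGroup E₁] [NormedSpace ℝ E₁] [FiniteDimensional ℝ E₁]
  {B : Type*} [TopologicalSpace B] [ChartedSpace E₁ B] [IsManifold 𝓘(ℝ, E₁) ∞ B]
  {E₂ : Type*} [NormedAddCommGroup E₂] [NormedSpace ℝ E₂] [FiniteDimensional ℝ E₂]
  {F : Type*} [TopologicalSpace F] [ChartedSpace E₂ F] [IsManifold 𝓘(ℝ, E₂) ∞ F]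
  {E : Type*} [NormedAddCommGroup E] [NormedSpace ℝ E] [FiniteDimensional ℝ E]
  {M : Type*} [TopologicalSpace M] [ChartedSpace E M] [IsManifold 𝓘(ℝ, E) ∞ M]

open Pool.Agent.Lib.MP_df705a_gt.Sub (mB connMetric expn lift Dat)
open Pool.Agent.Lib.MP_df705a_gt.Fib (conn₀ NF AC fm gam)

namespace OneillAux

open Pool.Agent.Lib.MP_df705a_gt.Fib (gσ gσ_apply normT normT_smooth normT_fst normT_self
  normT_fderiv)

theorem fm_smooth (g : Met E M) {pr : M → B} {σ : E₁ × E₂ → M} {q : E₁ × E₂} {z : B}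
    (hA : AC E pr σ q z) (i j : Fin (finrank ℝ E₂)) :
    ContDiffAt ℝ ∞ (fun y => fm g σ y i j) q :=
  Fib.G2.gσ_smooth g hA.para _ _

theorem gam_smooth (g : Met E M) {pr : M → B} {σ : E₁ × E₂ → M} {q : E₁ × E₂} {z : B}
    (hA : AC E pr σ q z) : ContDiffAt ℝ ∞ (gam g σ) q := by
  apply Fib.G2.clm_smooth
  intro u
  have h2 : (fun y => gam g σ y u) = fun y => ∑ i, (∑ j, -(fm g σ y)⁻¹ i j *
      gσ g σ y (0, finBasis ℝ E₂ j) (u, 0)) • finBasis ℝ E₂ i := by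
    funext y
    unfold gam
    rw [_root_.sum_apply]
    refine Finset.sum_congr rfl fun i _ => ?_
    rw [ContinuousLinearMap.smulRight_apply, _root_.sum_apply]
    congr 1
  rw [h2]
  refine ContDiffAt.sum fun i _ => ?_
  refine ContDiffAt.smul (ContDiffAt.sum fun j _ => ?_) contDiffAt_const
  refine ContDiffAt.mul ?_ (Fib.G2.gσ_smooth g hA.para _ _)
  exact (contDiffAt_inv (fm_smooth g hA) (Fib.G2.fm_pos g hA.para.self_of_nhds).det_pos.ne'
    i j).neg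

/-- The vertical part of the derivative of `normT`. -/
theorem normT_vert (Γ : E₁ × E₂ → E₁ →L[ℝ] E₂) (q y : E₁ × E₂) (w : E₂) :
    fderiv ℝ (normT Γ q) y (0, w) = (0, w + fderiv ℝ Γ q (0, w) (y.1 - q.1)) := by
  have h0 : ((0, 0) : E₁ × E₂) = 0 := rfl
  rw [(Fib.G4Normal.hasFDerivAt_normT Γ q y).fderiv]
  simp [Fib.G4Normal.dtau2, h0]

theorem fm_comp (g : Met E M) {pr : M → B} {σ : E₁ × E₂ → M} {q : E₁ × E₂} {z : B}
    (hA : AC E pr σ q z) : ∀ᶠ y in 𝓝 q, ∀ i j, fm g (σ ∘ normT (gam g σ) q) y i j =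
      mB (fm g σ (normT (gam g σ) q y))
        (finBasis ℝ E₂ i + fderiv ℝ (gam g σ) q (0, finBasis ℝ E₂ i) (y.1 - q.1))
        (finBasis ℝ E₂ j + fderiv ℝ (gam g σ) q (0, finBasis ℝ E₂ j) (y.1 - q.1)) := by
  set τ := normT (gam g σ) q with hτd
  have hτ : ContDiff ℝ ∞ τ := normT_smooth _ _
  have hτq : τ q = q := normT_self _ _
  have ht := Fib.G6.tendsto hτ hτq
  filter_upwards [ht.eventually hA.para] with y hy i j
  have hτy : ContMDiffAt 𝓘(ℝ, E₁ × E₂) 𝓘(ℝ, E₁ × E₂) ∞ τ y := hτ.contMDiff y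
  have h3 : mfderiv 𝓘(ℝ, E₁ × E₂) 𝓘(ℝ, E) (σ ∘ τ) y =
      (mfderiv 𝓘(ℝ, E₁ × E₂) 𝓘(ℝ, E) σ (τ y)).comp
        (mfderiv 𝓘(ℝ, E₁ × E₂) 𝓘(ℝ, E₁ × E₂) τ y) :=
    mfderiv_comp y (hy.smooth.mdifferentiableAt (by simp)) (hτy.mdifferentiableAt (by simp))
  rw [mfderiv_eq_fderiv] at h3
  have h4 : ∀ v w : E₁ × E₂,
      gσ g (σ ∘ τ) y v w = gσ g σ (τ y) (fderiv ℝ τ y v) (fderiv ℝ τ y w) := by
    intro v w
    rw [gσ_apply, gσ_apply, h3]
    rfl
  have h5 : fm g (σ ∘ τ) y i j = gσ g (σ ∘ τ) y (0, finBasis ℝ E₂ i) (0, finBasis ℝ E₂ j) := rfl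
  rw [h5, h4, hτd, normT_vert, normT_vert]
  exact (Fib.G3.mB_snd _ _ _).symm

theorem mB_basis (A : Matrix (Fin (finrank ℝ E₂)) (Fin (finrank ℝ E₂)) ℝ)
    (i j : Fin (finrank ℝ E₂)) : mB A (finBasis ℝ E₂ i) (finBasis ℝ E₂ j) = A i j := by
  unfold mB
  simp [Finsupp.single_apply]

theorem mB_left (A : Matrix (Fin (finrank ℝ E₂)) (Fin (finrank ℝ E₂)) ℝ) (w : E₂)
    (j : Fin (finrank ℝ E₂)) :
    mB A w (finBasis ℝ E₂ j) = ∑ k, A k j * (finBasis ℝ E₂).repr w k := by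
  unfold mB
  simp [Finsupp.single_apply]

theorem mB_right (A : Matrix (Fin (finrank ℝ E₂)) (Fin (finrank ℝ E₂)) ℝ) (w : E₂)
    (i : Fin (finrank ℝ E₂)) :
    mB A (finBasis ℝ E₂ i) w = ∑ k, A i k * (finBasis ℝ E₂).repr w k := by
  unfold mB
  simp [Finsupp.single_apply]

/-- The derivative of `mB` in the moving frame. -/
theorem d_frame {f : E₁ × E₂ → Matrix (Fin (finrank ℝ E₂)) (Fin (finrank ℝ E₂)) ℝ}
    {τ : E₁ × E₂ → E₁ × E₂} {q : E₁ × E₂} (hf : ∀ i j, ContDiffAt ℝ ∞ (fun y => f y i j) q)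
    (hτ : ContDiff ℝ ∞ τ) (hτq : τ q = q) (L L' : E₁ →L[ℝ] E₂)
    (i j : Fin (finrank ℝ E₂)) (v : E₁ × E₂) :
    fderiv ℝ (fun y => mB (f (τ y)) (finBasis ℝ E₂ i + L (y.1 - q.1))
        (finBasis ℝ E₂ j + L' (y.1 - q.1))) q v =
      fderiv ℝ (fun p => f p i j) q (fderiv ℝ τ q v) +
      (mB (f q) (L v.1) (finBasis ℝ E₂ j) + mB (f q) (finBasis ℝ E₂ i) (L' v.1)) := by
  have hfτ : ∀ i j, ContDiffAt ℝ ∞ (fun y => f (τ y) i j) q := by
    intro i j
    have e1 : ContDiffAt ℝ ∞ (fun y => f y i j) (τ q) := by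
      rw [hτq]
      exact hf i j
    exact e1.comp q hτ.contDiffAt
  set K : E₁ × E₂ → E₂ →L[ℝ] E₂ →L[ℝ] ℝ := fun y => Fib.F1.fL (f (τ y)) with hKdef
  have hK : ContDiffAt ℝ ∞ K q := by
    rw [hKdef]
    unfold Fib.F1.fL
    exact ContDiffAt.sum fun i _ => ContDiffAt.sum fun j _ => (hfτ i j).smul contDiffAt_const
  have hξ : HasFDerivAt (fun y : E₁ × E₂ => y.1 - q.1) (ContinuousLinearMap.fst ℝ E₁ E₂) q :=
    (ContinuousLinearMap.fst ℝ E₁ E₂).hasFDerivAt.sub_const q.1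
  have hA : ∀ (L : E₁ →L[ℝ] E₂) (i : Fin (finrank ℝ E₂)),
      HasFDerivAt (fun y : E₁ × E₂ => finBasis ℝ E₂ i + L (y.1 - q.1))
        (L.comp (ContinuousLinearMap.fst ℝ E₁ E₂)) q := fun L i =>
    (L.hasFDerivAt.comp q hξ).const_add _
  have e1 : (fun y => mB (f (τ y)) (finBasis ℝ E₂ i + L (y.1 - q.1))
      (finBasis ℝ E₂ j + L' (y.1 - q.1))) = fun y => K y (finBasis ℝ E₂ i + L (y.1 - q.1))
        (finBasis ℝ E₂ j + L' (y.1 - q.1)) := by
    funext y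
    rw [hKdef, Fib.F1.fL_apply]
  have e2 := Fib.F1.tri_fderiv (Fib.F1.ev_diff hK).self_of_nhds (hA L i).differentiableAt
    (hA L' j).differentiableAt v
  rw [e1, e2, (hA L i).fderiv, (hA L' j).fderiv]
  have e3 : fderiv ℝ K q v (finBasis ℝ E₂ i) (finBasis ℝ E₂ j) =
      fderiv ℝ (fun p => f p i j) q (fderiv ℝ τ q v) := by
    rw [← Fib.F1.ap_fderiv hK]
    have e4 : (fun p => K p (finBasis ℝ E₂ i) (finBasis ℝ E₂ j)) =
        (fun p => f p i j) ∘ τ := by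
      funext y
      rw [hKdef, Fib.F1.fL_apply, mB_basis]
      rfl
    have e5 : DifferentiableAt ℝ (fun p => f p i j) (τ q) := by
      rw [hτq]
      exact (Fib.F1.ev_diff (hf i j)).self_of_nhds
    rw [e4, fderiv_comp q e5 (hτ.contDiffAt.differentiableAt (by simp)), hτq]
    rfl
  simp only [sub_self, map_zero, add_zero, ContinuousLinearMap.comp_apply,
    ContinuousLinearMap.coe_fst']
  rw [e3, hKdef]
  simp only [Fib.F1.fL_apply, hτq]
  ring

end OneillAux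

open OneillAux

/-- The normal form of an adapted parametrization. -/
theorem exists_nf {pr : M → B} {g : Met E M} {σ : E₁ × E₂ → M} {q : E₁ × E₂} {z : B}
    (hA : AC E pr σ q z) : ∃ σ' : E₁ × E₂ → M, AC E pr σ' q z ∧ σ' q = σ q ∧
      NF (gam g σ') q ∧ fm g σ' q = fm g σ q ∧
      (∀ v, LD (fm g σ') (gam g σ') q v = LD (fm g σ) (gam g σ) q v) ∧
      Curv.scal (fun y => fm g σ' (q.1, y)) q.2 = Curv.scal (fun y => fm g σ (q.1, y)) q.2 := by
  set τ := Fib.normT (gam g σ) q with hτd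
  have hτ : ContDiff ℝ ∞ τ := Fib.normT_smooth _ _
  have hτq : τ q = q := Fib.normT_self _ _
  have hτ1 : ∀ y, (τ y).1 = y.1 := fun y => Fib.normT_fst _ _ y
  have hτ2 : Function.Bijective (fderiv ℝ τ q) := by
    constructor
    · intro a b hab
      rw [hτd, Fib.normT_fderiv, Fib.normT_fderiv, Prod.ext_iff] at hab
      obtain ⟨h1, h2⟩ := hab
      simp only at h1 h2
      rw [h1] at h2
      exact Prod.ext h1 (add_right_cancel h2)
    · intro b
      refine ⟨(b.1, b.2 - gam g σ q b.1), ?_⟩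
      rw [hτd, Fib.normT_fderiv]
      simp
  have hA' : AC E pr (σ ∘ τ) q z := hA.comp hτ hτq hτ1 hτ2
  have hN : NF (gam g (σ ∘ τ)) q :=
    Fib.NF_of_rel (gam_smooth g hA) (gam_smooth g hA') (Fib.gam_comp g hA hτ hτq hτ1 hτ2)
  have hfm := fm_comp g hA
  rw [← hτd] at hfm
  refine ⟨σ ∘ τ, hA', by rw [Function.comp_apply, hτq], hN, ?_, ?_, ?_⟩
  · funext i j
    rw [hfm.self_of_nhds i j, sub_self, map_zero, map_zero, add_zero, add_zero, hτq, mB_basis]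
  · intro v
    funext i j
    have e1 : (fun p => fm g (σ ∘ τ) p i j) =ᶠ[𝓝 q] fun y => mB (fm g σ (τ y))
        (finBasis ℝ E₂ i + fderiv ℝ (gam g σ) q (0, finBasis ℝ E₂ i) (y.1 - q.1))
        (finBasis ℝ E₂ j + fderiv ℝ (gam g σ) q (0, finBasis ℝ E₂ j) (y.1 - q.1)) := by
      filter_upwards [hfm] with y hy
      exact hy i j
    unfold LD
    rw [e1.fderiv_eq, d_frame (fm_smooth g hA) hτ hτq, mB_left, mB_right, hN.zero]
    simp only [hN.dy, _root_.zero_apply, map_zero, Finsupp.zero_apply, mul_zero, Finset.sum_const_zero, add_zero]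
    rw [hτd, Fib.normT_fderiv]
    simp only [zero_add]
  · have hc : Tendsto (fun y : E₂ => (q.1, y)) (𝓝 q.2) (𝓝 q) := by
      have : Continuous fun y : E₂ => (q.1, y) := by fun_prop
      exact this.tendsto q.2
    refine scalC_congr ?_
    filter_upwards [hc.eventually hfm] with y hy
    funext i j
    rw [hy i j]
    have e1 : τ (q.1, y) = (q.1, y) := by
      rw [hτd]
      unfold Fib.normT
      simp
    simp only [sub_self, map_zero, add_zero]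
    rw [e1, mB_basis]

/-- The formula of O'Neill for the scalar curvature. -/
theorem oneill {pr : M → B} {g : Met E M} {gB : Met E₁ B} (hpr : RiemSub g gB pr)
    {U : Set B} {Φ : B × F → M} (hΦ : Triv E E₁ E₂ pr U Φ) {x : B} (hx : x ∈ U)
    {h : Met E₂ F} (hh : IsFib g Φ x h) {f : Fin (finrank ℝ E₁) → B → ℝ}
    (hf : NormalAt gB x f) (y : F) :
    Scal g (Φ (x, y)) ≤ Scal gB x + Scal h y - ∑ i, ((1 / 4) *
        ipM (cof h y)
          (LD (Fib.fm g (psi E₁ E₂ Φ x y)) (Fib.gam g (psi E₁ E₂ Φ x y)) (pt E₁ E₂ x y x y)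
            (gv gB (f i) x))
          (LD (Fib.fm g (psi E₁ E₂ Φ x y)) (Fib.gam g (psi E₁ E₂ Φ x y)) (pt E₁ E₂ x y x y)
            (gv gB (f i) x)) +
        (2 * Grd g (NN g gB pr (f i)) (fun p => f i (pr p)) (Φ (x, y)) +
          NN g gB pr (f i) (Φ (x, y)) ^ 2)) := by
  have hA := ac_psi hΦ hx y
  have hfmp := fm_psi hΦ hx hh y
  set q : E₁ × E₂ := pt E₁ E₂ x y x y with hq
  have hq1 : q.1 = extChartAt 𝓘(ℝ, E₁) x x := rfl
  have hq2 : q.2 = extChartAt 𝓘(ℝ, E₂) y y := rfl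
  obtain ⟨σ, hAσ, hσq0, hN, hfmq, hLD, hsc⟩ := exists_nf (g := g) hA
  have hσq : σ q = Φ (x, y) := by
    rw [hσq0]
    unfold psi
    rw [hq1, hq2, extChartAt_to_inv, extChartAt_to_inv]
  have hz0 : Sm E (fun _ : M => (0 : ℝ)) := sm_const 0
  have hD : Dat (coeff gB x) (fm g σ) (gam g σ) (fun _ => 0) (fun _ => 0) q :=
    Fib.Dat_of_AC g gB hAσ hz0 hz0
  have hcf : ∀ᶠ y in 𝓝 q, cf g σ y = conn₀ (coeff gB x) (fm g σ) (gam g σ) y :=
    Fib.cf_eq_conn g g gB hpr (α := fun _ => 0) (β := fun _ => 0) Fib.biconformal_self hAσ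
  have hpq := hAσ.para.self_of_nhds
  have e1 : Curv.scal (conn₀ (coeff gB x) (fm g σ) (gam g σ)) q = Scal g (Φ (x, y)) := by
    rw [← hσq, ← Circ.scal_cf g hpq]
    exact scalC_congr (hcf.mono fun _ h => h.symm)
  have e2 : Curv.scal (coeff gB x) q.1 = Scal gB x := rfl
  have e3 : Curv.scal (fun z => fm g σ (q.1, z)) q.2 = Scal h y := by
    rw [hsc]
    exact scalC_congr hfmp
  have e4 : fm g σ q = cof h y := by
    rw [hfmq]
    exact hfmp.self_of_nhds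
  have htq : q.1 ∈ (extChartAt 𝓘(ℝ, E₁) x).target := mem_extChartAt_target x
  have key := oneill_nf hD hN (F := fun i => rd E₁ x (f i))
    (fun i => g3_rd_smooth (hf.sm i) x htq) hf.sq hf.trc (v := fun i => gv gB (f i) x)
    (fun i => rfl) (N := fun i p => NN g gB pr (f i) (σ p)) (fun i => NN_eq hpr hAσ (hf.sm i))
  rw [e1, e2, e3] at key
  refine key.trans_eq ?_
  congr 1
  refine Finset.sum_congr rfl fun i _ => ?_
  have a1 : (fun a b => fderiv ℝ (fun p => fm g σ p a b) q (gv gB (f i) x, 0)) =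
      LD (Fib.fm g (psi E₁ E₂ Φ x y)) (Fib.gam g (psi E₁ E₂ Φ x y)) q (gv gB (f i) x) := by
    rw [← hLD]
    funext a b
    unfold LD
    rw [hN.zero]
    simp only [hN.dy, _root_.zero_apply, map_zero, Finsupp.zero_apply, mul_zero,
      Finset.sum_const_zero, add_zero]
  have a2 : fderiv ℝ (fun p => NN g gB pr (f i) (σ p)) q (gv gB (f i) x, 0) =
      Grd g (NN g gB pr (f i)) (fun p => f i (pr p)) (Φ (x, y)) := by
    have s1 : Sm E (NN g gB pr (f i)) := sm_NN hpr.1.1 g gB (hf.sm i)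
    have s2 : Sm E (fun p => f i (pr p)) := Circ.sm_comp_pr hpr.1.1 (hf.sm i)
    have hbase : (fun p => f i (pr p)) ∘ σ =ᶠ[𝓝 q] fun y => rd E₁ x (f i) y.1 := by
      filter_upwards [hAσ.src, hAσ.fst] with y h1 h2
      unfold rd
      rw [← h2, (extChartAt 𝓘(ℝ, E₁) x).left_inv h1]
      rfl
    rw [← hσq, ← Circ.grd_cf g hpq s1 s2, g3_gradC_congr EventuallyEq.rfl hbase]
    have t1 : gradC (cf g σ) (NN g gB pr (f i) ∘ σ) (fun y => rd E₁ x (f i) y.1) q =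
        gradC (conn₀ (coeff gB x) (fm g σ) (gam g σ)) (NN g gB pr (f i) ∘ σ)
          (fun y => rd E₁ x (f i) y.1) q := Fib.gradC_congr_metric hcf.self_of_nhds
    rw [t1, OneillNFAux.gradC_eq]
    have t2 : fderiv ℝ (fun y : E₁ × E₂ => rd E₁ x (f i) y.1) q =
        (fderiv ℝ (rd E₁ x (f i)) q.1).comp (ContinuousLinearMap.fst ℝ E₁ E₂) := by
      have t3 : HasFDerivAt (rd E₁ x (f i)) (fderiv ℝ (rd E₁ x (f i)) q.1) q.1 :=
        ((g3_rd_smooth (hf.sm i) x htq).differentiableAt (by simp)).hasFDerivAt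
      exact (t3.comp q hasFDerivAt_fst).fderiv
    rw [t2, Fib.gradM_conn _ hD.h_pos.self_of_nhds hD.f_pos.self_of_nhds]
    unfold lift
    rw [hN.zero]
    rfl
  rw [a1, a2, e4, hσq]

end Pool.Agent.Lib.MP_df705a_gt.Coll
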