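import Pool.Agent.Lib.MP_df705a_gt.Coll.Defs

/-!
# The scalar curvature is smooth
-/

open scoped Manifold ContDiff Topology
open Set Bundle Module Filter MeasureTheory

noncomputable section

namespace Pool.Agent.Lib.MP_df705a_gt.Coll

open Pool.Agent.Lib.MP_df705a_gt.Twist Pool.Agent.Lib.MP_df705a_gt.Perm
open Pool.Agent.Lib.MP_df705a_gt.Circ (Horizontal Submersion cf Para HorConf)
open Pool.Agent.Lib.MP_df705a_gt.Fib (RiemSub Biconformal)

variable {E : Type*} [NormedAddCommGroup E] [NormedSpace ℝ E] [FiniteDimensional ℝ E]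
  {M : Type*} [TopologicalSpace M] [ChartedSpace E M] [IsManifold 𝓘(ℝ, E) ∞ M]

theorem sm_scal (g : Met E M) : Sm E (Scal g) := by
  intro p
  have ht : extChartAt 𝓘(ℝ, E) p p ∈ (extChartAt 𝓘(ℝ, E) p).target := mem_extChartAt_target p
  have h1 : ContMDiffAt 𝓘(ℝ, E) 𝓘(ℝ, ℝ) ∞
      (fun x => Curv.scal (coeff g p) (extChartAt 𝓘(ℝ, E) p x)) p :=
    ContMDiffAt.comp (g := Curv.scal (coeff g p)) (f := fun x => extChartAt 𝓘(ℝ, E) p x) p
      (g3_scal_smooth (g3_coeff_smooth g p ht) (g3_coeff_det g p ht)).contMDiffAt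
      (contMDiffAt_extChartAt (x := p))
  refine h1.congr_of_eventuallyEq ?_
  filter_upwards [extChartAt_source_mem_nhds (I := 𝓘(ℝ, E)) p] with x hx
  rw [scal_chart g p ((extChartAt 𝓘(ℝ, E) p).map_source hx), (extChartAt 𝓘(ℝ, E) p).left_inv hx]

end Pool.Agent.Lib.MP_df705a_gt.Coll
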