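import Pool.Agent.Lib.MP_df705a_gt.Coll.IT

/-!
# The divergence theorem along the fibres
-/

open scoped Manifold ContDiff Topology
open Set Bundle Module Filter MeasureTheory

noncomputable section

namespace Pool.Agent.Lib.MP_df705a_gt.Coll

open Pool.Agent.Lib.MP_df705a_gt.Twist Pool.Agent.Lib.MP_df705a_gt.Perm
open Pool.Agent.Lib.MP_df705a_gt.Circ (Horizontal Submersion cf Para HorConf)
open Pool.Agent.Lib.MP_df705a_gt.Fib (RiemSub Biconformal)

variable {E₁ : Type*} [NormedAddCommGroup E₁] [NormedSpace ℝ E₁] [FiniteDimensional ℝ E₁]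
  {B : Type*} [TopologicalSpace B] [ChartedSpace E₁ B] [IsManifold 𝓘(ℝ, E₁) ∞ B]
  {E₂ : Type*} [NormedAddCommGroup E₂] [NormedSpace ℝ E₂] [FiniteDimensional ℝ E₂]
  {F : Type*} [TopologicalSpace F] [ChartedSpace E₂ F] [IsManifold 𝓘(ℝ, E₂) ∞ F]
  {E : Type*} [NormedAddCommGroup E] [NormedSpace ℝ E] [FiniteDimensional ℝ E]
  {M : Type*} [TopologicalSpace M] [ChartedSpace E M] [IsManifold 𝓘(ℝ, E) ∞ M]

namespace StarAux

theorem int_of_cont {X : Type*} [TopologicalSpace X] [CompactSpace X] [MeasurableSpace X]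
    [OpensMeasurableSpace X] {μ : Measure X} (hμ : IsFiniteMeasure μ) {f : X → ℝ}
    (hf : Continuous f) : Integrable f μ :=
  hf.integrable_of_hasCompactSupport (HasCompactSupport.of_compactSpace f)

/-- Green's formula for the product `s * w`. -/
theorem green_mul [MeasurableSpace E] [BorelSpace E] [MeasurableSpace M] [BorelSpace M]
    [CompactSpace M] [T2Space M] {g : Met E M} {μ : Measure M} (hμ : IsRVol g μ)
    {s w u : M → ℝ} (hs : Sm E s) (hw : Sm E w) (hu : Sm E u) :
    ∫ p, s p * (Grd g w u p + w p * Lap g u p) ∂μ = - ∫ p, Grd g s u p * w p ∂μ := by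
  have h1 := hμ.green hu (ContMDiff.mul hs hw : Sm E (fun p => s p * w p))
  have h2 : ∀ p, s p * w p * Lap g u p + Grd g (fun p => s p * w p) u p =
      s p * (Grd g w u p + w p * Lap g u p) + Grd g s u p * w p := by
    intro p
    rw [Fib.grd_mul_left g hs hw]
    ring
  have hfin := hμ.fin
  have hi1 : Integrable (fun p => s p * (Grd g w u p + w p * Lap g u p)) μ :=
    int_of_cont hfin (hs.continuous.mul ((Circ.sm_grd g hw hu).continuous.add
      (hw.continuous.mul (Circ.sm_lap g hu).continuous)))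
  have hi2 : Integrable (fun p => Grd g s u p * w p) μ :=
    int_of_cont hfin ((Circ.sm_grd g hs hu).continuous.mul hw.continuous)
  have h3 : ∫ p, (s p * (Grd g w u p + w p * Lap g u p) + Grd g s u p * w p) ∂μ = 0 := by
    rw [← h1]
    exact integral_congr_ae (Eventually.of_forall fun p => (h2 p).symm)
  rw [integral_add hi1 hi2] at h3
  linarith

end StarAux

/-- The divergence theorem along the fibres. -/
theorem star [MeasurableSpace E₁] [BorelSpace E₁] [MeasurableSpace E₂] [BorelSpace E₂]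
    [MeasurableSpace E] [BorelSpace E] [MeasurableSpace B] [BorelSpace B]
    [MeasurableSpace F] [BorelSpace F] [MeasurableSpace M] [BorelSpace M]
    [CompactSpace M] [T2Space M] [CompactSpace B] [T2Space B]
    {pr : M → B} {g : Met E M} {gB : Met E₁ B} (hpr : RiemSub g gB pr) {μM : Measure M}
    {μB : Measure B} (hM : IsRVol g μM) (hB : IsRVol gB μB) {I : (M → ℝ) → B → ℝ}
    (hI : FibInt E₁ E₂ F g pr μM μB I) {G : M → ℝ} (hG : Sm E G) {f : B → ℝ} (hf : Sm E₁ f)
    (x : B) : Grd gB (I G) f x + I G x * Lap gB f x =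
      I (fun p => Grd g G (fun p => f (pr p)) p + G p * Lap g (fun p => f (pr p)) p) x := by
  have hprc : ContMDiff 𝓘(ℝ, E) 𝓘(ℝ, E₁) ∞ pr := hpr.1.1
  have hfp : Sm E (fun p => f (pr p)) := Circ.sm_comp_pr hprc hf
  set R : M → ℝ := fun p => Grd g G (fun p => f (pr p)) p + G p * Lap g (fun p => f (pr p)) p
    with hR
  have hRs : Sm E R := ContMDiff.add (Circ.sm_grd g hG hfp) (ContMDiff.mul hG (Circ.sm_lap g hfp))
  have hIG : Sm E₁ (I G) := hI.sm G hG
  have hIR : Sm E₁ (I R) := hI.sm R hRs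
  set L : B → ℝ := fun x => Grd gB (I G) f x + I G x * Lap gB f x with hL
  have hLs : Sm E₁ L := ContMDiff.add (Circ.sm_grd gB hIG hf)
    (ContMDiff.mul hIG (Circ.sm_lap gB hf))
  have key : ∀ χ : B → ℝ, Sm E₁ χ → ∫ x, χ x * L x ∂μB = ∫ x, χ x * I R x ∂μB := by
    intro χ hχ
    have e1 : ∫ x, χ x * L x ∂μB = - ∫ x, Grd gB χ f x * I G x ∂μB :=
      StarAux.green_mul hB hχ hIG hf
    have hχp : Sm E (fun p => χ (pr p)) := Circ.sm_comp_pr hprc hχ
    have e2 : ∫ p, χ (pr p) * R p ∂μM =
        - ∫ p, Grd g (fun p => χ (pr p)) (fun p => f (pr p)) p * G p ∂μM :=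
      StarAux.green_mul hM hχp hG hfp
    have e3 : ∀ p, Grd g (fun p => χ (pr p)) (fun p => f (pr p)) p = Grd gB χ f (pr p) := by
      intro p
      have h1 := Circ.grd_sub g gB hpr.1 (p := p) (r := 1)
        (fun u v hu hv => by rw [one_mul]; exact hpr.2 p u v hu hv) hχ hf
      rw [one_mul] at h1
      exact h1
    rw [e1, ← hI.fub χ R hχ.continuous hRs, e2,
      ← hI.fub (Grd gB χ f) G (Circ.sm_grd gB hχ hf).continuous hG]
    simp only [e3]
  set D : B → ℝ := fun x => L x - I R x with hD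
  have hDs : Sm E₁ D := ContMDiff.sub hLs hIR
  have hDc := hDs.continuous
  have hfin := hB.fin
  have h0 : ∫ x, D x * D x ∂μB = 0 := by
    have h1 : ∀ x, D x * D x = D x * L x - D x * I R x := by
      intro x
      rw [← mul_sub]
    have hi1 : Integrable (fun x => D x * L x) μB :=
      StarAux.int_of_cont hfin (hDc.mul hLs.continuous)
    have hi2 : Integrable (fun x => D x * I R x) μB :=
      StarAux.int_of_cont hfin (hDc.mul hIR.continuous)
    simp only [h1]
    rw [integral_sub hi1 hi2, key D hDs, sub_self]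
  have hx : D x = 0 := by
    by_contra hne
    have h1 := hB.pos (f := fun x => D x * D x) (hDc.mul hDc) (fun p => mul_self_nonneg _)
      (p := x) (mul_self_pos.2 hne)
    rw [h0] at h1
    exact lt_irrefl _ h1
  exact sub_eq_zero.1 hx

end Pool.Agent.Lib.MP_df705a_gt.Coll
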