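import Pool.Agent.Lib.MP_df705a_gt.Coll.X.NN
import Pool.Agent.Lib.MP_df705a_gt.Coll.X.Psi
import Pool.Agent.Lib.MP_df705a_gt.Fib.FibredSm
import Pool.Agent.Lib.MP_df705a_gt.Mg.G054

/-!
# The trace of the Lie derivative
-/

open scoped Manifold ContDiff Topology
open Set Bundle Module Filter MeasureTheory

noncomputable section

namespace Pool.Agent.Lib.MP_df705a_gt.Coll

open Pool.Agent.Lib.MP_df705a_gt.Twist Pool.Agent.Lib.MP_df705a_gt.Perm
open Pool.Agent.Lib.MP_df705a_gt.Circ (Horizontal Submersion cf Para HorConf)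
open Pool.Agent.Lib.MP_df705a_gt.Fib (RiemSub Biconformal)

variable {E₁ : Type*} [NormedAddCommGroup E₁] [NormedSpace ℝ E₁] [FiniteDimensional ℝ E₁]
  {B : Type*} [TopologicalSpace B] [ChartedSpace E₁ B] [IsManifold 𝓘(ℝ, E₁) ∞ B]
  {E₂ : Type*} [NormedAddCommGroup E₂] [NormedSpace ℝ E₂] [FiniteDimensional ℝ E₂]
  {F : Type*} [TopologicalSpace F] [ChartedSpace E₂ F] [IsManifold 𝓘(ℝ, E₂) ∞ F]
  {E : Type*} [NormedAddCommGroup E] [NormedSpace ℝ E] [FiniteDimensional ℝ E]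
  {M : Type*} [TopologicalSpace M] [ChartedSpace E M] [IsManifold 𝓘(ℝ, E) ∞ M]

open Pool.Agent.Lib.MP_df705a_gt.Sub (mB connMetric expn lift Dat)
open Pool.Agent.Lib.MP_df705a_gt.Fib (conn₀ NF AC fm gam)

namespace TrLDAux

theorem sum_inv {n : ℕ} {A : Matrix (Fin n) (Fin n) ℝ} (hA : A.PosDef)
    (G : Fin n → Fin n → ℝ) :
    ∑ i, ∑ j, A⁻¹ i j * ∑ k, A k j * G i k = ∑ i, G i i := by
  have hdet : IsUnit A.det := hA.det_pos.ne'.isUnit
  refine Finset.sum_congr rfl fun i _ => ?_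
  have h1 : ∀ k, ∑ j, A⁻¹ i j * A k j = if i = k then 1 else 0 := by
    intro k
    have h2 := congrFun (congrFun (Matrix.nonsing_inv_mul A hdet) i) k
    rw [Matrix.mul_apply, Matrix.one_apply] at h2
    rw [← h2]
    refine Finset.sum_congr rfl fun j _ => ?_
    rw [posDef_symm hA k j]
  have h3 : ∑ j, A⁻¹ i j * ∑ k, A k j * G i k = ∑ k, (∑ j, A⁻¹ i j * A k j) * G i k := by
    simp only [Finset.mul_sum, Finset.sum_mul]
    rw [Finset.sum_comm]
    refine Finset.sum_congr rfl fun k _ => Finset.sum_congr rfl fun j _ => ?_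
    ring
  rw [h3]
  simp only [h1]
  simp

theorem sum_inv' {n : ℕ} {A : Matrix (Fin n) (Fin n) ℝ} (hA : A.PosDef)
    (G : Fin n → Fin n → ℝ) :
    ∑ i, ∑ j, A⁻¹ i j * ∑ k, A i k * G j k = ∑ i, G i i := by
  rw [Finset.sum_comm, ← sum_inv hA G]
  refine Finset.sum_congr rfl fun i _ => Finset.sum_congr rfl fun j _ => ?_
  rw [posDef_symm hA.inv j i]
  congr 1
  refine Finset.sum_congr rfl fun k _ => ?_
  rw [posDef_symm hA j k]

end TrLDAux

theorem trM_LD_loc {h : Curv.Coeff E₁}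
    {f : E₁ × E₂ → Matrix (Fin (finrank ℝ E₂)) (Fin (finrank ℝ E₂)) ℝ}
    {Γ : E₁ × E₂ → E₁ →L[ℝ] E₂} {α β : E₁ × E₂ → ℝ} {q : E₁ × E₂} (hD : Dat h f Γ α β q)
    (v : E₁) : trM (f q) (LD f Γ q v) = 2 * expn f Γ q v := by
  have hpos : (f q).PosDef := hD.f_pos.self_of_nhds
  have hdet : (f q).det ≠ 0 := hpos.det_pos.ne'
  have hfd : ∀ i j, DifferentiableAt ℝ (fun p => f p i j) q := fun i j =>
    (hD.f_smooth i j).differentiableAt (by simp)
  -- the derivative of the logarithm of the determinant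
  have h1 : fderiv ℝ (fun p => Real.log (f p).det) q (v, Γ q v) =
      ∑ i, ∑ j, (f q)⁻¹ i j * fderiv ℝ (fun p => f p i j) q (v, Γ q v) := by
    have hdd : DifferentiableAt ℝ (fun p => (f p).det) q :=
      (contDiffAt_det hD.f_smooth).differentiableAt (by simp)
    have h2 : fderiv ℝ (fun p => Real.log (f p).det) q =
        ((f q).det)⁻¹ • fderiv ℝ (fun p => (f p).det) q := (hdd.hasFDerivAt.log hdet).fderiv
    rw [h2]
    show ((f q).det)⁻¹ * fderiv ℝ (fun p => (f p).det) q (v, Γ q v) = _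
    rw [fderiv_det hfd hdet, ← mul_assoc, inv_mul_cancel₀ hdet, one_mul]
    refine Finset.sum_congr rfl fun i _ => Finset.sum_congr rfl fun j _ => ?_
    rw [fderiv_entry_symm hD.f_pos j i]
  -- the divergence
  set G : Fin (finrank ℝ E₂) → Fin (finrank ℝ E₂) → ℝ := fun i k =>
    (finBasis ℝ E₂).repr (fderiv ℝ Γ q (0, finBasis ℝ E₂ i) v) k with hG
  have h3 : dv (fun y => Γ (q.1, y) v) q.2 = ∑ i, G i i := by
    have e1 : HasFDerivAt (fun y : E₂ => (q.1, y)) (ContinuousLinearMap.inr ℝ E₁ E₂) q.2 :=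
      hasFDerivAt_prodMk_right q.1 q.2
    have e2 : HasFDerivAt Γ (fderiv ℝ Γ q) (q.1, q.2) :=
      (hD.Γ_smooth.differentiableAt (by simp)).hasFDerivAt
    have e3 : HasFDerivAt (fun y : E₂ => Γ (q.1, y))
        ((fderiv ℝ Γ q).comp (ContinuousLinearMap.inr ℝ E₁ E₂)) q.2 := e2.comp q.2 e1
    have e4 : ∀ w : E₂, fderiv ℝ (fun y : E₂ => Γ (q.1, y) v) q.2 w = fderiv ℝ Γ q (0, w) v := by
      intro w
      have e5 := e3.clm_apply (hasFDerivAt_const v q.2)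
      rw [e5.fderiv]
      simp
    unfold dv
    rw [LinearMap.trace_eq_matrix_trace ℝ (finBasis ℝ E₂), Matrix.trace]
    refine Finset.sum_congr rfl fun i _ => ?_
    rw [Matrix.diag_apply, LinearMap.toMatrix_apply]
    have e6 := e4 (finBasis ℝ E₂ i)
    show (finBasis ℝ E₂).repr (fderiv ℝ (fun y : E₂ => Γ (q.1, y) v) q.2 (finBasis ℝ E₂ i)) i = _
    rw [e6]
  have h4 : expn f Γ q v = (1 / 2) * fderiv ℝ (fun p => Real.log (f p).det) q (v, Γ q v) +
      dv (fun y => Γ (q.1, y) v) q.2 := rfl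
  have h5 : trM (f q) (LD f Γ q v) =
      ∑ i, ∑ j, (f q)⁻¹ i j * fderiv ℝ (fun p => f p i j) q (v, Γ q v) +
      (∑ i, ∑ j, (f q)⁻¹ i j * ∑ k, f q k j * G i k +
        ∑ i, ∑ j, (f q)⁻¹ i j * ∑ k, f q i k * G j k) := by
    unfold trM
    rw [← Finset.sum_add_distrib, ← Finset.sum_add_distrib]
    refine Finset.sum_congr rfl fun i _ => ?_
    rw [← Finset.sum_add_distrib, ← Finset.sum_add_distrib]
    refine Finset.sum_congr rfl fun j _ => ?_
    rw [← mul_add, ← mul_add]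
    rfl
  rw [h5, TrLDAux.sum_inv hpos, TrLDAux.sum_inv' hpos, h4, h3, h1]
  ring

/-- `2 N` is the trace of the Lie derivative. -/
theorem trM_LD {pr : M → B} {g : Met E M} {gB : Met E₁ B} (hpr : RiemSub g gB pr)
    {U : Set B} {Φ : B × F → M} (hΦ : Triv E E₁ E₂ pr U Φ) {x : B} (hx : x ∈ U)
    {h : Met E₂ F} (hh : IsFib g Φ x h) {f : B → ℝ} (hf : Sm E₁ f) (y : F) :
    trM (cof h y) (LD (Fib.fm g (psi E₁ E₂ Φ x y)) (Fib.gam g (psi E₁ E₂ Φ x y))
      (pt E₁ E₂ x y x y) (gv gB f x)) = 2 * NN g gB pr f (Φ (x, y)) := by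
  have hA := ac_psi hΦ hx y
  have hα : Sm E (fun _ : M => (0 : ℝ)) := contMDiff_const
  have hD := Fib.Dat_of_AC g gB hA hα hα
  have h1 := (fm_psi hΦ hx hh y).self_of_nhds
  have h2 : cof h y = Fib.fm g (psi E₁ E₂ Φ x y) (pt E₁ E₂ x y x y) := h1.symm
  rw [h2, trM_LD_loc hD]
  have h3 := (NN_eq hpr hA hf).self_of_nhds
  have h4 : psi E₁ E₂ Φ x y (pt E₁ E₂ x y x y) = Φ (x, y) := by
    unfold psi pt
    rw [extChartAt_to_inv, extChartAt_to_inv]
  have h5 : NN g gB pr f (psi E₁ E₂ Φ x y (pt E₁ E₂ x y x y)) =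
      expn (fm g (psi E₁ E₂ Φ x y)) (gam g (psi E₁ E₂ Φ x y)) (pt E₁ E₂ x y x y)
        (gv gB f x) := h3
  rw [h4] at h5
  rw [h5]

end Pool.Agent.Lib.MP_df705a_gt.Coll
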