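import Pool.Agent.Lib.MP_df705a_gt.Coll.Defs

/-!
# The scalar curvature of a block metric
-/

open scoped Manifold ContDiff Topology
open Set Bundle Module Filter MeasureTheory

noncomputable section

namespace Pool.Agent.Lib.MP_df705a_gt.Coll

open Pool.Agent.Lib.MP_df705a_gt.Twist Pool.Agent.Lib.MP_df705a_gt.Perm
open Pool.Agent.Lib.MP_df705a_gt.Circ (Horizontal Submersion cf Para HorConf)
open Pool.Agent.Lib.MP_df705a_gt.Fib (RiemSub Biconformal)


open Pool.Agent.Lib.MP_df705a_gt.Sub (mB connMetric expn lift Dat)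
open Pool.Agent.Lib.MP_df705a_gt.Fib (conn₀ NF AC fm gam)

namespace BlockScalAux

open Pool.Agent.Lib.MP_df705a_gt.Twist.Alg

section logdet

variable {E : Type*} [NormedAddCommGroup E] [NormedSpace ℝ E]
  {κ : Type*} [Fintype κ] [DecidableEq κ] {f : E → Matrix κ κ ℝ} {q : E}

theorem contDiffAt_ld (hf : ∀ i j, ContDiffAt ℝ ∞ (fun y => f y i j) q)
    (hp : ∀ᶠ p in 𝓝 q, (f p).PosDef) :
    ContDiffAt ℝ ∞ (fun x => (1 / 2) * Real.log (f x).det) q :=
  contDiffAt_const.mul ((contDiffAt_det hf).log hp.self_of_nhds.det_pos.ne')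

theorem fderiv_ld1 (hf : ∀ i j, DifferentiableAt ℝ (fun y => f y i j) q)
    (hp : ∀ᶠ p in 𝓝 q, (f p).PosDef) (v : E) :
    fderiv ℝ (fun x => (1 / 2) * Real.log (f x).det) q v =
      (1 / 2) * ∑ k, ∑ l, (f q)⁻¹ k l * fderiv ℝ (fun p => f p k l) q v := by
  have hdet : (f q).det ≠ 0 := hp.self_of_nhds.det_pos.ne'
  have h1 := det_hasFDerivAt (h := f) (x := q) fun i j => (hf i j).hasFDerivAt
  have h2 := (h1.log hdet).const_mul (1 / 2 : ℝ)
  have h3 := fderiv_det hf hdet v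
  rw [h1.fderiv] at h3
  rw [h2.fderiv, _root_.smul_apply, _root_.smul_apply, h3, smul_eq_mul, smul_eq_mul,
    ← mul_assoc ((f q).det)⁻¹, inv_mul_cancel₀ hdet, one_mul]
  congr 1
  refine Finset.sum_congr rfl fun k _ => Finset.sum_congr rfl fun l _ => ?_
  rw [fderiv_entry_symm hp k l]

theorem fderiv_ld2 (hf : ∀ i j, ContDiffAt ℝ ∞ (fun y => f y i j) q)
    (hp : ∀ᶠ p in 𝓝 q, (f p).PosDef) (u v : E) :
    fderiv ℝ (fderiv ℝ (fun x => (1 / 2) * Real.log (f x).det)) q u v =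
      (1 / 2) * (∑ k, ∑ l, (f q)⁻¹ k l * fderiv ℝ (fderiv ℝ (fun p => f p k l)) q u v) -
      (1 / 2) * ∑ k, ∑ l, ∑ r, ∑ s, (f q)⁻¹ k l * (f q)⁻¹ r s *
        fderiv ℝ (fun p => f p k r) q v * fderiv ℝ (fun p => f p l s) q u := by
  have hf1 : ∀ i j, ContDiffAt ℝ 1 (fun y => f y i j) q := fun i j =>
    (hf i j).of_le (by norm_num)
  have hdet : (f q).det ≠ 0 := hp.self_of_nhds.det_pos.ne'
  have hfe : ∀ᶠ p in 𝓝 q, ∀ i j, DifferentiableAt ℝ (fun y => f y i j) p := by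
    rw [eventually_all]
    intro i
    rw [eventually_all]
    intro j
    exact eventually_differentiableAt (hf i j)
  have h1 : (fun p => fderiv ℝ (fun x => (1 / 2) * Real.log (f x).det) p v) =ᶠ[𝓝 q]
      fun p => (1 / 2) * ∑ k, ∑ l, (f p)⁻¹ k l * fderiv ℝ (fun p => f p k l) p v := by
    filter_upwards [hfe, hp.eventually_nhds] with p h2 h3
    exact fderiv_ld1 h2 h3 v
  have hd : ∀ k l, DifferentiableAt ℝ (fun p => fderiv ℝ (fun p => f p k l) p v) q := fun k l =>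
    (differentiableAt_fderiv (hf k l)).clm_apply (differentiableAt_const _)
  have hid : ∀ i j, DifferentiableAt ℝ (fun y => (f y)⁻¹ i j) q := fun i j =>
    (contDiffAt_inv hf1 hdet i j).differentiableAt one_ne_zero
  have h2 : HasFDerivAt (fun p => (1 / 2 : ℝ) * ∑ k, ∑ l, (f p)⁻¹ k l *
        fderiv ℝ (fun p => f p k l) p v)
      ((1 / 2 : ℝ) • ∑ k, ∑ l, ((f q)⁻¹ k l • fderiv ℝ (fun p => fderiv ℝ (fun p => f p k l) p v) q +
        fderiv ℝ (fun p => f p k l) q v • fderiv ℝ (fun p => (f p)⁻¹ k l) q)) q :=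
    (HasFDerivAt.fun_sum fun k _ => HasFDerivAt.fun_sum fun l _ =>
      (hid k l).hasFDerivAt.mul (hd k l).hasFDerivAt).const_mul _
  rw [← fderiv_fderiv_apply (contDiffAt_ld hf hp), h1.fderiv_eq, h2.fderiv]
  simp only [_root_.sum_apply, _root_.add_apply, _root_.smul_apply, smul_eq_mul]
  have h6 : ∀ k l, fderiv ℝ (fun p => f p k l) q v * fderiv ℝ (fun p => (f p)⁻¹ k l) q u =
      - (fderiv ℝ (fun p => f p k l) q v *
        ∑ a, ∑ b, (f q)⁻¹ k a * (f q)⁻¹ b l * fderiv ℝ (fun p => f p a b) q u) := by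
    intro k l
    rw [fderiv_inv hf1 hdet]
    ring
  have h8 : ∀ k l, fderiv ℝ (fun p => fderiv ℝ (fun p => f p k l) p v) q u =
      fderiv ℝ (fderiv ℝ (fun p => f p k l)) q u v := fun k l => fderiv_fderiv_apply (hf k l) u v
  simp only [h6, h8, Finset.sum_add_distrib, Finset.sum_neg_distrib]
  rw [mul_add, mul_neg, ← sub_eq_add_neg]
  congr 2
  apply Finset.sum_congr rfl
  intro k _
  have h7 : ∑ l, fderiv ℝ (fun p => f p k l) q v *
        ∑ a, ∑ b, (f q)⁻¹ k a * (f q)⁻¹ b l * fderiv ℝ (fun p => f p a b) q u =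
      ∑ l, ∑ a, ∑ b, (f q)⁻¹ k a * (f q)⁻¹ l b * fderiv ℝ (fun p => f p k l) q v *
        fderiv ℝ (fun p => f p a b) q u := by
    apply Finset.sum_congr rfl
    intro l _
    rw [Finset.mul_sum]
    apply Finset.sum_congr rfl
    intro a _
    rw [Finset.mul_sum]
    apply Finset.sum_congr rfl
    intro b _
    rw [posDef_symm hp.self_of_nhds.inv b l]
    ring
  rw [h7, Finset.sum_comm]

end logdet

section main

variable {E₁ : Type*} [NormedAddCommGroup E₁] [NormedSpace ℝ E₁] [FiniteDimensional ℝ E₁]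
  {E₂ : Type*} [NormedAddCommGroup E₂] [NormedSpace ℝ E₂] [FiniteDimensional ℝ E₂]
  {h : E₁ × E₂ → Matrix (Fin (finrank ℝ E₁)) (Fin (finrank ℝ E₁)) ℝ}
  {f : E₁ × E₂ → Matrix (Fin (finrank ℝ E₂)) (Fin (finrank ℝ E₂)) ℝ}
  {q : E₁ × E₂}

omit [FiniteDimensional ℝ E₁] in
theorem quad_ipM (jf : ∀ i j, (f q)⁻¹ i j = (f q)⁻¹ j i) (x x' : E₁) :
    quad (finBasis ℝ E₂) (mkB (finBasis ℝ E₂) fun i j => f q i j)
      (fun x v w => mkD (finBasis ℝ E₂) (j1 (Twist.cf f) q) (x, (0 : E₂)) v w) x x' =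
      ipM (f q) (fun i j => fderiv ℝ (fun p => f p i j) q (x', 0))
        (fun i j => fderiv ℝ (fun p => f p i j) q (x, 0)) := by
  have hg2 : gram (finBasis ℝ E₂) (mkB (finBasis ℝ E₂) fun i j => f q i j) = f q := gram_mkB _ _
  have e1 := quad_rearrange jf hg2
    (fun x : E₁ => mkD (finBasis ℝ E₂) (j1 (Twist.cf f) q) (x, 0)) x x'
  refine e1.trans ?_
  unfold ipM
  refine Finset.sum_congr rfl fun i _ => ?_
  rw [Finset.sum_comm]
  refine Finset.sum_congr rfl fun r _ => Finset.sum_congr rfl fun j _ =>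
    Finset.sum_congr rfl fun s _ => ?_
  simp only [mkD_basis, j1_apply]
  ring

theorem scal0 (hh : ∀ i j, ContDiffAt ℝ ∞ (fun q => h q i j) q)
    (hf : ∀ i j, ContDiffAt ℝ ∞ (fun q => f q i j) q)
    (hhp : ∀ᶠ q in nhds q, (h q).PosDef) (hfp : ∀ᶠ q in nhds q, (f q).PosDef)
    (z1 : ∀ (y : E₂) (v w : E₁), mkD (finBasis ℝ E₁) (j1 (Twist.cf h) q) (0, y) v w = 0)
    (z2 : ∀ (y y' : E₂) (v w : E₁),
      mkD2 (finBasis ℝ E₁) (j2 (Twist.cf h) q) (0, y) (0, y') v w = 0) :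
    Curv.scal (blockMetric h f (fun _ => 0) (fun _ => 0)) q =
      Curv.scal (fun x => h (x, q.2)) q.1 + Curv.scal (fun y => f (q.1, y)) q.2 -
      2 * lapC (fun x => h (x, q.2)) (fun x => (1 / 2) * Real.log (f (x, q.2)).det) q.1 -
      gradC (fun x => h (x, q.2)) (fun x => (1 / 2) * Real.log (f (x, q.2)).det)
        (fun x => (1 / 2) * Real.log (f (x, q.2)).det) q.1 -
      (1 / 4) * ∑ a, ∑ b, (h q)⁻¹ a b *
        ipM (f q) (fun i j => fderiv ℝ (fun p => f p i j) q (finBasis ℝ E₁ a, 0))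
          (fun i j => fderiv ℝ (fun p => f p i j) q (finBasis ℝ E₁ b, 0)) := by
  have hhq := hhp.self_of_nhds
  have hfq := hfp.self_of_nhds
  have hsy : ∀ᶠ y in 𝓝 q, ∀ i j, Twist.cf h i j y = Twist.cf h j i y := by
    filter_upwards [hhp] with y hy i j
    exact posDef_symm hy i j
  have fsy : ∀ᶠ y in 𝓝 q, ∀ i j, Twist.cf f i j y = Twist.cf f j i y := by
    filter_upwards [hfp] with y hy i j
    exact posDef_symm hy i j
  have hg1 : gram (finBasis ℝ E₁) (mkB (finBasis ℝ E₁) fun i j => h q i j) = h q := gram_mkB _ _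
  have hg2 : gram (finBasis ℝ E₂) (mkB (finBasis ℝ E₂) fun i j => f q i j) = f q := gram_mkB _ _
  have nh : Nondeg (finBasis ℝ E₁) (mkB (finBasis ℝ E₁) fun i j => h q i j) :=
    ⟨mkB_symm _ fun i j => hsy.self_of_nhds i j, by
      rw [hg1]
      exact (Matrix.isUnit_iff_isUnit_det _).mp hhq.isUnit⟩
  have nf : Nondeg (finBasis ℝ E₂) (mkB (finBasis ℝ E₂) fun i j => f q i j) :=
    ⟨mkB_symm _ fun i j => fsy.self_of_nhds i j, by
      rw [hg2]
      exact (Matrix.isUnit_iff_isUnit_det _).mp hfq.isUnit⟩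
  have jf : ∀ i j, (f q)⁻¹ i j = (f q)⁻¹ j i := fun i j => by
    have := inv_symm nf i j
    rwa [hg2] at this
  have c0 : ContDiffAt ℝ ∞ (fun _ : E₁ × E₂ => (0 : ℝ)) q := contDiffAt_const
  have d0 : ∀ u : E₁ × E₂, fderiv ℝ (fun _ : E₁ × E₂ => (0 : ℝ)) q u = 0 := by
    intro u
    rw [fderiv_const_apply]
    rfl
  have dd0 : ∀ u v : E₁ × E₂, fderiv ℝ (fderiv ℝ (fun _ : E₁ × E₂ => (0 : ℝ))) q u v = 0 := by
    intro u v
    have e1 : fderiv ℝ (fun _ : E₁ × E₂ => (0 : ℝ)) = fun _ => 0 := by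
      funext z
      exact fderiv_const_apply _
    rw [e1, fderiv_const_apply]
    rfl
  have B : Blk (finBasis ℝ E₁) (finBasis ℝ E₂) (mkB (finBasis ℝ E₁) fun i j => h q i j)
      (mkB (finBasis ℝ E₂) fun i j => f q i j) (fB (blockMetric h f (fun _ => 0) (fun _ => 0)) q)
      (fD (blockMetric h f (fun _ => 0) (fun _ => 0)) q)
      (fD2 (blockMetric h f (fun _ => 0) (fun _ => 0)) q)
      (fun u v w => mkD (finBasis ℝ E₁) (j1 (Twist.cf h) q) u v w)
      (fun u v w => mkD (finBasis ℝ E₂) (j1 (Twist.cf f) q) u v w)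
      (fun u u' v w => mkD2 (finBasis ℝ E₁) (j2 (Twist.cf h) q) u u' v w)
      (fun u u' v w => mkD2 (finBasis ℝ E₂) (j2 (Twist.cf f) q) u u' v w)
      (r1 (mkD (finBasis ℝ E₁) (j1 (Twist.cf h) q)))
      (r11 (mkD2 (finBasis ℝ E₁) (j2 (Twist.cf h) q)))
      (r2 (mkD (finBasis ℝ E₂) (j1 (Twist.cf f) q)))
      (r22 (mkD2 (finBasis ℝ E₂) (j2 (Twist.cf f) q))) :=
    { hH := nh
      hK := nf
      hg := fun u v => by
        rw [block_form]
        simp only [Real.exp_zero, one_pow, one_mul]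
      hD := fun u v w => by
        rw [block_D hh hf c0 c0, d0]
        simp only [Real.exp_zero, one_pow, one_mul, mul_zero, zero_mul, zero_add]
      hD2 := fun u u' v w => by
        rw [block_D2 hh hf c0 c0, d0, d0, dd0]
        simp only [Real.exp_zero, one_pow, one_mul, mul_zero, zero_mul, zero_add, add_zero]
      hdH := fun u v w => rfl
      hd2H := fun u v w z => rfl
      hdK := fun u v w => rfl
      hd2K := fun u v w z => rfl
      sH := fun u v w => mkD_symm _ (j1_symm hsy) u v w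
      sK := fun u v w => mkD_symm _ (j1_symm fsy) u v w
      zH := fun u v => by simp only [map_zero]
      zK := fun u v => by simp only [map_zero]
      zH2 := fun u v w => by simp only [map_zero]
      zK2 := fun u v w => by simp only [map_zero]
      s2H := fun u v w z => mkD2_symm _ (j2_symm hsy) u v w z
      s2K := fun u v w z => mkD2_symm _ (j2_symm fsy) u v w z }
  have nprod : Nondeg ((finBasis ℝ E₁).prod (finBasis ℝ E₂))
      (fB (blockMetric h f (fun _ => 0) (fun _ => 0)) q) := nondeg_prod nh nf B.hg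
  have nfin : Nondeg (finBasis ℝ (E₁ × E₂))
      (fB (blockMetric h f (fun _ => 0) (fun _ => 0)) q) := by
    refine ⟨nprod.symm, ?_⟩
    have h1 := (LinearMap.BilinForm.nondegenerate_iff_det_ne_zero
      (B := fB (blockMetric h f (fun _ => 0) (fun _ => 0)) q)
        ((finBasis ℝ E₁).prod (finBasis ℝ E₂))).mpr ?_
    · have h2 := (LinearMap.BilinForm.nondegenerate_iff_det_ne_zero
        (B := fB (blockMetric h f (fun _ => 0) (fun _ => 0)) q) (finBasis ℝ (E₁ × E₂))).mp h1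
      have h3 : gram (finBasis ℝ (E₁ × E₂)) (fB (blockMetric h f (fun _ => 0) (fun _ => 0)) q) =
          LinearMap.BilinForm.toMatrix (finBasis ℝ (E₁ × E₂))
            (fB (blockMetric h f (fun _ => 0) (fun _ => 0)) q) := by
        ext i j
        rw [LinearMap.BilinForm.toMatrix_apply]
        rfl
      rw [h3]
      exact isUnit_iff_ne_zero.mpr h2
    · have h3 : LinearMap.BilinForm.toMatrix ((finBasis ℝ E₁).prod (finBasis ℝ E₂))
          (fB (blockMetric h f (fun _ => 0) (fun _ => 0)) q) =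
          gram ((finBasis ℝ E₁).prod (finBasis ℝ E₂))
            (fB (blockMetric h f (fun _ => 0) (fun _ => 0)) q) := by
        ext i j
        rw [LinearMap.BilinForm.toMatrix_apply]
        rfl
      rw [h3]
      exact isUnit_iff_ne_zero.mp nprod.det
  have hs : Curv.scal (blockMetric h f (fun _ => 0) (fun _ => 0)) q =
      scal ((finBasis ℝ E₁).prod (finBasis ℝ E₂))
      (fB (blockMetric h f (fun _ => 0) (fun _ => 0)) q)
      (fD (blockMetric h f (fun _ => 0) (fun _ => 0)) q)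
      (fD2 (blockMetric h f (fun _ => 0) (fun _ => 0)) q) := by
    rw [scal_link (block_contDiffAt hh hf c0 c0), scal_basis _ _ nfin nprod]
  have hS1 : Curv.scal (fun x => h (x, q.2)) q.1 = scal (finBasis ℝ E₁)
      (mkB (finBasis ℝ E₁) fun i j => h q i j) (r1 (mkD (finBasis ℝ E₁) (j1 (Twist.cf h) q)))
      (r11 (mkD2 (finBasis ℝ E₁) (j2 (Twist.cf h) q))) := by
    rw [scal_link (h := fun x => h (x, q.2)) (fun i j => slice1_contDiffAt (hh i j)),
      slice1_fD hh, slice1_fD2 hh]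
  have hS2 : Curv.scal (fun y => f (q.1, y)) q.2 = scal (finBasis ℝ E₂)
      (mkB (finBasis ℝ E₂) fun i j => f q i j) (r2 (mkD (finBasis ℝ E₂) (j1 (Twist.cf f) q)))
      (r22 (mkD2 (finBasis ℝ E₂) (j2 (Twist.cf f) q))) := by
    rw [scal_link (h := fun y => f (q.1, y)) (fun i j => slice2_contDiffAt (hf i j)),
      slice2_fD hf, slice2_fD2 hf]
  -- the logarithm of the determinant
  have hcont : Tendsto (fun x : E₁ => (x, q.2)) (𝓝 q.1) (𝓝 q) := by
    have : Continuous fun x : E₁ => (x, q.2) := by fun_prop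
    exact this.tendsto q.1
  have Fs : ∀ i j, ContDiffAt ℝ ∞ (fun x => (fun x : E₁ => f (x, q.2)) x i j) q.1 := fun i j =>
    slice1_contDiffAt (hf i j)
  have Fp : ∀ᶠ x in 𝓝 q.1, ((fun x : E₁ => f (x, q.2)) x).PosDef := hcont.eventually hfp
  have cφ : ContDiffAt ℝ ∞ (fun x => (1 / 2) * Real.log (f (x, q.2)).det) q.1 :=
    contDiffAt_ld Fs Fp
  have dφ : ∀ x : E₁, fderiv ℝ (fun x => (1 / 2) * Real.log (f (x, q.2)).det) q.1 x =
      dlog (finBasis ℝ E₂) (mkB (finBasis ℝ E₂) fun i j => f q i j)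
        (fun x v w => mkD (finBasis ℝ E₂) (j1 (Twist.cf f) q) (x, (0 : E₂)) v w) x := by
    intro x
    have e1 := fderiv_ld1 (fun i j => (Fs i j).differentiableAt (by simp)) Fp x
    refine e1.trans ?_
    unfold dlog tr
    rw [hg2]
    congr 1
    refine Finset.sum_congr rfl fun k _ => Finset.sum_congr rfl fun l _ => ?_
    beta_reduce
    rw [mkD_basis, j1_apply]
    have e2 := slice1_fderiv (hf k l) x
    exact congrArg _ e2
  have ddφ : ∀ u z : E₁, fderiv ℝ (fderiv ℝ fun x => (1 / 2) * Real.log (f (x, q.2)).det) q.1 u z =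
      d2log (finBasis ℝ E₂) (mkB (finBasis ℝ E₂) fun i j => f q i j)
        (fun x v w => mkD (finBasis ℝ E₂) (j1 (Twist.cf f) q) (x, (0 : E₂)) v w)
        (fun x y v w => mkD2 (finBasis ℝ E₂) (j2 (Twist.cf f) q) (x, (0 : E₂)) (y, (0 : E₂)) v w) u z := by
    intro u z
    have e1 := fderiv_ld2 Fs Fp u z
    refine e1.trans ?_
    unfold d2log
    rw [quad_rearrange jf hg2
      (fun x : E₁ => mkD (finBasis ℝ E₂) (j1 (Twist.cf f) q) (x, 0)) u z]
    unfold tr
    rw [hg2]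
    congr 2
    · refine Finset.sum_congr rfl fun k _ => Finset.sum_congr rfl fun l _ => ?_
      beta_reduce
      rw [mkD2_basis, j2_apply]
      have e2 := slice1_fderiv2 (hf k l) u z
      exact congrArg _ e2
    · refine Finset.sum_congr rfl fun k _ => Finset.sum_congr rfl fun l _ =>
        Finset.sum_congr rfl fun r _ => Finset.sum_congr rfl fun s _ => ?_
      rw [mkD_basis, mkD_basis, j1_apply, j1_apply]
      have a1 : fderiv ℝ (fun x => f (x, q.2) k r) q.1 z =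
        fderiv ℝ (fun q => f q k r) q (z, 0) := slice1_fderiv (hf k r) z
      have a2 : fderiv ℝ (fun x => f (x, q.2) l s) q.1 u =
        fderiv ℝ (fun q => f q l s) q (u, 0) := slice1_fderiv (hf l s) u
      rw [a1, a2]
  have hL : lapC (fun x => h (x, q.2)) (fun x => (1 / 2) * Real.log (f (x, q.2)).det) q.1 =
      tr (finBasis ℝ E₁) (mkB (finBasis ℝ E₁) fun i j => h q i j) (fun u z =>
        d2log (finBasis ℝ E₂) (mkB (finBasis ℝ E₂) fun i j => f q i j)
          (fun x v w => mkD (finBasis ℝ E₂) (j1 (Twist.cf f) q) (x, (0 : E₂)) v w)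
          (fun x y v w => mkD2 (finBasis ℝ E₂) (j2 (Twist.cf f) q) (x, (0 : E₂)) (y, (0 : E₂)) v w) u z -
        cop (finBasis ℝ E₁) (mkB (finBasis ℝ E₁) fun i j => h q i j)
          (chr (r1 (mkD (finBasis ℝ E₁) (j1 (Twist.cf h) q))) u z)
          (dlog (finBasis ℝ E₂) (mkB (finBasis ℝ E₂) fun i j => f q i j)
            (fun x v w => mkD (finBasis ℝ E₂) (j1 (Twist.cf f) q) (x, (0 : E₂)) v w))) := by
    refine (lapC_link (h := fun x => h (x, q.2)) cφ).trans ?_
    rw [slice1_fD hh]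
    unfold lap
    refine tr_congr fun u z => ?_
    have e1 := ddφ u z
    refine congrArg₂ (fun a b : ℝ => a - b) e1 ?_
    exact cop_congr (fun _ => rfl) dφ
  have hG : gradC (fun x => h (x, q.2)) (fun x => (1 / 2) * Real.log (f (x, q.2)).det)
      (fun x => (1 / 2) * Real.log (f (x, q.2)).det) q.1 =
      cop (finBasis ℝ E₁) (mkB (finBasis ℝ E₁) fun i j => h q i j)
        (dlog (finBasis ℝ E₂) (mkB (finBasis ℝ E₂) fun i j => f q i j)
          (fun x v w => mkD (finBasis ℝ E₂) (j1 (Twist.cf f) q) (x, (0 : E₂)) v w))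
        (dlog (finBasis ℝ E₂) (mkB (finBasis ℝ E₂) fun i j => f q i j)
          (fun x v w => mkD (finBasis ℝ E₂) (j1 (Twist.cf f) q) (x, (0 : E₂)) v w)) :=
    (gradC_link (h := fun x => h (x, q.2))).trans (cop_congr dφ dφ)
  -- the terms which vanish
  have y1 : (dlog (finBasis ℝ E₁) (mkB (finBasis ℝ E₁) fun i j => h q i j)
      (fun x v w => mkD (finBasis ℝ E₁) (j1 (Twist.cf h) q) ((0 : E₁), x) v w)) = 0 := by
    funext y
    unfold dlog tr
    simp only [z1, mul_zero, Finset.sum_const_zero, Pi.zero_apply]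
  have y2 : ∀ u z, quad (finBasis ℝ E₁) (mkB (finBasis ℝ E₁) fun i j => h q i j)
      (fun x v w => mkD (finBasis ℝ E₁) (j1 (Twist.cf h) q) ((0 : E₁), x) v w) u z = 0 := by
    intro u z
    unfold quad cop tr
    simp only [z1, mul_zero, Finset.sum_const_zero]
  have y3 : ∀ u z, d2log (finBasis ℝ E₁) (mkB (finBasis ℝ E₁) fun i j => h q i j)
      (fun x v w => mkD (finBasis ℝ E₁) (j1 (Twist.cf h) q) ((0 : E₁), x) v w)
      (fun x y v w => mkD2 (finBasis ℝ E₁) (j2 (Twist.cf h) q) ((0 : E₁), x) ((0 : E₁), y) v w) u z =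
      0 := by
    intro u z
    unfold d2log
    rw [y2]
    unfold tr
    simp only [z2, mul_zero, Finset.sum_const_zero, sub_zero]
  have hQ : tr (finBasis ℝ E₁) (mkB (finBasis ℝ E₁) fun i j => h q i j) (fun u z =>
        quad (finBasis ℝ E₂) (mkB (finBasis ℝ E₂) fun i j => f q i j)
          (fun x v w => mkD (finBasis ℝ E₂) (j1 (Twist.cf f) q) (x, (0 : E₂)) v w) u z) =
      ∑ a, ∑ b, (h q)⁻¹ a b *
        ipM (f q) (fun i j => fderiv ℝ (fun p => f p i j) q (finBasis ℝ E₁ a, 0))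
          (fun i j => fderiv ℝ (fun p => f p i j) q (finBasis ℝ E₁ b, 0)) := by
    rw [← tr_flip nh]
    unfold tr
    rw [hg1]
    refine Finset.sum_congr rfl fun a _ => Finset.sum_congr rfl fun b _ => ?_
    exact congrArg _ (quad_ipM jf _ _)
  have key := scal_block B
  have key' : Curv.scal (blockMetric h f (fun _ => 0) (fun _ => 0)) q =
      Curv.scal (fun x => h (x, q.2)) q.1 + Curv.scal (fun y => f (q.1, y)) q.2 -
      2 * tr (finBasis ℝ E₁) (mkB (finBasis ℝ E₁) fun i j => h q i j) (fun u z =>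
        d2log (finBasis ℝ E₂) (mkB (finBasis ℝ E₂) fun i j => f q i j)
          (fun x v w => mkD (finBasis ℝ E₂) (j1 (Twist.cf f) q) (x, (0 : E₂)) v w)
          (fun x y v w => mkD2 (finBasis ℝ E₂) (j2 (Twist.cf f) q) (x, (0 : E₂)) (y, (0 : E₂)) v w) u z -
        cop (finBasis ℝ E₁) (mkB (finBasis ℝ E₁) fun i j => h q i j)
          (chr (r1 (mkD (finBasis ℝ E₁) (j1 (Twist.cf h) q))) u z)
          (dlog (finBasis ℝ E₂) (mkB (finBasis ℝ E₂) fun i j => f q i j)
            (fun x v w => mkD (finBasis ℝ E₂) (j1 (Twist.cf f) q) (x, (0 : E₂)) v w))) -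
      2 * tr (finBasis ℝ E₂) (mkB (finBasis ℝ E₂) fun i j => f q i j) (fun u z =>
        d2log (finBasis ℝ E₁) (mkB (finBasis ℝ E₁) fun i j => h q i j)
          (fun x v w => mkD (finBasis ℝ E₁) (j1 (Twist.cf h) q) ((0 : E₁), x) v w)
          (fun x y v w => mkD2 (finBasis ℝ E₁) (j2 (Twist.cf h) q) ((0 : E₁), x) ((0 : E₁), y) v w) u z -
        cop (finBasis ℝ E₂) (mkB (finBasis ℝ E₂) fun i j => f q i j)
          (chr (r2 (mkD (finBasis ℝ E₂) (j1 (Twist.cf f) q))) u z)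
          (dlog (finBasis ℝ E₁) (mkB (finBasis ℝ E₁) fun i j => h q i j)
            (fun x v w => mkD (finBasis ℝ E₁) (j1 (Twist.cf h) q) ((0 : E₁), x) v w))) -
      cop (finBasis ℝ E₁) (mkB (finBasis ℝ E₁) fun i j => h q i j)
        (dlog (finBasis ℝ E₂) (mkB (finBasis ℝ E₂) fun i j => f q i j)
          (fun x v w => mkD (finBasis ℝ E₂) (j1 (Twist.cf f) q) (x, (0 : E₂)) v w))
        (dlog (finBasis ℝ E₂) (mkB (finBasis ℝ E₂) fun i j => f q i j)
          (fun x v w => mkD (finBasis ℝ E₂) (j1 (Twist.cf f) q) (x, (0 : E₂)) v w)) -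
      cop (finBasis ℝ E₂) (mkB (finBasis ℝ E₂) fun i j => f q i j)
        (dlog (finBasis ℝ E₁) (mkB (finBasis ℝ E₁) fun i j => h q i j)
          (fun x v w => mkD (finBasis ℝ E₁) (j1 (Twist.cf h) q) ((0 : E₁), x) v w))
        (dlog (finBasis ℝ E₁) (mkB (finBasis ℝ E₁) fun i j => h q i j)
          (fun x v w => mkD (finBasis ℝ E₁) (j1 (Twist.cf h) q) ((0 : E₁), x) v w)) -
      (1 / 4) * tr (finBasis ℝ E₁) (mkB (finBasis ℝ E₁) fun i j => h q i j) (fun u z =>
        quad (finBasis ℝ E₂) (mkB (finBasis ℝ E₂) fun i j => f q i j)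
          (fun x v w => mkD (finBasis ℝ E₂) (j1 (Twist.cf f) q) (x, (0 : E₂)) v w) u z) -
      (1 / 4) * tr (finBasis ℝ E₂) (mkB (finBasis ℝ E₂) fun i j => f q i j) (fun u z =>
        quad (finBasis ℝ E₁) (mkB (finBasis ℝ E₁) fun i j => h q i j)
          (fun x v w => mkD (finBasis ℝ E₁) (j1 (Twist.cf h) q) ((0 : E₁), x) v w) u z) := by
    rw [hs, hS1, hS2]
    exact key
  rw [key', ← hL, ← hG, hQ, y1]
  simp only [y2, y3, cop_zero_right]
  simp only [tr, sub_zero, mul_zero, Finset.sum_const_zero]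

end main


end BlockScalAux

variable {E₁ : Type*} [NormedAddCommGroup E₁] [NormedSpace ℝ E₁] [FiniteDimensional ℝ E₁]
  {E₂ : Type*} [NormedAddCommGroup E₂] [NormedSpace ℝ E₂] [FiniteDimensional ℝ E₂]
  {h : Curv.Coeff E₁} {f : E₁ × E₂ → Matrix (Fin (finrank ℝ E₂)) (Fin (finrank ℝ E₂)) ℝ}
  {Γ : E₁ × E₂ → E₁ →L[ℝ] E₂} {q : E₁ × E₂}

/-- The scalar curvature of the metric `h(x) + f(x, y)`, an instance of `Alg.scal_block`. -/
theorem block_scal (hD : Dat h f 0 (fun _ => 0) (fun _ => 0) q) :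
    Curv.scal (conn₀ h f 0) q = Curv.scal h q.1 + Curv.scal (fun y => f (q.1, y)) q.2 -
      2 * lapC h (fun x => (1 / 2) * Real.log (f (x, q.2)).det) q.1 -
      gradC h (fun x => (1 / 2) * Real.log (f (x, q.2)).det)
        (fun x => (1 / 2) * Real.log (f (x, q.2)).det) q.1 -
      (1 / 4) * ∑ a, ∑ b, (h q.1)⁻¹ a b *
        ipM (f q) (fun i j => fderiv ℝ (fun p => f p i j) q (finBasis ℝ E₁ a, 0))
          (fun i j => fderiv ℝ (fun p => f p i j) q (finBasis ℝ E₁ b, 0)) := by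
  have hhd : ∀ (k l) (p : E₁ × E₂) (y : E₂), DifferentiableAt ℝ (fun x => h x k l) p.1 →
      fderiv ℝ (fun q : E₁ × E₂ => h q.1 k l) p (0, y) = 0 := by
    intro k l p y hd
    have e1 : HasFDerivAt (fun q : E₁ × E₂ => h q.1 k l)
        ((fderiv ℝ (fun x => h x k l) p.1).comp (ContinuousLinearMap.fst ℝ E₁ E₂)) p :=
      hd.hasFDerivAt.comp p hasFDerivAt_fst
    rw [e1.fderiv]
    simp
  have hh_smooth : ∀ i j, ContDiffAt ℝ ∞ (fun p : E₁ × E₂ => h p.1 i j) q := fun i j =>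
    ContDiffAt.comp (f := Prod.fst) (g := fun x => h x i j) q (hD.h_smooth i j) contDiffAt_fst
  have hfst : Tendsto (fun p : E₁ × E₂ => p.1) (𝓝 q) (𝓝 q.1) := continuous_fst.tendsto q
  have hh_pos : ∀ᶠ p : E₁ × E₂ in 𝓝 q, (h p.1).PosDef := hfst.eventually hD.h_pos
  have hhe : ∀ k l, ∀ᶠ p in 𝓝 q, DifferentiableAt ℝ (fun x => h x k l) (Prod.fst p) :=
    fun k l => hfst.eventually (Alg.eventually_differentiableAt (hD.h_smooth k l))
  have z1 : ∀ (y : E₂) (v w : E₁), Alg.mkD (finBasis ℝ E₁)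
      (Alg.j1 (Twist.cf fun p : E₁ × E₂ => h p.1) q) (0, y) v w = 0 := by
    intro y v w
    rw [Alg.mkD_apply]
    refine Finset.sum_eq_zero fun k _ => Finset.sum_eq_zero fun l _ => ?_
    rw [Alg.j1_apply]
    have e1 : fderiv ℝ (Twist.cf (fun p : E₁ × E₂ => h p.1) k l) q (0, y) = 0 :=
      hhd k l q y (hhe k l).self_of_nhds
    rw [e1, zero_mul]
  have z2 : ∀ (y y' : E₂) (v w : E₁), Alg.mkD2 (finBasis ℝ E₁)
      (Alg.j2 (Twist.cf fun p : E₁ × E₂ => h p.1) q) (0, y) (0, y') v w = 0 := by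
    intro y y' v w
    rw [Alg.mkD2_apply]
    refine Finset.sum_eq_zero fun k _ => Finset.sum_eq_zero fun l _ => ?_
    have e2 : (fun q => fderiv ℝ (fun q : E₁ × E₂ => h q.1 k l) q (0, y')) =ᶠ[𝓝 q]
        fun _ => 0 := by
      filter_upwards [hhe k l] with p hp
      exact hhd k l p y' hp
    have e3 : Alg.j2 (Twist.cf fun p : E₁ × E₂ => h p.1) q k l (0, y) (0, y') = 0 := by
      rw [Alg.j2_apply]
      have e4 := Alg.fderiv_fderiv_apply (hh_smooth k l) ((0, y) : E₁ × E₂) ((0, y') : E₁ × E₂)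
      refine e4.symm.trans ?_
      rw [e2.fderiv_eq, fderiv_const_apply]
      rfl
    rw [e3, zero_mul]
  have T1 : blockMetric (fun p : E₁ × E₂ => h p.1) f (fun _ => 0) (fun _ => 0) =
      conn₀ h f 0 := by
    funext p i j
    unfold conn₀ blockMetric connMetric mB
    simp only [Pi.zero_apply, _root_.zero_apply, sub_zero]
  have key := BlockScalAux.scal0 (h := fun p : E₁ × E₂ => h p.1) hh_smooth hD.f_smooth hh_pos
    hD.f_pos z1 z2
  rw [T1] at key
  exact key

end Pool.Agent.Lib.MP_df705a_gt.Coll
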