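import Pool.Agent.Lib.MP_df705a_gt.Coll.IR

/-!
# The volume density in adapted coordinates
-/

open scoped Manifold ContDiff Topology
open Set Bundle Module Filter MeasureTheory

noncomputable section

namespace Pool.Agent.Lib.MP_df705a_gt.Coll

open Pool.Agent.Lib.MP_df705a_gt.Twist Pool.Agent.Lib.MP_df705a_gt.Perm
open Pool.Agent.Lib.MP_df705a_gt.Circ (Horizontal Submersion cf Para HorConf)
open Pool.Agent.Lib.MP_df705a_gt.Fib (RiemSub Biconformal)

variable {E₁ : Type*} [NormedAddCommGroup E₁] [NormedSpace ℝ E₁] [FiniteDimensional ℝ E₁]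
  {B : Type*} [TopologicalSpace B] [ChartedSpace E₁ B] [IsManifold 𝓘(ℝ, E₁) ∞ B]
  {E₂ : Type*} [NormedAddCommGroup E₂] [NormedSpace ℝ E₂] [FiniteDimensional ℝ E₂]
  {F : Type*} [TopologicalSpace F] [ChartedSpace E₂ F] [IsManifold 𝓘(ℝ, E₂) ∞ F]
  {E : Type*} [NormedAddCommGroup E] [NormedSpace ℝ E] [FiniteDimensional ℝ E]
  {M : Type*} [TopologicalSpace M] [ChartedSpace E M] [IsManifold 𝓘(ℝ, E) ∞ M]

namespace DetAux

theorem hm_form (g : Met E M) (σ : E₁ × E₂ → M) (q : E₁ × E₂) (u v : E₁) :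
    Sub.mB (hm g σ q) u v = Fib.gσ g σ q (u, Fib.gam g σ q u) (v, Fib.gam g σ q v) := by
  have h3 := bilin_sum (finBasis ℝ E₁)
    ((Fib.gσ g σ q).bilinearComp ((ContinuousLinearMap.id ℝ E₁).prod (Fib.gam g σ q))
      ((ContinuousLinearMap.id ℝ E₁).prod (Fib.gam g σ q)))
    (fun i => (finBasis ℝ E₁).repr u i) (fun i => (finBasis ℝ E₁).repr v i)
  rw [(finBasis ℝ E₁).sum_repr, (finBasis ℝ E₁).sum_repr] at h3
  have h4 : Fib.gσ g σ q (u, Fib.gam g σ q u) (v, Fib.gam g σ q v) =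
    (Fib.gσ g σ q).bilinearComp ((ContinuousLinearMap.id ℝ E₁).prod (Fib.gam g σ q))
      ((ContinuousLinearMap.id ℝ E₁).prod (Fib.gam g σ q)) u v := rfl
  rw [h4, h3]
  unfold Sub.mB
  refine Finset.sum_congr rfl fun i _ => Finset.sum_congr rfl fun j _ => ?_
  have h5 : (Fib.gσ g σ q).bilinearComp ((ContinuousLinearMap.id ℝ E₁).prod (Fib.gam g σ q))
      ((ContinuousLinearMap.id ℝ E₁).prod (Fib.gam g σ q)) (finBasis ℝ E₁ i) (finBasis ℝ E₁ j) =
      hm g σ q i j := rfl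
  rw [h5]
  ring

/-- the constant coefficients -/
def hc (g : Met E M) (σ : E₁ × E₂ → M) (q : E₁ × E₂) : Curv.Coeff E₁ := fun _ => hm g σ q

theorem cf_conn (g : Met E M) {σ : E₁ × E₂ → M} {q : E₁ × E₂} (hp : Para E σ q) :
    cf g σ q = Fib.conn₀ (hc g σ q) (Fib.fm g σ) (Fib.gam g σ) q := by
  ext i j
  have h1 : cf g σ q i j = Fib.gσ g σ q (finBasis ℝ (E₁ × E₂) i) (finBasis ℝ (E₁ × E₂) j) := rfl
  have hdec : ∀ e : E₁ × E₂, e = (e.1, Fib.gam g σ q e.1) + (0, e.2 - Fib.gam g σ q e.1) := by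
    intro e
    refine Prod.ext ?_ ?_
    · simp
    · simp
  have hsym : ∀ v w, Fib.gσ g σ q v w = Fib.gσ g σ q w v := fun v w => g.symm _ _ _
  have hexp : ∀ e e' : E₁ × E₂, Fib.gσ g σ q e e' =
      Fib.gσ g σ q (e.1, Fib.gam g σ q e.1) (e'.1, Fib.gam g σ q e'.1) +
      Fib.gσ g σ q (0, e.2 - Fib.gam g σ q e.1) (0, e'.2 - Fib.gam g σ q e'.1) := by
    intro e e'
    conv_lhs => rw [hdec e, hdec e']
    have h2 : Fib.gσ g σ q (e.1, Fib.gam g σ q e.1) (0, e'.2 - Fib.gam g σ q e'.1) = 0 :=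
      Fib.G6.horth g hp _ _
    have h3 : Fib.gσ g σ q (0, e.2 - Fib.gam g σ q e.1) (e'.1, Fib.gam g σ q e'.1) = 0 := by
      rw [hsym]
      exact Fib.G6.horth g hp _ _
    simp only [map_add, add_apply]
    rw [h2, h3]
    ring
  rw [h1, hexp]
  unfold Fib.conn₀ Sub.connMetric hc
  simp only [Real.exp_zero, one_pow, one_mul]
  rw [hm_form, ← Fib.G3.mB_snd (Fib.gσ g σ q)]
  rfl

theorem det_cf (g : Met E M) {σ : E₁ × E₂ → M} {q : E₁ × E₂} (hp : Para E σ q) :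
    √ (cf g σ q).det = |(Fib.F4a.cb E₁ E₂).det| * (√ (hm g σ q).det * √ (Fib.fm g σ q).det) := by
  have h1 : (cf g σ q).det = (Fib.F4a.cb E₁ E₂).det ^ 2 * ((hm g σ q).det * (Fib.fm g σ q).det) := by
    rw [cf_conn g hp, ← Matrix.det_submatrix_equiv_self (Fib.F4a.ie E₁ E₂).symm, Fib.F4a.conn_eq, Matrix.det_mul,
      Matrix.det_mul, Matrix.det_transpose, Matrix.det_mul, Fib.F4a.un_det, Fib.F4a.dg_det]
    unfold hc
    ring
  rw [h1, Real.sqrt_mul (by positivity), Real.sqrt_sq_eq_abs, Real.sqrt_mul' _ (Fib.G6.fm_pos g hp).det_pos.le]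

variable (E₁ E₂) in
theorem haar_change [MeasurableSpace E₁] [BorelSpace E₁] [MeasurableSpace E₂] [BorelSpace E₂] :
    (finBasis ℝ E₁).addHaar.prod (finBasis ℝ E₂).addHaar =
      ENNReal.ofReal |(Fib.F4a.cb E₁ E₂).det| • (finBasis ℝ (E₁ × E₂)).addHaar := by
  have h1 : (Fib.F4a.pb E₁ E₂).addHaar = (finBasis ℝ E₁).addHaar.prod (finBasis ℝ E₂).addHaar :=
    Module.Basis.prod_addHaar _ _
  obtain ⟨v, hv⟩ : ∃ v : Basis (Fin (finrank ℝ E₁) ⊕ Fin (finrank ℝ E₂)) ℝ (E₁ × E₂),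
    v = (finBasis ℝ (E₁ × E₂)).reindex (Fib.F4a.ie E₁ E₂) := ⟨_, rfl⟩
  have h2 : v.addHaar = (finBasis ℝ (E₁ × E₂)).addHaar := by rw [hv, Module.Basis.addHaar_reindex]
  have h3 := Measure.addHaarMeasure_unique (Fib.F4a.pb E₁ E₂).addHaar v.parallelepiped
  have h4 : (Fib.F4a.pb E₁ E₂).addHaar v.parallelepiped = ENNReal.ofReal |(Fib.F4a.cb E₁ E₂).det| := by
    have h5 := Measure.addHaar_parallelepiped (Fib.F4a.pb E₁ E₂) v
    have h6 : (Fib.F4a.pb E₁ E₂).det v = (Fib.F4a.cb E₁ E₂).det := by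
      rw [Basis.det_apply, hv]
      rfl
    rw [h6] at h5
    exact h5
  rw [← h1, h3, h4, ← h2, Module.Basis.addHaar_def]

end DetAux

variable [MeasurableSpace E₁] [BorelSpace E₁] [MeasurableSpace E₂] [BorelSpace E₂]
  [MeasurableSpace E] [BorelSpace E] [MeasurableSpace B] [BorelSpace B]
  [MeasurableSpace F] [BorelSpace F] [MeasurableSpace M] [BorelSpace M]
  [CompactSpace M] [T2Space M] [CompactSpace B] [T2Space B] [CompactSpace F] [T2Space F]

/-- The integral in adapted coordinates. -/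
theorem int_adapted {pr : M → B} {g : Met E M} {μM : Measure M} (hM : IsRVol g μM)
    {σ : E₁ × E₂ → M} {W : Set (E₁ × E₂)} (hW : IsOpen W) {z : B}
    (hσ : ∀ q ∈ W, Fib.AC E pr σ q z) (hinj : InjOn σ W) {K : M → ℝ} (hK : Continuous K)
    (hs : tsupport K ⊆ σ '' W) :
    ∫ p, K p ∂μM = ∫ q in W, K (σ q) * (√ (hm g σ q).det * √ (Fib.fm g σ q).det)
      ∂((finBasis ℝ E₁).addHaar.prod (finBasis ℝ E₂).addHaar) := by
  have hp : ∀ q ∈ W, Para E σ q := fun q hq => (hσ q hq).para.self_of_nhds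
  rw [hM.para hW hp hinj hK hs, DetAux.haar_change E₁ E₂, Measure.restrict_smul, integral_smul_measure,
    ENNReal.toReal_ofReal (abs_nonneg _), smul_eq_mul, ← integral_const_mul]
  refine setIntegral_congr_fun hW.measurableSet fun q hq => ?_
  beta_reduce
  rw [DetAux.det_cf g (hp q hq)]
  ring

end Pool.Agent.Lib.MP_df705a_gt.Coll
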