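import Pool.Agent.Lib.MP_df705a_gt.Coll.Defs

/-!
# The Einstein equation on the fibres
-/

open scoped Manifold ContDiff Topology
open Set Bundle Module Filter MeasureTheory

noncomputable section

namespace Pool.Agent.Lib.MP_df705a_gt.Coll

open Pool.Agent.Lib.MP_df705a_gt.Twist Pool.Agent.Lib.MP_df705a_gt.Perm
open Pool.Agent.Lib.MP_df705a_gt.Circ (Horizontal Submersion cf Para HorConf)
open Pool.Agent.Lib.MP_df705a_gt.Fib (RiemSub Biconformal)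

variable {E₁ : Type*} [NormedAddCommGroup E₁] [NormedSpace ℝ E₁] [FiniteDimensional ℝ E₁]
  {B : Type*} [TopologicalSpace B] [ChartedSpace E₁ B] [IsManifold 𝓘(ℝ, E₁) ∞ B]
  {E₂ : Type*} [NormedAddCommGroup E₂] [NormedSpace ℝ E₂] [FiniteDimensional ℝ E₂]
  {F : Type*} [TopologicalSpace F] [ChartedSpace E₂ F] [IsManifold 𝓘(ℝ, E₂) ∞ F]
  {E : Type*} [NormedAddCommGroup E] [NormedSpace ℝ E] [FiniteDimensional ℝ E]
  {M : Type*} [TopologicalSpace M] [ChartedSpace E M] [IsManifold 𝓘(ℝ, E) ∞ M]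

namespace EinFibAux

omit [FiniteDimensional ℝ E₂] in
theorem symm_bij (y : F) {a : E₂} (ha : a ∈ (extChartAt 𝓘(ℝ, E₂) y).target) :
    Function.Bijective (mfderiv 𝓘(ℝ, E₂) 𝓘(ℝ, E₂) (extChartAt 𝓘(ℝ, E₂) y).symm a) := by
  have h1 := isInvertible_mfderivWithin_extChartAt_symm (I := 𝓘(ℝ, E₂)) (x := y) ha
  rw [ModelWithCorners.range_eq_univ, mfderivWithin_univ] at h1
  exact h1.bijective

omit [FiniteDimensional ℝ E₂] in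
theorem symm_smooth (y : F) {a : E₂} (ha : a ∈ (extChartAt 𝓘(ℝ, E₂) y).target) :
    ContMDiffAt 𝓘(ℝ, E₂) 𝓘(ℝ, E₂) ∞ (extChartAt 𝓘(ℝ, E₂) y).symm a :=
  (contMDiffOn_extChartAt_symm y).contMDiffAt ((isOpen_extChartAt_target y).mem_nhds ha)

omit [FiniteDimensional ℝ E₁] [FiniteDimensional ℝ E₂] [FiniteDimensional ℝ E] in
theorem phi_smooth {pr : M → B} {U : Set B} {Φ : B × F → M} (hΦ : Triv E E₁ E₂ pr U Φ) {x : B}
    (hx : x ∈ U) (y : F) :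
    ContMDiffAt (𝓘(ℝ, E₁).prod 𝓘(ℝ, E₂)) 𝓘(ℝ, E) ∞ Φ (x, y) :=
  hΦ.smooth.contMDiffAt ((hΦ.isOpen.prod isOpen_univ).mem_nhds ⟨hx, mem_univ _⟩)

omit [FiniteDimensional ℝ E₁] [FiniteDimensional ℝ E₂] [FiniteDimensional ℝ E] in
theorem fib_smooth {pr : M → B} {U : Set B} {Φ : B × F → M} (hΦ : Triv E E₁ E₂ pr U Φ) {x : B}
    (hx : x ∈ U) (y : F) :
    ContMDiffAt 𝓘(ℝ, E₂) 𝓘(ℝ, E) ∞ (fun y => Φ (x, y)) y :=
  ContMDiffAt.comp y (g := Φ) (f := fun y => (x, y)) (phi_smooth hΦ hx y)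
    (contMDiffAt_const.prodMk contMDiffAt_id)

omit [FiniteDimensional ℝ E₁] [FiniteDimensional ℝ E₂] [FiniteDimensional ℝ E] in
theorem fib_inj {pr : M → B} {U : Set B} {Φ : B × F → M} (hΦ : Triv E E₁ E₂ pr U Φ) {x : B}
    (hx : x ∈ U) (y : F) :
    Function.Injective (mfderiv 𝓘(ℝ, E₂) 𝓘(ℝ, E) (fun y => Φ (x, y)) y) := by
  have h2 : MDifferentiableAt (𝓘(ℝ, E₁).prod 𝓘(ℝ, E₂)) 𝓘(ℝ, E) Φ (x, y) :=
    (phi_smooth hΦ hx y).mdifferentiableAt (by simp)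
  have h3 : HasMFDerivAt 𝓘(ℝ, E₂) (𝓘(ℝ, E₁).prod 𝓘(ℝ, E₂)) (fun y : F => (x, y)) y
      ((0 : E₂ →L[ℝ] E₁).prod (ContinuousLinearMap.id ℝ E₂)) :=
    (hasMFDerivAt_const (I := 𝓘(ℝ, E₂)) (I' := 𝓘(ℝ, E₁)) x y).prodMk (hasMFDerivAt_id y)
  have h4 := (h2.hasMFDerivAt.comp y h3).mfderiv
  have h5 : ∀ w : E₂, (mfderiv 𝓘(ℝ, E₂) 𝓘(ℝ, E) (fun y => Φ (x, y)) y : E₂ →L[ℝ] E) w =
      (mfderiv (𝓘(ℝ, E₁).prod 𝓘(ℝ, E₂)) 𝓘(ℝ, E) Φ (x, y) : E₁ × E₂ →L[ℝ] E) (0, w) :=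
    fun w => congrArg (fun L : E₂ →L[ℝ] E => L w) h4
  have h6 : Function.Injective
      (fun w : E₂ => (mfderiv 𝓘(ℝ, E₂) 𝓘(ℝ, E) (fun y => Φ (x, y)) y : E₂ →L[ℝ] E) w) := by
    intro v w hvw
    have h7 : (mfderiv (𝓘(ℝ, E₁).prod 𝓘(ℝ, E₂)) 𝓘(ℝ, E) Φ (x, y) : E₁ × E₂ →L[ℝ] E) (0, v) =
        (mfderiv (𝓘(ℝ, E₁).prod 𝓘(ℝ, E₂)) 𝓘(ℝ, E) Φ (x, y) : E₁ × E₂ →L[ℝ] E) (0, w) := by
      rw [← h5, ← h5]
      exact hvw
    have h8 := (hΦ.bij x hx y).injective h7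
    exact congrArg Prod.snd h8
  exact h6

omit [FiniteDimensional ℝ E₁] [FiniteDimensional ℝ E₂] [FiniteDimensional ℝ E] in
theorem par_deriv {pr : M → B} {U : Set B} {Φ : B × F → M} (hΦ : Triv E E₁ E₂ pr U Φ) {x : B}
    (hx : x ∈ U) (y : F) {z : E₂} (hz : z ∈ (extChartAt 𝓘(ℝ, E₂) y).target) (w : E₂) :
    (mfderiv 𝓘(ℝ, E₂) 𝓘(ℝ, E) (fun t => Φ (x, (extChartAt 𝓘(ℝ, E₂) y).symm t)) z : E₂ →L[ℝ] E) w =
      (mfderiv 𝓘(ℝ, E₂) 𝓘(ℝ, E) (fun y => Φ (x, y)) ((extChartAt 𝓘(ℝ, E₂) y).symm z) :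
        E₂ →L[ℝ] E)
        ((mfderiv 𝓘(ℝ, E₂) 𝓘(ℝ, E₂) (extChartAt 𝓘(ℝ, E₂) y).symm z : E₂ →L[ℝ] E₂) w) := by
  have h1 : MDifferentiableAt 𝓘(ℝ, E₂) 𝓘(ℝ, E) (fun y => Φ (x, y))
      ((extChartAt 𝓘(ℝ, E₂) y).symm z) := (fib_smooth hΦ hx _).mdifferentiableAt (by simp)
  have h2 : MDifferentiableAt 𝓘(ℝ, E₂) 𝓘(ℝ, E₂) (extChartAt 𝓘(ℝ, E₂) y).symm z :=
    (symm_smooth y hz).mdifferentiableAt (by simp)
  have h3 := mfderiv_comp z h1 h2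
  exact congrArg (fun L : E₂ →L[ℝ] E => L w) h3

end EinFibAux

theorem einstein_fib {pr : M → B} {g : Met E M} (hE : EinsteinFibres E₂ g pr)
    {U : Set B} {Φ : B × F → M} (hΦ : Triv E E₁ E₂ pr U Φ) {x : B} (hx : x ∈ U)
    {h : Met E₂ F} (hh : IsFib g Φ x h) :
    ∃ lam : ℝ, lam ≤ 0 ∧
      (∀ y, ric (coeff h y) (extChartAt 𝓘(ℝ, E₂) y y) = lam • cof h y) ∧
      ∀ y, Scal h y = (finrank ℝ E₂ : ℝ) * lam := by
  obtain ⟨lam, hlam, hE1⟩ := hE x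
  have key : ∀ y : F, ric (coeff h y) (extChartAt 𝓘(ℝ, E₂) y y) = lam • cof h y := by
    intro y
    set σ : E₂ → M := fun t => Φ (x, (extChartAt 𝓘(ℝ, E₂) y).symm t) with hσ
    have ht := mem_extChartAt_target (I := 𝓘(ℝ, E₂)) y
    have h1 : ContMDiffAt 𝓘(ℝ, E₂) 𝓘(ℝ, E) ∞ σ (extChartAt 𝓘(ℝ, E₂) y y) :=
      ContMDiffAt.comp (extChartAt 𝓘(ℝ, E₂) y y) (g := fun y => Φ (x, y))
        (f := (extChartAt 𝓘(ℝ, E₂) y).symm) (EinFibAux.fib_smooth hΦ hx _)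
        (EinFibAux.symm_smooth y ht)
    have h2 : Function.Injective (mfderiv 𝓘(ℝ, E₂) 𝓘(ℝ, E) σ (extChartAt 𝓘(ℝ, E₂) y y)) := by
      have h3 : Function.Injective (fun w : E₂ =>
          (mfderiv 𝓘(ℝ, E₂) 𝓘(ℝ, E) σ (extChartAt 𝓘(ℝ, E₂) y y) : E₂ →L[ℝ] E) w) := by
        intro v w hvw
        have h4 := EinFibAux.par_deriv hΦ hx y ht v
        have h5 := EinFibAux.par_deriv hΦ hx y ht w
        have h6 := (h4.symm.trans hvw).trans h5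
        exact (EinFibAux.symm_bij y ht).injective (EinFibAux.fib_inj hΦ hx _ h6)
      exact h3
    have h3 : ∀ᶠ y' in 𝓝 (extChartAt 𝓘(ℝ, E₂) y y), pr (σ y') = x :=
      Eventually.of_forall fun y' => hΦ.proj x hx _
    have h4 := hE1 σ _ h1 h2 h3
    have hy : ∀ᶠ b in 𝓝 (extChartAt 𝓘(ℝ, E₂) y y), b ∈ (extChartAt 𝓘(ℝ, E₂) y).target :=
      (isOpen_extChartAt_target (I := 𝓘(ℝ, E₂)) y).mem_nhds ht
    have h5 : cf g σ =ᶠ[𝓝 (extChartAt 𝓘(ℝ, E₂) y y)] coeff h y := by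
      filter_upwards [hy] with z hz
      ext i j
      have e1 := EinFibAux.par_deriv hΦ hx y hz (finBasis ℝ E₂ i)
      have e2 := EinFibAux.par_deriv hΦ hx y hz (finBasis ℝ E₂ j)
      have e3 : ∀ v v' w w' : E, v = v' → w = w' →
          (g.inner (σ z) : E →L[ℝ] E →L[ℝ] ℝ) v w = (g.inner (σ z) : E →L[ℝ] E →L[ℝ] ℝ) v' w' := by
        rintro _ _ _ _ rfl rfl
        rfl
      have e4 := e3 _ _ _ _ e1 e2
      have e5 := hh ((extChartAt 𝓘(ℝ, E₂) y).symm z)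
        (mfderiv 𝓘(ℝ, E₂) 𝓘(ℝ, E₂) (extChartAt 𝓘(ℝ, E₂) y).symm z (finBasis ℝ E₂ i))
        (mfderiv 𝓘(ℝ, E₂) 𝓘(ℝ, E₂) (extChartAt 𝓘(ℝ, E₂) y).symm z (finBasis ℝ E₂ j))
      exact e4.trans e5.symm
    rw [← ric_congr h5, h4, h5.self_of_nhds]
    rfl
  refine ⟨lam, hlam, key, fun y => ?_⟩
  have hpos : (cof h y).PosDef := chartMetric_posDef 𝓘(ℝ, E₂) (finBasis ℝ E₂) h y
    (mem_extChartAt_target (I := 𝓘(ℝ, E₂)) y)
  set A := cof h y with hA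
  have hAs : ∀ i j, A i j = A j i := fun i j => by
    have := hpos.1.apply j i
    simpa using this
  have hdet : IsUnit A.det := isUnit_iff_ne_zero.mpr hpos.det_pos.ne'
  have h1 : Scal h y = ∑ j, ∑ k, A⁻¹ j k * ric (coeff h y) (extChartAt 𝓘(ℝ, E₂) y y) j k := by
    show Curv.scal (coeff h y) (extChartAt 𝓘(ℝ, E₂) y y) = _
    unfold Curv.scal ric
    rw [Finset.sum_comm]
    refine Finset.sum_congr rfl fun j _ => ?_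
    rw [Finset.sum_comm]
    refine Finset.sum_congr rfl fun k _ => ?_
    rw [Finset.mul_sum]
    refine Finset.sum_congr rfl fun i _ => ?_
    rw [Finset.mul_sum]
    refine Finset.sum_congr rfl fun l _ => ?_
    show (cof h y)⁻¹ i l * (cof h y)⁻¹ j k * _ = A⁻¹ j k * ((cof h y)⁻¹ i l * _)
    rw [← hA]
    ring
  rw [h1, key y]
  have h2 : ∀ j, ∑ k, A⁻¹ j k * (lam • A) j k = lam := by
    intro j
    have h3 : (A⁻¹ * A) j j = 1 := by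
      rw [Matrix.nonsing_inv_mul A hdet]
      simp
    rw [Matrix.mul_apply] at h3
    calc ∑ k, A⁻¹ j k * (lam • A) j k = lam * ∑ k, A⁻¹ j k * A k j := by
          rw [Finset.mul_sum]
          refine Finset.sum_congr rfl fun k _ => ?_
          rw [Matrix.smul_apply, smul_eq_mul, hAs j k]
          ring
      _ = lam := by rw [h3, mul_one]
  rw [Finset.sum_congr rfl fun j _ => h2 j]
  simp

end Pool.Agent.Lib.MP_df705a_gt.Coll
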