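import Pool.Agent.Lib.MP_df705a_gt.Coll.Defs

/-!
# Smooth families of metrics
-/

open scoped Manifold ContDiff Topology
open Set Bundle Module Filter MeasureTheory

noncomputable section

namespace Pool.Agent.Lib.MP_df705a_gt.Coll

open Pool.Agent.Lib.MP_df705a_gt.Twist Pool.Agent.Lib.MP_df705a_gt.Perm
open Pool.Agent.Lib.MP_df705a_gt.Circ (Horizontal Submersion cf Para HorConf)
open Pool.Agent.Lib.MP_df705a_gt.Fib (RiemSub Biconformal)

variable {E : Type*} [NormedAddCommGroup E] [NormedSpace ℝ E] [FiniteDimensional ℝ E]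
  {M : Type*} [TopologicalSpace M] [ChartedSpace E M] [IsManifold 𝓘(ℝ, E) ∞ M]

namespace FamGrdAux

/-- the derivative of a function of `t` in terms of the joint derivative -/
theorem deriv_slice {V : Type*} [NormedAddCommGroup V] [NormedSpace ℝ V] {G : ℝ × V → ℝ} {y : V}
    (hG : DifferentiableAt ℝ G (0, y)) :
    HasDerivAt (fun t => G (t, y)) (fderiv ℝ G (0, y) (1, 0)) 0 := by
  have h1 : HasDerivAt (fun t : ℝ => (t, y)) ((1 : ℝ), (0 : V)) 0 :=
    (hasDerivAt_id 0).prodMk (hasDerivAt_const 0 y)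
  exact hG.hasFDerivAt.comp_hasDerivAt (0 : ℝ) h1

theorem sm_slice {V : Type*} [NormedAddCommGroup V] [NormedSpace ℝ V] {G : ℝ × V → ℝ} {y : V}
    (hG : ContDiffAt ℝ ∞ G (0, y)) : ContDiffAt ℝ ∞ (fun y => fderiv ℝ G (0, y) (1, 0)) y := by
  have h1 : ContDiffAt ℝ ∞ (fderiv ℝ G) (0, y) := hG.fderiv_right (by simp)
  have h2 : ContDiffAt ℝ ∞ (fun y : V => ((0 : ℝ), y)) y := contDiffAt_const.prodMk contDiffAt_id
  exact (ContDiffAt.comp (g := fderiv ℝ G) y h1 h2).clm_apply contDiffAt_const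

theorem of_chart {Q : M → ℝ} {C : M → E → ℝ}
    (hQ : ∀ (z : M) (y : E), y ∈ (extChartAt 𝓘(ℝ, E) z).target →
      C z y = Q ((extChartAt 𝓘(ℝ, E) z).symm y))
    (hC : ∀ (z : M) (y : E), y ∈ (extChartAt 𝓘(ℝ, E) z).target → ContDiffAt ℝ ∞ (C z) y) :
    Sm E Q := by
  intro p
  have ht : extChartAt 𝓘(ℝ, E) p p ∈ (extChartAt 𝓘(ℝ, E) p).target := mem_extChartAt_target p
  have h1 : ContMDiffAt 𝓘(ℝ, E) 𝓘(ℝ, ℝ) ∞ (fun x => C p (extChartAt 𝓘(ℝ, E) p x)) p :=
    ContMDiffAt.comp (g := C p) (f := fun x => extChartAt 𝓘(ℝ, E) p x) p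
      (hC p _ ht).contMDiffAt (contMDiffAt_extChartAt (x := p))
  refine h1.congr_of_eventuallyEq ?_
  filter_upwards [extChartAt_source_mem_nhds (I := 𝓘(ℝ, E)) p] with x hx
  rw [hQ p _ ((extChartAt 𝓘(ℝ, E) p).map_source hx), (extChartAt 𝓘(ℝ, E) p).left_inv hx]

theorem pd_sm {f : E → ℝ} {y : E} (hf : ContDiffAt ℝ ∞ f y) (i : Fin (finrank ℝ E)) :
    ContDiffAt ℝ ∞ (Curv.pd i f) y :=
  (hf.fderiv_right (m := ∞) (by simp)).clm_apply contDiffAt_const

theorem joint {h : ℝ → Met E M}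
    (hsm : ∀ (z : M), ∀ y ∈ (extChartAt 𝓘(ℝ, E) z).target, ∀ i j,
      ContDiffAt ℝ ∞ (fun p : ℝ × E => coeff (h p.1) z p.2 i j) (0, y))
    {u v : M → ℝ} (hu : Sm E u) (hv : Sm E v) (z : M) {y : E}
    (hy : y ∈ (extChartAt 𝓘(ℝ, E) z).target) :
    ContDiffAt ℝ ∞ (fun p : ℝ × E => gradC (coeff (h p.1) z) (rd E z u) (rd E z v) p.2)
      (0, y) := by
  have hdet : (coeff (h 0) z y).det ≠ 0 :=
    (chartMetric_posDef 𝓘(ℝ, E) (finBasis ℝ E) (h 0) z hy).det_pos.ne'
  have hru : ContDiffAt ℝ ∞ (rd E z u) y := read_contDiffAt 𝓘(ℝ, E) hu hy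
  have hrv : ContDiffAt ℝ ∞ (rd E z v) y := read_contDiffAt 𝓘(ℝ, E) hv hy
  unfold gradC
  refine ContDiffAt.sum fun i _ => ContDiffAt.sum fun j _ => ?_
  refine (contDiffAt_inv (h := fun p : ℝ × E => coeff (h p.1) z p.2) (x := (0, y))
    (hsm z y hy) hdet i j).mul ?_
  have h2 : ContDiffAt ℝ ∞ (fun p : ℝ × E => p.2) (0, y) := contDiffAt_snd
  exact (ContDiffAt.comp (g := Curv.pd i (rd E z u)) (0, y) (pd_sm hru i) h2).mul
    (ContDiffAt.comp (g := Curv.pd j (rd E z v)) (0, y) (pd_sm hrv j) h2)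

end FamGrdAux

open FamGrdAux in
/-- The derivative of the gradient product in a smooth family of metrics. -/
theorem fam_grd {h : ℝ → Met E M}
    (hsm : ∀ (z : M), ∀ y ∈ (extChartAt 𝓘(ℝ, E) z).target, ∀ i j,
      ContDiffAt ℝ ∞ (fun p : ℝ × E => coeff (h p.1) z p.2 i j) (0, y))
    {u v : M → ℝ} (hu : Sm E u) (hv : Sm E v) :
    (Sm E fun y => deriv (fun t => Grd (h t) u v y) 0) ∧
    ∀ y, ipM (cof (h 0) y) (fun i j => deriv (fun t => cof (h t) y i j) 0) (dd E u v y) =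
      -deriv (fun t => Grd (h t) u v y) 0 := by
  refine ⟨?_, fun y => ?_⟩
  · refine of_chart (C := fun z y => fderiv ℝ (fun p : ℝ × E =>
      gradC (coeff (h p.1) z) (rd E z u) (rd E z v) p.2) (0, y) (1, 0)) ?_ ?_
    · intro z y hy
      rw [← (deriv_slice ((joint hsm hu hv z hy).differentiableAt (by simp))).deriv]
      congr 1
      funext t
      exact grd_chart (h t) hu hv z hy
    · intro z y hy
      exact sm_slice (joint hsm hu hv z hy)
  · have hy : extChartAt 𝓘(ℝ, E) y y ∈ (extChartAt 𝓘(ℝ, E) y).target := mem_extChartAt_target y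
    set y₀ := extChartAt 𝓘(ℝ, E) y y with hy₀
    have hpos : (coeff (h 0) y y₀).PosDef :=
      chartMetric_posDef 𝓘(ℝ, E) (finBasis ℝ E) (h 0) y hy
    have hct : ∀ i j, ContDiffAt ℝ ∞ (fun t : ℝ => coeff (h t) y y₀ i j) 0 := by
      intro i j
      have h2 : ContDiffAt ℝ ∞ (fun t : ℝ => (t, y₀)) 0 := contDiffAt_id.prodMk contDiffAt_const
      exact ContDiffAt.comp (g := fun p : ℝ × E => coeff (h p.1) y p.2 i j) (0 : ℝ)
        (hsm y y₀ hy i j) h2
    have hinv : ∀ i j, HasDerivAt (fun t : ℝ => (coeff (h t) y y₀)⁻¹ i j)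
        (-∑ k, ∑ l, (coeff (h 0) y y₀)⁻¹ i k * (coeff (h 0) y y₀)⁻¹ l j *
          deriv (fun t => coeff (h t) y y₀ k l) 0) 0 := by
      intro i j
      have h3 : DifferentiableAt ℝ (fun t : ℝ => (coeff (h t) y y₀)⁻¹ i j) 0 :=
        (contDiffAt_inv hct hpos.det_pos.ne' i j).differentiableAt (by simp)
      have h4 := fderiv_inv (h := fun t : ℝ => coeff (h t) y y₀) (x := 0)
        (fun i j => (hct i j).of_le (by simp)) hpos.det_pos.ne' i j 1
      have h5 := h3.hasDerivAt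
      rw [← fderiv_apply_one_eq_deriv, h4] at h5
      simpa only [fderiv_apply_one_eq_deriv] using h5
    have h6 : HasDerivAt (fun t => Grd (h t) u v y)
        (∑ i, ∑ j, (-∑ k, ∑ l, (coeff (h 0) y y₀)⁻¹ i k * (coeff (h 0) y y₀)⁻¹ l j *
          deriv (fun t => coeff (h t) y y₀ k l) 0) *
            (Curv.pd i (rd E y u) y₀ * Curv.pd j (rd E y v) y₀)) 0 := by
      unfold Grd gradC
      refine HasDerivAt.fun_sum fun i _ => HasDerivAt.fun_sum fun j _ => ?_
      exact (hinv i j).mul_const _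
    rw [h6.deriv]
    have hsymm : ∀ i j, (coeff (h 0) y y₀)⁻¹ i j = (coeff (h 0) y y₀)⁻¹ j i := fun i j =>
      posDef_symm hpos.inv i j
    have hcs : ∀ k l, deriv (fun t => coeff (h t) y y₀ k l) 0 =
        deriv (fun t => coeff (h t) y y₀ l k) 0 := by
      intro k l
      congr 1
      funext t
      exact chartMetric_symm 𝓘(ℝ, E) (finBasis ℝ E) (h t) y y₀ k l
    unfold ipM cof dd pdv
    simp only [← hy₀]
    generalize hA : (fun k l => deriv (fun t => coeff (h t) y y₀ k l) 0) = A at hcs ⊢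
    have hA' : ∀ k l, deriv (fun t => coeff (h t) y y₀ k l) 0 = A k l := fun k l => by
      rw [← hA]
    simp only [hA'] at hcs ⊢
    set B := (coeff (h 0) y y₀)⁻¹ with hB
    set a := fun i => Curv.pd i (rd E y u) y₀ with ha
    set b := fun i => Curv.pd i (rd E y v) y₀ with hb
    have e1 : ∑ i, ∑ j, ∑ k, ∑ l, B i k * B j l * (A i j * ((a k * b l + a l * b k) / 2)) =
        (1 / 2) * (∑ i, ∑ j, ∑ k, ∑ l, B i k * B j l * A i j * (a k * b l)) +
        (1 / 2) * (∑ i, ∑ j, ∑ k, ∑ l, B i k * B j l * A i j * (a l * b k)) := by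
      simp only [Finset.mul_sum, ← Finset.sum_add_distrib]
      refine Finset.sum_congr rfl fun i _ => Finset.sum_congr rfl fun j _ =>
        Finset.sum_congr rfl fun k _ => Finset.sum_congr rfl fun l _ => ?_
      ring
    have e2 : ∑ i, ∑ j, ∑ k, ∑ l, B i k * B j l * A i j * (a l * b k) =
        ∑ i, ∑ j, ∑ k, ∑ l, B i k * B j l * A i j * (a k * b l) := by
      rw [Finset.sum_comm]
      refine Finset.sum_congr rfl fun i _ => Finset.sum_congr rfl fun j _ => ?_
      rw [Finset.sum_comm]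
      refine Finset.sum_congr rfl fun k _ => Finset.sum_congr rfl fun l _ => ?_
      rw [hcs j i]
      ring
    have e3 : ∑ i, ∑ j, (-∑ k, ∑ l, B i k * B l j * A k l) * (a i * b j) =
        -∑ i, ∑ j, ∑ k, ∑ l, B i k * B j l * A i j * (a k * b l) := by
      have e4 : ∑ i, ∑ j, (-∑ k, ∑ l, B i k * B l j * A k l) * (a i * b j) =
          -∑ i, ∑ j, ∑ k, ∑ l, B k i * B l j * A k l * (a i * b j) := by
        rw [← Finset.sum_neg_distrib]
        refine Finset.sum_congr rfl fun i _ => ?_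
        rw [← Finset.sum_neg_distrib]
        refine Finset.sum_congr rfl fun j _ => ?_
        rw [neg_mul, Finset.sum_mul]
        congr 1
        refine Finset.sum_congr rfl fun k _ => ?_
        rw [Finset.sum_mul]
        refine Finset.sum_congr rfl fun l _ => ?_
        rw [hsymm i k]
      rw [e4]
      congr 1
      have e5 : ∀ i, ∑ j, ∑ k, ∑ l, B k i * B l j * A k l * (a i * b j) =
          ∑ k, ∑ l, ∑ j, B k i * B l j * A k l * (a i * b j) := by
        intro i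
        rw [Finset.sum_comm]
        refine Finset.sum_congr rfl fun k _ => ?_
        rw [Finset.sum_comm]
      simp only [e5]
      rw [Finset.sum_comm]
      refine Finset.sum_congr rfl fun k _ => ?_
      rw [Finset.sum_comm]
    rw [e3]
    change ∑ i, ∑ j, ∑ k, ∑ l, B i k * B j l * (A i j * ((a k * b l + a l * b k) / 2)) = _
    rw [e1, e2]
    ring

end Pool.Agent.Lib.MP_df705a_gt.Coll
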