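import Pool.Agent.Lib.MP_df705a_gt.Coll.IZ
import Pool.Agent.Lib.MP_df705a_gt.Coll.X.Psi

/-!
# The family of the metrics of the fibres
-/

open scoped Manifold ContDiff Topology
open Set Bundle Module Filter MeasureTheory

noncomputable section

set_option linter.unusedSectionVars false

namespace Pool.Agent.Lib.MP_df705a_gt.Coll

open Pool.Agent.Lib.MP_df705a_gt.Twist Pool.Agent.Lib.MP_df705a_gt.Perm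
open Pool.Agent.Lib.MP_df705a_gt.Circ (Horizontal Submersion cf Para HorConf)
open Pool.Agent.Lib.MP_df705a_gt.Fib (RiemSub Biconformal)

variable {E₁ : Type*} [NormedAddCommGroup E₁] [NormedSpace ℝ E₁] [FiniteDimensional ℝ E₁]
  {B : Type*} [TopologicalSpace B] [ChartedSpace E₁ B] [IsManifold 𝓘(ℝ, E₁) ∞ B]
  {E₂ : Type*} [NormedAddCommGroup E₂] [NormedSpace ℝ E₂] [FiniteDimensional ℝ E₂]
  {F : Type*} [TopologicalSpace F] [ChartedSpace E₂ F] [IsManifold 𝓘(ℝ, E₂) ∞ F]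
  {E : Type*} [NormedAddCommGroup E] [NormedSpace ℝ E] [FiniteDimensional ℝ E]
  {M : Type*} [TopologicalSpace M] [ChartedSpace E M] [IsManifold 𝓘(ℝ, E) ∞ M]

namespace FamilyAux

omit [FiniteDimensional ℝ E₁] in
theorem symm_bij (z : B) {a : E₁} (ha : a ∈ (extChartAt 𝓘(ℝ, E₁) z).target) :
    Function.Bijective (mfderiv 𝓘(ℝ, E₁) 𝓘(ℝ, E₁) (extChartAt 𝓘(ℝ, E₁) z).symm a) := by
  have h1 := isInvertible_mfderivWithin_extChartAt_symm (I := 𝓘(ℝ, E₁)) (x := z) ha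
  rw [ModelWithCorners.range_eq_univ, mfderivWithin_univ] at h1
  exact h1.bijective

/-- the product of the inverse charts -/
def cc (E₁ E₂ : Type*) [NormedAddCommGroup E₁] [NormedSpace ℝ E₁] [NormedAddCommGroup E₂]
    [NormedSpace ℝ E₂] {B : Type*} [TopologicalSpace B] [ChartedSpace E₁ B] {F : Type*}
    [TopologicalSpace F] [ChartedSpace E₂ F] (x : B) (y : F) (q : E₁ × E₂) : B × F :=
  ((extChartAt 𝓘(ℝ, E₁) x).symm q.1, (extChartAt 𝓘(ℝ, E₂) y).symm q.2)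

/-- the good points -/
def Good (x : B) (y : F) (U : Set B) (q : E₁ × E₂) : Prop :=
  q.1 ∈ (extChartAt 𝓘(ℝ, E₁) x).target ∧ (extChartAt 𝓘(ℝ, E₁) x).symm q.1 ∈ U ∧
    q.2 ∈ (extChartAt 𝓘(ℝ, E₂) y).target

omit [FiniteDimensional ℝ E₁] [FiniteDimensional ℝ E₂] [IsManifold 𝓘(ℝ, E₁) ∞ B]
  [IsManifold 𝓘(ℝ, E₂) ∞ F] in
theorem good_ev (x : B) (y : F) {U : Set B} (hU : IsOpen U) (hx : x ∈ U) :
    ∀ᶠ q in 𝓝 ((extChartAt 𝓘(ℝ, E₁) x x, extChartAt 𝓘(ℝ, E₂) y y) : E₁ × E₂),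
      Good x y U q := by
  have h1 : ∀ᶠ a in 𝓝 (extChartAt 𝓘(ℝ, E₁) x x), a ∈ (extChartAt 𝓘(ℝ, E₁) x).target ∧
      (extChartAt 𝓘(ℝ, E₁) x).symm a ∈ U := by
    have h2 : ∀ᶠ a in 𝓝 (extChartAt 𝓘(ℝ, E₁) x x), a ∈ (extChartAt 𝓘(ℝ, E₁) x).target :=
      (isOpen_extChartAt_target (I := 𝓘(ℝ, E₁)) x).mem_nhds (mem_extChartAt_target x)
    have h3 : ContinuousAt (extChartAt 𝓘(ℝ, E₁) x).symm (extChartAt 𝓘(ℝ, E₁) x x) :=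
      continuousAt_extChartAt_symm x
    have h4 : U ∈ 𝓝 ((extChartAt 𝓘(ℝ, E₁) x).symm (extChartAt 𝓘(ℝ, E₁) x x)) := by
      rw [extChartAt_to_inv]
      exact hU.mem_nhds hx
    exact h2.and (h3.eventually h4)
  have h5 : ∀ᶠ b in 𝓝 (extChartAt 𝓘(ℝ, E₂) y y), b ∈ (extChartAt 𝓘(ℝ, E₂) y).target :=
    (isOpen_extChartAt_target (I := 𝓘(ℝ, E₂)) y).mem_nhds (mem_extChartAt_target y)
  have h6 := h1.prod_nhds h5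
  filter_upwards [h6] with q hq
  exact ⟨hq.1.1, hq.1.2, hq.2⟩

omit [FiniteDimensional ℝ E₁] [FiniteDimensional ℝ E₂] in
theorem symm_smooth (x : B) {a : E₁} (ha : a ∈ (extChartAt 𝓘(ℝ, E₁) x).target) :
    ContMDiffAt 𝓘(ℝ, E₁) 𝓘(ℝ, E₁) ∞ (extChartAt 𝓘(ℝ, E₁) x).symm a :=
  (contMDiffOn_extChartAt_symm x).contMDiffAt ((isOpen_extChartAt_target x).mem_nhds ha)

omit [FiniteDimensional ℝ E₁] [FiniteDimensional ℝ E₂] in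
theorem cc_smooth {x : B} {y : F} {U : Set B} {q : E₁ × E₂} (hq : Good x y U q) :
    ContMDiffAt 𝓘(ℝ, E₁ × E₂) (𝓘(ℝ, E₁).prod 𝓘(ℝ, E₂)) ∞ (cc E₁ E₂ x y) q := by
  have h1 : ContMDiffAt 𝓘(ℝ, E₁ × E₂) 𝓘(ℝ, E₁) ∞
      (fun q : E₁ × E₂ => (extChartAt 𝓘(ℝ, E₁) x).symm q.1) q :=
    ContMDiffAt.comp q (g := (extChartAt 𝓘(ℝ, E₁) x).symm) (f := Prod.fst)
      (symm_smooth x hq.1) (contDiff_fst.contMDiff q)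
  have h2 : ContMDiffAt 𝓘(ℝ, E₁ × E₂) 𝓘(ℝ, E₂) ∞
      (fun q : E₁ × E₂ => (extChartAt 𝓘(ℝ, E₂) y).symm q.2) q :=
    ContMDiffAt.comp q (g := (extChartAt 𝓘(ℝ, E₂) y).symm) (f := Prod.snd)
      (symm_smooth y hq.2.2) (contDiff_snd.contMDiff q)
  exact h1.prodMk h2

omit [FiniteDimensional ℝ E₁] [FiniteDimensional ℝ E₂] in
theorem cc_deriv {x : B} {y : F} {U : Set B} {q : E₁ × E₂} (hq : Good x y U q)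
    (v : E₁ × E₂) :
    (mfderiv 𝓘(ℝ, E₁ × E₂) (𝓘(ℝ, E₁).prod 𝓘(ℝ, E₂)) (cc E₁ E₂ x y) q : E₁ × E₂ →L[ℝ] E₁ × E₂) v =
      ((mfderiv 𝓘(ℝ, E₁) 𝓘(ℝ, E₁) (extChartAt 𝓘(ℝ, E₁) x).symm q.1 : E₁ →L[ℝ] E₁) v.1,
        (mfderiv 𝓘(ℝ, E₂) 𝓘(ℝ, E₂) (extChartAt 𝓘(ℝ, E₂) y).symm q.2 : E₂ →L[ℝ] E₂) v.2) := by
  have h1 : HasMFDerivAt 𝓘(ℝ, E₁) 𝓘(ℝ, E₁) (extChartAt 𝓘(ℝ, E₁) x).symm q.1
      (mfderiv 𝓘(ℝ, E₁) 𝓘(ℝ, E₁) (extChartAt 𝓘(ℝ, E₁) x).symm q.1) :=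
    ((symm_smooth x hq.1).mdifferentiableAt (by simp)).hasMFDerivAt
  have h2 : HasMFDerivAt 𝓘(ℝ, E₂) 𝓘(ℝ, E₂) (extChartAt 𝓘(ℝ, E₂) y).symm q.2
      (mfderiv 𝓘(ℝ, E₂) 𝓘(ℝ, E₂) (extChartAt 𝓘(ℝ, E₂) y).symm q.2) :=
    ((symm_smooth y hq.2.2).mdifferentiableAt (by simp)).hasMFDerivAt
  have h3 : HasMFDerivAt 𝓘(ℝ, E₁ × E₂) 𝓘(ℝ, E₁) (Prod.fst : E₁ × E₂ → E₁) q
      (ContinuousLinearMap.fst ℝ E₁ E₂) := (hasFDerivAt_fst (p := q)).hasMFDerivAt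
  have h4 : HasMFDerivAt 𝓘(ℝ, E₁ × E₂) 𝓘(ℝ, E₂) (Prod.snd : E₁ × E₂ → E₂) q
      (ContinuousLinearMap.snd ℝ E₁ E₂) := (hasFDerivAt_snd (p := q)).hasMFDerivAt
  have h5 := (h1.comp q h3).prodMk (h2.comp q h4)
  have h6 := h5.mfderiv
  have h7 := congrArg (fun L : E₁ × E₂ →L[ℝ] E₁ × E₂ => L v) h6
  exact h7

theorem phi_smooth {pr : M → B} {U : Set B} {Φ : B × F → M} (hΦ : Triv E E₁ E₂ pr U Φ) {x' : B}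
    (hx : x' ∈ U) (y' : F) :
    ContMDiffAt (𝓘(ℝ, E₁).prod 𝓘(ℝ, E₂)) 𝓘(ℝ, E) ∞ Φ (x', y') :=
  hΦ.smooth.contMDiffAt ((hΦ.isOpen.prod isOpen_univ).mem_nhds ⟨hx, mem_univ _⟩)

theorem psi_deriv {pr : M → B} {U : Set B} {Φ : B × F → M} (hΦ : Triv E E₁ E₂ pr U Φ) {x : B}
    {y : F} {q : E₁ × E₂} (hq : Good x y U q) (v : E₁ × E₂) :
    (mfderiv 𝓘(ℝ, E₁ × E₂) 𝓘(ℝ, E) (psi E₁ E₂ Φ x y) q : E₁ × E₂ →L[ℝ] E) v =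
      (mfderiv (𝓘(ℝ, E₁).prod 𝓘(ℝ, E₂)) 𝓘(ℝ, E) Φ (cc E₁ E₂ x y q) : E₁ × E₂ →L[ℝ] E)
        ((mfderiv 𝓘(ℝ, E₁) 𝓘(ℝ, E₁) (extChartAt 𝓘(ℝ, E₁) x).symm q.1 : E₁ →L[ℝ] E₁) v.1,
        (mfderiv 𝓘(ℝ, E₂) 𝓘(ℝ, E₂) (extChartAt 𝓘(ℝ, E₂) y).symm q.2 : E₂ →L[ℝ] E₂) v.2) := by
  have h1 : MDifferentiableAt (𝓘(ℝ, E₁).prod 𝓘(ℝ, E₂)) 𝓘(ℝ, E) Φ (cc E₁ E₂ x y q) :=
    (phi_smooth hΦ hq.2.1 _).mdifferentiableAt (by simp)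
  have h2 : MDifferentiableAt 𝓘(ℝ, E₁ × E₂) (𝓘(ℝ, E₁).prod 𝓘(ℝ, E₂)) (cc E₁ E₂ x y) q :=
    (cc_smooth hq).mdifferentiableAt (by simp)
  have h3 : mfderiv 𝓘(ℝ, E₁ × E₂) 𝓘(ℝ, E) (Φ ∘ cc E₁ E₂ x y) q =
      (mfderiv (𝓘(ℝ, E₁).prod 𝓘(ℝ, E₂)) 𝓘(ℝ, E) Φ (cc E₁ E₂ x y q)).comp
        (mfderiv 𝓘(ℝ, E₁ × E₂) (𝓘(ℝ, E₁).prod 𝓘(ℝ, E₂)) (cc E₁ E₂ x y) q) := mfderiv_comp q h1 h2
  have h4 := congrArg (fun L : E₁ × E₂ →L[ℝ] E => L v) h3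
  have h5 := cc_deriv hq v
  have h6 : (mfderiv 𝓘(ℝ, E₁ × E₂) 𝓘(ℝ, E) (psi E₁ E₂ Φ x y) q : E₁ × E₂ →L[ℝ] E) v =
      (mfderiv (𝓘(ℝ, E₁).prod 𝓘(ℝ, E₂)) 𝓘(ℝ, E) Φ (cc E₁ E₂ x y q) : E₁ × E₂ →L[ℝ] E)
        ((mfderiv 𝓘(ℝ, E₁ × E₂) (𝓘(ℝ, E₁).prod 𝓘(ℝ, E₂)) (cc E₁ E₂ x y) q :
          E₁ × E₂ →L[ℝ] E₁ × E₂) v) := h4
  rw [h5] at h6
  exact h6

theorem psi_para {pr : M → B} {U : Set B} {Φ : B × F → M} (hΦ : Triv E E₁ E₂ pr U Φ) {x : B}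
    {y : F} {q : E₁ × E₂} (hq : Good x y U q) : Para E (psi E₁ E₂ Φ x y) q := by
  refine ⟨?_, ?_⟩
  · exact ContMDiffAt.comp q (g := Φ) (f := cc E₁ E₂ x y) (phi_smooth hΦ hq.2.1 _) (cc_smooth hq)
  · have hA := symm_bij x hq.1
    have hB := symm_bij y hq.2.2
    have hC := hΦ.bij _ hq.2.1 ((extChartAt 𝓘(ℝ, E₂) y).symm q.2)
    have hprod : Function.Bijective (fun v : E₁ × E₂ =>
        (((mfderiv 𝓘(ℝ, E₁) 𝓘(ℝ, E₁) (extChartAt 𝓘(ℝ, E₁) x).symm q.1 : E₁ →L[ℝ] E₁) v.1,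
        (mfderiv 𝓘(ℝ, E₂) 𝓘(ℝ, E₂) (extChartAt 𝓘(ℝ, E₂) y).symm q.2 : E₂ →L[ℝ] E₂) v.2) :
          E₁ × E₂)) := Function.Bijective.prodMap hA hB
    have h1 := Function.Bijective.comp hC hprod
    have e : (fun v : E₁ × E₂ =>
        (mfderiv 𝓘(ℝ, E₁ × E₂) 𝓘(ℝ, E) (psi E₁ E₂ Φ x y) q : E₁ × E₂ →L[ℝ] E) v) =
        fun v => (mfderiv (𝓘(ℝ, E₁).prod 𝓘(ℝ, E₂)) 𝓘(ℝ, E) Φ (cc E₁ E₂ x y q) :
          E₁ × E₂ →L[ℝ] E)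
        ((mfderiv 𝓘(ℝ, E₁) 𝓘(ℝ, E₁) (extChartAt 𝓘(ℝ, E₁) x).symm q.1 : E₁ →L[ℝ] E₁) v.1,
        (mfderiv 𝓘(ℝ, E₂) 𝓘(ℝ, E₂) (extChartAt 𝓘(ℝ, E₂) y).symm q.2 : E₂ →L[ℝ] E₂) v.2) := by
      funext v
      exact psi_deriv hΦ hq v
    have h2 : Function.Bijective (fun v : E₁ × E₂ =>
        (mfderiv 𝓘(ℝ, E₁ × E₂) 𝓘(ℝ, E) (psi E₁ E₂ Φ x y) q : E₁ × E₂ →L[ℝ] E) v) := by
      rw [e]
      exact h1
    exact h2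

/-- The matrix of the metric of the fibre over `x'`, in the chart at `x` of the base. -/
theorem fm_eq {pr : M → B} {U : Set B} {Φ : B × F → M} (hΦ : Triv E E₁ E₂ pr U Φ) {x : B}
    {g : Met E M} {h : Met E₂ F} {z : F} {a : E₁} {y : E₂} (hq : Good x z U (a, y))
    (hh : IsFib g Φ ((extChartAt 𝓘(ℝ, E₁) x).symm a) h) :
    coeff h z y = Fib.fm g (psi E₁ E₂ Φ x z) (a, y) := by
  generalize hx' : (extChartAt 𝓘(ℝ, E₁) x).symm a = x' at hh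
  have hxU : x' ∈ U := by
    rw [← hx']
    exact hq.2.1
  have hcc : cc E₁ E₂ x z (a, y) = (x', (extChartAt 𝓘(ℝ, E₂) z).symm y) := by
    unfold cc
    rw [hx']
  have hfib : ∀ w : E₂, (mfderiv 𝓘(ℝ, E₁ × E₂) 𝓘(ℝ, E) (psi E₁ E₂ Φ x z)
        (a, y) : E₁ × E₂ →L[ℝ] E) (0, w) =
      (mfderiv 𝓘(ℝ, E₂) 𝓘(ℝ, E) (fun y => Φ (x', y)) ((extChartAt 𝓘(ℝ, E₂) z).symm y) :
        E₂ →L[ℝ] E)
        ((mfderiv 𝓘(ℝ, E₂) 𝓘(ℝ, E₂) (extChartAt 𝓘(ℝ, E₂) z).symm y : E₂ →L[ℝ] E₂) w) := by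
    intro w
    have h1 := psi_deriv hΦ hq ((0, w) : E₁ × E₂)
    rw [hcc] at h1
    rw [h1]
    set y' := (extChartAt 𝓘(ℝ, E₂) z).symm y with hy'
    have h2 : MDifferentiableAt (𝓘(ℝ, E₁).prod 𝓘(ℝ, E₂)) 𝓘(ℝ, E) Φ (x', y') :=
      (phi_smooth hΦ hxU y').mdifferentiableAt (by simp)
    have h3 : HasMFDerivAt 𝓘(ℝ, E₂) (𝓘(ℝ, E₁).prod 𝓘(ℝ, E₂)) (fun y : F => (x', y)) y'
        ((0 : E₂ →L[ℝ] E₁).prod (ContinuousLinearMap.id ℝ E₂)) :=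
      (hasMFDerivAt_const (I := 𝓘(ℝ, E₂)) (I' := 𝓘(ℝ, E₁)) x' y').prodMk (hasMFDerivAt_id y')
    have h4 := (h2.hasMFDerivAt.comp y' h3).mfderiv
    have h5 := congrArg (fun L : E₂ →L[ℝ] E =>
      L ((mfderiv 𝓘(ℝ, E₂) 𝓘(ℝ, E₂) (extChartAt 𝓘(ℝ, E₂) z).symm y : E₂ →L[ℝ] E₂) w)) h4
    have h6 : (mfderiv 𝓘(ℝ, E₁) 𝓘(ℝ, E₁) (extChartAt 𝓘(ℝ, E₁) x).symm
        a : E₁ →L[ℝ] E₁) 0 = 0 := map_zero _
    show (mfderiv (𝓘(ℝ, E₁).prod 𝓘(ℝ, E₂)) 𝓘(ℝ, E) Φ (x', y') : E₁ × E₂ →L[ℝ] E)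
      ((mfderiv 𝓘(ℝ, E₁) 𝓘(ℝ, E₁) (extChartAt 𝓘(ℝ, E₁) x).symm
        a : E₁ →L[ℝ] E₁) 0, _) = _
    rw [h6]
    exact h5.symm
  ext i j
  have e1 := hfib (finBasis ℝ E₂ i)
  have e2 := hfib (finBasis ℝ E₂ j)
  have hp : psi E₁ E₂ Φ x z (a, y) =
      Φ (x', (extChartAt 𝓘(ℝ, E₂) z).symm y) := congrArg Φ hcc
  have e3 : ∀ p p' : M, p = p' → ∀ v v' w w' : E, v = v' → w = w' →
      (g.inner p : E →L[ℝ] E →L[ℝ] ℝ) v w = (g.inner p' : E →L[ℝ] E →L[ℝ] ℝ) v' w' := by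
    rintro _ _ rfl _ _ _ _ rfl rfl
    rfl
  have e4 := e3 _ _ hp _ _ _ _ e1 e2
  have e5 := hh ((extChartAt 𝓘(ℝ, E₂) z).symm y)
    (mfderiv 𝓘(ℝ, E₂) 𝓘(ℝ, E₂) (extChartAt 𝓘(ℝ, E₂) z).symm y (finBasis ℝ E₂ i))
    (mfderiv 𝓘(ℝ, E₂) 𝓘(ℝ, E₂) (extChartAt 𝓘(ℝ, E₂) z).symm y (finBasis ℝ E₂ j))
  exact (e4.trans e5.symm).symm

/-- the good points form a neighbourhood -/
theorem good_ev' {x : B} {z : F} {U : Set B} (hU : IsOpen U) {q : E₁ × E₂}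
    (hq : Good x z U q) : ∀ᶠ q' in 𝓝 q, Good x z U q' := by
  have h0 : ∀ᶠ a in 𝓝 q.1, a ∈ (extChartAt 𝓘(ℝ, E₁) x).target :=
    (isOpen_extChartAt_target (I := 𝓘(ℝ, E₁)) x).mem_nhds hq.1
  have h1 : ∀ᶠ a in 𝓝 q.1, a ∈ (extChartAt 𝓘(ℝ, E₁) x).target ∧
      (extChartAt 𝓘(ℝ, E₁) x).symm a ∈ U :=
    h0.and ((symm_smooth x hq.1).continuousAt.eventually (hU.mem_nhds hq.2.1))
  have h2 : ∀ᶠ b in 𝓝 q.2, b ∈ (extChartAt 𝓘(ℝ, E₂) z).target :=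
    (isOpen_extChartAt_target (I := 𝓘(ℝ, E₂)) z).mem_nhds hq.2.2
  have h3 := h1.prod_nhds h2
  filter_upwards [h3] with q' hq'
  exact ⟨hq'.1.1, hq'.1.2, hq'.2⟩

theorem fm_smooth {pr : M → B} {U : Set B} {Φ : B × F → M} (hΦ : Triv E E₁ E₂ pr U Φ) {x : B}
    (g : Met E M) {z : F} {q : E₁ × E₂} (hq : Good x z U q) (i j) :
    ContDiffAt ℝ ∞ (fun p => Fib.fm g (psi E₁ E₂ Φ x z) p i j) q := by
  refine Fib.G2.gσ_smooth g ?_ _ _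
  filter_upwards [good_ev' hΦ.isOpen hq] with q' hq'
  exact psi_para hΦ hq'

end FamilyAux

theorem exists_family {pr : M → B} {U : Set B} {Φ : B × F → M} (hΦ : Triv E E₁ E₂ pr U Φ)
    {x : B} (hx : x ∈ U) {g : Met E M} {h₀ : Met E₂ F} (hh : IsFib g Φ x h₀) (v : E₁) :
    ∃ h : ℝ → Met E₂ F, h 0 = h₀ ∧
      (∀ᶠ t : ℝ in 𝓝 0,
        (extChartAt 𝓘(ℝ, E₁) x).symm (extChartAt 𝓘(ℝ, E₁) x x + t • v) ∈ U ∧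
        IsFib g Φ ((extChartAt 𝓘(ℝ, E₁) x).symm (extChartAt 𝓘(ℝ, E₁) x x + t • v)) (h t)) ∧
      (∀ z : F, ∀ y ∈ (extChartAt 𝓘(ℝ, E₂) z).target, ∀ i j,
        ContDiffAt ℝ ∞ (fun p : ℝ × E₂ => coeff (h p.1) z p.2 i j) (0, y)) ∧
      ∀ (y : F) i j, deriv (fun t => cof (h t) y i j) 0 =
        fderiv ℝ (fun p => Fib.fm g (psi E₁ E₂ Φ x y) p i j) (pt E₁ E₂ x y x y) (v, 0) := by
  classical
  have hx0 : (extChartAt 𝓘(ℝ, E₁) x).symm (extChartAt 𝓘(ℝ, E₁) x x) = x :=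
    extChartAt_to_inv (I := 𝓘(ℝ, E₁)) x
  -- the metrics
  obtain ⟨h, h0, hfib⟩ : ∃ h : ℝ → Met E₂ F, h 0 = h₀ ∧ ∀ t,
      (extChartAt 𝓘(ℝ, E₁) x).symm (extChartAt 𝓘(ℝ, E₁) x x + t • v) ∈ U →
        IsFib g Φ ((extChartAt 𝓘(ℝ, E₁) x).symm (extChartAt 𝓘(ℝ, E₁) x x + t • v)) (h t) := by
    have h1 : ∀ t : ℝ, ∃ k : Met E₂ F, (t = 0 → k = h₀) ∧
        ((extChartAt 𝓘(ℝ, E₁) x).symm (extChartAt 𝓘(ℝ, E₁) x x + t • v) ∈ U →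
          IsFib g Φ ((extChartAt 𝓘(ℝ, E₁) x).symm (extChartAt 𝓘(ℝ, E₁) x x + t • v)) k) := by
      intro t
      by_cases ht : t = 0
      · refine ⟨h₀, fun _ => rfl, fun _ => ?_⟩
        rw [ht, zero_smul, add_zero, hx0]
        exact hh
      · by_cases hU : (extChartAt 𝓘(ℝ, E₁) x).symm (extChartAt 𝓘(ℝ, E₁) x x + t • v) ∈ U
        · obtain ⟨k, hk⟩ := exists_isFib hΦ g hU
          exact ⟨k, fun h => absurd h ht, fun _ => hk⟩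
        · exact ⟨h₀, fun _ => rfl, fun h => absurd h hU⟩
    choose h h2 h3 using h1
    exact ⟨h, h2 0 rfl, h3⟩
  -- the curve
  have hgood : ∀ (z : F) (y : E₂), y ∈ (extChartAt 𝓘(ℝ, E₂) z).target →
      FamilyAux.Good x z U ((extChartAt 𝓘(ℝ, E₁) x x, y) : E₁ × E₂) := by
    intro z y hy
    exact ⟨mem_extChartAt_target x, by rw [hx0]; exact hx, hy⟩
  have hcur : Continuous (fun p : ℝ × E₂ =>
      ((extChartAt 𝓘(ℝ, E₁) x x + p.1 • v, p.2) : E₁ × E₂)) := by fun_prop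
  have hcursm : ContDiff ℝ ∞ (fun p : ℝ × E₂ =>
      ((extChartAt 𝓘(ℝ, E₁) x x + p.1 • v, p.2) : E₁ × E₂)) := by fun_prop
  have hev : ∀ (z : F) (y : E₂), y ∈ (extChartAt 𝓘(ℝ, E₂) z).target →
      ∀ᶠ p : ℝ × E₂ in 𝓝 (0, y), FamilyAux.Good x z U
        ((extChartAt 𝓘(ℝ, E₁) x x + p.1 • v, p.2) : E₁ × E₂) := by
    intro z y hy
    have h1 : Tendsto (fun p : ℝ × E₂ =>
        ((extChartAt 𝓘(ℝ, E₁) x x + p.1 • v, p.2) : E₁ × E₂)) (𝓝 (0, y))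
        (𝓝 (extChartAt 𝓘(ℝ, E₁) x x, y)) := by
      have h2 := hcur.tendsto (0, y)
      simpa using h2
    exact h1.eventually (FamilyAux.good_ev' hΦ.isOpen (hgood z y hy))
  have hcoef : ∀ (z : F) (y : E₂), y ∈ (extChartAt 𝓘(ℝ, E₂) z).target →
      ∀ᶠ p : ℝ × E₂ in 𝓝 (0, y), coeff (h p.1) z p.2 = Fib.fm g (psi E₁ E₂ Φ x z)
        ((extChartAt 𝓘(ℝ, E₁) x x + p.1 • v, p.2) : E₁ × E₂) := by
    intro z y hy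
    filter_upwards [hev z y hy] with p hp
    exact FamilyAux.fm_eq hΦ hp (hfib p.1 hp.2.1)
  refine ⟨h, h0, ?_, ?_, ?_⟩
  · have h1 : Tendsto (fun t : ℝ => extChartAt 𝓘(ℝ, E₁) x x + t • v) (𝓝 0)
        (𝓝 (extChartAt 𝓘(ℝ, E₁) x x)) := by
      have h2 : Continuous (fun t : ℝ => extChartAt 𝓘(ℝ, E₁) x x + t • v) := by fun_prop
      have h3 := h2.tendsto 0
      simpa using h3
    have h4 : ∀ᶠ a in 𝓝 (extChartAt 𝓘(ℝ, E₁) x x), (extChartAt 𝓘(ℝ, E₁) x).symm a ∈ U := by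
      have h5 : ContinuousAt (extChartAt 𝓘(ℝ, E₁) x).symm (extChartAt 𝓘(ℝ, E₁) x x) :=
        continuousAt_extChartAt_symm x
      have h6 : U ∈ 𝓝 ((extChartAt 𝓘(ℝ, E₁) x).symm (extChartAt 𝓘(ℝ, E₁) x x)) := by
        rw [hx0]
        exact hΦ.isOpen.mem_nhds hx
      exact h5.eventually h6
    filter_upwards [h1.eventually h4] with t ht
    exact ⟨ht, hfib t ht⟩
  · intro z y hy i j
    have h1 := FamilyAux.fm_smooth hΦ g (hgood z y hy) i j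
    have h2 : ContDiffAt ℝ ∞ (fun p : ℝ × E₂ => Fib.fm g (psi E₁ E₂ Φ x z)
        ((extChartAt 𝓘(ℝ, E₁) x x + p.1 • v, p.2) : E₁ × E₂) i j) (0, y) := by
      refine ContDiffAt.comp (0, y) (g := fun p => Fib.fm g (psi E₁ E₂ Φ x z) p i j)
        (f := fun p : ℝ × E₂ => ((extChartAt 𝓘(ℝ, E₁) x x + p.1 • v, p.2) : E₁ × E₂)) ?_
        hcursm.contDiffAt
      simpa using h1
    refine h2.congr_of_eventuallyEq ?_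
    filter_upwards [hcoef z y hy] with p hp
    rw [hp]
  · intro y i j
    have hy : extChartAt 𝓘(ℝ, E₂) y y ∈ (extChartAt 𝓘(ℝ, E₂) y).target :=
      mem_extChartAt_target y
    have h1 := FamilyAux.fm_smooth hΦ g (hgood y _ hy) i j
    have h2 : HasDerivAt (fun t : ℝ => ((extChartAt 𝓘(ℝ, E₁) x x + t • v,
        extChartAt 𝓘(ℝ, E₂) y y) : E₁ × E₂)) ((v, 0) : E₁ × E₂) 0 := by
      have h3 : HasDerivAt (fun t : ℝ => extChartAt 𝓘(ℝ, E₁) x x + t • v) v 0 := by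
        have h4 := ((hasDerivAt_id (0 : ℝ)).smul_const v).const_add (extChartAt 𝓘(ℝ, E₁) x x)
        simpa using h4
      exact h3.prodMk (hasDerivAt_const (0 : ℝ) (extChartAt 𝓘(ℝ, E₂) y y))
    have h5 : HasFDerivAt (fun p => Fib.fm g (psi E₁ E₂ Φ x y) p i j)
        (fderiv ℝ (fun p => Fib.fm g (psi E₁ E₂ Φ x y) p i j) (pt E₁ E₂ x y x y))
        ((extChartAt 𝓘(ℝ, E₁) x x + (0 : ℝ) • v, extChartAt 𝓘(ℝ, E₂) y y) : E₁ × E₂) := by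
      have h6 : ((extChartAt 𝓘(ℝ, E₁) x x + (0 : ℝ) • v, extChartAt 𝓘(ℝ, E₂) y y) :
          E₁ × E₂) = pt E₁ E₂ x y x y := by
        rw [zero_smul, add_zero]
        rfl
      rw [h6]
      exact (h1.differentiableAt (by simp)).hasFDerivAt
    have h7 := HasFDerivAt.comp_hasDerivAt (0 : ℝ) h5 h2
    have h8 : (fun t => cof (h t) y i j) =ᶠ[𝓝 0] ((fun p => Fib.fm g (psi E₁ E₂ Φ x y) p i j) ∘
        fun t : ℝ => ((extChartAt 𝓘(ℝ, E₁) x x + t • v,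
          extChartAt 𝓘(ℝ, E₂) y y) : E₁ × E₂)) := by
      have h9 : Tendsto (fun t : ℝ => ((t, extChartAt 𝓘(ℝ, E₂) y y) : ℝ × E₂)) (𝓝 0)
          (𝓝 (0, extChartAt 𝓘(ℝ, E₂) y y)) := by
        have h10 : Continuous (fun t : ℝ => ((t, extChartAt 𝓘(ℝ, E₂) y y) : ℝ × E₂)) := by
          fun_prop
        exact h10.tendsto 0
      filter_upwards [h9.eventually (hcoef y _ hy)] with t ht
      unfold cof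
      rw [ht]
      rfl
    rw [h8.deriv_eq]
    exact h7.deriv

end Pool.Agent.Lib.MP_df705a_gt.Coll
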