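import Pool.Agent.Lib.MP_df705a_gt.Coll.IZ
import Pool.Agent.Lib.MP_df705a_gt.Coll.X.Psi

/-!
# The volume densities of the fibres
-/

open scoped Manifold ContDiff Topology
open Set Bundle Module Filter MeasureTheory

noncomputable section

namespace Pool.Agent.Lib.MP_df705a_gt.Coll

open Pool.Agent.Lib.MP_df705a_gt.Twist Pool.Agent.Lib.MP_df705a_gt.Perm
open Pool.Agent.Lib.MP_df705a_gt.Circ (Horizontal Submersion cf Para HorConf)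
open Pool.Agent.Lib.MP_df705a_gt.Fib (RiemSub Biconformal)

variable {E₁ : Type*} [NormedAddCommGroup E₁] [NormedSpace ℝ E₁] [FiniteDimensional ℝ E₁]
  {B : Type*} [TopologicalSpace B] [ChartedSpace E₁ B] [IsManifold 𝓘(ℝ, E₁) ∞ B]
  {E₂ : Type*} [NormedAddCommGroup E₂] [NormedSpace ℝ E₂] [FiniteDimensional ℝ E₂]
  {F : Type*} [TopologicalSpace F] [ChartedSpace E₂ F] [IsManifold 𝓘(ℝ, E₂) ∞ F]
  {E : Type*} [NormedAddCommGroup E] [NormedSpace ℝ E] [FiniteDimensional ℝ E]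
  {M : Type*} [TopologicalSpace M] [ChartedSpace E M] [IsManifold 𝓘(ℝ, E) ∞ M]

namespace FDens

set_option linter.unusedSectionVars false

open PsiAux (Good cc)

/-- the open set of the good points -/
theorem isOpen_good (x : B) (y : F) {U : Set B} (hU : IsOpen U) :
    IsOpen {q : E₁ × E₂ | Good x y U q} := by
  have h1 : IsOpen ((extChartAt 𝓘(ℝ, E₁) x).target ∩ (extChartAt 𝓘(ℝ, E₁) x).symm ⁻¹' U) :=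
    (continuousOn_extChartAt_symm x).isOpen_inter_preimage (isOpen_extChartAt_target x) hU
  have h2 : {q : E₁ × E₂ | Good x y U q} =
      ((extChartAt 𝓘(ℝ, E₁) x).target ∩ (extChartAt 𝓘(ℝ, E₁) x).symm ⁻¹' U) ×ˢ
        (extChartAt 𝓘(ℝ, E₂) y).target := by
    ext q
    simp only [Good, mem_ofPred_eq, mem_prod, mem_inter_iff, mem_preimage, and_assoc]
  rw [h2]
  exact h1.prod (isOpen_extChartAt_target y)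

theorem ac_good {pr : M → B} {U : Set B} {Φ : B × F → M} (hΦ : Triv E E₁ E₂ pr U Φ) {x : B} {y : F}
    {q : E₁ × E₂} (hq : Good x y U q) : Fib.AC E pr (psi E₁ E₂ Φ x y) q x := by
  have hg : ∀ᶠ q' in 𝓝 q, Good x y U q' := (isOpen_good x y hΦ.isOpen).mem_nhds hq
  refine ⟨?_, ?_, ?_⟩
  · filter_upwards [hg] with q hq
    exact PsiAux.psi_para hΦ hq
  · filter_upwards [hg] with q hq
    have h1 : pr (psi E₁ E₂ Φ x y q) = (extChartAt 𝓘(ℝ, E₁) x).symm q.1 :=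
      hΦ.proj _ hq.2.1 _
    rw [h1]
    exact (extChartAt 𝓘(ℝ, E₁) x).map_target hq.1
  · filter_upwards [hg] with q hq
    have h1 : pr (psi E₁ E₂ Φ x y q) = (extChartAt 𝓘(ℝ, E₁) x).symm q.1 :=
      hΦ.proj _ hq.2.1 _
    rw [h1]
    exact (extChartAt 𝓘(ℝ, E₁) x).right_inv hq.1

theorem fm_good {pr : M → B} {U : Set B} {Φ : B × F → M} (hΦ : Triv E E₁ E₂ pr U Φ) {x₀ : B} {y₀ : F}
    {q : E₁ × E₂} (hq : Good x₀ y₀ U q) {g : Met E M} {h : Met E₂ F}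
    (hh : IsFib g Φ ((extChartAt 𝓘(ℝ, E₁) x₀).symm q.1) h) :
    Fib.fm g (psi E₁ E₂ Φ x₀ y₀) q = coeff h y₀ q.2 := by
  -- the derivative in the direction of the fibre
  have hfib : ∀ w : E₂, (mfderiv 𝓘(ℝ, E₁ × E₂) 𝓘(ℝ, E) (psi E₁ E₂ Φ x₀ y₀) q : E₁ × E₂ →L[ℝ] E) (0, w) =
      (mfderiv 𝓘(ℝ, E₂) 𝓘(ℝ, E) (fun y => Φ ((extChartAt 𝓘(ℝ, E₁) x₀).symm q.1, y))
        ((extChartAt 𝓘(ℝ, E₂) y₀).symm q.2) : E₂ →L[ℝ] E)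
        ((mfderiv 𝓘(ℝ, E₂) 𝓘(ℝ, E₂) (extChartAt 𝓘(ℝ, E₂) y₀).symm q.2 : E₂ →L[ℝ] E₂) w) := by
    intro w
    have h1 := PsiAux.psi_deriv hΦ hq ((0, w) : E₁ × E₂)
    rw [h1]
    have hcc : cc E₁ E₂ x₀ y₀ q = ((extChartAt 𝓘(ℝ, E₁) x₀).symm q.1, (extChartAt 𝓘(ℝ, E₂) y₀).symm q.2) := rfl
    rw [hcc]
    set y' := (extChartAt 𝓘(ℝ, E₂) y₀).symm q.2 with hy'
    set x := (extChartAt 𝓘(ℝ, E₁) x₀).symm q.1 with hx'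
    have h2 : MDifferentiableAt (𝓘(ℝ, E₁).prod 𝓘(ℝ, E₂)) 𝓘(ℝ, E) Φ (x, y') :=
      (PsiAux.phi_smooth hΦ hq.2.1 y').mdifferentiableAt (by simp)
    have h3 : HasMFDerivAt 𝓘(ℝ, E₂) (𝓘(ℝ, E₁).prod 𝓘(ℝ, E₂)) (fun y : F => (x, y)) y'
        ((0 : E₂ →L[ℝ] E₁).prod (ContinuousLinearMap.id ℝ E₂)) :=
      (hasMFDerivAt_const (I := 𝓘(ℝ, E₂)) (I' := 𝓘(ℝ, E₁)) x y').prodMk (hasMFDerivAt_id y')
    have h4 := (h2.hasMFDerivAt.comp y' h3).mfderiv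
    have h5 := congrArg (fun L : E₂ →L[ℝ] E =>
      L ((mfderiv 𝓘(ℝ, E₂) 𝓘(ℝ, E₂) (extChartAt 𝓘(ℝ, E₂) y₀).symm q.2 : E₂ →L[ℝ] E₂) w)) h4
    have h6 : (mfderiv 𝓘(ℝ, E₁) 𝓘(ℝ, E₁) (extChartAt 𝓘(ℝ, E₁) x₀).symm
        q.1 : E₁ →L[ℝ] E₁) 0 = 0 := map_zero _
    show (mfderiv (𝓘(ℝ, E₁).prod 𝓘(ℝ, E₂)) 𝓘(ℝ, E) Φ (x, y') : E₁ × E₂ →L[ℝ] E)
      ((mfderiv 𝓘(ℝ, E₁) 𝓘(ℝ, E₁) (extChartAt 𝓘(ℝ, E₁) x₀).symm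
        q.1 : E₁ →L[ℝ] E₁) 0, _) = _
    rw [h6]
    exact h5.symm
  ext i j
  have e1 := hfib (finBasis ℝ E₂ i)
  have e2 := hfib (finBasis ℝ E₂ j)
  have hp : psi E₁ E₂ Φ x₀ y₀ q =
      Φ ((extChartAt 𝓘(ℝ, E₁) x₀).symm q.1, (extChartAt 𝓘(ℝ, E₂) y₀).symm q.2) := rfl
  have e3 : ∀ p p' : M, p = p' → ∀ v v' w w' : E, v = v' → w = w' →
      (g.inner p : E →L[ℝ] E →L[ℝ] ℝ) v w = (g.inner p' : E →L[ℝ] E →L[ℝ] ℝ) v' w' := by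
    rintro _ _ rfl _ _ _ _ rfl rfl
    rfl
  have e4 := e3 _ _ hp _ _ _ _ e1 e2
  have e5 := hh ((extChartAt 𝓘(ℝ, E₂) y₀).symm q.2)
    (mfderiv 𝓘(ℝ, E₂) 𝓘(ℝ, E₂) (extChartAt 𝓘(ℝ, E₂) y₀).symm q.2 (finBasis ℝ E₂ i))
    (mfderiv 𝓘(ℝ, E₂) 𝓘(ℝ, E₂) (extChartAt 𝓘(ℝ, E₂) y₀).symm q.2 (finBasis ℝ E₂ j))
  exact e4.trans e5.symm

theorem cof_pos (h : Met E₂ F) (y : F) : 0 < (cof h y).det :=
  (chartMetric_posDef 𝓘(ℝ, E₂) (finBasis ℝ E₂) h y (mem_extChartAt_target y)).det_pos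

theorem ratio (h h₀ : Met E₂ F) {y₀ y : F} (hy : y ∈ (extChartAt 𝓘(ℝ, E₂) y₀).source) :
    (cof h y).det / (cof h₀ y).det = (coeff h y₀ (extChartAt 𝓘(ℝ, E₂) y₀ y)).det /
      (coeff h₀ y₀ (extChartAt 𝓘(ℝ, E₂) y₀ y)).det := by
  have hd : extChartAt 𝓘(ℝ, E₂) y₀ y ∈ Twist.dom 𝓘(ℝ, E₂) y y₀ := by
    refine ⟨(extChartAt 𝓘(ℝ, E₂) y₀).map_source hy, ?_⟩
    rw [mem_preimage, (extChartAt 𝓘(ℝ, E₂) y₀).left_inv hy]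
    exact mem_extChartAt_source y
  have ht : Twist.trans 𝓘(ℝ, E₂) y y₀ (extChartAt 𝓘(ℝ, E₂) y₀ y) = extChartAt 𝓘(ℝ, E₂) y y := by
    unfold Twist.trans
    rw [(extChartAt 𝓘(ℝ, E₂) y₀).left_inv hy]
  have h1 := coeff_det_law (I := 𝓘(ℝ, E₂)) h hd
  have h2 := coeff_det_law (I := 𝓘(ℝ, E₂)) h₀ hd
  rw [ht] at h1 h2
  have h3 : 0 < (coeff h y₀ (extChartAt 𝓘(ℝ, E₂) y₀ y)).det :=
    (chartMetric_posDef 𝓘(ℝ, E₂) (finBasis ℝ E₂) h y₀ ((extChartAt 𝓘(ℝ, E₂) y₀).map_source hy)).det_pos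
  have hc := cof_pos h₀ y
  unfold cof at hc ⊢
  rw [h1] at h3
  have h4 : (fderiv ℝ (Twist.trans 𝓘(ℝ, E₂) y y₀) (extChartAt 𝓘(ℝ, E₂) y₀ y)).det ^ 2 ≠ 0 := by
    intro h0
    rw [h0, zero_mul] at h3
    exact lt_irrefl _ h3
  rw [h1, h2, mul_div_mul_left _ _ h4]

theorem isFib_cof {g : Met E M} {Φ : B × F → M} {x : B} {h h' : Met E₂ F} (hh : IsFib g Φ x h)
    (hh' : IsFib g Φ x h') (y : F) : cof h y = cof h' y := by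
  ext i j
  have h1 := hh ((extChartAt 𝓘(ℝ, E₂) y).symm (extChartAt 𝓘(ℝ, E₂) y y))
    (mfderiv 𝓘(ℝ, E₂) 𝓘(ℝ, E₂) (extChartAt 𝓘(ℝ, E₂) y).symm (extChartAt 𝓘(ℝ, E₂) y y) (finBasis ℝ E₂ i))
    (mfderiv 𝓘(ℝ, E₂) 𝓘(ℝ, E₂) (extChartAt 𝓘(ℝ, E₂) y).symm (extChartAt 𝓘(ℝ, E₂) y y) (finBasis ℝ E₂ j))
  have h2 := hh' ((extChartAt 𝓘(ℝ, E₂) y).symm (extChartAt 𝓘(ℝ, E₂) y y))
    (mfderiv 𝓘(ℝ, E₂) 𝓘(ℝ, E₂) (extChartAt 𝓘(ℝ, E₂) y).symm (extChartAt 𝓘(ℝ, E₂) y y) (finBasis ℝ E₂ i))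
    (mfderiv 𝓘(ℝ, E₂) 𝓘(ℝ, E₂) (extChartAt 𝓘(ℝ, E₂) y).symm (extChartAt 𝓘(ℝ, E₂) y y) (finBasis ℝ E₂ j))
  exact h1.trans h2.symm

end FDens

/-- The ratio of the volume densities of the fibres is smooth. -/
theorem fib_dens {pr : M → B} {g : Met E M} {U : Set B} {Φ : B × F → M}
    (hΦ : Triv E E₁ E₂ pr U Φ) (h₀ : Met E₂ F) :
    ∃ D : B × F → ℝ, ContMDiffOn (𝓘(ℝ, E₁).prod 𝓘(ℝ, E₂)) 𝓘(ℝ, ℝ) ∞ D (U ×ˢ univ) ∧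
      (∀ x ∈ U, ∀ y, 0 < D (x, y)) ∧
      ∀ x ∈ U, ∀ h : Met E₂ F, IsFib g Φ x h → ∀ y,
        √ ((cof h y).det / (cof h₀ y).det) = D (x, y) := by
  have : Nonempty (Met E₂ F) := ⟨h₀⟩
  choose! h hh using fun (x : B) (hx : x ∈ U) => exists_isFib hΦ g hx
  refine ⟨fun p => √ ((cof (h p.1) p.2).det / (cof h₀ p.2).det), ?_, ?_, ?_⟩
  · rintro ⟨x₀, y₀⟩ ⟨hx₀, -⟩
    apply ContMDiffAt.contMDiffWithinAt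
    have hg₀ : PsiAux.Good x₀ y₀ U (pt E₁ E₂ x₀ y₀ x₀ y₀) :=
      (PsiAux.good_ev (E₁ := E₁) (E₂ := E₂) x₀ y₀ hΦ.isOpen hx₀).self_of_nhds
    have hpara := (FDens.ac_good hΦ hg₀).para
    have hf : ContDiffAt ℝ ∞ (fun q : E₁ × E₂ => (Fib.fm g (psi E₁ E₂ Φ x₀ y₀) q).det)
        (pt E₁ E₂ x₀ y₀ x₀ y₀) := contDiffAt_det fun i j => Fib.G2.gσ_smooth g hpara _ _
    have hfp : 0 < (Fib.fm g (psi E₁ E₂ Φ x₀ y₀) (pt E₁ E₂ x₀ y₀ x₀ y₀)).det :=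
      (Fib.G2.fm_pos g hpara.self_of_nhds).det_pos
    have hc : ContDiffAt ℝ ∞ (fun z : E₂ => (coeff h₀ y₀ z).det) (extChartAt 𝓘(ℝ, E₂) y₀ y₀) :=
      contDiffAt_det fun i j => g3_coeff_smooth h₀ y₀ (mem_extChartAt_target y₀) i j
    have hcp : 0 < (coeff h₀ y₀ (extChartAt 𝓘(ℝ, E₂) y₀ y₀)).det := FDens.cof_pos h₀ y₀
    have hc' : ContDiffAt ℝ ∞ (fun q : E₁ × E₂ => (coeff h₀ y₀ q.2).det)
        (pt E₁ E₂ x₀ y₀ x₀ y₀) :=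
      ContDiffAt.comp (pt E₁ E₂ x₀ y₀ x₀ y₀) (g := fun z : E₂ => (coeff h₀ y₀ z).det)
        (f := Prod.snd) hc contDiffAt_snd
    have h1 : ContDiffAt ℝ ∞ (fun q : E₁ × E₂ => √ ((Fib.fm g (psi E₁ E₂ Φ x₀ y₀) q).det /
        (coeff h₀ y₀ q.2).det)) (pt E₁ E₂ x₀ y₀ x₀ y₀) :=
      (hf.div hc' hcp.ne').sqrt (div_pos hfp hcp).ne'
    have h2 : ContMDiffAt (𝓘(ℝ, E₁).prod 𝓘(ℝ, E₂)) 𝓘(ℝ, E₁ × E₂) ∞
        (fun p : B × F => pt E₁ E₂ x₀ y₀ p.1 p.2) (x₀, y₀) := by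
      have ha : ContMDiffAt (𝓘(ℝ, E₁).prod 𝓘(ℝ, E₂)) 𝓘(ℝ, E₁) ∞
          (fun p : B × F => extChartAt 𝓘(ℝ, E₁) x₀ p.1) (x₀, y₀) :=
        ContMDiffAt.comp (x₀, y₀) (g := extChartAt 𝓘(ℝ, E₁) x₀) (f := Prod.fst)
          contMDiffAt_extChartAt contMDiffAt_fst
      have hb : ContMDiffAt (𝓘(ℝ, E₁).prod 𝓘(ℝ, E₂)) 𝓘(ℝ, E₂) ∞
          (fun p : B × F => extChartAt 𝓘(ℝ, E₂) y₀ p.2) (x₀, y₀) :=
        ContMDiffAt.comp (x₀, y₀) (g := extChartAt 𝓘(ℝ, E₂) y₀) (f := Prod.snd)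
          contMDiffAt_extChartAt contMDiffAt_snd
      exact ha.prodMk_space hb
    have h3 := ContMDiffAt.comp (x₀, y₀) (g := fun q : E₁ × E₂ =>
      √ ((Fib.fm g (psi E₁ E₂ Φ x₀ y₀) q).det / (coeff h₀ y₀ q.2).det))
      (f := fun p : B × F => pt E₁ E₂ x₀ y₀ p.1 p.2) h1.contMDiffAt h2
    refine h3.congr_of_eventuallyEq ?_
    have hn1 : ∀ᶠ x in 𝓝 x₀, x ∈ (extChartAt 𝓘(ℝ, E₁) x₀).source ∧ x ∈ U :=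
      Filter.Eventually.and
        ((isOpen_extChartAt_source (I := 𝓘(ℝ, E₁)) x₀).mem_nhds (mem_extChartAt_source x₀))
        (hΦ.isOpen.mem_nhds hx₀)
    have hn2 : ∀ᶠ y in 𝓝 y₀, y ∈ (extChartAt 𝓘(ℝ, E₂) y₀).source :=
      (isOpen_extChartAt_source (I := 𝓘(ℝ, E₂)) y₀).mem_nhds (mem_extChartAt_source y₀)
    filter_upwards [hn1.prod_nhds hn2] with p hp
    obtain ⟨⟨hp1, hpU⟩, hp2⟩ := hp
    have e1 : (extChartAt 𝓘(ℝ, E₁) x₀).symm (extChartAt 𝓘(ℝ, E₁) x₀ p.1) = p.1 :=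
      (extChartAt 𝓘(ℝ, E₁) x₀).left_inv hp1
    have hgood : PsiAux.Good x₀ y₀ U (pt E₁ E₂ x₀ y₀ p.1 p.2) := by
      refine ⟨(extChartAt 𝓘(ℝ, E₁) x₀).map_source hp1, ?_,
        (extChartAt 𝓘(ℝ, E₂) y₀).map_source hp2⟩
      show (extChartAt 𝓘(ℝ, E₁) x₀).symm (extChartAt 𝓘(ℝ, E₁) x₀ p.1) ∈ U
      rw [e1]
      exact hpU
    have hfib : IsFib g Φ ((extChartAt 𝓘(ℝ, E₁) x₀).symm (pt E₁ E₂ x₀ y₀ p.1 p.2).1) (h p.1) := by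
      show IsFib g Φ ((extChartAt 𝓘(ℝ, E₁) x₀).symm (extChartAt 𝓘(ℝ, E₁) x₀ p.1)) (h p.1)
      rw [e1]
      exact hh p.1 hpU
    have e2 := FDens.fm_good hΦ hgood hfib
    have e3 := FDens.ratio (h p.1) h₀ hp2
    show √ ((cof (h p.1) p.2).det / (cof h₀ p.2).det) =
      √ ((Fib.fm g (psi E₁ E₂ Φ x₀ y₀) (pt E₁ E₂ x₀ y₀ p.1 p.2)).det /
        (coeff h₀ y₀ (pt E₁ E₂ x₀ y₀ p.1 p.2).2).det)
    rw [e2, e3]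
    rfl
  · intro x hx y
    exact Real.sqrt_pos.2 (div_pos (FDens.cof_pos _ _) (FDens.cof_pos _ _))
  · intro x hx h' hh' y
    show √ ((cof h' y).det / (cof h₀ y).det) = √ ((cof (h x) y).det / (cof h₀ y).det)
    rw [FDens.isFib_cof hh' (hh x hx) y]

end Pool.Agent.Lib.MP_df705a_gt.Coll
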