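import Pool.Agent.Lib.MP_df705a_gt.Coll.Defs

/-!
# Integrals depending on a parameter
-/

open scoped Manifold ContDiff Topology
open Set Bundle Module Filter MeasureTheory

noncomputable section

namespace Pool.Agent.Lib.MP_df705a_gt.Coll

open Pool.Agent.Lib.MP_df705a_gt.Twist Pool.Agent.Lib.MP_df705a_gt.Perm
open Pool.Agent.Lib.MP_df705a_gt.Circ (Horizontal Submersion cf Para HorConf)
open Pool.Agent.Lib.MP_df705a_gt.Fib (RiemSub Biconformal)

namespace ParamIntAux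

universe u

variable {E₁ : Type u} [NormedAddCommGroup E₁] [NormedSpace ℝ E₁] [FiniteDimensional ℝ E₁]
  {E₂ : Type*} [NormedAddCommGroup E₂] [NormedSpace ℝ E₂] [FiniteDimensional ℝ E₂]
  {F : Type*} [TopologicalSpace F] [ChartedSpace E₂ F] [IsManifold 𝓘(ℝ, E₂) ∞ F]

/-- `K` is smooth at all the points of `W × F`. -/
def SmF (E₂ : Type*) [NormedAddCommGroup E₂] [NormedSpace ℝ E₂] {F : Type*} [TopologicalSpace F]
    [ChartedSpace E₂ F] {V : Type*} [NormedAddCommGroup V] [NormedSpace ℝ V]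
    (W : Set E₁) (K : E₁ → F → V) : Prop :=
  ∀ e ∈ W, ∀ y : F, ContMDiffAt (𝓘(ℝ, E₁).prod 𝓘(ℝ, E₂)) 𝓘(ℝ, V) ∞
    (fun p : E₁ × F => K p.1 p.2) (e, y)

theorem SmF.fderiv {V : Type*} [NormedAddCommGroup V] [NormedSpace ℝ V] {W : Set E₁}
    {K : E₁ → F → V} (h : SmF E₂ W K) :
    SmF E₂ W (fun e y => fderiv ℝ (fun e' => K e' y) e) := by
  intro e he y
  have h1 : ContMDiffAt ((𝓘(ℝ, E₁).prod 𝓘(ℝ, E₂)).prod 𝓘(ℝ, E₁)) 𝓘(ℝ, V) ∞
      (Function.uncurry (fun (p : E₁ × F) (e' : E₁) => K e' p.2)) ((e, y), e) := by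
    have h2 : ContMDiffAt ((𝓘(ℝ, E₁).prod 𝓘(ℝ, E₂)).prod 𝓘(ℝ, E₁)) (𝓘(ℝ, E₁).prod 𝓘(ℝ, E₂)) ∞
        (fun q : (E₁ × F) × E₁ => (q.2, q.1.2)) ((e, y), e) := by
      exact ContMDiffAt.prodMk contMDiffAt_snd (contMDiffAt_snd.comp _ contMDiffAt_fst)
    exact ContMDiffAt.comp ((e, y), e) (g := fun p : E₁ × F => K p.1 p.2)
      (f := fun q : (E₁ × F) × E₁ => (q.2, q.1.2)) (h e he y) h2
  have h3 := ContMDiffAt.mfderiv (m := ∞) (n := ∞) (fun (p : E₁ × F) (e' : E₁) => K e' p.2)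
    (fun p : E₁ × F => p.1) (x₀ := (e, y)) h1 contMDiffAt_fst (by simp)
  simp only [mfderiv_eq_fderiv] at h3
  have h4 := inTangentCoordinates_model_space (I := 𝓘(ℝ, E₁)) (I' := 𝓘(ℝ, V)) (fun p : E₁ × F => p.1)
    (fun p : E₁ × F => K p.1 p.2)
    (fun p : E₁ × F => _root_.fderiv ℝ (fun e' => K e' p.2) p.1) (e, y)
  exact (congrArg (fun f => ContMDiffAt (𝓘(ℝ, E₁).prod 𝓘(ℝ, E₂)) 𝓘(ℝ, E₁ →L[ℝ] V) ∞ f (e, y))
    h4).mp h3

theorem SmF.contAt {V : Type*} [NormedAddCommGroup V] [NormedSpace ℝ V] {W : Set E₁}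
    {K : E₁ → F → V} (h : SmF E₂ W K) {e : E₁} (he : e ∈ W) (y : F) :
    ContinuousAt (fun p : E₁ × F => K p.1 p.2) (e, y) := (h e he y).continuousAt

theorem SmF.cont {V : Type*} [NormedAddCommGroup V] [NormedSpace ℝ V] {W : Set E₁}
    {K : E₁ → F → V} (h : SmF E₂ W K) {e : E₁} (he : e ∈ W) : Continuous (K e) := by
  rw [continuous_iff_continuousAt]
  intro y
  exact ContinuousAt.comp (g := fun p : E₁ × F => K p.1 p.2) (f := fun y : F => (e, y))
    (h.contAt he y) (by fun_prop)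

theorem SmF.diff {V : Type*} [NormedAddCommGroup V] [NormedSpace ℝ V] {W : Set E₁}
    {K : E₁ → F → V} (h : SmF E₂ W K) {e : E₁} (he : e ∈ W) (y : F) :
    DifferentiableAt ℝ (fun e' => K e' y) e := by
  have h2 : ContMDiffAt 𝓘(ℝ, E₁) (𝓘(ℝ, E₁).prod 𝓘(ℝ, E₂)) ∞ (fun e' : E₁ => (e', y)) e :=
    ContMDiffAt.prodMk contMDiffAt_id contMDiffAt_const
  have h1 : ContMDiffAt 𝓘(ℝ, E₁) 𝓘(ℝ, V) ∞ (fun e' => K e' y) e :=
    ContMDiffAt.comp e (g := fun p : E₁ × F => K p.1 p.2) (f := fun e' : E₁ => (e', y))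
      (h e he y) h2
  exact (h1.contDiffAt).differentiableAt (by simp)

variable [CompactSpace F] [MeasurableSpace F] [BorelSpace F]

theorem SmF.integrable {V : Type*} [NormedAddCommGroup V] [NormedSpace ℝ V]
    [FiniteDimensional ℝ V] {W : Set E₁} {K : E₁ → F → V} (h : SmF E₂ W K) {e : E₁} (he : e ∈ W)
    (ν : Measure F) [IsFiniteMeasure ν] : Integrable (K e) ν := by
  have : ProperSpace V := FiniteDimensional.proper ℝ V
  have hc := h.cont he
  obtain ⟨C, hC⟩ := (isCompact_range hc).isBounded.exists_norm_le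
  exact Integrable.of_bound hc.aestronglyMeasurable C
    (Filter.Eventually.of_forall fun y => hC _ (mem_range_self y))

theorem SmF.hasFDerivAt {V : Type*} [NormedAddCommGroup V] [NormedSpace ℝ V]
    [FiniteDimensional ℝ V] {W : Set E₁} (hW : IsOpen W) {K : E₁ → F → V} (h : SmF E₂ W K)
    {e : E₁} (he : e ∈ W) (ν : Measure F) [IsFiniteMeasure ν] :
    HasFDerivAt (fun e => ∫ y, K e y ∂ν) (∫ y, _root_.fderiv ℝ (fun e' => K e' y) e ∂ν) e := by
  have : ProperSpace E₁ := FiniteDimensional.proper ℝ E₁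
  obtain ⟨r, hr, hrW⟩ := Metric.nhds_basis_closedBall.mem_iff.1 (hW.mem_nhds he)
  have hD := h.fderiv
  have hcomp : IsCompact (Metric.closedBall e r ×ˢ (univ : Set F)) :=
    (isCompact_closedBall e r).prod isCompact_univ
  have hcont : ContinuousOn (fun p : E₁ × F => _root_.fderiv ℝ (fun e' => K e' p.2) p.1)
      (Metric.closedBall e r ×ˢ (univ : Set F)) := fun p hp =>
    (hD.contAt (hrW hp.1) p.2).continuousWithinAt
  obtain ⟨C, hC⟩ := hcomp.exists_bound_of_continuousOn hcont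
  refine hasFDerivAt_integral_of_dominated_of_fderiv_le (s := Metric.closedBall e r)
    (F := fun e y => K e y) (F' := fun e y => _root_.fderiv ℝ (fun e' => K e' y) e)
    (bound := fun _ => C) (Metric.closedBall_mem_nhds e hr) ?_ (h.integrable he ν)
    (hD.integrable he ν).aestronglyMeasurable ?_ (integrable_const C) ?_
  · filter_upwards [Metric.closedBall_mem_nhds e hr] with e' he'
    exact (h.integrable (hrW he') ν).aestronglyMeasurable
  · exact Filter.Eventually.of_forall fun y e' he' => hC (e', y) ⟨he', mem_univ y⟩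
  · exact Filter.Eventually.of_forall fun y e' he' => (h.diff (hrW he') y).hasFDerivAt

theorem SmF.contDiffOn_nat (n : ℕ) : ∀ {V : Type u} [NormedAddCommGroup V] [NormedSpace ℝ V]
    [FiniteDimensional ℝ V] {W : Set E₁} (_ : IsOpen W) {K : E₁ → F → V} (_ : SmF E₂ W K)
    (ν : Measure F) [IsFiniteMeasure ν], ContDiffOn ℝ n (fun e => ∫ y, K e y ∂ν) W := by
  induction n with
  | zero =>
    intro V _ _ _ W hW K h ν _
    rw [Nat.cast_zero, contDiffOn_zero]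
    exact fun e he => (h.hasFDerivAt hW he ν).continuousAt.continuousWithinAt
  | succ n ih =>
    intro V _ _ _ W hW K h ν _
    rw [Nat.cast_succ, contDiffOn_succ_iff_fderiv_of_isOpen hW]
    refine ⟨fun e he => (h.hasFDerivAt hW he ν).differentiableAt.differentiableWithinAt,
      fun hn => absurd hn (by simp), ?_⟩
    refine (ih hW h.fderiv ν).congr fun e he => ?_
    exact (h.hasFDerivAt hW he ν).fderiv

theorem SmF.contDiffOn_real {W : Set E₁} (hW : IsOpen W) {K : E₁ → F → ℝ} (h : SmF E₂ W K)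
    (ν : Measure F) [IsFiniteMeasure ν] : ContDiffOn ℝ ∞ (fun e => ∫ y, K e y ∂ν) W := by
  rw [contDiffOn_infty]
  intro n
  cases n with
  | zero =>
    rw [Nat.cast_zero, contDiffOn_zero]
    exact fun e he => (h.hasFDerivAt hW he ν).continuousAt.continuousWithinAt
  | succ n =>
    rw [Nat.cast_succ, contDiffOn_succ_iff_fderiv_of_isOpen hW]
    refine ⟨fun e he => (h.hasFDerivAt hW he ν).differentiableAt.differentiableWithinAt,
      fun hn => absurd hn (by simp), ?_⟩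
    refine (SmF.contDiffOn_nat n hW h.fderiv ν).congr fun e he => ?_
    exact (h.hasFDerivAt hW he ν).fderiv

end ParamIntAux

variable {E₁ : Type*} [NormedAddCommGroup E₁] [NormedSpace ℝ E₁] [FiniteDimensional ℝ E₁]
  {B : Type*} [TopologicalSpace B] [ChartedSpace E₁ B] [IsManifold 𝓘(ℝ, E₁) ∞ B]
  {E₂ : Type*} [NormedAddCommGroup E₂] [NormedSpace ℝ E₂] [FiniteDimensional ℝ E₂]
  {F : Type*} [TopologicalSpace F] [ChartedSpace E₂ F] [IsManifold 𝓘(ℝ, E₂) ∞ F]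
  [CompactSpace F] [MeasurableSpace F] [BorelSpace F]

theorem contMDiffOn_integral {U : Set B} (hU : IsOpen U) {G : B × F → ℝ}
    (hG : ContMDiffOn (𝓘(ℝ, E₁).prod 𝓘(ℝ, E₂)) 𝓘(ℝ, ℝ) ∞ G (U ×ˢ univ)) (ν : Measure F)
    [IsFiniteMeasure ν] :
    ContMDiffOn 𝓘(ℝ, E₁) 𝓘(ℝ, ℝ) ∞ (fun x => ∫ y, G (x, y) ∂ν) U := by
  intro x₀ hx₀
  refine ContMDiffAt.contMDiffWithinAt ?_
  set φ := extChartAt 𝓘(ℝ, E₁) x₀ with hφ
  set W : Set E₁ := φ.target ∩ φ.symm ⁻¹' U with hWdef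
  have hW : IsOpen W := by
    exact (continuousOn_extChartAt_symm x₀).isOpen_inter_preimage (isOpen_extChartAt_target x₀) hU
  have hsm : ParamIntAux.SmF E₂ W (fun (e : E₁) (y : F) => G (φ.symm e, y)) := by
    intro e he y
    have h1 : ContMDiffAt (𝓘(ℝ, E₁).prod 𝓘(ℝ, E₂)) 𝓘(ℝ, ℝ) ∞ G (φ.symm e, y) :=
      hG.contMDiffAt ((hU.prod isOpen_univ).mem_nhds ⟨he.2, mem_univ y⟩)
    have h2 : ContMDiffAt 𝓘(ℝ, E₁) 𝓘(ℝ, E₁) ∞ φ.symm e :=
      (contMDiffOn_extChartAt_symm x₀).contMDiffAt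
        ((isOpen_extChartAt_target x₀).mem_nhds he.1)
    have h3 : ContMDiffAt (𝓘(ℝ, E₁).prod 𝓘(ℝ, E₂)) (𝓘(ℝ, E₁).prod 𝓘(ℝ, E₂)) ∞
        (fun p : E₁ × F => (φ.symm p.1, p.2)) (e, y) := by
      refine ContMDiffAt.prodMk ?_ contMDiffAt_snd
      exact ContMDiffAt.comp (e, y) (g := φ.symm) (f := fun p : E₁ × F => p.1) h2 contMDiffAt_fst
    exact ContMDiffAt.comp (e, y) (g := G) (f := fun p : E₁ × F => (φ.symm p.1, p.2)) h1 h3
  have h4 := hsm.contDiffOn_real hW ν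
  have hmem : φ x₀ ∈ W := ⟨mem_extChartAt_target x₀, by
    simp only [mem_preimage, hφ, extChartAt_to_inv]; exact hx₀⟩
  have h5 : ContDiffAt ℝ ∞ (fun e => ∫ y, G (φ.symm e, y) ∂ν) (φ x₀) :=
    h4.contDiffAt (hW.mem_nhds hmem)
  have h6 : ContMDiffAt 𝓘(ℝ, E₁) 𝓘(ℝ, ℝ) ∞
      ((fun e => ∫ y, G (φ.symm e, y) ∂ν) ∘ φ) x₀ :=
    ContMDiffAt.comp x₀ h5.contMDiffAt contMDiffAt_extChartAt
  refine h6.congr_of_eventuallyEq ?_
  filter_upwards [extChartAt_source_mem_nhds (I := 𝓘(ℝ, E₁)) x₀] with x hx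
  simp only [Function.comp_apply]
  rw [φ.left_inv hx]

end Pool.Agent.Lib.MP_df705a_gt.Coll
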