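import Pool.Agent.Lib.MP_df705a_gt.Coll.X.DetCf
import Pool.Agent.Lib.MP_df705a_gt.Coll.X.ParamInt
import Pool.Agent.Lib.MP_df705a_gt.Coll.X.FibDens
import Pool.Agent.Lib.MP_df705a_gt.Coll.X.Psi

/-!
# The theorem of Fubini, locally
-/

open scoped Manifold ContDiff Topology
open Set Bundle Module Filter MeasureTheory

noncomputable section

namespace Pool.Agent.Lib.MP_df705a_gt.Coll

open Pool.Agent.Lib.MP_df705a_gt.Twist Pool.Agent.Lib.MP_df705a_gt.Perm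
open Pool.Agent.Lib.MP_df705a_gt.Circ (Horizontal Submersion cf Para HorConf)
open Pool.Agent.Lib.MP_df705a_gt.Fib (RiemSub Biconformal)

variable {E₁ : Type*} [NormedAddCommGroup E₁] [NormedSpace ℝ E₁] [FiniteDimensional ℝ E₁]
  {B : Type*} [TopologicalSpace B] [ChartedSpace E₁ B] [IsManifold 𝓘(ℝ, E₁) ∞ B]
  {E₂ : Type*} [NormedAddCommGroup E₂] [NormedSpace ℝ E₂] [FiniteDimensional ℝ E₂]
  {F : Type*} [TopologicalSpace F] [ChartedSpace E₂ F] [IsManifold 𝓘(ℝ, E₂) ∞ F]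
  {E : Type*} [NormedAddCommGroup E] [NormedSpace ℝ E] [FiniteDimensional ℝ E]
  {M : Type*} [TopologicalSpace M] [ChartedSpace E M] [IsManifold 𝓘(ℝ, E) ∞ M]

namespace FubAux

open PsiAux (Good cc)

/-- the open set of the good points -/
theorem isOpen_good (x : B) (y : F) {U : Set B} (hU : IsOpen U) :
    IsOpen {q : E₁ × E₂ | Good x y U q} := by
  have h1 : IsOpen ((extChartAt 𝓘(ℝ, E₁) x).target ∩ (extChartAt 𝓘(ℝ, E₁) x).symm ⁻¹' U) :=
    (continuousOn_extChartAt_symm x).isOpen_inter_preimage (isOpen_extChartAt_target x) hU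
  have h2 : {q : E₁ × E₂ | Good x y U q} =
      ((extChartAt 𝓘(ℝ, E₁) x).target ∩ (extChartAt 𝓘(ℝ, E₁) x).symm ⁻¹' U) ×ˢ
        (extChartAt 𝓘(ℝ, E₂) y).target := by
    ext q
    simp only [Good, mem_ofPred_eq, mem_prod, mem_inter_iff, mem_preimage, and_assoc]
  rw [h2]
  exact h1.prod (isOpen_extChartAt_target y)

theorem ac_good {pr : M → B} {U : Set B} {Φ : B × F → M} (hΦ : Triv E E₁ E₂ pr U Φ) {x : B} {y : F}
    {q : E₁ × E₂} (hq : Good x y U q) : Fib.AC E pr (psi E₁ E₂ Φ x y) q x := by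
  have hg : ∀ᶠ q' in 𝓝 q, Good x y U q' := (isOpen_good x y hΦ.isOpen).mem_nhds hq
  refine ⟨?_, ?_, ?_⟩
  · filter_upwards [hg] with q hq
    exact PsiAux.psi_para hΦ hq
  · filter_upwards [hg] with q hq
    have h1 : pr (psi E₁ E₂ Φ x y q) = (extChartAt 𝓘(ℝ, E₁) x).symm q.1 :=
      hΦ.proj _ hq.2.1 _
    rw [h1]
    exact (extChartAt 𝓘(ℝ, E₁) x).map_target hq.1
  · filter_upwards [hg] with q hq
    have h1 : pr (psi E₁ E₂ Φ x y q) = (extChartAt 𝓘(ℝ, E₁) x).symm q.1 :=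
      hΦ.proj _ hq.2.1 _
    rw [h1]
    exact (extChartAt 𝓘(ℝ, E₁) x).right_inv hq.1

theorem fm_good {pr : M → B} {U : Set B} {Φ : B × F → M} (hΦ : Triv E E₁ E₂ pr U Φ) {x₀ : B} {y₀ : F}
    {q : E₁ × E₂} (hq : Good x₀ y₀ U q) {g : Met E M} {h : Met E₂ F}
    (hh : IsFib g Φ ((extChartAt 𝓘(ℝ, E₁) x₀).symm q.1) h) :
    Fib.fm g (psi E₁ E₂ Φ x₀ y₀) q = coeff h y₀ q.2 := by
  -- the derivative in the direction of the fibre
  have hfib : ∀ w : E₂, (mfderiv 𝓘(ℝ, E₁ × E₂) 𝓘(ℝ, E) (psi E₁ E₂ Φ x₀ y₀) q : E₁ × E₂ →L[ℝ] E) (0, w) =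
      (mfderiv 𝓘(ℝ, E₂) 𝓘(ℝ, E) (fun y => Φ ((extChartAt 𝓘(ℝ, E₁) x₀).symm q.1, y))
        ((extChartAt 𝓘(ℝ, E₂) y₀).symm q.2) : E₂ →L[ℝ] E)
        ((mfderiv 𝓘(ℝ, E₂) 𝓘(ℝ, E₂) (extChartAt 𝓘(ℝ, E₂) y₀).symm q.2 : E₂ →L[ℝ] E₂) w) := by
    intro w
    have h1 := PsiAux.psi_deriv hΦ hq ((0, w) : E₁ × E₂)
    rw [h1]
    have hcc : cc E₁ E₂ x₀ y₀ q = ((extChartAt 𝓘(ℝ, E₁) x₀).symm q.1, (extChartAt 𝓘(ℝ, E₂) y₀).symm q.2) := rfl
    rw [hcc]
    set y' := (extChartAt 𝓘(ℝ, E₂) y₀).symm q.2 with hy'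
    set x := (extChartAt 𝓘(ℝ, E₁) x₀).symm q.1 with hx'
    have h2 : MDifferentiableAt (𝓘(ℝ, E₁).prod 𝓘(ℝ, E₂)) 𝓘(ℝ, E) Φ (x, y') :=
      (PsiAux.phi_smooth hΦ hq.2.1 y').mdifferentiableAt (by simp)
    have h3 : HasMFDerivAt 𝓘(ℝ, E₂) (𝓘(ℝ, E₁).prod 𝓘(ℝ, E₂)) (fun y : F => (x, y)) y'
        ((0 : E₂ →L[ℝ] E₁).prod (ContinuousLinearMap.id ℝ E₂)) :=
      (hasMFDerivAt_const (I := 𝓘(ℝ, E₂)) (I' := 𝓘(ℝ, E₁)) x y').prodMk (hasMFDerivAt_id y')
    have h4 := (h2.hasMFDerivAt.comp y' h3).mfderiv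
    have h5 := congrArg (fun L : E₂ →L[ℝ] E =>
      L ((mfderiv 𝓘(ℝ, E₂) 𝓘(ℝ, E₂) (extChartAt 𝓘(ℝ, E₂) y₀).symm q.2 : E₂ →L[ℝ] E₂) w)) h4
    have h6 : (mfderiv 𝓘(ℝ, E₁) 𝓘(ℝ, E₁) (extChartAt 𝓘(ℝ, E₁) x₀).symm
        q.1 : E₁ →L[ℝ] E₁) 0 = 0 := map_zero _
    show (mfderiv (𝓘(ℝ, E₁).prod 𝓘(ℝ, E₂)) 𝓘(ℝ, E) Φ (x, y') : E₁ × E₂ →L[ℝ] E)
      ((mfderiv 𝓘(ℝ, E₁) 𝓘(ℝ, E₁) (extChartAt 𝓘(ℝ, E₁) x₀).symm
        q.1 : E₁ →L[ℝ] E₁) 0, _) = _
    rw [h6]
    exact h5.symm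
  ext i j
  have e1 := hfib (finBasis ℝ E₂ i)
  have e2 := hfib (finBasis ℝ E₂ j)
  have hp : psi E₁ E₂ Φ x₀ y₀ q =
      Φ ((extChartAt 𝓘(ℝ, E₁) x₀).symm q.1, (extChartAt 𝓘(ℝ, E₂) y₀).symm q.2) := rfl
  have e3 : ∀ p p' : M, p = p' → ∀ v v' w w' : E, v = v' → w = w' →
      (g.inner p : E →L[ℝ] E →L[ℝ] ℝ) v w = (g.inner p' : E →L[ℝ] E →L[ℝ] ℝ) v' w' := by
    rintro _ _ rfl _ _ _ _ rfl rfl
    rfl
  have e4 := e3 _ _ hp _ _ _ _ e1 e2
  have e5 := hh ((extChartAt 𝓘(ℝ, E₂) y₀).symm q.2)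
    (mfderiv 𝓘(ℝ, E₂) 𝓘(ℝ, E₂) (extChartAt 𝓘(ℝ, E₂) y₀).symm q.2 (finBasis ℝ E₂ i))
    (mfderiv 𝓘(ℝ, E₂) 𝓘(ℝ, E₂) (extChartAt 𝓘(ℝ, E₂) y₀).symm q.2 (finBasis ℝ E₂ j))
  exact e4.trans e5.symm

theorem inj_good {pr : M → B} {U : Set B} {Φ : B × F → M} (hΦ : Triv E E₁ E₂ pr U Φ) (x₀ : B) (y₀ : F) :
    InjOn (psi E₁ E₂ Φ x₀ y₀) {q : E₁ × E₂ | Good x₀ y₀ U q} := by
  rintro q hq q' hq' he
  have hq : Good x₀ y₀ U q := hq
  have hq' : Good x₀ y₀ U q' := hq'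
  have h1 : pr (psi E₁ E₂ Φ x₀ y₀ q) = (extChartAt 𝓘(ℝ, E₁) x₀).symm q.1 := hΦ.proj _ hq.2.1 _
  have h2 : pr (psi E₁ E₂ Φ x₀ y₀ q') = (extChartAt 𝓘(ℝ, E₁) x₀).symm q'.1 := hΦ.proj _ hq'.2.1 _
  have h3 : (extChartAt 𝓘(ℝ, E₁) x₀).symm q.1 = (extChartAt 𝓘(ℝ, E₁) x₀).symm q'.1 := by
    rw [← h1, he, h2]
  have h4 : q.1 = q'.1 := (extChartAt 𝓘(ℝ, E₁) x₀).symm.injOn hq.1 hq'.1 h3
  have h5 : Φ ((extChartAt 𝓘(ℝ, E₁) x₀).symm q.1, (extChartAt 𝓘(ℝ, E₂) y₀).symm q.2) =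
      Φ ((extChartAt 𝓘(ℝ, E₁) x₀).symm q.1, (extChartAt 𝓘(ℝ, E₂) y₀).symm q'.2) := by
    have h6 : Φ ((extChartAt 𝓘(ℝ, E₁) x₀).symm q.1, (extChartAt 𝓘(ℝ, E₂) y₀).symm q.2) =
      Φ ((extChartAt 𝓘(ℝ, E₁) x₀).symm q'.1, (extChartAt 𝓘(ℝ, E₂) y₀).symm q'.2) := he
    rw [h6, h3]
  have h7 := hΦ.inj _ hq.2.1 _ _ h5
  have h8 : q.2 = q'.2 := (extChartAt 𝓘(ℝ, E₂) y₀).symm.injOn hq.2.2 hq'.2.2 h7
  exact Prod.ext h4 h8

theorem phi_continuous {pr : M → B} {U : Set B} {Φ : B × F → M} (hΦ : Triv E E₁ E₂ pr U Φ) {x : B}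
    (hx : x ∈ U) : Continuous (fun y => Φ (x, y)) := by
  have h1 : ContinuousOn Φ (U ×ˢ univ) := hΦ.smooth.continuousOn
  exact h1.comp_continuous (by fun_prop) (fun y => ⟨hx, mem_univ _⟩)

/-- the integral over the fibres is a continuous function on U -/
theorem cont_fib [MeasurableSpace E₂] [BorelSpace E₂] [MeasurableSpace F] [BorelSpace F]
    [CompactSpace F] [T2Space F] {pr : M → B} {U : Set B} {Φ : B × F → M} (hΦ : Triv E E₁ E₂ pr U Φ)
    {x₀ : B} (hx₀ : x₀ ∈ U) {g : Met E M} {h : B → Met E₂ F}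
    (hh : ∀ x ∈ U, IsFib g Φ x (h x)) {ν : B → Measure F}
    (hν : ∀ x ∈ U, IsRVol (h x) (ν x)) {K : M → ℝ} (hK : Continuous K) :
    ContinuousOn (fun x => ∫ y, K (Φ (x, y)) ∂ν x) U := by
  obtain ⟨D, hD1, hD2, hD3⟩ := fib_dens hΦ (h x₀)
  have h1 : ∀ x ∈ U, ∫ y, K (Φ (x, y)) ∂ν x = ∫ y, K (Φ (x, y)) * D (x, y) ∂ν x₀ := by
    intro x hx
    rw [(hν x₀ hx₀).dens (hν x hx) (f := fun y => K (Φ (x, y))) (hK.comp (phi_continuous hΦ hx))]
    refine integral_congr_ae (Eventually.of_forall fun y => ?_)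
    beta_reduce
    rw [hD3 x hx (h x) (hh x hx) y]
  have hfin : IsFiniteMeasure (ν x₀) := (hν x₀ hx₀).fin
  have h2 : ContinuousOn (fun x => ∫ y, K (Φ (x, y)) * D (x, y) ∂ν x₀) U := by
    refine continuousOn_integral_of_compact_support (k := univ) isCompact_univ ?_ ?_
    · have h3 : ContinuousOn (fun p : B × F => K (Φ p) * D p) (U ×ˢ univ) :=
        (hK.comp_continuousOn hΦ.smooth.continuousOn).mul hD1.continuousOn
      exact h3
    · intro p x _ hx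
      exact absurd (mem_univ _) hx
  exact h2.congr h1

variable [MeasurableSpace E₁] [BorelSpace E₁] [MeasurableSpace E₂] [BorelSpace E₂]
  [MeasurableSpace E] [BorelSpace E] [MeasurableSpace B] [BorelSpace B]
  [MeasurableSpace F] [BorelSpace F] [MeasurableSpace M] [BorelSpace M]
  [CompactSpace M] [T2Space M] [CompactSpace B] [T2Space B] [CompactSpace F] [T2Space F]

/-- integrability in adapted coordinates, for nonnegative functions -/
theorem int_nonneg {pr : M → B} {g : Met E M} {μM : Measure M} (hM : IsRVol g μM)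
    {σ : E₁ × E₂ → M} {W : Set (E₁ × E₂)} (hW : IsOpen W) {z : B}
    (hσ : ∀ q ∈ W, Fib.AC E pr σ q z) (hinj : InjOn σ W) {K : M → ℝ} (hK : Continuous K)
    (hs : tsupport K ⊆ σ '' W) (h0 : ∀ p, 0 ≤ K p) :
    Integrable (fun q => K (σ q) * (√ (hm g σ q).det * √ (Fib.fm g σ q).det))
      (((finBasis ℝ E₁).addHaar.prod (finBasis ℝ E₂).addHaar).restrict W) := by
  by_cases hz : ∀ p, K p = 0
  · have : (fun q => K (σ q) * (√ (hm g σ q).det * √ (Fib.fm g σ q).det)) = fun _ => 0 := by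
      funext q
      rw [hz, zero_mul]
    rw [this]
    exact integrable_zero _ _ _
  · push Not at hz
    obtain ⟨p, hp⟩ := hz
    have hp' : 0 < K p := lt_of_le_of_ne (h0 p) (Ne.symm hp)
    have h1 := hM.pos hK h0 hp'
    rw [int_adapted hM hW hσ hinj hK hs] at h1
    by_contra hcon
    rw [integral_undef hcon] at h1
    exact lt_irrefl _ h1

theorem tsupport_pos {K : M → ℝ} : tsupport (fun p => max (K p) 0) ⊆ tsupport K := by
  apply closure_mono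
  intro p hp hp0
  apply hp
  beta_reduce
  rw [hp0, max_self]

theorem tsupport_neg' {K : M → ℝ} : tsupport (fun p => max (-K p) 0) ⊆ tsupport K := by
  apply closure_mono
  intro p hp hp0
  apply hp
  beta_reduce
  rw [hp0, neg_zero, max_self]

theorem int_all {pr : M → B} {g : Met E M} {μM : Measure M} (hM : IsRVol g μM)
    {σ : E₁ × E₂ → M} {W : Set (E₁ × E₂)} (hW : IsOpen W) {z : B}
    (hσ : ∀ q ∈ W, Fib.AC E pr σ q z) (hinj : InjOn σ W) {K : M → ℝ} (hK : Continuous K)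
    (hs : tsupport K ⊆ σ '' W) :
    Integrable (fun q => K (σ q) * (√ (hm g σ q).det * √ (Fib.fm g σ q).det))
      (((finBasis ℝ E₁).addHaar.prod (finBasis ℝ E₂).addHaar).restrict W) := by
  have h1 := int_nonneg hM hW hσ hinj (K := fun p => max (K p) 0) (by fun_prop) (tsupport_pos.trans hs)
    (fun p => le_max_right _ _)
  have h2 := int_nonneg hM hW hσ hinj (K := fun p => max (-K p) 0) (by fun_prop) (tsupport_neg'.trans hs)
    (fun p => le_max_right _ _)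
  refine (h1.sub h2).congr (Eventually.of_forall fun q => ?_)
  have e : K (σ q) = max (K (σ q)) 0 - max (-K (σ q)) 0 := by
    rcases le_total 0 (K (σ q)) with h | h
    · rw [max_eq_left h, max_eq_right (by linarith)]; ring
    · rw [max_eq_right h, max_eq_left (by linarith)]; ring
  beta_reduce
  simp only [Pi.sub_apply]
  rw [← sub_mul, ← e]

end FubAux

variable [MeasurableSpace E₁] [BorelSpace E₁] [MeasurableSpace E₂] [BorelSpace E₂]
  [MeasurableSpace E] [BorelSpace E] [MeasurableSpace B] [BorelSpace B]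
  [MeasurableSpace F] [BorelSpace F] [MeasurableSpace M] [BorelSpace M]
  [CompactSpace M] [T2Space M] [CompactSpace B] [T2Space B] [CompactSpace F] [T2Space F]

/-- The theorem of Fubini for functions with small support. -/
theorem fub_loc (hd : finrank ℝ E = finrank ℝ E₁ + finrank ℝ E₂) {pr : M → B} {g : Met E M}
    {gB : Met E₁ B} (hpr : Submersion E E₁ pr) (hv : HorVol E₂ g gB pr) {μM : Measure M}
    {μB : Measure B}
    (hM : IsRVol g μM) (hB : IsRVol gB μB) {U : Set B} {Φ : B × F → M}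
    (hΦ : Triv E E₁ E₂ pr U Φ) {x₀ : B} (hx₀ : x₀ ∈ U) {y₀ : F} {h : B → Met E₂ F}
    (hh : ∀ x ∈ U, IsFib g Φ x (h x)) {ν : B → Measure F}
    (hν : ∀ x ∈ U, IsRVol (h x) (ν x)) {K : M → ℝ} (hK : Continuous K)
    (hs : tsupport K ⊆ Φ '' ((U ∩ (extChartAt 𝓘(ℝ, E₁) x₀).source) ×ˢ
      (extChartAt 𝓘(ℝ, E₂) y₀).source)) :
    ∫ p, K p ∂μM = ∫ x, U.indicator (fun x => ∫ y, K (Φ (x, y)) ∂ν x) x ∂μB := by
  classical
  obtain ⟨W, hWdef⟩ : ∃ W : Set (E₁ × E₂), W = {q : E₁ × E₂ | PsiAux.Good x₀ y₀ U q} := ⟨_, rfl⟩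
  have hWo : IsOpen W := by rw [hWdef]; exact FubAux.isOpen_good x₀ y₀ hΦ.isOpen
  have hAC : ∀ q ∈ W, Fib.AC E pr (psi E₁ E₂ Φ x₀ y₀) q x₀ := by
    intro q hq
    rw [hWdef] at hq
    exact FubAux.ac_good hΦ hq
  have hinj : InjOn (psi E₁ E₂ Φ x₀ y₀) W := by rw [hWdef]; exact FubAux.inj_good hΦ x₀ y₀
  have hsW : tsupport K ⊆ psi E₁ E₂ Φ x₀ y₀ '' W := by
    intro p hp
    obtain ⟨⟨x, y⟩, ⟨⟨hxU, hxs⟩, hys⟩, rfl⟩ := hs hp
    refine ⟨(extChartAt 𝓘(ℝ, E₁) x₀ x, extChartAt 𝓘(ℝ, E₂) y₀ y), ?_, ?_⟩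
    · rw [hWdef]
      refine ⟨(extChartAt 𝓘(ℝ, E₁) x₀).map_source hxs, ?_, (extChartAt 𝓘(ℝ, E₂) y₀).map_source hys⟩
      rw [(extChartAt 𝓘(ℝ, E₁) x₀).left_inv hxs]
      exact hxU
    · unfold psi
      rw [(extChartAt 𝓘(ℝ, E₁) x₀).left_inv hxs, (extChartAt 𝓘(ℝ, E₂) y₀).left_inv hys]
  -- the function on the product
  obtain ⟨f, hf⟩ : ∃ f : E₁ × E₂ → ℝ, f = W.indicator (fun q => K (psi E₁ E₂ Φ x₀ y₀ q) *
      (√ (hm g (psi E₁ E₂ Φ x₀ y₀) q).det * √ (Fib.fm g (psi E₁ E₂ Φ x₀ y₀) q).det)) := ⟨_, rfl⟩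
  have hfi : Integrable f ((finBasis ℝ E₁).addHaar.prod (finBasis ℝ E₂).addHaar) := by
    rw [hf, integrable_indicator_iff hWo.measurableSet]
    exact FubAux.int_all hM hWo hAC hinj hK hsW
  have h1 : ∫ p, K p ∂μM = ∫ q, f q ∂((finBasis ℝ E₁).addHaar.prod (finBasis ℝ E₂).addHaar) := by
    rw [int_adapted hM hWo hAC hinj hK hsW, hf, integral_indicator hWo.measurableSet]
  rw [h1, integral_prod f hfi]
  -- the inner integral
  obtain ⟨H, hH⟩ : ∃ H : B → ℝ, H = U.indicator (fun x => ∫ y, K (Φ (x, y)) ∂ν x) := ⟨_, rfl⟩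
  have hinner : ∀ a : E₁, ∫ b, f (a, b) ∂(finBasis ℝ E₂).addHaar =
      (extChartAt 𝓘(ℝ, E₁) x₀).target.indicator (fun a => H ((extChartAt 𝓘(ℝ, E₁) x₀).symm a) *
        √ (coeff gB x₀ a).det) a := by
    intro a
    by_cases ha : a ∈ (extChartAt 𝓘(ℝ, E₁) x₀).target
    · rw [indicator_of_mem ha, hH]
      by_cases haU : (extChartAt 𝓘(ℝ, E₁) x₀).symm a ∈ U
      · rw [indicator_of_mem haU]
        set x := (extChartAt 𝓘(ℝ, E₁) x₀).symm a with hx
        have hcont : Continuous (fun y => K (Φ (x, y))) := hK.comp (FubAux.phi_continuous hΦ haU)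
        have hsupp : tsupport (fun y => K (Φ (x, y))) ⊆ (extChartAt 𝓘(ℝ, E₂) y₀).source := by
          have hcl : IsClosed {y | Φ (x, y) ∈ tsupport K} :=
            (isClosed_tsupport K).preimage (FubAux.phi_continuous hΦ haU)
          have hsub : tsupport (fun y => K (Φ (x, y))) ⊆ {y | Φ (x, y) ∈ tsupport K} := by
            apply closure_minimal _ hcl
            intro y hy
            exact subset_tsupport K hy
          intro y hy
          obtain ⟨⟨x', y'⟩, ⟨⟨hx'U, -⟩, hy's⟩, he⟩ := hs (hsub hy)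
          have e1 : x' = x := by
            have e2 := hΦ.proj x haU y
            have e3 := hΦ.proj x' hx'U y'
            rw [← e2, ← he, e3]
          rw [e1] at he
          rw [← hΦ.inj x haU _ _ he]
          exact hy's
        rw [(hν x haU).chart y₀ _ hcont hsupp, ← integral_mul_const, ← integral_indicator
          (isOpen_extChartAt_target (I := 𝓘(ℝ, E₂)) y₀).measurableSet]
        refine integral_congr_ae (Eventually.of_forall fun b => ?_)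
        beta_reduce
        by_cases hb : b ∈ (extChartAt 𝓘(ℝ, E₂) y₀).target
        · have hg : PsiAux.Good x₀ y₀ U ((a, b) : E₁ × E₂) := ⟨ha, haU, hb⟩
          have hmem : ((a, b) : E₁ × E₂) ∈ W := by rw [hWdef]; exact hg
          rw [hf, indicator_of_mem hmem, indicator_of_mem hb, hv _ _ _ (hAC _ hmem),
            FubAux.fm_good hΦ hg (hh x haU)]
          have e4 : psi E₁ E₂ Φ x₀ y₀ (a, b) = Φ (x, (extChartAt 𝓘(ℝ, E₂) y₀).symm b) := rfl
          rw [e4]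
          ring
        · have hmem : ((a, b) : E₁ × E₂) ∉ W := by
            rw [hWdef]
            intro hg
            exact hb hg.2.2
          rw [hf, indicator_of_notMem hmem, indicator_of_notMem hb]
      · rw [indicator_of_notMem haU, zero_mul]
        have : ∀ b, f (a, b) = 0 := by
          intro b
          have hmem : ((a, b) : E₁ × E₂) ∉ W := by
            rw [hWdef]
            intro hg
            exact haU hg.2.1
          rw [hf, indicator_of_notMem hmem]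
        simp only [this, integral_zero]
    · rw [indicator_of_notMem ha]
      have : ∀ b, f (a, b) = 0 := by
        intro b
        have hmem : ((a, b) : E₁ × E₂) ∉ W := by
          rw [hWdef]
          intro hg
          exact ha hg.1
        rw [hf, indicator_of_notMem hmem]
      simp only [this, integral_zero]
  simp only [hinner]
  rw [integral_indicator (isOpen_extChartAt_target (I := 𝓘(ℝ, E₁)) x₀).measurableSet, ← hH]
  -- the outer integral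
  have hprc : Continuous pr := hpr.1.continuous
  have hcomp : IsCompact (pr '' tsupport K) := (isClosed_tsupport K).isCompact.image hprc
  have hprU : pr '' tsupport K ⊆ U ∩ (extChartAt 𝓘(ℝ, E₁) x₀).source := by
    rintro _ ⟨p, hp, rfl⟩
    obtain ⟨⟨x, y⟩, ⟨⟨hxU, hxs⟩, -⟩, rfl⟩ := hs hp
    rw [hΦ.proj x hxU y]
    exact ⟨hxU, hxs⟩
  have hH0 : ∀ x, x ∉ pr '' tsupport K → H x = 0 := by
    intro x hx
    rw [hH]
    by_cases hxU : x ∈ U
    · rw [indicator_of_mem hxU]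
      have : ∀ y, K (Φ (x, y)) = 0 := by
        intro y
        by_contra hne
        apply hx
        exact ⟨Φ (x, y), subset_tsupport K hne, hΦ.proj x hxU y⟩
      simp only [this, integral_zero]
    · rw [indicator_of_notMem hxU]
  have hHc : Continuous H := by
    rw [continuous_iff_continuousAt]
    intro x
    by_cases hxU : x ∈ U
    · have e1 : ContinuousAt (fun x => ∫ y, K (Φ (x, y)) ∂ν x) x :=
        (FubAux.cont_fib hΦ hx₀ hh hν hK).continuousAt (hΦ.isOpen.mem_nhds hxU)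
      refine e1.congr ?_
      filter_upwards [hΦ.isOpen.mem_nhds hxU] with x' hx'
      rw [hH, indicator_of_mem hx']
    · have e1 : x ∉ pr '' tsupport K := fun hcon => hxU (hprU hcon).1
      have e2 : H =ᶠ[𝓝 x] fun _ => 0 := by
        filter_upwards [hcomp.isClosed.isOpen_compl.mem_nhds e1] with x' hx'
        exact hH0 x' hx'
      exact continuousAt_const.congr e2.symm
  have hHs : tsupport H ⊆ (extChartAt 𝓘(ℝ, E₁) x₀).source := by
    have e1 : tsupport H ⊆ pr '' tsupport K := by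
      apply closure_minimal _ hcomp.isClosed
      intro x hx
      by_contra hcon
      exact hx (hH0 x hcon)
    exact e1.trans (hprU.trans inter_subset_right)
  rw [hB.chart x₀ H hHc hHs]

end Pool.Agent.Lib.MP_df705a_gt.Coll
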