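import Pool.Agent.Lib.MP_df705a_gt.Coll.Defs

/-!
# The Lie derivative of a metric along a combination of gradients
-/

open scoped Manifold ContDiff Topology
open Set Bundle Module Filter MeasureTheory

noncomputable section

namespace Pool.Agent.Lib.MP_df705a_gt.Coll

open Pool.Agent.Lib.MP_df705a_gt.Twist Pool.Agent.Lib.MP_df705a_gt.Perm
open Pool.Agent.Lib.MP_df705a_gt.Circ (Horizontal Submersion cf Para HorConf)
open Pool.Agent.Lib.MP_df705a_gt.Fib (RiemSub Biconformal)


variable {E : Type*} [NormedAddCommGroup E] [NormedSpace ℝ E] [FiniteDimensional ℝ E]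

theorem LieGrad.two_le : (2 : WithTop ℕ∞) ≤ ∞ :=
  (WithTop.coe_le_coe.2 (le_top : (2 : ℕ∞) ≤ ⊤) :
    ((2 : ℕ∞) : WithTop ℕ∞) ≤ ((⊤ : ℕ∞) : WithTop ℕ∞))

theorem lie_grad {h : Curv.Coeff E} {x : E}
    (hh : ∀ i j, ContDiffAt ℝ ∞ (fun y => h y i j) x) (hp : ∀ᶠ y in 𝓝 x, (h y).PosDef)
    {κ : Type} [Fintype κ] {a b : κ → E → ℝ} (ha : ∀ j, ContDiffAt ℝ ∞ (a j) x)
    (hb : ∀ j, ContDiffAt ℝ ∞ (b j) x) {ζ : E → E}
    (hζ : ∀ᶠ y in 𝓝 x, ζ y = ∑ j, a j y • gradM (finBasis ℝ E) (h y) (fderiv ℝ (b j) y))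
    (i j : Fin (finrank ℝ E)) :
    fderiv ℝ (fun y => h y i j) x (ζ x) +
      (∑ k, h x k j * (finBasis ℝ E).repr (fderiv ℝ ζ x (finBasis ℝ E i)) k +
        ∑ k, h x i k * (finBasis ℝ E).repr (fderiv ℝ ζ x (finBasis ℝ E j)) k) =
      ∑ l, (2 * a l x * Curv.covHess h (b l) x i j +
        (Curv.pd i (a l) x * Curv.pd j (b l) x + Curv.pd j (a l) x * Curv.pd i (b l) x)) := by
  classical
  have hpx : (h x).PosDef := hp.self_of_nhds
  have hdet : (h x).det ≠ 0 := hpx.det_pos.ne'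
  have hsymm : ∀ y, (h y).PosDef → ∀ i j, h y i j = h y j i := by
    intro y hy i j
    have h2 := congrFun (congrFun hy.isHermitian j) i
    rw [Matrix.conjTranspose_apply, star_trivial] at h2
    exact h2
  have hh1 : ∀ i j, ContDiffAt ℝ 1 (fun y => h y i j) x := fun i j => (hh i j).of_le (by norm_num)
  have hhd : ∀ i j, DifferentiableAt ℝ (fun y => h y i j) x := fun i j =>
    (hh1 i j).differentiableAt one_ne_zero
  have hid : ∀ i j, DifferentiableAt ℝ (fun y => (h y)⁻¹ i j) x := fun i j =>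
    (contDiffAt_inv hh1 hdet i j).differentiableAt one_ne_zero
  have had : ∀ l, DifferentiableAt ℝ (a l) x := fun l => (ha l).differentiableAt (by norm_num)
  have hbd : ∀ l j, DifferentiableAt ℝ (fun y => fderiv ℝ (b l) y (finBasis ℝ E j)) x := fun l j =>
    (((hb l).fderiv_right (m := ∞) (by simp)).clm_apply contDiffAt_const).differentiableAt
      (by norm_num)
  set r : κ → Fin (finrank ℝ E) → E → ℝ := fun l k y =>
    ∑ q, (h y)⁻¹ k q * fderiv ℝ (b l) y (finBasis ℝ E q) with hr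
  have hrd : ∀ l k, DifferentiableAt ℝ (r l k) x := fun l k =>
    DifferentiableAt.fun_sum fun q _ => (hid k q).mul (hbd l q)
  have hζ' : ζ =ᶠ[𝓝 x] fun y => ∑ k, (∑ l, a l y * r l k y) • finBasis ℝ E k := by
    filter_upwards [hζ] with y hy
    rw [hy]
    simp only [gradM, Finset.smul_sum, smul_smul, hr]
    rw [Finset.sum_comm]
    refine Finset.sum_congr rfl fun k _ => ?_
    rw [Finset.sum_smul]
  have hZ : ∀ k, HasFDerivAt (fun y => ∑ l, a l y * r l k y)
      (∑ l, (a l x • fderiv ℝ (r l k) x + r l k x • fderiv ℝ (a l) x)) x := fun k =>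
    HasFDerivAt.fun_sum fun l _ => (had l).hasFDerivAt.mul (hrd l k).hasFDerivAt
  have hζd : HasFDerivAt ζ (∑ k, (∑ l, (a l x • fderiv ℝ (r l k) x +
      r l k x • fderiv ℝ (a l) x)).smulRight (finBasis ℝ E k)) x :=
    (HasFDerivAt.fun_sum fun k _ => (hZ k).smul_const (finBasis ℝ E k)).congr_of_eventuallyEq hζ'
  have hcoord : ∀ (c : Fin (finrank ℝ E) → ℝ) k,
      (finBasis ℝ E).repr (∑ k, c k • finBasis ℝ E k) k = c k := by
    intro c k
    rw [Basis.repr_sum_self]
  have hrep : ∀ v k, (finBasis ℝ E).repr (fderiv ℝ ζ x v) k =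
      ∑ l, (a l x * fderiv ℝ (r l k) x v + r l k x * fderiv ℝ (a l) x v) := by
    intro v k
    rw [hζd.fderiv]
    have e1 : (∑ k, (∑ l, (a l x • fderiv ℝ (r l k) x +
      r l k x • fderiv ℝ (a l) x)).smulRight (finBasis ℝ E k)) v =
        ∑ k, (∑ l, (a l x * fderiv ℝ (r l k) x v + r l k x * fderiv ℝ (a l) x v)) •
          finBasis ℝ E k := by
      simp only [sum_apply, ContinuousLinearMap.smulRight_apply, add_apply, smul_apply,
        smul_eq_mul]
    rw [e1, hcoord]
  have hζx : ζ x = ∑ k, (∑ l, a l x * r l k x) • finBasis ℝ E k := hζ'.self_of_nhds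
  have hrel : ∀ l j, (fun y => ∑ k, h y j k * r l k y) =ᶠ[𝓝 x]
      fun y => fderiv ℝ (b l) y (finBasis ℝ E j) := by
    intro l j
    filter_upwards [hp] with y hy
    have hdy : IsUnit (h y).det := hy.det_pos.ne'.isUnit
    have e1 : ∑ k, h y j k * r l k y =
        ∑ q, (∑ k, h y j k * (h y)⁻¹ k q) * fderiv ℝ (b l) y (finBasis ℝ E q) := by
      simp only [hr, Finset.mul_sum, Finset.sum_mul]
      rw [Finset.sum_comm]
      refine Finset.sum_congr rfl fun q _ => Finset.sum_congr rfl fun k _ => ?_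
      ring
    rw [e1]
    have e2 : ∀ q, ∑ k, h y j k * (h y)⁻¹ k q = (1 : Matrix _ _ ℝ) j q := by
      intro q
      rw [← Matrix.mul_apply, Matrix.mul_nonsing_inv _ hdy]
    simp only [e2, Matrix.one_apply, ite_mul, one_mul, zero_mul]
    rw [Finset.sum_ite_eq, if_pos (Finset.mem_univ j)]
  have F2 : ∀ l j, ∑ k, h x j k * r l k x = fderiv ℝ (b l) x (finBasis ℝ E j) := fun l j =>
    (hrel l j).self_of_nhds
  have F1 : ∀ l j v, ∑ k, (h x j k * fderiv ℝ (r l k) x v +
      r l k x * fderiv ℝ (fun y => h y j k) x v) =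
      fderiv ℝ (fun y => fderiv ℝ (b l) y (finBasis ℝ E j)) x v := by
    intro l j v
    have e1 : HasFDerivAt (fun y => ∑ k, h y j k * r l k y)
        (∑ k, (h x j k • fderiv ℝ (r l k) x + r l k x • fderiv ℝ (fun y => h y j k) x)) x :=
      HasFDerivAt.fun_sum fun k _ => (hhd j k).hasFDerivAt.mul (hrd l k).hasFDerivAt
    have e2 := e1.fderiv
    rw [(hrel l j).fderiv_eq] at e2
    rw [e2]
    simp only [sum_apply, add_apply, smul_apply, smul_eq_mul]
  have F4 : ∀ l, fderiv ℝ (fun y => fderiv ℝ (b l) y (finBasis ℝ E j)) x (finBasis ℝ E i) =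
      fderiv ℝ (fun y => fderiv ℝ (b l) y (finBasis ℝ E i)) x (finBasis ℝ E j) := by
    intro l
    have hd : DifferentiableAt ℝ (fderiv ℝ (b l)) x :=
      ((hb l).fderiv_right (m := ∞) (by simp)).differentiableAt (by norm_num)
    have e1 : ∀ u v : E, fderiv ℝ (fun y => fderiv ℝ (b l) y u) x v =
        fderiv ℝ (fderiv ℝ (b l)) x v u := by
      intro u v
      have e2 := hd.hasFDerivAt.clm_apply (hasFDerivAt_const u x)
      rw [e2.fderiv]
      simp
    rw [e1, e1]
    exact (((hb l).of_le LieGrad.two_le).isSymmSndFDerivAt (by simp)).eq _ _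
  have F5 : ∀ i j v, fderiv ℝ (fun y => h y i j) x v = fderiv ℝ (fun y => h y j i) x v := by
    intro i j v
    have e1 : (fun y => h y i j) =ᶠ[𝓝 x] fun y => h y j i := by
      filter_upwards [hp] with y hy
      exact hsymm y hy i j
    rw [e1.fderiv_eq]
  have t1 : fderiv ℝ (fun y => h y i j) x (ζ x) =
      ∑ l, a l x * ∑ k, r l k x * fderiv ℝ (fun y => h y i j) x (finBasis ℝ E k) := by
    rw [hζx, map_sum]
    simp only [map_smul, smul_eq_mul, Finset.sum_mul, Finset.mul_sum]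
    rw [Finset.sum_comm]
    refine Finset.sum_congr rfl fun l _ => Finset.sum_congr rfl fun k _ => ?_
    ring
  have t2 : ∀ m n : Fin (finrank ℝ E), ∑ k, h x m k * (finBasis ℝ E).repr (fderiv ℝ ζ x (finBasis ℝ E n)) k =
      ∑ l, (a l x * (fderiv ℝ (fun y => fderiv ℝ (b l) y (finBasis ℝ E m)) x (finBasis ℝ E n) -
        ∑ k, r l k x * fderiv ℝ (fun y => h y m k) x (finBasis ℝ E n)) +
        fderiv ℝ (a l) x (finBasis ℝ E n) * fderiv ℝ (b l) x (finBasis ℝ E m)) := by
    intro m n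
    have e1 : ∀ l, a l x * (fderiv ℝ (fun y => fderiv ℝ (b l) y (finBasis ℝ E m)) x
        (finBasis ℝ E n) - ∑ k, r l k x * fderiv ℝ (fun y => h y m k) x (finBasis ℝ E n)) +
        fderiv ℝ (a l) x (finBasis ℝ E n) * fderiv ℝ (b l) x (finBasis ℝ E m) =
        ∑ k, h x m k * (a l x * fderiv ℝ (r l k) x (finBasis ℝ E n) +
          r l k x * fderiv ℝ (a l) x (finBasis ℝ E n)) := by
      intro l
      rw [← F1 l m (finBasis ℝ E n), ← F2 l m, ← Finset.sum_sub_distrib, Finset.mul_sum,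
        Finset.mul_sum, ← Finset.sum_add_distrib]
      refine Finset.sum_congr rfl fun k _ => ?_
      ring
    simp only [e1, hrep, Finset.mul_sum]
    rw [Finset.sum_comm]
  have t3 : ∑ k, h x k j * (finBasis ℝ E).repr (fderiv ℝ ζ x (finBasis ℝ E i)) k =
      ∑ k, h x j k * (finBasis ℝ E).repr (fderiv ℝ ζ x (finBasis ℝ E i)) k :=
    Finset.sum_congr rfl fun k _ => by rw [hsymm x hpx k j]
  rw [t3, t2, t2, t1, ← Finset.sum_add_distrib, ← Finset.sum_add_distrib]
  refine Finset.sum_congr rfl fun l _ => ?_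
  have hcov : Curv.covHess h (b l) x i j =
      fderiv ℝ (fun y => fderiv ℝ (b l) y (finBasis ℝ E j)) x (finBasis ℝ E i) -
        ∑ p, Curv.christoffel h i j p x * r l p x := by
    unfold Curv.covHess
    have e1 : ∀ p, ∑ q, (h x)⁻¹ p q * Curv.christoffel h i j p x * Curv.pd q (b l) x =
        Curv.christoffel h i j p x * r l p x := by
      intro p
      simp only [hr, Finset.mul_sum]
      refine Finset.sum_congr rfl fun q _ => ?_
      unfold Curv.pd
      ring
    simp only [e1]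
    rfl
  have hch : 2 * ∑ p, Curv.christoffel h i j p x * r l p x =
      ∑ k, r l k x * fderiv ℝ (fun y => h y j k) x (finBasis ℝ E i) +
      ∑ k, r l k x * fderiv ℝ (fun y => h y i k) x (finBasis ℝ E j) -
      ∑ k, r l k x * fderiv ℝ (fun y => h y i j) x (finBasis ℝ E k) := by
    rw [Finset.mul_sum, ← Finset.sum_add_distrib, ← Finset.sum_sub_distrib]
    refine Finset.sum_congr rfl fun k _ => ?_
    unfold Curv.christoffel Curv.pd
    ring
  rw [hcov, ← F4 l]
  unfold Curv.pd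
  linear_combination (a l x) * hch

end Pool.Agent.Lib.MP_df705a_gt.Coll
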