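import Pool.Agent.Lib.MP_df705a_gt.Coll.X.BlockScal

/-!
# The formula of O'Neill in normal form
-/

open scoped Manifold ContDiff Topology
open Set Bundle Module Filter MeasureTheory

noncomputable section

set_option linter.unusedSectionVars false

namespace Pool.Agent.Lib.MP_df705a_gt.Coll

open Pool.Agent.Lib.MP_df705a_gt.Twist Pool.Agent.Lib.MP_df705a_gt.Perm
open Pool.Agent.Lib.MP_df705a_gt.Circ (Horizontal Submersion cf Para HorConf)
open Pool.Agent.Lib.MP_df705a_gt.Fib (RiemSub Biconformal)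


open Pool.Agent.Lib.MP_df705a_gt.Sub (mB connMetric expn lift Dat)
open Pool.Agent.Lib.MP_df705a_gt.Fib (conn₀ NF AC fm gam)
open Pool.Agent.Lib.MP_df705a_gt.Fib (trG)

namespace OneillNFAux

open Pool.Agent.Lib.MP_df705a_gt.Twist.Alg (differentiableAt_fderiv slice1_contDiffAt
  slice1_fderiv slice1_fderiv2)

section linear

variable {E : Type*} [NormedAddCommGroup E] [NormedSpace ℝ E] [FiniteDimensional ℝ E]
  {h : Curv.Coeff E} {x : E}

theorem gradC_eq (h : Curv.Coeff E) (W F : E → ℝ) (x : E) :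
    gradC h W F x = fderiv ℝ W x (gradM (finBasis ℝ E) (h x) (fderiv ℝ F x)) := by
  unfold gradC gradM Curv.pd
  simp only [map_sum, map_smul, smul_eq_mul, Finset.sum_mul]
  refine Finset.sum_congr rfl fun i _ => Finset.sum_congr rfl fun j _ => ?_
  ring

theorem coords {ι : Type} [Fintype ι] {F : ι → E → ℝ} (hs : (h x).PosDef)
    (hsq : ∀ W : E → ℝ, ContDiffAt ℝ ∞ W x →
      ∑ i, gradC h W (F i) x ^ 2 = gradC h W W x)
    {v : ι → E} (hv : ∀ i, v i = gradM (finBasis ℝ E) (h x) (fderiv ℝ (F i) x))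
    (ξ η : E →L[ℝ] ℝ) :
    ∑ i, ξ (v i) * η (v i) =
      ∑ a, ∑ b, (h x)⁻¹ a b * (ξ (finBasis ℝ E a) * η (finBasis ℝ E b)) := by
  have hsymm : ∀ i j, (h x)⁻¹ i j = (h x)⁻¹ j i := fun i j => posDef_symm hs.inv i j
  have h1 : ∀ ζ : E →L[ℝ] ℝ, ∑ i, ζ (v i) ^ 2 =
      ∑ a, ∑ b, (h x)⁻¹ a b * (ζ (finBasis ℝ E a) * ζ (finBasis ℝ E b)) := by
    intro ζ
    have e1 := hsq ζ ζ.contDiff.contDiffAt
    have e2 : ∀ i, gradC h ζ (F i) x = ζ (v i) := by
      intro i
      rw [gradC_eq, ← hv i, ContinuousLinearMap.fderiv]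
    simp only [e2] at e1
    rw [e1]
    unfold gradC Curv.pd
    rw [ContinuousLinearMap.fderiv]
  have h2 := h1 (ξ + η)
  have h3 := h1 ξ
  have h4 := h1 η
  have h5 : ∑ a, ∑ b, (h x)⁻¹ a b * (η (finBasis ℝ E a) * ξ (finBasis ℝ E b)) =
      ∑ a, ∑ b, (h x)⁻¹ a b * (ξ (finBasis ℝ E a) * η (finBasis ℝ E b)) := by
    rw [Finset.sum_comm]
    refine Finset.sum_congr rfl fun a _ => Finset.sum_congr rfl fun b _ => ?_
    rw [hsymm b a]
    ring
  have h6 : ∑ i, (ξ + η) (v i) ^ 2 = ∑ i, ξ (v i) ^ 2 + ∑ i, η (v i) ^ 2 +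
      2 * ∑ i, ξ (v i) * η (v i) := by
    rw [Finset.mul_sum, ← Finset.sum_add_distrib, ← Finset.sum_add_distrib]
    refine Finset.sum_congr rfl fun i _ => ?_
    rw [_root_.add_apply]
    ring
  have h7 : ∑ a, ∑ b, (h x)⁻¹ a b *
      ((ξ + η) (finBasis ℝ E a) * (ξ + η) (finBasis ℝ E b)) =
      ∑ a, ∑ b, (h x)⁻¹ a b * (ξ (finBasis ℝ E a) * ξ (finBasis ℝ E b)) +
      ∑ a, ∑ b, (h x)⁻¹ a b * (η (finBasis ℝ E a) * η (finBasis ℝ E b)) +
      (∑ a, ∑ b, (h x)⁻¹ a b * (ξ (finBasis ℝ E a) * η (finBasis ℝ E b)) +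
      ∑ a, ∑ b, (h x)⁻¹ a b * (η (finBasis ℝ E a) * ξ (finBasis ℝ E b))) := by
    simp only [← Finset.sum_add_distrib]
    refine Finset.sum_congr rfl fun a _ => Finset.sum_congr rfl fun b _ => ?_
    rw [_root_.add_apply, _root_.add_apply]
    ring
  rw [h6, h7, h5, h3, h4] at h2
  linarith

/-- The trace of a bilinear form. -/
theorem trace_bil {ι : Type} [Fintype ι] {F : ι → E → ℝ} (hs : (h x).PosDef)
    (hsq : ∀ W : E → ℝ, ContDiffAt ℝ ∞ W x →
      ∑ i, gradC h W (F i) x ^ 2 = gradC h W W x)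
    {v : ι → E} (hv : ∀ i, v i = gradM (finBasis ℝ E) (h x) (fderiv ℝ (F i) x))
    (T : E →ₗ[ℝ] E →ₗ[ℝ] ℝ) :
    ∑ i, T (v i) (v i) = ∑ a, ∑ b, (h x)⁻¹ a b * T (finBasis ℝ E a) (finBasis ℝ E b) := by
  have h1 : ∀ a b, ∑ i, cd a (v i) * cd b (v i) = (h x)⁻¹ a b := by
    intro a b
    rw [coords hs hsq hv]
    rw [Finset.sum_eq_single a, Finset.sum_eq_single b]
    · simp [cd_apply]
    · intro b' _ hb'
      simp [cd_apply, hb']
    · intro hb
      exact absurd (Finset.mem_univ b) hb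
    · intro a' _ ha'
      refine Finset.sum_eq_zero fun j _ => ?_
      simp [cd_apply, Finsupp.single_apply, ha']
    · intro ha
      exact absurd (Finset.mem_univ a) ha
  have h2 : ∀ w : E, T w w = ∑ a, ∑ b, (cd a w * cd b w) *
      T (finBasis ℝ E a) (finBasis ℝ E b) := by
    intro w
    have e1 : w = ∑ a, cd a w • finBasis ℝ E a := by
      conv_lhs => rw [← (finBasis ℝ E).sum_repr w]
      refine Finset.sum_congr rfl fun a _ => ?_
      rw [cd_apply]
    conv_lhs => rw [e1]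
    simp only [map_sum, map_smul, LinearMap.sum_apply, LinearMap.smul_apply, smul_eq_mul,
      Finset.mul_sum]
    rw [Finset.sum_comm]
    refine Finset.sum_congr rfl fun a _ => Finset.sum_congr rfl fun b _ => ?_
    ring
  simp only [h2]
  rw [Finset.sum_comm]
  refine Finset.sum_congr rfl fun a _ => ?_
  rw [Finset.sum_comm]
  refine Finset.sum_congr rfl fun b _ => ?_
  rw [← Finset.sum_mul, h1]

end linear

section ipM

variable {n : ℕ} {A : Matrix (Fin n) (Fin n) ℝ}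

theorem ipM_add_left (S S' T : Matrix (Fin n) (Fin n) ℝ) :
    ipM A (fun i j => S i j + S' i j) T = ipM A S T + ipM A S' T := by
  unfold ipM
  simp only [← Finset.sum_add_distrib]
  refine Finset.sum_congr rfl fun i _ => Finset.sum_congr rfl fun j _ =>
    Finset.sum_congr rfl fun r _ => Finset.sum_congr rfl fun s _ => ?_
  ring

theorem ipM_smul_left (c : ℝ) (S T : Matrix (Fin n) (Fin n) ℝ) :
    ipM A (fun i j => c * S i j) T = c * ipM A S T := by
  unfold ipM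
  simp only [Finset.mul_sum]
  refine Finset.sum_congr rfl fun i _ => Finset.sum_congr rfl fun j _ =>
    Finset.sum_congr rfl fun r _ => Finset.sum_congr rfl fun s _ => ?_
  ring

theorem ipM_add_right (S T T' : Matrix (Fin n) (Fin n) ℝ) :
    ipM A S (fun i j => T i j + T' i j) = ipM A S T + ipM A S T' := by
  unfold ipM
  simp only [← Finset.sum_add_distrib]
  refine Finset.sum_congr rfl fun i _ => Finset.sum_congr rfl fun j _ =>
    Finset.sum_congr rfl fun r _ => Finset.sum_congr rfl fun s _ => ?_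
  ring

theorem ipM_smul_right (c : ℝ) (S T : Matrix (Fin n) (Fin n) ℝ) :
    ipM A S (fun i j => c * T i j) = c * ipM A S T := by
  unfold ipM
  simp only [Finset.mul_sum]
  refine Finset.sum_congr rfl fun i _ => Finset.sum_congr rfl fun j _ =>
    Finset.sum_congr rfl fun r _ => Finset.sum_congr rfl fun s _ => ?_
  ring

/-- The bilinear form `ipM`. -/
def ipL {E : Type*} [AddCommGroup E] [Module ℝ E] (A : Matrix (Fin n) (Fin n) ℝ)
    (L : Fin n → Fin n → E →ₗ[ℝ] ℝ) : E →ₗ[ℝ] E →ₗ[ℝ] ℝ :=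
  LinearMap.mk₂ ℝ (fun u v => ipM A (fun i j => L i j u) (fun i j => L i j v))
    (fun u u' v => by
      simp only [map_add]
      exact ipM_add_left _ _ _)
    (fun c u v => by
      simp only [map_smul, smul_eq_mul]
      exact ipM_smul_left _ _ _)
    (fun u v v' => by
      simp only [map_add]
      exact ipM_add_right _ _ _)
    (fun c u v => by
      simp only [map_smul, smul_eq_mul]
      exact ipM_smul_right _ _ _)

theorem ipL_apply {E : Type*} [AddCommGroup E] [Module ℝ E] (L : Fin n → Fin n → E →ₗ[ℝ] ℝ)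
    (u v : E) : ipL A L u v = ipM A (fun i j => L i j u) (fun i j => L i j v) := rfl

end ipM

variable {E₁ : Type*} [NormedAddCommGroup E₁] [NormedSpace ℝ E₁] [FiniteDimensional ℝ E₁]
  {E₂ : Type*} [NormedAddCommGroup E₂] [NormedSpace ℝ E₂] [FiniteDimensional ℝ E₂]
  {h : Curv.Coeff E₁} {f : E₁ × E₂ → Matrix (Fin (finrank ℝ E₂)) (Fin (finrank ℝ E₂)) ℝ}
  {Γ : E₁ × E₂ → E₁ →L[ℝ] E₂} {q : E₁ × E₂}

theorem dv_eq {p : E₁ × E₂} (hp : DifferentiableAt ℝ Γ p) (u : E₁) :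
    dv (fun y => Γ (p.1, y) u) p.2 = ∑ k, cd k (fderiv ℝ Γ p (0, finBasis ℝ E₂ k) u) := by
  have h2 : HasFDerivAt (fun y : E₂ => Γ (p.1, y) u)
      (((fderiv ℝ Γ p).comp (ContinuousLinearMap.inr ℝ E₁ E₂)).flip u) p.2 := by
    have h3 : HasFDerivAt (fun y : E₂ => (p.1, y)) (ContinuousLinearMap.inr ℝ E₁ E₂) p.2 :=
      hasFDerivAt_prodMk_right p.1 p.2
    have h4 : HasFDerivAt Γ (fderiv ℝ Γ p) (p.1, p.2) := hp.hasFDerivAt
    have h5 := (h4.comp p.2 h3).clm_apply (hasFDerivAt_const u p.2)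
    refine h5.congr_fderiv ?_
    ext y
    simp
  unfold dv
  rw [LinearMap.trace_eq_matrix_trace ℝ (Module.finBasis ℝ E₂), Matrix.trace]
  apply Finset.sum_congr rfl
  intro i _
  rw [Matrix.diag_apply, LinearMap.toMatrix_apply, h2.fderiv]
  rfl

theorem dN (hD : Dat h f Γ (fun _ => 0) (fun _ => 0) q) (hN : NF Γ q) {u : E₁ → E₁}
    (hu : DifferentiableAt ℝ u q.1) :
    fderiv ℝ (fun p => expn f Γ p (u p.1)) q (u q.1, 0) =
      (1 / 2) * (fderiv ℝ (fderiv ℝ fun p => Real.log (f p).det) q (u q.1, 0) (u q.1, 0) +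
        fderiv ℝ (fun p => Real.log (f p).det) q (fderiv ℝ u q.1 (u q.1), 0)) +
      ∑ k, (finBasis ℝ E₂).repr
        (fderiv ℝ (fderiv ℝ Γ) q (u q.1, 0) (0, finBasis ℝ E₂ k) (u q.1)) k := by
  set L : E₁ × E₂ → ℝ := fun p => Real.log (f p).det with hLdef
  have hL : ContDiffAt ℝ ∞ L q := Fib.F3.contDiffAt_logdet hD
  have hΓ := hD.Γ_smooth
  have e1 : (fun p => expn f Γ p (u p.1)) =ᶠ[𝓝 q] fun p =>
      (1 / 2) * fderiv ℝ L p (u p.1, Γ p (u p.1)) +
        ∑ k, cd k (fderiv ℝ Γ p (0, finBasis ℝ E₂ k) (u p.1)) := by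
    filter_upwards [Fib.F1.ev_diff hΓ] with p hp
    rw [← dv_eq hp]
    rfl
  have dL : HasFDerivAt (fderiv ℝ L) (fderiv ℝ (fderiv ℝ L) q) q :=
    (Fib.F1.diff_fderiv hL).hasFDerivAt
  have dΓ : HasFDerivAt Γ (fderiv ℝ Γ q) q := (Fib.F1.ev_diff hΓ).self_of_nhds.hasFDerivAt
  have ddΓ : HasFDerivAt (fderiv ℝ Γ) (fderiv ℝ (fderiv ℝ Γ) q) q :=
    (Fib.F1.diff_fderiv hΓ).hasFDerivAt
  have du : HasFDerivAt (fun p : E₁ × E₂ => u p.1)
      ((fderiv ℝ u q.1).comp (ContinuousLinearMap.fst ℝ E₁ E₂)) q :=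
    hu.hasFDerivAt.comp q hasFDerivAt_fst
  have h1 := dL.clm_apply (du.prodMk (dΓ.clm_apply du))
  have h2 : ∀ k : Fin (finrank ℝ E₂), HasFDerivAt
      (fun p => cd k (fderiv ℝ Γ p (0, finBasis ℝ E₂ k) (u p.1))) _ q := fun k =>
    (cd k).hasFDerivAt.comp q
      ((ddΓ.clm_apply (hasFDerivAt_const ((0 : E₁), finBasis ℝ E₂ k) q)).clm_apply du)
  have h3 := (h1.const_mul (1 / 2 : ℝ)).add
    (HasFDerivAt.fun_sum (u := Finset.univ) fun k _ => h2 k)
  have h4 : fderiv ℝ (fun p => (1 / 2) * fderiv ℝ L p (u p.1, Γ p (u p.1)) +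
        ∑ k, cd k (fderiv ℝ Γ p (0, finBasis ℝ E₂ k) (u p.1))) q = _ := h3.fderiv
  have hanti : fderiv ℝ Γ q (u q.1, 0) (u q.1) = 0 := by
    have e2 := hN.anti (u q.1) (u q.1)
    have e3 : (2 : ℝ) • fderiv ℝ Γ q (u q.1, 0) (u q.1) = 0 := by
      rw [two_smul]
      nth_rewrite 1 [e2]
      exact neg_add_cancel _
    exact (smul_eq_zero.mp e3).resolve_left two_ne_zero
  rw [e1.fderiv_eq, h4]
  simp only [_root_.add_apply, _root_.smul_apply, _root_.sum_apply, smul_eq_mul,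
    ContinuousLinearMap.comp_apply, ContinuousLinearMap.flip_apply,
    ContinuousLinearMap.prod_apply, ContinuousLinearMap.coe_fst', hN.zero,
    _root_.zero_apply, map_zero, zero_add, add_zero, hanti, hN.dy, cd_apply]
  ring

theorem half_d {L : E₁ × E₂ → ℝ} (hL : ContDiffAt ℝ ∞ L q) (u : E₁) :
    fderiv ℝ (fun x => (1 / 2) * L (x, q.2)) q.1 u = (1 / 2) * fderiv ℝ L q (u, 0) := by
  have e1 := lin_fderiv (slice1_contDiffAt hL) (slice1_contDiffAt hL) (1 / 2) 0 u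
  simp only [zero_mul, add_zero] at e1
  rw [e1, slice1_fderiv hL]

theorem half_dd {L : E₁ × E₂ → ℝ} (hL : ContDiffAt ℝ ∞ L q) (u v : E₁) :
    fderiv ℝ (fderiv ℝ fun x => (1 / 2) * L (x, q.2)) q.1 u v =
      (1 / 2) * fderiv ℝ (fderiv ℝ L) q (u, 0) (v, 0) := by
  have e1 := lin_fderiv2 (slice1_contDiffAt hL) (slice1_contDiffAt hL) (1 / 2) 0 u v
  simp only [zero_mul, add_zero] at e1
  rw [e1, slice1_fderiv2 hL]

theorem expn_q (hD : Dat h f Γ (fun _ => 0) (fun _ => 0) q) (hN : NF Γ q) (u : E₁) :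
    expn f Γ q u = fderiv ℝ (fun x => (1 / 2) * Real.log (f (x, q.2)).det) q.1 u := by
  have hL : ContDiffAt ℝ ∞ (fun p => Real.log (f p).det) q := Fib.F3.contDiffAt_logdet hD
  have e1 := half_d hL u
  refine Eq.trans ?_ e1.symm
  have e2 := dv_eq (Fib.F1.ev_diff hD.Γ_smooth).self_of_nhds u
  unfold expn Sub.hd lift
  rw [e2, hN.zero]
  simp only [hN.dy, _root_.zero_apply, map_zero, Finset.sum_const_zero, add_zero]

theorem grad2 (hh : ∀ i j, ContDiffAt ℝ ∞ (fun x => h x i j) q.1) (hdet : (h q.1).det ≠ 0)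
    {F : E₁ → ℝ} (hF : ContDiffAt ℝ ∞ F q.1) :
    DifferentiableAt ℝ (fun x => gradM (finBasis ℝ E₁) (h x) (fderiv ℝ F x)) q.1 := by
  have hdF : DifferentiableAt ℝ (fderiv ℝ F) q.1 := differentiableAt_fderiv hF
  unfold gradM
  refine DifferentiableAt.fun_sum fun a _ => ?_
  refine DifferentiableAt.smul_const ?_ _
  refine DifferentiableAt.fun_sum fun b _ => ?_
  exact ((contDiffAt_inv hh hdet a b).differentiableAt (by simp)).mul
    (hdF.clm_apply (differentiableAt_const _))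

theorem gg (hh : ∀ i j, ContDiffAt ℝ ∞ (fun x => h x i j) q.1) (hdet : (h q.1).det ≠ 0)
    {F W : E₁ → ℝ} (hF : ContDiffAt ℝ ∞ F q.1) (hW : ContDiffAt ℝ ∞ W q.1) {u : E₁ → E₁}
    (hu : u = fun x => gradM (finBasis ℝ E₁) (h x) (fderiv ℝ F x)) :
    gradC h (gradC h W F) F q.1 = fderiv ℝ (fderiv ℝ W) q.1 (u q.1) (u q.1) +
      fderiv ℝ W q.1 (fderiv ℝ u q.1 (u q.1)) := by
  have du : DifferentiableAt ℝ u q.1 := by
    rw [hu]
    exact grad2 hh hdet hF
  have e1 : gradC h W F = fun x => fderiv ℝ W x (u x) := by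
    funext x
    rw [gradC_eq, hu]
  have e2 : gradM (finBasis ℝ E₁) (h q.1) (fderiv ℝ F q.1) = u q.1 := by rw [hu]
  rw [gradC_eq, e1, e2]
  have e3 := (differentiableAt_fderiv hW).hasFDerivAt.clm_apply du.hasFDerivAt
  rw [e3.fderiv]
  simp only [_root_.add_apply, ContinuousLinearMap.comp_apply, ContinuousLinearMap.flip_apply]
  ring

/-- The bilinear form of the second derivatives of the connection. -/
def tG (Γ : E₁ × E₂ → E₁ →L[ℝ] E₂) (q : E₁ × E₂) : E₁ →ₗ[ℝ] E₁ →ₗ[ℝ] ℝ :=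
  LinearMap.mk₂ ℝ (fun u v => ∑ k, (finBasis ℝ E₂).repr
      (fderiv ℝ (fderiv ℝ Γ) q (u, 0) (0, finBasis ℝ E₂ k) v) k)
    (fun u u' v => by
      rw [← Finset.sum_add_distrib]
      refine Finset.sum_congr rfl fun k _ => ?_
      have e1 : ((u + u', 0) : E₁ × E₂) = (u, 0) + (u', 0) := by simp
      rw [e1]
      simp only [map_add, _root_.add_apply, Finsupp.add_apply])
    (fun c u v => by
      rw [Finset.smul_sum]
      refine Finset.sum_congr rfl fun k _ => ?_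
      have e1 : ((c • u, 0) : E₁ × E₂) = c • (u, 0) := by simp
      rw [e1]
      simp only [map_smul, _root_.smul_apply, Finsupp.smul_apply])
    (fun u v v' => by
      rw [← Finset.sum_add_distrib]
      refine Finset.sum_congr rfl fun k _ => ?_
      simp only [map_add, Finsupp.add_apply])
    (fun c u v => by
      rw [Finset.smul_sum]
      refine Finset.sum_congr rfl fun k _ => ?_
      simp only [map_smul, Finsupp.smul_apply])

theorem tG_apply (u v : E₁) : tG Γ q u v = ∑ k, (finBasis ℝ E₂).repr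
    (fderiv ℝ (fderiv ℝ Γ) q (u, 0) (0, finBasis ℝ E₂ k) v) k := rfl

end OneillNFAux

open OneillNFAux
open Pool.Agent.Lib.MP_df705a_gt.Twist.Alg (slice1_contDiffAt)

variable {E₁ : Type*} [NormedAddCommGroup E₁] [NormedSpace ℝ E₁] [FiniteDimensional ℝ E₁]
  {E₂ : Type*} [NormedAddCommGroup E₂] [NormedSpace ℝ E₂] [FiniteDimensional ℝ E₂]
  {h : Curv.Coeff E₁} {f : E₁ × E₂ → Matrix (Fin (finrank ℝ E₂)) (Fin (finrank ℝ E₂)) ℝ}
  {Γ : E₁ × E₂ → E₁ →L[ℝ] E₂} {q : E₁ × E₂}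

/-- The formula of O'Neill at a point where the connection is in normal form. -/
theorem oneill_nf (hD : Dat h f Γ (fun _ => 0) (fun _ => 0) q) (hN : NF Γ q)
    {ι : Type} [Fintype ι] {F : ι → E₁ → ℝ} (hF : ∀ i, ContDiffAt ℝ ∞ (F i) q.1)
    (hsq : ∀ W : E₁ → ℝ, ContDiffAt ℝ ∞ W q.1 →
      ∑ i, gradC h W (F i) q.1 ^ 2 = gradC h W W q.1)
    (htr : ∀ W : E₁ → ℝ, ContDiffAt ℝ ∞ W q.1 →
      ∑ i, gradC h (gradC h W (F i)) (F i) q.1 = lapC h W q.1)
    {v : ι → E₁} (hv : ∀ i, v i = gradM (finBasis ℝ E₁) (h q.1) (fderiv ℝ (F i) q.1))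
    {N : ι → E₁ × E₂ → ℝ} (hNN : ∀ i, N i =ᶠ[𝓝 q] fun p =>
      expn f Γ p (gradM (finBasis ℝ E₁) (h p.1) (fderiv ℝ (F i) p.1))) :
    Curv.scal (conn₀ h f Γ) q ≤ Curv.scal h q.1 + Curv.scal (fun y => f (q.1, y)) q.2 -
      ∑ i, ((1 / 4) * ipM (f q) (fun a b => fderiv ℝ (fun p => f p a b) q (v i, 0))
          (fun a b => fderiv ℝ (fun p => f p a b) q (v i, 0)) +
        (2 * fderiv ℝ (N i) q (v i, 0) + N i q ^ 2)) := by
  have hpos := hD.h_pos.self_of_nhds
  have hdet : (h q.1).det ≠ 0 := hpos.det_pos.ne'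
  have hL : ContDiffAt ℝ ∞ (fun p => Real.log (f p).det) q := Fib.F3.contDiffAt_logdet hD
  have hφ : ContDiffAt ℝ ∞ (fun x => (1 / 2) * Real.log (f (x, q.2)).det) q.1 :=
    contDiffAt_const.mul (slice1_contDiffAt hL)
  have hD0 : Dat h f 0 (fun _ => 0) (fun _ => 0) q :=
    { h_smooth := hD.h_smooth
      f_smooth := hD.f_smooth
      Γ_smooth := contDiffAt_const
      α_smooth := hD.α_smooth
      β_smooth := hD.β_smooth
      h_pos := hD.h_pos
      f_pos := hD.f_pos }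
  have k1 : Curv.scal (conn₀ h f Γ) q ≤ Curv.scal (conn₀ h f 0) q - 2 * trG h Γ q := by
    have e1 := Fib.scal_conn_le hD hN
    simp only [mul_zero, neg_zero, Real.exp_zero, mul_one] at e1
    exact e1
  have k2 := block_scal hD0
  -- the quadratic term
  have k3 : ∑ i, ipM (f q) (fun a b => fderiv ℝ (fun p => f p a b) q (v i, 0))
          (fun a b => fderiv ℝ (fun p => f p a b) q (v i, 0)) =
      ∑ a, ∑ b, (h q.1)⁻¹ a b *
        ipM (f q) (fun i j => fderiv ℝ (fun p => f p i j) q (finBasis ℝ E₁ a, 0))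
          (fun i j => fderiv ℝ (fun p => f p i j) q (finBasis ℝ E₁ b, 0)) := by
    have e1 := trace_bil hpos hsq hv (ipL (f q) fun i j =>
      (((fderiv ℝ (fun p => f p i j) q).comp (ContinuousLinearMap.inl ℝ E₁ E₂) : E₁ →L[ℝ] ℝ) :
        E₁ →ₗ[ℝ] ℝ))
    exact e1
  -- the derivatives of `N i`
  have k4 : ∀ i, N i q = gradC h (fun x => (1 / 2) * Real.log (f (x, q.2)).det) (F i) q.1 := by
    intro i
    rw [(hNN i).self_of_nhds, gradC_eq]
    exact expn_q hD hN _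
  have k5 : ∀ i, fderiv ℝ (N i) q (v i, 0) =
      gradC h (gradC h (fun x => (1 / 2) * Real.log (f (x, q.2)).det) (F i)) (F i) q.1 +
        tG Γ q (v i) (v i) := by
    intro i
    have e1 := dN hD hN (grad2 hD.h_smooth hdet (hF i))
    have e2 := gg (q := q) hD.h_smooth hdet (hF i) hφ rfl
    have e3 : gradM (finBasis ℝ E₁) (h q.1) (fderiv ℝ (F i) q.1) = v i := (hv i).symm
    rw [(hNN i).fderiv_eq]
    simp only [e3] at e1 e2
    rw [e1, e2, half_dd hL, half_d hL, tG_apply]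
    ring
  have k6 : ∑ i, tG Γ q (v i) (v i) = trG h Γ q := by
    rw [trace_bil hpos hsq hv]
    unfold trG
    refine Finset.sum_congr rfl fun a _ => Finset.sum_congr rfl fun b _ => ?_
    rw [Fib.F1.dv_fderiv hD.Γ_smooth, tG_apply]
  have k7 : ∑ i, N i q ^ 2 = gradC h (fun x => (1 / 2) * Real.log (f (x, q.2)).det)
      (fun x => (1 / 2) * Real.log (f (x, q.2)).det) q.1 := by
    rw [← hsq _ hφ]
    exact Finset.sum_congr rfl fun i _ => by rw [k4 i]
  have k8 : ∑ i, fderiv ℝ (N i) q (v i, 0) =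
      lapC h (fun x => (1 / 2) * Real.log (f (x, q.2)).det) q.1 + trG h Γ q := by
    rw [← k6, ← htr _ hφ, ← Finset.sum_add_distrib]
    exact Finset.sum_congr rfl fun i _ => k5 i
  have k9 : ∑ i, ((1 / 4) * ipM (f q) (fun a b => fderiv ℝ (fun p => f p a b) q (v i, 0))
          (fun a b => fderiv ℝ (fun p => f p a b) q (v i, 0)) +
        (2 * fderiv ℝ (N i) q (v i, 0) + N i q ^ 2)) =
      (1 / 4) * ∑ i, ipM (f q) (fun a b => fderiv ℝ (fun p => f p a b) q (v i, 0))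
          (fun a b => fderiv ℝ (fun p => f p a b) q (v i, 0)) +
        (2 * ∑ i, fderiv ℝ (N i) q (v i, 0) + ∑ i, N i q ^ 2) := by
    rw [Finset.mul_sum, Finset.mul_sum, ← Finset.sum_add_distrib, ← Finset.sum_add_distrib]
  rw [k9, k3, k7, k8]
  linarith

end Pool.Agent.Lib.MP_df705a_gt.Coll
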