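import Pool.Agent.Lib.MP_df705a_gt.Coll.X.SqRep

/-!
# Tensors and vector fields in terms of functions
-/

open scoped Manifold ContDiff Topology
open Set Bundle Module Filter MeasureTheory

noncomputable section

namespace Pool.Agent.Lib.MP_df705a_gt.Coll

open Pool.Agent.Lib.MP_df705a_gt.Twist Pool.Agent.Lib.MP_df705a_gt.Perm
open Pool.Agent.Lib.MP_df705a_gt.Circ (Horizontal Submersion cf Para HorConf)
open Pool.Agent.Lib.MP_df705a_gt.Fib (RiemSub Biconformal)

variable {E : Type*} [NormedAddCommGroup E] [NormedSpace ℝ E] [FiniteDimensional ℝ E]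
  {M : Type*} [TopologicalSpace M] [ChartedSpace E M] [IsManifold 𝓘(ℝ, E) ∞ M]

namespace TensorRepAux

section alg

variable {κ : Type} [Fintype κ] [DecidableEq κ] {n : ℕ}

/-- The matrix of the gradients. -/
def qM (H : Matrix (Fin n) (Fin n) ℝ) (P : Matrix κ (Fin n) ℝ) : Matrix κ (Fin n) ℝ :=
  P * H⁻¹.transpose

omit [DecidableEq κ] in
theorem pcq {H : Matrix (Fin n) (Fin n) ℝ} {P : Matrix κ (Fin n) ℝ} {c : Matrix κ κ ℝ}
    (hH : IsUnit H.det) (hs : H.transpose = H) (hc : H = P.transpose * c * P) :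
    P.transpose * c * qM H P = 1 := by
  unfold qM
  rw [← Matrix.mul_assoc, ← hc, Matrix.transpose_nonsing_inv, hs, Matrix.mul_nonsing_inv _ hH]

omit [DecidableEq κ] in
theorem ipM_eq (H A : Matrix (Fin n) (Fin n) ℝ) (P : Matrix κ (Fin n) ℝ) (l q : κ) :
    ∑ i, ∑ j, ∑ a, ∑ b, H⁻¹ i a * H⁻¹ j b * (A i j * (P l a * P q b)) =
      (qM H P * A * (qM H P).transpose) l q := by
  have h1 : ∀ k i, qM H P k i = ∑ a, H⁻¹ i a * P k a := by
    intro k i
    unfold qM
    rw [Matrix.mul_apply]
    exact Finset.sum_congr rfl fun a _ => mul_comm _ _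
  have h2 : (qM H P * A * (qM H P).transpose) l q =
      ∑ i, ∑ j, A i j * (qM H P l i * qM H P q j) := by
    rw [Matrix.mul_apply, Finset.sum_comm]
    refine Finset.sum_congr rfl fun j _ => ?_
    rw [Matrix.mul_apply, Finset.sum_mul]
    refine Finset.sum_congr rfl fun i _ => ?_
    rw [Matrix.transpose_apply]
    ring
  rw [h2]
  refine Finset.sum_congr rfl fun i _ => Finset.sum_congr rfl fun j _ => ?_
  rw [h1, h1, Finset.sum_mul_sum, Finset.mul_sum]
  refine Finset.sum_congr rfl fun a _ => ?_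
  rw [Finset.mul_sum]
  refine Finset.sum_congr rfl fun b _ => ?_
  ring

/-- The symmetric product of two vectors. -/
def dv (x y : Fin n → ℝ) : Matrix (Fin n) (Fin n) ℝ := fun i j => (x i * y j + x j * y i) / 2

omit [DecidableEq κ] in
theorem ipM_dv (H A : Matrix (Fin n) (Fin n) ℝ) (hA : A.transpose = A) (P : Matrix κ (Fin n) ℝ)
    (l q : κ) : ipM H A (dv (P l) (P q)) = (qM H P * A * (qM H P).transpose) l q := by
  have h1 : ipM H A (dv (P l) (P q)) =
      (1 / 2) * (∑ i, ∑ j, ∑ a, ∑ b, H⁻¹ i a * H⁻¹ j b * (A i j * (P l a * P q b))) +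
      (1 / 2) * (∑ i, ∑ j, ∑ a, ∑ b, H⁻¹ i a * H⁻¹ j b * (A i j * (P q a * P l b))) := by
    unfold ipM dv
    simp only [Finset.mul_sum, ← Finset.sum_add_distrib]
    refine Finset.sum_congr rfl fun i _ => Finset.sum_congr rfl fun j _ =>
      Finset.sum_congr rfl fun a _ => Finset.sum_congr rfl fun b _ => ?_
    ring
  rw [h1, ipM_eq, ipM_eq]
  have h2 : (qM H P * A * (qM H P).transpose) q l = (qM H P * A * (qM H P).transpose) l q := by
    have h3 : (qM H P * A * (qM H P).transpose).transpose = qM H P * A * (qM H P).transpose := by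
      rw [Matrix.transpose_mul, Matrix.transpose_mul, Matrix.transpose_transpose, hA,
        Matrix.mul_assoc]
    rw [← Matrix.transpose_apply (qM H P * A * (qM H P).transpose), h3]
  rw [h2]
  ring

omit [DecidableEq κ] in
theorem rep_alg {H A : Matrix (Fin n) (Fin n) ℝ} {P : Matrix κ (Fin n) ℝ} {c : Matrix κ κ ℝ}
    (hH : IsUnit H.det) (hs : H.transpose = H) (hA : A.transpose = A)
    (hc : H = P.transpose * c * P) (i j : Fin n) :
    ∑ k, ∑ p, (c * (qM H P * A * (qM H P).transpose) * c.transpose) k p * dv (P k) (P p) i j =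
      A i j := by
  have key : P.transpose * (c * (qM H P * A * (qM H P).transpose) * c.transpose) * P = A := by
    have h1 := pcq hH hs hc
    have h2 : (qM H P).transpose * c.transpose * P = 1 := by
      have := congrArg Matrix.transpose h1
      rw [Matrix.transpose_mul, Matrix.transpose_mul, Matrix.transpose_transpose,
        Matrix.transpose_one, ← Matrix.mul_assoc] at this
      exact this
    calc P.transpose * (c * (qM H P * A * (qM H P).transpose) * c.transpose) * P
        = (P.transpose * c * qM H P) * A * ((qM H P).transpose * c.transpose * P) := by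
          simp only [Matrix.mul_assoc]
      _ = A := by rw [h1, h2, Matrix.one_mul, Matrix.mul_one]
  set C := c * (qM H P * A * (qM H P).transpose) * c.transpose
  have h3 : ∀ i j, ∑ k, ∑ p, C k p * (P k i * P p j) = A i j := by
    intro i j
    rw [← key, Matrix.mul_apply, Finset.sum_comm]
    refine Finset.sum_congr rfl fun p _ => ?_
    rw [Matrix.mul_apply, Finset.sum_mul]
    refine Finset.sum_congr rfl fun k _ => ?_
    rw [Matrix.transpose_apply]
    ring
  have h4 : ∑ k, ∑ p, C k p * dv (P k) (P p) i j =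
      (1 / 2) * (∑ k, ∑ p, C k p * (P k i * P p j)) +
      (1 / 2) * (∑ k, ∑ p, C k p * (P k j * P p i)) := by
    unfold dv
    simp only [Finset.mul_sum, ← Finset.sum_add_distrib]
    refine Finset.sum_congr rfl fun k _ => Finset.sum_congr rfl fun p _ => ?_
    ring
  rw [h4, h3, h3]
  have h5 : A j i = A i j := by
    rw [← Matrix.transpose_apply A, hA]
  rw [h5]
  ring

end alg

/-- The metric in terms of the data, in the preferred chart. -/
theorem cof_eq (h : Met E M) {κ : Type} [Fintype κ] {f : κ → M → ℝ} {c : κ → κ → M → ℝ}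
    (hf : ∀ k, Sm E (f k))
    (hd : ∀ (x : M) (v w : E), ∑ k, ∑ l, c k l x * (dfun f k x v * dfun f l x w) =
        h.inner x v w) (y : M) :
    cof h y = (Matrix.of fun k i => pdv E (f k) y i : Matrix κ _ ℝ).transpose *
      (Matrix.of fun k l => c k l y) * (Matrix.of fun k i => pdv E (f k) y i) := by
  ext i j
  have hy := mem_extChartAt_target (I := 𝓘(ℝ, E)) y
  have h1 := hd ((extChartAt 𝓘(ℝ, E) y).symm (extChartAt 𝓘(ℝ, E) y y))
    (mfderiv 𝓘(ℝ, E) 𝓘(ℝ, E) (extChartAt 𝓘(ℝ, E) y).symm (extChartAt 𝓘(ℝ, E) y y) (finBasis ℝ E i))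
    (mfderiv 𝓘(ℝ, E) 𝓘(ℝ, E) (extChartAt 𝓘(ℝ, E) y).symm (extChartAt 𝓘(ℝ, E) y y) (finBasis ℝ E j))
  have h2 : ∀ k i, dfun (E := E) f k ((extChartAt 𝓘(ℝ, E) y).symm (extChartAt 𝓘(ℝ, E) y y))
      (mfderiv 𝓘(ℝ, E) 𝓘(ℝ, E) (extChartAt 𝓘(ℝ, E) y).symm (extChartAt 𝓘(ℝ, E) y y)
        (finBasis ℝ E i) : E) = pdv E (f k) y i := by
    intro k i
    exact (Circ.GrdSub.fderiv_rd (hf k) y hy (finBasis ℝ E i)).symm
  have h3 : cof h y i j = h.inner ((extChartAt 𝓘(ℝ, E) y).symm (extChartAt 𝓘(ℝ, E) y y))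
    (mfderiv 𝓘(ℝ, E) 𝓘(ℝ, E) (extChartAt 𝓘(ℝ, E) y).symm (extChartAt 𝓘(ℝ, E) y y) (finBasis ℝ E i))
    (mfderiv 𝓘(ℝ, E) 𝓘(ℝ, E) (extChartAt 𝓘(ℝ, E) y).symm (extChartAt 𝓘(ℝ, E) y y)
      (finBasis ℝ E j)) := rfl
  rw [h3]
  refine h1.symm.trans ?_
  rw [Matrix.mul_apply, Finset.sum_comm]
  refine Finset.sum_congr rfl fun l _ => ?_
  rw [Matrix.mul_apply, Finset.sum_mul]
  refine Finset.sum_congr rfl fun k _ => ?_
  rw [Matrix.transpose_apply, Matrix.of_apply, Matrix.of_apply, Matrix.of_apply]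
  have e1 := h2 k i
  have e2 := h2 l j
  have e3 : c k l ((extChartAt 𝓘(ℝ, E) y).symm (extChartAt 𝓘(ℝ, E) y y)) = c k l y := by
    rw [extChartAt_to_inv]
  rw [e3]
  calc _ = c k l y * (pdv E (f k) y i * pdv E (f l) y j) :=
        congrArg₂ (fun a b => c k l y * (a * b)) e1 e2
    _ = _ := by ring

theorem cof_unit (h : Met E M) (y : M) : IsUnit (cof h y).det := by
  have hy := mem_extChartAt_target (I := 𝓘(ℝ, E)) y
  unfold cof
  rw [Twist.coeff_eq]
  exact (chartMetric_posDef 𝓘(ℝ, E) (finBasis ℝ E) h y hy).det_pos.ne'.isUnit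

theorem cof_symm (h : Met E M) (y : M) : (cof h y).transpose = cof h y := by
  ext i j
  exact h.symm _ _ _

end TensorRepAux

open TensorRepAux in
/-- Every smooth symmetric tensor is a combination of squares of differentials. -/
theorem tensor_rep [CompactSpace M] [T2Space M] (h : Met E M)
    {A : M → Matrix (Fin (finrank ℝ E)) (Fin (finrank ℝ E)) ℝ}
    (hs : ∀ y i j, A y i j = A y j i)
    (hA : ∀ u v : M → ℝ, Sm E u → Sm E v → Sm E fun y => ipM (cof h y) (A y) (dd E u v y)) :
    ∃ (ι : Type) (_ : Fintype ι) (s : ι → ℝ) (w : ι → M → ℝ), (∀ i, Sm E (w i)) ∧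
      ∀ y, A y = ∑ i, s i • dd E (w i) (w i) y := by
  classical
  obtain ⟨κ, hκ, f, c, hf, hc, -, -, hd, -⟩ := exists_data h
  let P : M → Matrix κ (Fin (finrank ℝ E)) ℝ := fun y => Matrix.of fun k i => pdv E (f k) y i
  let cM : M → Matrix κ κ ℝ := fun y => Matrix.of fun k l => c k l y
  have hAt : ∀ y, (A y).transpose = A y := fun y => by
    ext i j
    exact hs y j i
  let C : κ × κ → M → ℝ := fun p y =>
    (cM y * (qM (cof h y) (P y) * A y * (qM (cof h y) (P y)).transpose) * (cM y).transpose)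
      p.1 p.2
  have hT : ∀ y l q, (qM (cof h y) (P y) * A y * (qM (cof h y) (P y)).transpose) l q =
      ipM (cof h y) (A y) (dd E (f l) (f q) y) := fun y l q =>
    (ipM_dv (cof h y) (A y) (hAt y) (P y) l q).symm
  have hCs : ∀ p, Sm E (C p) := by
    rintro ⟨k, p⟩
    have h1 : C (k, p) = fun y => ∑ q, (∑ l, c k l y *
        ipM (cof h y) (A y) (dd E (f l) (f q) y)) * c p q y := by
      funext y
      show (cM y * (qM (cof h y) (P y) * A y * (qM (cof h y) (P y)).transpose) *
        (cM y).transpose) k p = _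
      rw [Matrix.mul_apply]
      refine Finset.sum_congr rfl fun q _ => ?_
      rw [Matrix.mul_apply, Matrix.transpose_apply]
      simp only [hT]
      rfl
    rw [h1]
    exact contMDiff_finsetSum fun q _ => ContMDiff.mul (contMDiff_finsetSum fun l _ =>
      ContMDiff.mul (hc k l) (hA _ _ (hf l) (hf q))) (hc p q)
  obtain ⟨ι, hι, s, w, hw, hrep⟩ := sum_rep (κ := κ × κ) (C := C) (u := fun p => f p.1)
    (v := fun p => f p.2) hCs (fun p => hf p.1) (fun p => hf p.2)
  refine ⟨ι, hι, s, w, hw, fun y => ?_⟩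
  rw [← hrep y]
  ext i j
  rw [Matrix.sum_apply, Fintype.sum_prod_type]
  refine (rep_alg (cof_unit h y) (cof_symm h y) (hAt y) (cof_eq h hf hd y) i j).symm.trans ?_
  rfl

open TensorRepAux in
/-- Every smooth vector field is a combination of gradients. -/
theorem vf_rep [CompactSpace M] [T2Space M] (h : Met E M) {ζ : M → E}
    (hζ : ∀ u : M → ℝ, Sm E u →
      Sm E fun y => fderiv ℝ (rd E y u) (extChartAt 𝓘(ℝ, E) y y) (ζ y)) :
    ∃ (κ : Type) (_ : Fintype κ) (a b : κ → M → ℝ), (∀ j, Sm E (a j)) ∧ (∀ j, Sm E (b j)) ∧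
      ∀ y, ζ y = ∑ j, a j y • gv h (b j) y := by
  classical
  obtain ⟨κ, hκ, f, c, hf, hc, -, -, hd, -⟩ := exists_data h
  refine ⟨κ, hκ, fun l y => ∑ k, c k l y *
    fderiv ℝ (rd E y (f k)) (extChartAt 𝓘(ℝ, E) y y) (ζ y), f, fun l => ?_, hf, fun y => ?_⟩
  · exact contMDiff_finsetSum fun k _ => ContMDiff.mul (hc k l) (hζ (f k) (hf k))
  · let P : Matrix κ (Fin (finrank ℝ E)) ℝ := Matrix.of fun k i => pdv E (f k) y i
    let cM : Matrix κ κ ℝ := Matrix.of fun k l => c k l y
    have h1 : P.transpose * cM * qM (cof h y) P = 1 :=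
      pcq (cof_unit h y) (cof_symm h y) (cof_eq h hf hd y)
    set b := finBasis ℝ E
    have h2 : ∀ k, fderiv ℝ (rd E y (f k)) (extChartAt 𝓘(ℝ, E) y y) (ζ y) =
        ∑ m, b.repr (ζ y) m * P k m := by
      intro k
      conv_lhs => rw [← b.sum_repr (ζ y)]
      rw [map_sum]
      refine Finset.sum_congr rfl fun m _ => ?_
      rw [map_smul, smul_eq_mul]
      rfl
    have h3 : ∀ l, gv h (f l) y = ∑ i, qM (cof h y) P l i • b i := by
      intro l
      unfold gv gradM
      refine Finset.sum_congr rfl fun i _ => ?_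
      congr 1
      unfold qM
      rw [Matrix.mul_apply]
      exact Finset.sum_congr rfl fun a _ => mul_comm _ _
    apply b.repr.injective
    ext i
    rw [map_sum, Finsupp.finsetSum_apply]
    have h4 : ∀ l, b.repr ((∑ k, c k l y *
        fderiv ℝ (rd E y (f k)) (extChartAt 𝓘(ℝ, E) y y) (ζ y)) • gv h (f l) y) i =
        (∑ k, c k l y * ∑ m, b.repr (ζ y) m * P k m) * qM (cof h y) P l i := by
      intro l
      rw [map_smul, Finsupp.smul_apply, smul_eq_mul, h3, map_sum, Finsupp.finsetSum_apply]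
      simp only [h2]
      congr 1
      rw [Finset.sum_eq_single i]
      · rw [map_smul, Finsupp.smul_apply, Basis.repr_self, Finsupp.single_eq_same, smul_eq_mul,
          mul_one]
      · intro j _ hj
        rw [map_smul, Finsupp.smul_apply, Basis.repr_self, Finsupp.single_eq_of_ne hj.symm,
          smul_zero]
      · intro hi
        exact absurd (Finset.mem_univ i) hi
    simp only [h4]
    have h5 : ∑ l, (∑ k, c k l y * ∑ m, b.repr (ζ y) m * P k m) * qM (cof h y) P l i =
        ∑ m, b.repr (ζ y) m * (P.transpose * cM * qM (cof h y) P) m i := by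
      simp only [Matrix.mul_apply, Matrix.transpose_apply, Finset.mul_sum, Finset.sum_mul]
      have e1 : ∀ l, ∑ k, ∑ m, c k l y * (b.repr (ζ y) m * P k m) * qM (cof h y) P l i =
          ∑ m, ∑ k, c k l y * (b.repr (ζ y) m * P k m) * qM (cof h y) P l i := fun l =>
        Finset.sum_comm
      rw [Finset.sum_congr rfl fun l _ => e1 l, Finset.sum_comm]
      refine Finset.sum_congr rfl fun m _ => Finset.sum_congr rfl fun l _ =>
        Finset.sum_congr rfl fun k _ => ?_
      have e2 : cM k l = c k l y := rfl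
      rw [e2]
      ring
    rw [h5, h1, Finset.sum_eq_single i]
    · rw [Matrix.one_apply_eq, mul_one]
    · intro j _ hj
      rw [Matrix.one_apply_ne hj, mul_zero]
    · intro hi
      exact absurd (Finset.mem_univ i) hi

end Pool.Agent.Lib.MP_df705a_gt.Coll
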