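import Pool.Agent.Lib.MP_df705a_gt.Coll.IT
import Pool.Agent.Lib.MP_df705a_gt.Coll.X.TensorRep
import Pool.Agent.Lib.MP_df705a_gt.Coll.X.LieGrad
import Pool.Agent.Lib.MP_df705a_gt.Coll.X.Family
import Pool.Agent.Lib.MP_df705a_gt.Coll.X.EinFib
import Pool.Agent.Lib.MP_df705a_gt.Coll.X.FamGrd

/-!
# The Lie derivative of the metrics of Einstein fibres
-/

open scoped Manifold ContDiff Topology
open Set Bundle Module Filter MeasureTheory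

noncomputable section

namespace Pool.Agent.Lib.MP_df705a_gt.Coll

open Pool.Agent.Lib.MP_df705a_gt.Twist Pool.Agent.Lib.MP_df705a_gt.Perm
open Pool.Agent.Lib.MP_df705a_gt.Circ (Horizontal Submersion cf Para HorConf)
open Pool.Agent.Lib.MP_df705a_gt.Fib (RiemSub Biconformal)

variable {E₁ : Type*} [NormedAddCommGroup E₁] [NormedSpace ℝ E₁] [FiniteDimensional ℝ E₁]
  {B : Type*} [TopologicalSpace B] [ChartedSpace E₁ B] [IsManifold 𝓘(ℝ, E₁) ∞ B]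
  {E₂ : Type*} [NormedAddCommGroup E₂] [NormedSpace ℝ E₂] [FiniteDimensional ℝ E₂]
  {F : Type*} [TopologicalSpace F] [ChartedSpace E₂ F] [IsManifold 𝓘(ℝ, E₂) ∞ F]
  {E : Type*} [NormedAddCommGroup E] [NormedSpace ℝ E] [FiniteDimensional ℝ E]
  {M : Type*} [TopologicalSpace M] [ChartedSpace E M] [IsManifold 𝓘(ℝ, E) ∞ M]

namespace RepLDAux

set_option linter.unusedSectionVars false

/-- Change of parametrization. -/
theorem gam_rel (g : Met E M) {σ σ' : E₁ × E₂ → M} {T : E₁ × E₂ → E₁ × E₂} {q : E₁ × E₂}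
    (hσ : Para E σ q) (hσ' : Para E σ' (T q)) (he : σ =ᶠ[𝓝 q] σ' ∘ T)
    (hT : DifferentiableAt ℝ T q) (h1 : ∀ v, (fderiv ℝ T q v).1 = v.1) (u : E₁) :
    fderiv ℝ T q (u, Fib.gam g σ q u) = (u, Fib.gam g σ' (T q) u) := by
  have hm : MDifferentiableAt 𝓘(ℝ, E₁ × E₂) 𝓘(ℝ, E₁ × E₂) T q := hT.mdifferentiableAt
  have h3 : ∀ v : E₁ × E₂, (mfderiv 𝓘(ℝ, E₁ × E₂) 𝓘(ℝ, E) σ q : E₁ × E₂ →L[ℝ] E) v =
      (mfderiv 𝓘(ℝ, E₁ × E₂) 𝓘(ℝ, E) σ' (T q) : E₁ × E₂ →L[ℝ] E) (fderiv ℝ T q v) := by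
    intro v
    have h4 := mfderiv_comp (I := 𝓘(ℝ, E₁ × E₂)) (I' := 𝓘(ℝ, E₁ × E₂)) (I'' := 𝓘(ℝ, E)) q
      (hσ'.smooth.mdifferentiableAt (by simp)) hm
    rw [he.mfderiv_eq, h4, mfderiv_eq_fderiv]
    rfl
  have hsq : σ q = σ' (T q) := he.self_of_nhds
  have h4 : ∀ v w : E₁ × E₂,
      Fib.gσ g σ q v w = Fib.gσ g σ' (T q) (fderiv ℝ T q v) (fderiv ℝ T q w) := by
    intro v w
    rw [Fib.gσ_apply, Fib.gσ_apply]
    have e3 : ∀ x' : M, x' = σ' (T q) → ∀ v' w' v w : E, v' = v → w' = w →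
        g.inner x' v' w' = g.inner (σ' (T q)) v w := by
      rintro _ rfl _ _ _ _ rfl rfl
      rfl
    exact e3 _ hsq _ _ _ _ (h3 v) (h3 w)
  have hb : Function.Surjective (fderiv ℝ T q) := by
    intro w
    obtain ⟨v, hv⟩ := hσ.bij.2
      ((mfderiv 𝓘(ℝ, E₁ × E₂) 𝓘(ℝ, E) σ' (T q) : E₁ × E₂ →L[ℝ] E) w : E)
    refine ⟨v, hσ'.bij.1 ?_⟩
    exact (h3 v).symm.trans hv
  have h5 : ∀ w : E₂, Fib.gσ g σ' (T q) (fderiv ℝ T q (u, Fib.gam g σ q u)) (0, w) = 0 := by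
    intro w
    obtain ⟨w', hw'⟩ := hb ((0 : E₁), w)
    have h6 : w'.1 = 0 := by
      have := h1 w'
      rw [hw'] at this
      exact this.symm
    have h7 : w' = (0, w'.2) := Prod.ext h6 rfl
    rw [← hw', ← h4, h7]
    exact Fib.G6.horth g hσ u w'.2
  have h6 := Fib.G6.horth g hσ' u
  set v := fderiv ℝ T q (u, Fib.gam g σ q u) with hv
  have hv1 : v.1 = u := h1 _
  have h7 : v - (u, Fib.gam g σ' (T q) u) = (0, v.2 - Fib.gam g σ' (T q) u) := by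
    refine Prod.ext ?_ ?_
    · simp [hv1]
    · simp
  by_contra hne
  have h8 : v - (u, Fib.gam g σ' (T q) u) ≠ 0 := sub_ne_zero.2 hne
  have h9 := Fib.G6.gσ_pos g hσ' h8
  have h10 : Fib.gσ g σ' (T q) (v - (u, Fib.gam g σ' (T q) u))
      (v - (u, Fib.gam g σ' (T q) u)) = 0 := by
    have h11 : ∀ w : E₂, Fib.gσ g σ' (T q) (v - (u, Fib.gam g σ' (T q) u)) (0, w) = 0 := by
      intro w
      rw [map_sub, sub_apply, h5, h6, sub_zero]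
    exact (congrArg (fun x => Fib.gσ g σ' (T q) (v - (u, Fib.gam g σ' (T q) u)) x) h7).trans
      (h11 _)
  exact h9.ne' h10

/-- The connection is smooth. -/
theorem gam_smooth' (g : Met E M) {σ : E₁ × E₂ → M} {q : E₁ × E₂}
    (hp : ∀ᶠ y in 𝓝 q, Para E σ y) : ContDiffAt ℝ ∞ (Fib.gam g σ) q := by
  have hf : ∀ i j, ContDiffAt ℝ ∞ (fun y => Fib.fm g σ y i j) q := fun i j =>
    Fib.G2.gσ_smooth g hp _ _
  apply Fib.G2.clm_smooth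
  intro u
  have h2 : (fun y => Fib.gam g σ y u) = fun y => ∑ i, (∑ j, -(Fib.fm g σ y)⁻¹ i j *
      Fib.gσ g σ y (0, finBasis ℝ E₂ j) (u, 0)) • finBasis ℝ E₂ i := by
    funext y
    unfold Fib.gam
    rw [sum_apply]
    refine Finset.sum_congr rfl fun i _ => ?_
    rw [ContinuousLinearMap.smulRight_apply, sum_apply]
    congr 1
  rw [h2]
  refine ContDiffAt.sum fun i _ => ?_
  refine ContDiffAt.smul (ContDiffAt.sum fun j _ => ?_) contDiffAt_const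
  refine ContDiffAt.mul ?_ (Fib.G2.gσ_smooth g hp _ _)
  exact (contDiffAt_inv hf (Fib.G2.fm_pos g hp.self_of_nhds).det_pos.ne' i j).neg

/-- The relation of `psi` in different charts of the fibre. -/
theorem psi_rel (Φ : B × F → M) (x : B) (y : F) {z : E₂} (hz : z ∈ (extChartAt 𝓘(ℝ, E₂) y).target)
    (p : E₁) : psi E₁ E₂ Φ x y =ᶠ[𝓝 (p, z)]
      psi E₁ E₂ Φ x ((extChartAt 𝓘(ℝ, E₂) y).symm z) ∘
        Prod.map id (trans 𝓘(ℝ, E₂) ((extChartAt 𝓘(ℝ, E₂) y).symm z) y) := by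
  have hd := g3_mem_dom (I := 𝓘(ℝ, E₂)) hz
  have h1 : ∀ᶠ w in 𝓝 z, w ∈ dom 𝓘(ℝ, E₂) ((extChartAt 𝓘(ℝ, E₂) y).symm z) y :=
    (dom_open 𝓘(ℝ, E₂) _ _).mem_nhds hd
  have h2 : ∀ᶠ q in 𝓝 (p, z), q.2 ∈ dom 𝓘(ℝ, E₂) ((extChartAt 𝓘(ℝ, E₂) y).symm z) y :=
    continuous_snd.continuousAt.eventually h1
  filter_upwards [h2] with q hq
  have h3 := symm_trans 𝓘(ℝ, E₂) hq
  show Φ _ = Φ _
  simp only [Prod.map_fst, Prod.map_snd, id_eq]
  rw [h3]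

/-- `psi` is a parametrization near the base point. -/
theorem para_near {pr : M → B} {U : Set B} {Φ : B × F → M} (hΦ : Triv E E₁ E₂ pr U Φ) {x : B}
    (hx : x ∈ U) (y : F) : ∀ᶠ z in 𝓝 (extChartAt 𝓘(ℝ, E₂) y y),
      ∀ᶠ q in 𝓝 ((extChartAt 𝓘(ℝ, E₁) x x, z) : E₁ × E₂), Para E (psi E₁ E₂ Φ x y) q := by
  have h1 := (ac_psi hΦ hx y).para.eventually_nhds
  have h2 : ContinuousAt (fun z : E₂ => ((extChartAt 𝓘(ℝ, E₁) x x, z) : E₁ × E₂))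
      (extChartAt 𝓘(ℝ, E₂) y y) := continuousAt_const.prodMk continuousAt_id
  exact h2.eventually h1

theorem fderiv_prodMap {τ : E₂ → E₂} {p : E₁} {z : E₂} (hτ : DifferentiableAt ℝ τ z)
    (v : E₁ × E₂) : DifferentiableAt ℝ (Prod.map id τ : E₁ × E₂ → E₁ × E₂) (p, z) ∧
      fderiv ℝ (Prod.map id τ : E₁ × E₂ → E₁ × E₂) (p, z) v = (v.1, fderiv ℝ τ z v.2) := by
  have h := (hasFDerivAt_id (𝕜 := ℝ) p).prodMap (p, z) (f₂ := τ) (f₂' := fderiv ℝ τ z)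
    hτ.hasFDerivAt
  exact ⟨h.differentiableAt, by rw [h.fderiv]; rfl⟩

/-- The vertical parts of the horizontal lifts in different charts. -/
theorem gam_tau {pr : M → B} {U : Set B} {Φ : B × F → M} (hΦ : Triv E E₁ E₂ pr U Φ) {x : B}
    (hx : x ∈ U) (g : Met E M) (v : E₁) (y : F) {z : E₂}
    (hz : z ∈ (extChartAt 𝓘(ℝ, E₂) y).target)
    (hp : Para E (psi E₁ E₂ Φ x y) (extChartAt 𝓘(ℝ, E₁) x x, z)) :
    fderiv ℝ (trans 𝓘(ℝ, E₂) ((extChartAt 𝓘(ℝ, E₂) y).symm z) y) z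
        (Fib.gam g (psi E₁ E₂ Φ x y) (extChartAt 𝓘(ℝ, E₁) x x, z) v) =
      Fib.gam g (psi E₁ E₂ Φ x ((extChartAt 𝓘(ℝ, E₂) y).symm z))
          (pt E₁ E₂ x ((extChartAt 𝓘(ℝ, E₂) y).symm z) x ((extChartAt 𝓘(ℝ, E₂) y).symm z)) v := by
  have hd := g3_mem_dom (I := 𝓘(ℝ, E₂)) hz
  have hτ : DifferentiableAt ℝ (trans 𝓘(ℝ, E₂) ((extChartAt 𝓘(ℝ, E₂) y).symm z) y) z :=
    (g3_trans_smooth hd).differentiableAt (by simp)
  have hq : Prod.map id (trans 𝓘(ℝ, E₂) ((extChartAt 𝓘(ℝ, E₂) y).symm z) y)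
      ((extChartAt 𝓘(ℝ, E₁) x x, z) : E₁ × E₂) =
      pt E₁ E₂ x ((extChartAt 𝓘(ℝ, E₂) y).symm z) x ((extChartAt 𝓘(ℝ, E₂) y).symm z) := rfl
  have hp' : Para E (psi E₁ E₂ Φ x ((extChartAt 𝓘(ℝ, E₂) y).symm z))
      (Prod.map id (trans 𝓘(ℝ, E₂) ((extChartAt 𝓘(ℝ, E₂) y).symm z) y)
        ((extChartAt 𝓘(ℝ, E₁) x x, z) : E₁ × E₂)) := by
    rw [hq]
    exact (ac_psi hΦ hx _).para.self_of_nhds
  have h1 := gam_rel g hp hp' (psi_rel Φ x y hz _) (fderiv_prodMap hτ 0).1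
    (fun w => by rw [(fderiv_prodMap hτ w).2]) v
  rw [(fderiv_prodMap hτ _).2] at h1
  exact congrArg Prod.snd h1

/-- Smoothness from the charts. -/
theorem sm_of_chart {Q : F → ℝ} (h : ∀ y : F, ∃ C : E₂ → ℝ,
    ContDiffAt ℝ ∞ C (extChartAt 𝓘(ℝ, E₂) y y) ∧
      ∀ᶠ z in 𝓝 (extChartAt 𝓘(ℝ, E₂) y y), C z = Q ((extChartAt 𝓘(ℝ, E₂) y).symm z)) :
    Sm E₂ Q := by
  intro p
  obtain ⟨C, hC, hQ⟩ := h p
  have h1 : ContMDiffAt 𝓘(ℝ, E₂) 𝓘(ℝ, ℝ) ∞ (fun x => C (extChartAt 𝓘(ℝ, E₂) p x)) p :=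
    ContMDiffAt.comp (g := C) (f := fun x => extChartAt 𝓘(ℝ, E₂) p x) p
      hC.contMDiffAt (contMDiffAt_extChartAt (x := p))
  refine h1.congr_of_eventuallyEq ?_
  filter_upwards [extChartAt_source_mem_nhds (I := 𝓘(ℝ, E₂)) p,
    (continuousAt_extChartAt (I := 𝓘(ℝ, E₂)) p).eventually hQ] with x hx hx2
  rw [hx2, (extChartAt 𝓘(ℝ, E₂) p).left_inv hx]

/-- The differentials of the smooth functions separate the vectors. -/
theorem sep [CompactSpace F] [T2Space F] (h : Met E₂ F) (y : F) {z : E₂}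
    (hz : z ∈ (extChartAt 𝓘(ℝ, E₂) y).target) {v : E₂}
    (hv : ∀ u : F → ℝ, Sm E₂ u → fderiv ℝ (rd E₂ y u) z v = 0) : v = 0 := by
  obtain ⟨κ, hκ, f, c, hf, -, -, -, hd, -⟩ := exists_data h
  have h1 := hd ((extChartAt 𝓘(ℝ, E₂) y).symm z)
    (mfderiv 𝓘(ℝ, E₂) 𝓘(ℝ, E₂) (extChartAt 𝓘(ℝ, E₂) y).symm z v)
    (mfderiv 𝓘(ℝ, E₂) 𝓘(ℝ, E₂) (extChartAt 𝓘(ℝ, E₂) y).symm z v)
  have h2 : ∀ k, dfun (E := E₂) f k ((extChartAt 𝓘(ℝ, E₂) y).symm z)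
      (mfderiv 𝓘(ℝ, E₂) 𝓘(ℝ, E₂) (extChartAt 𝓘(ℝ, E₂) y).symm z v : E₂) = 0 := by
    intro k
    exact (Circ.GrdSub.fderiv_rd (hf k) y hz v).symm.trans (hv (f k) (hf k))
  have h3 : h.inner ((extChartAt 𝓘(ℝ, E₂) y).symm z)
    (mfderiv 𝓘(ℝ, E₂) 𝓘(ℝ, E₂) (extChartAt 𝓘(ℝ, E₂) y).symm z v)
    (mfderiv 𝓘(ℝ, E₂) 𝓘(ℝ, E₂) (extChartAt 𝓘(ℝ, E₂) y).symm z v) = 0 := by
    refine h1.symm.trans ?_
    refine Finset.sum_eq_zero fun k _ => Finset.sum_eq_zero fun l _ => ?_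
    have h4 := h2 k
    exact (congrArg (fun a => c k l ((extChartAt 𝓘(ℝ, E₂) y).symm z) *
      (a * dfun (E := E₂) f l ((extChartAt 𝓘(ℝ, E₂) y).symm z)
      (mfderiv 𝓘(ℝ, E₂) 𝓘(ℝ, E₂) (extChartAt 𝓘(ℝ, E₂) y).symm z v : E₂))) h4).trans (by ring)
  have h4 : mfderiv 𝓘(ℝ, E₂) 𝓘(ℝ, E₂) (extChartAt 𝓘(ℝ, E₂) y).symm z v = 0 := by
    by_contra hne
    exact (h.pos _ _ hne).ne' h3
  exact symm_injective 𝓘(ℝ, E₂) y hz (h4.trans
    (map_zero (mfderiv 𝓘(ℝ, E₂) 𝓘(ℝ, E₂) (extChartAt 𝓘(ℝ, E₂) y).symm z)).symm)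

end RepLDAux

open RepLDAux in
/-- The vertical parts of the horizontal lifts in different charts. -/
theorem RepLDAux.gam_change' {pr : M → B} {U : Set B} {Φ : B × F → M}
    (hΦ : Triv E E₁ E₂ pr U Φ) {x : B}
    (hx : x ∈ U) (g : Met E M) (v : E₁) (y : F) :
    ∀ᶠ z in 𝓝 (extChartAt 𝓘(ℝ, E₂) y y),
      ∀ u : F → ℝ, Sm E₂ u → fderiv ℝ (rd E₂ y u) z
        (Fib.gam g (psi E₁ E₂ Φ x y) (extChartAt 𝓘(ℝ, E₁) x x, z) v) =
      fderiv ℝ (rd E₂ ((extChartAt 𝓘(ℝ, E₂) y).symm z) u)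
        (extChartAt 𝓘(ℝ, E₂) ((extChartAt 𝓘(ℝ, E₂) y).symm z) ((extChartAt 𝓘(ℝ, E₂) y).symm z))
        (Fib.gam g (psi E₁ E₂ Φ x ((extChartAt 𝓘(ℝ, E₂) y).symm z))
          (pt E₁ E₂ x ((extChartAt 𝓘(ℝ, E₂) y).symm z) x ((extChartAt 𝓘(ℝ, E₂) y).symm z)) v) := by
  filter_upwards [para_near hΦ hx y,
    (isOpen_extChartAt_target (I := 𝓘(ℝ, E₂)) y).mem_nhds (mem_extChartAt_target y)] with z hz hzt
  intro u hu
  have hd := g3_mem_dom (I := 𝓘(ℝ, E₂)) hzt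
  have hτ : DifferentiableAt ℝ (trans 𝓘(ℝ, E₂) ((extChartAt 𝓘(ℝ, E₂) y).symm z) y) z :=
    (g3_trans_smooth hd).differentiableAt (by simp)
  have h1 := g3_rd_trans u hd
  have h2 : DifferentiableAt ℝ (rd E₂ ((extChartAt 𝓘(ℝ, E₂) y).symm z) u)
      (trans 𝓘(ℝ, E₂) ((extChartAt 𝓘(ℝ, E₂) y).symm z) y z) :=
    (g3_rd_smooth hu _ (trans_mem_target 𝓘(ℝ, E₂) hd)).differentiableAt (by simp)
  have h3 := (h2.hasFDerivAt.comp z hτ.hasFDerivAt).fderiv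
  rw [h1.fderiv_eq, h3, ContinuousLinearMap.comp_apply, gam_tau hΦ hx g v y hzt hz.self_of_nhds]
  rfl

open RepLDAux in
/-- Smoothness of the vertical part of the horizontal lift. -/
theorem gam_smooth {pr : M → B} {U : Set B} {Φ : B × F → M} (hΦ : Triv E E₁ E₂ pr U Φ) {x : B}
    (hx : x ∈ U) (g : Met E M) (v : E₁) (u : F → ℝ) (hu : Sm E₂ u) :
    Sm E₂ fun y => fderiv ℝ (rd E₂ y u) (extChartAt 𝓘(ℝ, E₂) y y)
      (Fib.gam g (psi E₁ E₂ Φ x y) (pt E₁ E₂ x y x y) v) := by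
  refine sm_of_chart fun y => ⟨fun z => fderiv ℝ (rd E₂ y u) z
        (Fib.gam g (psi E₁ E₂ Φ x y) (extChartAt 𝓘(ℝ, E₁) x x, z) v), ?_, ?_⟩
  · have h1 : ContDiffAt ℝ ∞ (fderiv ℝ (rd E₂ y u)) (extChartAt 𝓘(ℝ, E₂) y y) :=
      (g3_rd_smooth hu y (mem_extChartAt_target y)).fderiv_right (m := ∞) (by simp)
    have h2 := gam_smooth' g (para_near hΦ hx y).self_of_nhds
    have h3 : ContDiffAt ℝ ∞ (fun z : E₂ => Fib.gam g (psi E₁ E₂ Φ x y)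
        (extChartAt 𝓘(ℝ, E₁) x x, z)) (extChartAt 𝓘(ℝ, E₂) y y) :=
      h2.comp (extChartAt 𝓘(ℝ, E₂) y y) (contDiffAt_const.prodMk contDiffAt_id)
    exact h1.clm_apply (h3.clm_apply contDiffAt_const)
  · filter_upwards [gam_change' hΦ hx g v y] with z hz
    exact hz u hu

open RepLDAux in
/-- The vertical parts of the horizontal lifts in different charts. -/
theorem gam_change {pr : M → B} {U : Set B} {Φ : B × F → M} (hΦ : Triv E E₁ E₂ pr U Φ) {x : B}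
    (hx : x ∈ U) (g : Met E M) (v : E₁) (y : F) :
    ∀ᶠ z in 𝓝 (extChartAt 𝓘(ℝ, E₂) y y),
      ∀ u : F → ℝ, Sm E₂ u → fderiv ℝ (rd E₂ y u) z
        (Fib.gam g (psi E₁ E₂ Φ x y) (extChartAt 𝓘(ℝ, E₁) x x, z) v) =
      fderiv ℝ (rd E₂ ((extChartAt 𝓘(ℝ, E₂) y).symm z) u)
        (extChartAt 𝓘(ℝ, E₂) ((extChartAt 𝓘(ℝ, E₂) y).symm z) ((extChartAt 𝓘(ℝ, E₂) y).symm z))
        (Fib.gam g (psi E₁ E₂ Φ x ((extChartAt 𝓘(ℝ, E₂) y).symm z))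
          (pt E₁ E₂ x ((extChartAt 𝓘(ℝ, E₂) y).symm z) x ((extChartAt 𝓘(ℝ, E₂) y).symm z)) v) :=
  gam_change' hΦ hx g v y

open RepLDAux in
/-- The Lie derivative of the metrics of Einstein fibres. -/
theorem rep_LD [CompactSpace F] [T2Space F] {pr : M → B} {g : Met E M}
    (hE : EinsteinFibres E₂ g pr)
    {U : Set B} {Φ : B × F → M} (hΦ : Triv E E₁ E₂ pr U Φ) {x : B} (hx : x ∈ U)
    {h : Met E₂ F} (hh : IsFib g Φ x h) (v : E₁) :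
    ∃ (ι κ : Type) (_ : Fintype ι) (_ : Fintype κ) (s : ι → ℝ) (w : ι → F → ℝ) (a b : κ → F → ℝ)
      (c : ℝ), (∀ i, Sm E₂ (w i)) ∧ (∀ j, Sm E₂ (a j)) ∧ (∀ j, Sm E₂ (b j)) ∧
      (∀ y, LD (Fib.fm g (psi E₁ E₂ Φ x y)) (Fib.gam g (psi E₁ E₂ Φ x y)) (pt E₁ E₂ x y x y) v =
        ∑ i, s i • dd E₂ (w i) (w i) y +
          ∑ j, ((2 * a j y) • hs h (b j) y + (2 : ℝ) • dd E₂ (a j) (b j) y)) ∧
      ∀ y, ∑ i, s i * DS h (w i) y = c := by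
  obtain ⟨h', h0, hfib, hsm, hder⟩ := exists_family hΦ hx hh v
  subst h0
  -- the derivative of the metrics
  obtain ⟨ι, hι, s, w, hw, hA⟩ := tensor_rep (h' 0)
    (A := fun y i j => deriv (fun t => cof (h' t) y i j) 0) (fun y i j => by
      have h1 : (fun t => cof (h' t) y i j) = fun t => cof (h' t) y j i := by
        funext t
        exact (h' t).symm _ _ _
      show deriv (fun t => cof (h' t) y i j) 0 = deriv (fun t => cof (h' t) y j i) 0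
      rw [h1]) (fun u v hu hv => by
      have h1 := fam_grd hsm hu hv
      have h2 : (fun y => ipM (cof (h' 0) y) (fun i j => deriv (fun t => cof (h' t) y i j) 0)
          (dd E₂ u v y)) = fun y => -deriv (fun t => Grd (h' t) u v y) 0 := by
        funext y
        exact h1.2 y
      show Sm E₂ (fun y => ipM (cof (h' 0) y) (fun i j => deriv (fun t => cof (h' t) y i j) 0)
          (dd E₂ u v y))
      rw [h2]
      exact ContMDiff.neg h1.1)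
  -- the vertical part
  obtain ⟨κ, hκ, a, b, ha, hb, hζ⟩ := vf_rep (h' 0)
    (ζ := fun y => Fib.gam g (psi E₁ E₂ Φ x y) (pt E₁ E₂ x y x y) v)
    (fun u hu => gam_smooth hΦ hx g v u hu)
  have hS : ∀ y, HasDerivAt (fun t => Scal (h' t) y) (∑ i, s i * DS (h' 0) (w i) y) 0 := by
    intro y
    refine var_scal hsm hw (fun y i j => ?_) y
    have h1 := congrFun (congrFun (hA y) i) j
    rw [Matrix.sum_apply] at h1
    exact h1
  refine ⟨ι, κ, hι, hκ, s, w, a, b, ?_⟩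
  have hLD : ∀ y, LD (Fib.fm g (psi E₁ E₂ Φ x y)) (Fib.gam g (psi E₁ E₂ Φ x y))
      (pt E₁ E₂ x y x y) v = ∑ i, s i • dd E₂ (w i) (w i) y +
          ∑ j, ((2 * a j y) • hs (h' 0) (b j) y + (2 : ℝ) • dd E₂ (a j) (b j) y) := by
    intro y
    ext i j
    have hyt := mem_extChartAt_target (I := 𝓘(ℝ, E₂)) y
    set f := Fib.fm g (psi E₁ E₂ Φ x y) with hf
    set Γ := Fib.gam g (psi E₁ E₂ Φ x y) with hΓ
    set q : E₁ × E₂ := pt E₁ E₂ x y x y with hq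
    have hq1 : q = (extChartAt 𝓘(ℝ, E₁) x x, extChartAt 𝓘(ℝ, E₂) y y) := rfl
    have hp := (para_near hΦ hx y).self_of_nhds
    have hfs : ∀ i j, DifferentiableAt ℝ (fun p => f p i j) q := fun i j =>
      ContDiffAt.differentiableAt (Fib.G2.gσ_smooth g hp _ _) (by simp)
    have hΓs : ContDiffAt ℝ ∞ Γ q := gam_smooth' g hp
    have hΓd : DifferentiableAt ℝ Γ q := hΓs.differentiableAt (by simp)
    have hfm := fm_psi hΦ hx hh y
    -- the restriction to the fibre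
    have hins : HasFDerivAt (fun z : E₂ => ((extChartAt 𝓘(ℝ, E₁) x x, z) : E₁ × E₂))
        (ContinuousLinearMap.inr ℝ E₁ E₂) (extChartAt 𝓘(ℝ, E₂) y y) :=
      hasFDerivAt_prodMk_right _ _
    have hf2 : ∀ i j w, fderiv ℝ (fun p => f p i j) q (0, w) =
        fderiv ℝ (fun z => coeff (h' 0) y z i j) (extChartAt 𝓘(ℝ, E₂) y y) w := by
      intro i j w
      have h1 := (HasFDerivAt.comp (extChartAt 𝓘(ℝ, E₂) y y) (hfs i j).hasFDerivAt hins)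
      have h2 : (fun z => coeff (h' 0) y z i j) =ᶠ[𝓝 (extChartAt 𝓘(ℝ, E₂) y y)]
          (fun p => f p i j) ∘ fun z => ((extChartAt 𝓘(ℝ, E₁) x x, z) : E₁ × E₂) := by
        filter_upwards [hfm] with z hz
        rw [← hz]
        rfl
      rw [h2.fderiv_eq, h1.fderiv]
      rfl
    have hf3 : f q = coeff (h' 0) y (extChartAt 𝓘(ℝ, E₂) y y) := hfm.self_of_nhds
    have hΓ2 : ∀ w, fderiv ℝ Γ q (0, w) v =
        fderiv ℝ (fun z => Γ (extChartAt 𝓘(ℝ, E₁) x x, z) v) (extChartAt 𝓘(ℝ, E₂) y y) w := by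
      intro w
      have h1 := (HasFDerivAt.comp (extChartAt 𝓘(ℝ, E₂) y y) hΓd.hasFDerivAt hins)
      have h2 := (h1.clm_apply (hasFDerivAt_const v (extChartAt 𝓘(ℝ, E₂) y y))).fderiv
      have h3 : (fun z => Γ (extChartAt 𝓘(ℝ, E₁) x x, z) v) =
        fun z => (Γ ∘ fun z => ((extChartAt 𝓘(ℝ, E₁) x x, z) : E₁ × E₂)) z v := rfl
      rw [h3, h2]
      simp
    -- the vertical part near `y`
    have hζ' : ∀ᶠ z in 𝓝 (extChartAt 𝓘(ℝ, E₂) y y), Γ (extChartAt 𝓘(ℝ, E₁) x x, z) v =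
        ∑ l, rd E₂ y (a l) z • gradM (finBasis ℝ E₂) (coeff (h' 0) y z)
          (fderiv ℝ (rd E₂ y (b l)) z) := by
      filter_upwards [gam_change hΦ hx g v y,
        (isOpen_extChartAt_target (I := 𝓘(ℝ, E₂)) y).mem_nhds hyt] with z hz hzt
      rw [← sub_eq_zero]
      refine sep (h' 0) y hzt fun u hu => ?_
      have h1 : Fib.gam g (psi E₁ E₂ Φ x ((extChartAt 𝓘(ℝ, E₂) y).symm z))
          (pt E₁ E₂ x ((extChartAt 𝓘(ℝ, E₂) y).symm z) x ((extChartAt 𝓘(ℝ, E₂) y).symm z)) v =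
          _ := hζ ((extChartAt 𝓘(ℝ, E₂) y).symm z)
      rw [map_sub, hz u hu, h1, map_sum, map_sum, sub_eq_zero]
      refine Finset.sum_congr rfl fun l _ => ?_
      rw [map_smul, map_smul, ← Circ.GrdSub.gradC_eq, grd_chart (h' 0) hu (hb l) y hzt]
      have h2 : Grd (h' 0) u (b l) ((extChartAt 𝓘(ℝ, E₂) y).symm z) = _ :=
        Circ.GrdSub.gradC_eq (coeff (h' 0) ((extChartAt 𝓘(ℝ, E₂) y).symm z))
          (rd E₂ ((extChartAt 𝓘(ℝ, E₂) y).symm z) u) (rd E₂ ((extChartAt 𝓘(ℝ, E₂) y).symm z) (b l))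
          (extChartAt 𝓘(ℝ, E₂) ((extChartAt 𝓘(ℝ, E₂) y).symm z)
            ((extChartAt 𝓘(ℝ, E₂) y).symm z))
      rw [h2]
      rfl
    have key := lie_grad (h := coeff (h' 0) y) (x := extChartAt 𝓘(ℝ, E₂) y y)
      (a := fun l => rd E₂ y (a l)) (b := fun l => rd E₂ y (b l))
      (ζ := fun z => Γ (extChartAt 𝓘(ℝ, E₁) x x, z) v)
      (fun i j => g3_coeff_smooth (h' 0) y hyt i j)
      (by
        filter_upwards [(isOpen_extChartAt_target (I := 𝓘(ℝ, E₂)) y).mem_nhds hyt] with z hz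
        exact chartMetric_posDef 𝓘(ℝ, E₂) (finBasis ℝ E₂) (h' 0) y hz)
      (fun l => g3_rd_smooth (ha l) y hyt) (fun l => g3_rd_smooth (hb l) y hyt) hζ' i j
    have e1 : fderiv ℝ (fun p => f p i j) q (v, Γ q v) =
        fderiv ℝ (fun p => f p i j) q (v, 0) + fderiv ℝ (fun p => f p i j) q (0, Γ q v) := by
      rw [← map_add]
      congr 1
      simp
    have e2 : fderiv ℝ (fun p => f p i j) q (v, 0) =
        (∑ i, s i • dd E₂ (w i) (w i) y) i j := by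
      rw [← hder y i j, ← hA y]
    unfold LD
    rw [e1, e2, hf2]
    simp only [hΓ2, hf3]
    rw [Matrix.add_apply, add_assoc]
    congr 1
    refine key.trans ?_
    rw [Matrix.sum_apply]
    refine Finset.sum_congr rfl fun l _ => ?_
    have e3 : rd E₂ y (a l) (extChartAt 𝓘(ℝ, E₂) y y) = a l y := by
      unfold rd
      rw [extChartAt_to_inv]
    rw [Matrix.add_apply, Matrix.smul_apply, Matrix.smul_apply, smul_eq_mul, smul_eq_mul]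
    show 2 * rd E₂ y (a l) (extChartAt 𝓘(ℝ, E₂) y y) * _ + _ = _
    rw [e3]
    unfold hs dd pdv
    ring
  rcases isEmpty_or_nonempty F with hF | ⟨⟨y₀⟩⟩
  · exact ⟨0, hw, ha, hb, hLD, fun y => hF.elim y⟩
  · refine ⟨∑ i, s i * DS (h' 0) (w i) y₀, hw, ha, hb, hLD, fun y => ?_⟩
    refine (hS y).unique ((hS y₀).congr_of_eventuallyEq ?_)
    filter_upwards [hfib] with t ht
    obtain ⟨lam, -, -, h1⟩ := einstein_fib hE hΦ ht.1 ht.2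
    rw [h1 y, h1 y₀]

end Pool.Agent.Lib.MP_df705a_gt.Coll
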