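import Pool.Agent.Lib.MP_df705a_gt.Coll.Defs

/-!
# Sums of squares of differentials
-/

open scoped Manifold ContDiff Topology
open Set Bundle Module Filter MeasureTheory

noncomputable section

namespace Pool.Agent.Lib.MP_df705a_gt.Coll

open Pool.Agent.Lib.MP_df705a_gt.Twist Pool.Agent.Lib.MP_df705a_gt.Perm
open Pool.Agent.Lib.MP_df705a_gt.Circ (Horizontal Submersion cf Para HorConf)
open Pool.Agent.Lib.MP_df705a_gt.Fib (RiemSub Biconformal)

variable {E : Type*} [NormedAddCommGroup E] [NormedSpace ℝ E] [FiniteDimensional ℝ E]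
  {M : Type*} [TopologicalSpace M] [ChartedSpace E M] [IsManifold 𝓘(ℝ, E) ∞ M]

namespace SqRepAux

theorem pdv_add {u v : M → ℝ} (hu : Sm E u) (hv : Sm E v) (y : M) (i : Fin (finrank ℝ E)) :
    pdv E (fun x => u x + v x) y i = pdv E u y i + pdv E v y i :=
  G4.pd_add (G4.diff_of (G4.rd_contDiffAt hu y)) (G4.diff_of (G4.rd_contDiffAt hv y)) i

theorem pdv_sub {u v : M → ℝ} (hu : Sm E u) (hv : Sm E v) (y : M) (i : Fin (finrank ℝ E)) :
    pdv E (fun x => u x - v x) y i = pdv E u y i - pdv E v y i :=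
  G4.pd_sub (G4.diff_of (G4.rd_contDiffAt hu y)) (G4.diff_of (G4.rd_contDiffAt hv y)) i

theorem pdv_mul {u v : M → ℝ} (hu : Sm E u) (hv : Sm E v) (y : M) (i : Fin (finrank ℝ E)) :
    pdv E (fun x => u x * v x) y i = u y * pdv E v y i + v y * pdv E u y i := by
  have h := G4.pd_mul (G4.diff_of (G4.rd_contDiffAt hu y)) (G4.diff_of (G4.rd_contDiffAt hv y)) i
  rw [G4.rd_self, G4.rd_self] at h
  exact h

end SqRepAux

open SqRepAux in
theorem dd_mul_rep {C u v : M → ℝ} (hC : Sm E C) (hu : Sm E u) (hv : Sm E v) :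
    ∃ (s : Fin 6 → ℝ) (w : Fin 6 → M → ℝ), (∀ i, Sm E (w i)) ∧
      ∀ y, C y • dd E u v y = ∑ i, s i • dd E (w i) (w i) y := by
  have hCv : Sm E (fun x => C x * v x) := ContMDiff.mul hC hv
  have hCu : Sm E (fun x => C x * u x) := ContMDiff.mul hC hu
  have huv : Sm E (fun x => u x * v x) := ContMDiff.mul hu hv
  refine ⟨![1 / 8, -1 / 8, 1 / 8, -1 / 8, -1 / 8, 1 / 8],
    ![fun x => u x + C x * v x, fun x => u x - C x * v x, fun x => v x + C x * u x,
      fun x => v x - C x * u x, fun x => C x + u x * v x, fun x => C x - u x * v x], ?_, ?_⟩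
  · intro i
    fin_cases i
    · exact ContMDiff.add hu hCv
    · exact ContMDiff.sub hu hCv
    · exact ContMDiff.add hv hCu
    · exact ContMDiff.sub hv hCu
    · exact ContMDiff.add hC huv
    · exact ContMDiff.sub hC huv
  · intro y
    ext i j
    rw [Matrix.smul_apply, Matrix.sum_apply]
    simp only [Fin.sum_univ_six, Matrix.smul_apply, smul_eq_mul, dd, Matrix.cons_val]
    simp only [pdv_add hu hCv, pdv_sub hu hCv, pdv_add hv hCu, pdv_sub hv hCu, pdv_add hC huv,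
      pdv_sub hC huv, pdv_mul hC hv, pdv_mul hC hu, pdv_mul hu hv]
    ring

theorem sum_rep {κ : Type} [Fintype κ] {C u v : κ → M → ℝ} (hC : ∀ k, Sm E (C k))
    (hu : ∀ k, Sm E (u k)) (hv : ∀ k, Sm E (v k)) :
    ∃ (ι : Type) (_ : Fintype ι) (s : ι → ℝ) (w : ι → M → ℝ), (∀ i, Sm E (w i)) ∧
      ∀ y, ∑ k, C k y • dd E (u k) (v k) y = ∑ i, s i • dd E (w i) (w i) y := by
  choose s w hw h using fun k => dd_mul_rep (hC k) (hu k) (hv k)
  refine ⟨κ × Fin 6, inferInstance, fun p => s p.1 p.2, fun p => w p.1 p.2,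
    fun p => hw p.1 p.2, fun y => ?_⟩
  rw [Fintype.sum_prod_type]
  exact Finset.sum_congr rfl fun k _ => h k y

end Pool.Agent.Lib.MP_df705a_gt.Coll
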